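import Pool.Agent.SQA.Base

/-!
# [SQA-A1] connected sets and level functions
-/

namespace Pool.Agent.SQA

open SimpleGraph

variable {V W : Type} {q : ℕ}

theorem a1_walk {G : SimpleGraph V} {K : Set V} (l : V → ℕ)
    (hl : ∀ x ∈ K, ∀ y ∈ K, G.Adj x y → l x ≤ l y + 1) {a b : K} (p : (G.induce K).Walk a b) :
    l a ≤ l b + p.length := by
  induction p with
  | nil => exact Nat.le_add_right _ _
  | @cons u v w h p ih =>
    have h1 := hl u u.2 v v.2 h
    rw [Walk.length_cons]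
    omega

theorem a1_reach {H : SimpleGraph W} {T K : Set W} (hcl : ∀ u ∈ K, ∀ w ∈ T, H.Adj u w → w ∈ K)
    {a b : T} (p : (H.induce T).Walk a b) (ha : (a : W) ∈ K) :
    ∃ hb : (b : W) ∈ K, (H.induce K).Reachable ⟨a, ha⟩ ⟨b, hb⟩ := by
  induction p with
  | nil => exact ⟨ha, Reachable.refl _⟩
  | @cons u v w h p ih =>
    have hv : (v : W) ∈ K := hcl u ha v v.2 h
    obtain ⟨hw, h2⟩ := ih hv
    refine ⟨hw, Reachable.trans (Adj.reachable ?_) h2⟩
    exact h

/-- On a finite connected set a 1-Lipschitz function takes at most `K.ncard` values apart.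
PROOF: take a path from `y` to `x` in `G.induce K` (`Connected.preconnected`, `Walk.toPath`,
`IsPath.length_lt`: length `< card K`); along a walk `l` changes by at most the length
(induction on the walk). -/
theorem conn_level {G : SimpleGraph V} {K : Set V} (hK : K.Finite)
    (hc : (G.induce K).Connected) (l : V → ℕ)
    (hl : ∀ x ∈ K, ∀ y ∈ K, G.Adj x y → l x ≤ l y + 1) {x y : V} (hx : x ∈ K) (hy : y ∈ K) :
    l y + 1 ≤ l x + K.ncard := by
  have := hK.fintype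
  obtain ⟨p, hp⟩ := (hc.preconnected ⟨y, hy⟩ ⟨x, hx⟩).exists_isPath
  have h1 := a1_walk l hl p
  have h2 := hp.length_lt
  have h3 : Fintype.card K = K.ncard := by
    rw [← Nat.card_eq_fintype_card, Nat.card_coe_set_eq]
  have h4 : l y ≤ l x + p.length := h1
  omega

/-- The connected component of `w0` in `H.induce T` as a set of vertices.
PROOF: `K := {w | ∃ h : w ∈ T, (H.induce T).Reachable ⟨w0, h0⟩ ⟨w, h⟩}`; connected: a walk in
`H.induce T` starting in `K` stays in `K`. (Mathlib: `SimpleGraph.ConnectedComponent.supp`,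
`connected_toSimpleGraph`, or `SimpleGraph.Walk.connected_induce_support`.) -/
theorem exists_component (H : SimpleGraph W) (T : Set W) {w0 : W} (h0 : w0 ∈ T) :
    ∃ K ⊆ T, w0 ∈ K ∧ (H.induce K).Connected ∧ ∀ u ∈ K, ∀ w ∈ T, H.Adj w u → w ∈ K := by
  have hcl : ∀ u ∈ {w | ∃ h : w ∈ T, (H.induce T).Reachable ⟨w0, h0⟩ ⟨w, h⟩}, ∀ w ∈ T, H.Adj u w →
      w ∈ {w | ∃ h : w ∈ T, (H.induce T).Reachable ⟨w0, h0⟩ ⟨w, h⟩} := by
    rintro u ⟨hu, hr⟩ w hw hadj
    refine ⟨hw, hr.trans (Adj.reachable ?_)⟩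
    exact hadj
  have hw0 : w0 ∈ {w | ∃ h : w ∈ T, (H.induce T).Reachable ⟨w0, h0⟩ ⟨w, h⟩} := ⟨h0, Reachable.refl _⟩
  refine ⟨{w | ∃ h : w ∈ T, (H.induce T).Reachable ⟨w0, h0⟩ ⟨w, h⟩}, fun w hw => hw.1, hw0, ?_,
    fun u hu w hw hadj => hcl u hu w hw hadj.symm⟩
  rw [connected_iff_exists_forall_reachable]
  refine ⟨⟨w0, hw0⟩, ?_⟩
  rintro ⟨w, hw, ⟨p⟩⟩
  obtain ⟨_, h2⟩ := a1_reach hcl p hw0
  exact h2

/-- The image of a connected set is connected.
PROOF: the map `⟨a, _⟩ ↦ ⟨f a, _⟩` is a surjective homomorphism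
`H.induce K →g G.induce (f '' K)`. -/
theorem connected_image {H : SimpleGraph W} {G : SimpleGraph V} (f : W → V) (K : Set W)
    (hK : (H.induce K).Connected)
    (hf : ∀ a ∈ K, ∀ b ∈ K, H.Adj a b → G.Adj (f a) (f b)) :
    (G.induce (f '' K)).Connected := by
  have hne := hK.nonempty
  rw [connected_iff_exists_forall_reachable] at hK ⊢
  obtain ⟨a0, h0⟩ := hK
  refine ⟨⟨f a0, Set.mem_image_of_mem f a0.2⟩, ?_⟩
  rintro ⟨x, hx⟩
  obtain ⟨a, ha, rfl⟩ := hx
  let φ : H.induce K →g G.induce (f '' K) :=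
    { toFun := fun a => ⟨f a, Set.mem_image_of_mem f a.2⟩
      map_rel' := fun {a b} h => hf a a.2 b b.2 h }
  exact (h0 ⟨a, ha⟩).map φ

end Pool.Agent.SQA
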