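import Pool.Agent.SQA.Base

/-!
# [SQA-A2] consequences of 3-connectivity
-/

namespace Pool.Agent.SQA

open SimpleGraph

variable {V W : Type} {q : ℕ}

theorem a2_pair (x y : V) : ({x, y} : Set V).ncard ≤ 2 := by
  refine (Set.ncard_insert_le x {y}).trans ?_
  rw [Set.ncard_singleton]

theorem a2_first {G : SimpleGraph V} {a b : V} (h : G.Reachable a b) (hab : a ≠ b) : ∃ u, G.Adj a u := by
  obtain ⟨p⟩ := h
  cases p with
  | nil => exact absurd rfl hab
  | cons h p => exact ⟨_, h⟩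

theorem a2_stay {G : SimpleGraph V} {K : Set V} (hcl : ∀ u ∈ K, ∀ w, G.Adj u w → w ∈ K) {a b : V}
    (p : G.Walk a b) (ha : a ∈ K) : b ∈ K := by
  induction p with
  | nil => exact ha
  | @cons u v w h p ih => exact ih (hcl u ha v h)

/-- Every vertex has a neighbour different from two given vertices.
PROOF: `S := {x, y} \ {w}` has `ncard ≤ 2`, `H.induce Sᶜ` is connected and contains `w` and a
further vertex (there are at least four vertices), so `w` has a neighbour in `Sᶜ`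
(`Connected.exists_adj`-style: take a walk from `w` to another vertex of `Sᶜ`, its first
edge). The neighbour is `≠ w`. -/
theorem three_nbr [Finite W] {H : SimpleGraph W} (hH : ThreeConnected H) (w x y : W) :
    ∃ u, H.Adj w u ∧ u ≠ x ∧ u ≠ y := by
  classical
  have hS : (({x, y} : Set W) \ {w}).ncard ≤ 2 :=
    (Set.ncard_le_ncard (fun _ h => h.1) (Set.toFinite _)).trans (a2_pair x y)
  have hc := hH.2 _ hS
  have hw : w ∈ (({x, y} : Set W) \ {w})ᶜ := fun h => h.2 rfl
  obtain ⟨u0, hu0⟩ : ∃ u0, u0 ∉ ({x, y, w} : Set W) := by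
    by_contra hcon
    push Not at hcon
    have h1 : ({x, y, w} : Set W) = Set.univ := Set.eq_univ_of_forall hcon
    have h2 : ({x, y, w} : Set W).ncard ≤ 3 := (Set.ncard_insert_le x {y, w}).trans
      (Nat.succ_le_succ (a2_pair y w))
    rw [h1, Set.ncard_univ] at h2
    have := hH.1
    omega
  have hu0x : u0 ≠ x := fun h => hu0 (by simp [h])
  have hu0y : u0 ≠ y := fun h => hu0 (by simp [h])
  have hu0w : u0 ≠ w := fun h => hu0 (by simp [h])
  have hu0S : u0 ∈ (({x, y} : Set W) \ {w})ᶜ := by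
    rintro ⟨h1, -⟩
    rcases h1 with h1 | h1
    · exact hu0x h1
    · exact hu0y h1
  obtain ⟨⟨u, hu⟩, hadj⟩ := a2_first (hc.preconnected ⟨w, hw⟩ ⟨u0, hu0S⟩)
    (fun h => hu0w (congrArg Subtype.val h).symm)
  have hadj' : H.Adj w u := hadj
  refine ⟨u, hadj', ?_, ?_⟩
  · rintro rfl
    exact hu ⟨Or.inl rfl, fun h => hadj'.ne h.symm⟩
  · rintro rfl
    exact hu ⟨Or.inr rfl, fun h => hadj'.ne h.symm⟩

/-- A nonempty set of vertices with at most two outer neighbours together with its outer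
neighbours is everything.
PROOF: `S := {w | w ∉ K ∧ ∃ u ∈ K, H.Adj w u}`, `H.induce Sᶜ` is connected, contains `K`; if
`w ∈ Sᶜ \ K`, a walk in `H.induce Sᶜ` from `K` to `w` leaves `K` at some edge, whose end is
in `S`: contradiction. -/
theorem three_closed [Finite W] {H : SimpleGraph W} (hH : ThreeConnected H) (K : Set W)
    (hK : K.Nonempty) (h2 : {w | w ∉ K ∧ ∃ u ∈ K, H.Adj w u}.ncard ≤ 2) :
    ∀ w, w ∈ K ∨ ∃ u ∈ K, H.Adj w u := by
  intro w
  by_contra hcon
  push Not at hcon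
  obtain ⟨hw1, hw2⟩ := hcon
  have hc := hH.2 _ h2
  obtain ⟨k0, hk0⟩ := hK
  have hKS : ∀ k ∈ K, k ∈ {w | w ∉ K ∧ ∃ u ∈ K, H.Adj w u}ᶜ := fun k hk h => h.1 hk
  have hwS : w ∈ {w | w ∉ K ∧ ∃ u ∈ K, H.Adj w u}ᶜ := fun h => by
    obtain ⟨-, u, hu, hwu⟩ := h
    exact hw2 u hu hwu
  obtain ⟨p⟩ := hc.preconnected ⟨k0, hKS k0 hk0⟩ ⟨w, hwS⟩
  have h3 := a2_stay (K := {x : ({w | w ∉ K ∧ ∃ u ∈ K, H.Adj w u}ᶜ : Set W) | (x : W) ∈ K}) ?_ p hk0
  · exact hw1 h3
  · intro u hu v huv
    by_contra hv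
    have huv' : H.Adj u v := huv
    exact v.2 ⟨hv, u, hu, huv'.symm⟩

/-- A graph in which all vertices except `z` have at most two neighbours contains no copy of
`H`.
PROOF: for a copy `f` take `w` with `f w ≠ z` (there are four vertices, `f` is injective) and
three neighbours of `w` (`three_nbr` three times); their images are three different elements
of `{y1, y2}`. -/
theorem free_of_low [Finite W] {H : SimpleGraph W} (hH : ThreeConnected H)
    {G : SimpleGraph V} (z : V)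
    (hz : ∀ x, x ≠ z → ∃ y1 y2, ∀ y, G.Adj x y → y = y1 ∨ y = y2) (c : Sym2 V → Fin q) :
    Free H G c := by
  rintro i f ⟨hf, hadj⟩
  have h4 := hH.1
  have hcard : 1 < Nat.card W := by omega
  obtain ⟨w1, w2, hne⟩ := Finite.one_lt_card_iff_nontrivial.1 hcard
  obtain ⟨w, hw⟩ : ∃ w, f w ≠ z := by
    by_cases h1 : f w1 = z
    · exact ⟨w2, fun h2 => hne (hf (h1.trans h2.symm))⟩
    · exact ⟨w1, h1⟩
  obtain ⟨y1, y2, hy⟩ := hz _ hw
  obtain ⟨u1, ha1, -, -⟩ := three_nbr hH w w w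
  obtain ⟨u2, ha2, hu21, -⟩ := three_nbr hH w u1 u1
  obtain ⟨u3, ha3, hu31, hu32⟩ := three_nbr hH w u1 u2
  have e1 := hy _ (hadj _ _ ha1).1
  have e2 := hy _ (hadj _ _ ha2).1
  have e3 := hy _ (hadj _ _ ha3).1
  rcases e1 with e1 | e1 <;> rcases e2 with e2 | e2 <;> rcases e3 with e3 | e3
  · exact hu21 (hf (e2.trans e1.symm))
  · exact hu21 (hf (e2.trans e1.symm))
  · exact hu31 (hf (e3.trans e1.symm))
  · exact hu32 (hf (e3.trans e2.symm))
  · exact hu32 (hf (e3.trans e2.symm))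
  · exact hu31 (hf (e3.trans e1.symm))
  · exact hu21 (hf (e2.trans e1.symm))
  · exact hu21 (hf (e2.trans e1.symm))

/-- A copy of `H` has no vertex `x` with at most one neighbour (used with `del`): if all
neighbours of `x` are equal to `y` then `x` is not in the image of a copy.
PROOF: `three_nbr` twice. -/
theorem not_mem_copy [Finite W] {H : SimpleGraph W} (hH : ThreeConnected H)
    {G : SimpleGraph V} {f : W → V} (hf : Function.Injective f)
    (hadj : ∀ a b, H.Adj a b → G.Adj (f a) (f b)) {x y : V}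
    (hx : ∀ z, G.Adj x z → z = y) (w : W) : f w ≠ x := by
  rintro rfl
  obtain ⟨u1, ha1, -, -⟩ := three_nbr hH w w w
  obtain ⟨u2, ha2, hu21, -⟩ := three_nbr hH w u1 u1
  exact hu21 (hf ((hx _ (hadj _ _ ha2)).trans (hx _ (hadj _ _ ha1)).symm))

end Pool.Agent.SQA
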