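import Pool.Agent.SQA.Base

/-!
# [SQA-A3b] critical vertices and edges
-/

namespace Pool.Agent.SQA

open SimpleGraph

variable {V V' W : Type} {q : ℕ}

/-- A vertex whose deletion destroys the Ramsey property is in every Ramsey subgraph.
PROOF: otherwise the inclusion is a homomorphism `G'.coe → del G v`, `NR.comap`. -/
theorem critical_mem {H : SimpleGraph W} {G : SimpleGraph V} (G' : G.Subgraph)
    (h : Ramsey q H G'.coe) {v : V} (hv : NR q H (del G v)) : v ∈ G'.verts := by
  by_contra hv'
  refine (not_ramsey.2 (hv.comap (φ := fun x : G'.verts => (x : V)) Subtype.val_injective ?_)) h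
  intro a b hab
  have h1 : G'.Adj a b := hab
  exact ⟨G'.adj_sub h1, fun h2 => hv' (h2 ▸ a.2), fun h2 => hv' (h2 ▸ b.2)⟩

/-- In a minimal Ramsey graph every edge is critical.
PROOF: `(⊤ : G.Subgraph).deleteEdges {s(v, y)}` is a proper subgraph; its `coe` is isomorphic
to `G.deleteEdges {s(v, y)}`. -/
theorem MinRamsey.nr_edge {H : SimpleGraph W} {G : SimpleGraph V} (h : MinRamsey q H G)
    {v y : V} (hvy : G.Adj v y) : NR q H (G.deleteEdges {s(v, y)}) := by
  have h1 : (⊤ : G.Subgraph).deleteEdges {s(v, y)} ≠ ⊤ := by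
    intro h2
    have h3 : ((⊤ : G.Subgraph).deleteEdges {s(v, y)}).Adj v y := by
      rw [h2]
      exact hvy
    rw [Subgraph.deleteEdges_adj] at h3
    exact h3.2 rfl
  refine (not_ramsey.1 (h.2 _ h1)).comap (φ := fun x : V => ⟨x, trivial⟩) ?_ ?_
  · intro a b hab
    exact congrArg Subtype.val hab
  · intro a b hab
    rw [deleteEdges_adj] at hab
    show ((⊤ : G.Subgraph).deleteEdges {s(v, y)}).Adj a b
    rw [Subgraph.deleteEdges_adj]
    exact ⟨hab.1, hab.2⟩

/-- In a minimal Ramsey graph the deletion of a vertex gives a graph that is not Ramsey.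
PROOF: the proper subgraph `(⊤ : G.Subgraph).deleteVerts {v}`. -/
theorem MinRamsey.nr_vert {H : SimpleGraph W} {G : SimpleGraph V} (h : MinRamsey q H G)
    (v : V) : NR q H (G.induce ({v}ᶜ : Set V)) := by
  have h1 : (⊤ : G.Subgraph).induce ({v}ᶜ : Set V) ≠ ⊤ := by
    intro h2
    have h3 : v ∈ ((⊤ : G.Subgraph).induce ({v}ᶜ : Set V)).verts := by
      rw [h2]
      trivial
    exact h3 rfl
  refine (not_ramsey.1 (h.2 _ h1)).comap (φ := fun x : ({v}ᶜ : Set V) => ⟨(x : V), x.2⟩) ?_ ?_
  · intro a b hab
    exact Subtype.ext (congrArg Subtype.val hab)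
  · intro a b hab
    exact ⟨a.2, b.2, hab⟩

/-- The pattern of a vertex of a minimal Ramsey graph.
PROOF: `U := ({v}ᶜ : Set V)`, `D := G.induce {v}ᶜ`, `N := {x | G.Adj v x}`, `c` from `nr_vert`.
If `c` extended to `cone D N`, then `G` would have an `H`-free colouring: the bijection
`V ≃ Option U` sending `v` to `none` is an isomorphism `G ≃g cone D N`, `Free.comap`. The
cardinality: `Set.ncard` of the preimage under `Subtype.val`. -/
theorem MinRamsey.pattern [Finite V] {H : SimpleGraph W} {G : SimpleGraph V}
    (h : MinRamsey q H G) (v : V) :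
    ∃ (U : Type) (_ : Finite U) (D : SimpleGraph U) (N : Set U) (c : Sym2 U → Fin q),
      NonExt H D N c ∧ N.ncard = (G.neighborSet v).ncard := by
  classical
  obtain ⟨c, hc⟩ := h.nr_vert v
  refine ⟨({v}ᶜ : Set V), inferInstance, G.induce ({v}ᶜ : Set V), {x | G.Adj v x}, c, ⟨hc, ?_⟩, ?_⟩
  · rintro ⟨c', hc', -⟩
    refine (not_ramsey.2 (NR.comap ⟨c', hc'⟩ (φ := fun x : V => if hx : x = v then none else
      some ⟨x, hx⟩) ?_ ?_)) h.1
    · intro a b hab
      have hab' : (if hx : a = v then none else some (⟨a, hx⟩ : ({v}ᶜ : Set V))) =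
        (if hx : b = v then none else some (⟨b, hx⟩ : ({v}ᶜ : Set V))) := hab
      by_cases ha : a = v
      · by_cases hb : b = v
        · rw [ha, hb]
        · rw [dif_pos ha, dif_neg hb] at hab'
          cases hab'
      · by_cases hb : b = v
        · rw [dif_neg ha, dif_pos hb] at hab'
          cases hab'
        · rw [dif_neg ha, dif_neg hb] at hab'
          exact congrArg Subtype.val (Option.some.inj hab')
    · intro a b hab
      show (cone (G.induce ({v}ᶜ : Set V)) {x | G.Adj v x}).Adj
        (if hx : a = v then none else some (⟨a, hx⟩ : ({v}ᶜ : Set V)))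
        (if hx : b = v then none else some (⟨b, hx⟩ : ({v}ᶜ : Set V)))
      by_cases ha : a = v
      · by_cases hb : b = v
        · rw [ha, hb] at hab
          exact absurd rfl hab.ne
        · rw [dif_pos ha, dif_neg hb, cone_none_some]
          rw [ha] at hab
          exact hab
      · by_cases hb : b = v
        · rw [dif_neg ha, dif_pos hb, cone_some_none]
          rw [hb] at hab
          exact hab.symm
        · rw [dif_neg ha, dif_neg hb, cone_some_some]
          exact hab
  · rw [← Set.ncard_image_of_injective _ Subtype.val_injective]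
    congr 1
    ext x
    constructor
    · rintro ⟨x', hx', rfl⟩
      exact hx'
    · intro hx
      have hx' : G.Adj v x := hx
      exact ⟨⟨x, fun h => hx'.ne h.symm⟩, hx', rfl⟩

end Pool.Agent.SQA
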