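import Pool.Agent.SQA.Base

/-!
# [SQA-A3a] minimal Ramsey subgraphs
-/

namespace Pool.Agent.SQA

open SimpleGraph

variable {V V' W : Type} {q : ℕ}

/-- Minimal Ramsey graphs are invariant under isomorphism.
PROOF: colourings transport along `Sym2.map e`; a subgraph `G''` of `G'` gives
`G''.comap`/`Subgraph.map` under the isomorphism, an isomorphic subgraph of `G`, which is `⊤`
iff `G''` is. -/
theorem MinRamsey.iso {H : SimpleGraph W} {G : SimpleGraph V} {G' : SimpleGraph V'}
    (e : G ≃g G') (h : MinRamsey q H G) : MinRamsey q H G' := by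
  constructor
  · intro c
    obtain ⟨i, f, hf, hadj⟩ := h.1 (c ∘ Sym2.map e)
    refine ⟨i, e ∘ f, e.injective.comp hf, fun a b hab => ?_⟩
    obtain ⟨h1, h2⟩ := hadj a b hab
    exact ⟨e.map_adj_iff.2 h1, h2⟩
  · intro G'' hG''
    have h1 : G''.comap e.toHom ≠ ⊤ := by
      intro h2
      apply hG''
      ext a b
      · constructor
        · intro _
          trivial
        · intro _
          have h3 : e.symm a ∈ (G''.comap e.toHom).verts := by
            rw [h2]
            trivial
          have h4 : e (e.symm a) ∈ G''.verts := h3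
          rwa [RelIso.apply_symm_apply] at h4
      · constructor
        · intro h3
          exact G''.adj_sub h3
        · intro h3
          have h5 : G'.Adj a b := h3
          have h6 : G.Adj (e.symm a) (e.symm b) := e.symm.map_adj_iff.2 h5
          have h7 : (G''.comap e.toHom).Adj (e.symm a) (e.symm b) := by
            rw [h2]
            exact h6
          have h8 : G''.Adj (e (e.symm a)) (e (e.symm b)) := h7.2
          rwa [RelIso.apply_symm_apply, RelIso.apply_symm_apply] at h8
    have h2 := not_ramsey.1 (h.2 _ h1)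
    refine not_ramsey.2 (h2.comap (φ := fun x : G''.verts => ⟨e.symm x, ?_⟩) ?_ ?_)
    · show e (e.symm x) ∈ G''.verts
      rw [RelIso.apply_symm_apply]
      exact x.2
    · intro x y hxy
      exact Subtype.ext (e.symm.injective (congrArg Subtype.val hxy))
    · intro a b hab
      have h5 : G''.Adj a b := hab
      refine ⟨e.symm.map_adj_iff.2 (G''.adj_sub h5), ?_⟩
      show G''.Adj (e (e.symm a)) (e (e.symm b))
      rw [RelIso.apply_symm_apply, RelIso.apply_symm_apply]
      exact h5

/-- A finite Ramsey graph has a minimal Ramsey subgraph.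
PROOF: `Finite G.Subgraph`; take `G'` minimal (w.r.t. `<`) among the subgraphs whose `coe` is
Ramsey. For `G'' : G'.coe.Subgraph`, `G'' ≠ ⊤`, the subgraph `Subgraph.coeSubgraph G''` of `G`
is `< G'` and its `coe` is isomorphic to `G''.coe`. -/
theorem exists_minRamsey [Finite V] {H : SimpleGraph W} {G : SimpleGraph V}
    (h : Ramsey q H G) : ∃ G' : G.Subgraph, MinRamsey q H G'.coe := by
  have hfin : Finite G.Subgraph := by
    refine Finite.of_injective (fun G' : G.Subgraph => (G'.verts, G'.Adj)) ?_
    intro A B hAB
    have h1 := congrArg Prod.fst hAB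
    have h2 := congrArg Prod.snd hAB
    exact Subgraph.ext h1 h2
  have hne : {G' : G.Subgraph | Ramsey q H G'.coe}.Nonempty := by
    refine ⟨⊤, ?_⟩
    show Ramsey q H (⊤ : G.Subgraph).coe
    by_contra h1
    refine (not_ramsey.2 ((not_ramsey.1 h1).comap (φ := fun v : V => ⟨v, trivial⟩) ?_ ?_)) h
    · intro x y hxy
      exact congrArg Subtype.val hxy
    · intro a b hab
      exact hab
  obtain ⟨G', hG', hmin⟩ := (Set.toFinite {G' : G.Subgraph | Ramsey q H G'.coe}).exists_minimal hne
  refine ⟨G', hG', fun G'' hG'' hR => ?_⟩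
  apply hG''
  have h1 : Ramsey q H (Subgraph.coeSubgraph G'').coe := by
    by_contra h2
    refine (not_ramsey.2 ((not_ramsey.1 h2).comap (φ := fun v : G''.verts =>
      ⟨(v : V), ?_⟩) ?_ ?_)) hR
    · rw [Subgraph.verts_coeSubgraph]
      exact Set.mem_image_of_mem _ v.2
    · intro x y hxy
      have hxy' := congrArg Subtype.val hxy
      exact Subtype.ext (Subtype.ext hxy')
    · intro a b hab
      have h3 : G''.Adj a b := hab
      show (Subgraph.coeSubgraph G'').Adj _ _
      rw [Subgraph.coeSubgraph_adj]
      exact ⟨a.1.2, b.1.2, h3⟩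
  have h2 : G' ≤ Subgraph.coeSubgraph G'' := hmin h1 (Subgraph.coeSubgraph_le G'')
  ext a b
  · constructor
    · intro _
      trivial
    · intro _
      have h3 : (a : V) ∈ (Subgraph.coeSubgraph G'').verts := h2.1 a.2
      rw [Subgraph.verts_coeSubgraph] at h3
      obtain ⟨a', ha', hh⟩ := h3
      rwa [Subtype.ext hh] at ha'
  · constructor
    · intro h3
      exact G''.adj_sub h3
    · intro h3
      have h4 : G'.Adj a b := h3
      have h5 := h2.2 h4
      rw [Subgraph.coeSubgraph_adj] at h5
      obtain ⟨_, _, h6⟩ := h5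
      exact h6

end Pool.Agent.SQA
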