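import Pool.Agent.SQA.A3

/-!
# [SQA-A4] the parameter `sq` and critical vertices
-/

namespace Pool.Agent.SQA

open SimpleGraph

variable {V W : Type} {q : ℕ}

theorem a4_fin [Finite V] {H : SimpleGraph W} {G : SimpleGraph V} (h : MinRamsey q H G) :
    ∃ (n : ℕ) (G' : SimpleGraph (Fin n)) (e : V ≃ Fin n), MinRamsey q H G' ∧
      ∀ v, (G'.neighborSet (e v)).ncard = (G.neighborSet v).ncard := by
  obtain ⟨n, ⟨e⟩⟩ := Finite.exists_equiv_fin V
  refine ⟨n, G.comap e.symm, e, h.iso (G' := G.comap e.symm) ⟨e, ?_⟩, fun v => ?_⟩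
  · intro a b
    show G.Adj (e.symm (e a)) (e.symm (e b)) ↔ G.Adj a b
    rw [Equiv.symm_apply_apply, Equiv.symm_apply_apply]
  · rw [← Set.ncard_image_of_injective (G.neighborSet v) e.injective]
    congr 1
    ext x
    constructor
    · intro hx
      have hx' : G.Adj (e.symm (e v)) (e.symm x) := hx
      rw [Equiv.symm_apply_apply] at hx'
      exact ⟨e.symm x, hx', e.apply_symm_apply x⟩
    · rintro ⟨y, hy, rfl⟩
      show G.Adj (e.symm (e v)) (e.symm (e y))
      rw [Equiv.symm_apply_apply, Equiv.symm_apply_apply]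
      exact hy

theorem a4_deg_le [Finite V] {G : SimpleGraph V} (G' : G.Subgraph) (v : G'.verts) :
    (G'.coe.neighborSet v).ncard ≤ (G.neighborSet (v : V)).ncard := by
  rw [← Set.ncard_image_of_injective (G'.coe.neighborSet v) Subtype.val_injective]
  refine Set.ncard_le_ncard ?_ (Set.toFinite _)
  rintro x ⟨y, hy, rfl⟩
  have hy' : G'.Adj v y := hy
  exact G'.adj_sub hy'

/-- PROOF: transport to `Fin n` (`Finite.equivFin`, `MinRamsey.iso`), `Nat.sInf_le`; the minimum
degree is at most every degree (`Nat.sInf_le` again), degrees are invariant under isomorphism. -/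
theorem sq_le_deg [Finite V] {H : SimpleGraph W} {G : SimpleGraph V} (h : MinRamsey q H G)
    (v : V) : sq q H ≤ (G.neighborSet v).ncard := by
  obtain ⟨n, G', e, h1, h2⟩ := a4_fin h
  have h3 : sq q H ≤ minDeg G' := Nat.sInf_le ⟨n, G', h1, rfl⟩
  have h4 : minDeg G' ≤ (G'.neighborSet (e v)).ncard := Nat.sInf_le ⟨e v, rfl⟩
  rw [h2 v] at h4
  exact h3.trans h4

/-- PROOF: take a minimal Ramsey subgraph `G'` (`exists_minRamsey`); it contains `v`
(`critical_mem`), and the degree of `v` in `G'.coe` is at least `sq` (`sq_le_deg`) and at most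
the degree of `v` in `G`. -/
theorem sq_le [Finite V] {H : SimpleGraph W} {G : SimpleGraph V} (h : Ramsey q H G) (v : V)
    (hv : NR q H (del G v)) : sq q H ≤ (G.neighborSet v).ncard := by
  obtain ⟨G', hG'⟩ := exists_minRamsey h
  have hv' : v ∈ G'.verts := critical_mem G' hG'.1 hv
  exact (sq_le_deg hG' ⟨v, hv'⟩).trans (a4_deg_le G' ⟨v, hv'⟩)

/-- PROOF: take a minimal Ramsey subgraph `G'`; it contains all `x i`, whose degrees in
`G'.coe` are at least `sq` (`sq_le_deg`) and at most `(G.neighborSet (x i)).ncard ≤ sq`; transport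
to `Fin n` (`MinRamsey.iso`). -/
theorem many_critical [Finite V] {H : SimpleGraph W} {G : SimpleGraph V} (h : Ramsey q H G)
    {k : ℕ} (x : Fin k → V) (hx : Function.Injective x) (hcrit : ∀ i, NR q H (del G (x i)))
    (hdeg : ∀ i, (G.neighborSet (x i)).ncard ≤ sq q H) :
    ∃ (n : ℕ) (G' : SimpleGraph (Fin n)), MinRamsey q H G' ∧
      k ≤ {v | (G'.neighborSet v).ncard = sq q H}.ncard := by
  obtain ⟨G', hG'⟩ := exists_minRamsey h
  have hv' : ∀ i, x i ∈ G'.verts := fun i => critical_mem G' hG'.1 (hcrit i)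
  have hdeg' : ∀ i, (G'.coe.neighborSet ⟨x i, hv' i⟩).ncard = sq q H := fun i =>
    le_antisymm ((a4_deg_le G' ⟨x i, hv' i⟩).trans (hdeg i)) (sq_le_deg hG' ⟨x i, hv' i⟩)
  obtain ⟨n, G'', e, h1, h2⟩ := a4_fin hG'
  refine ⟨n, G'', h1, ?_⟩
  have hinj : Function.Injective (fun i => e ⟨x i, hv' i⟩) := by
    intro i j hij
    exact hx (congrArg Subtype.val (e.injective hij))
  have h3 : ((fun i => e ⟨x i, hv' i⟩) '' (Set.univ : Set (Fin k))).ncard = k := by
    rw [Set.ncard_image_of_injective _ hinj, Set.ncard_univ, Nat.card_eq_fintype_card, Fintype.card_fin]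
  rw [← h3]
  refine Set.ncard_le_ncard ?_ (Set.toFinite _)
  rintro y ⟨i, -, rfl⟩
  show (G''.neighborSet (e ⟨x i, hv' i⟩)).ncard = sq q H
  rw [h2, hdeg']

end Pool.Agent.SQA
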