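import Pool.Agent.SQA.A5a

/-!
# [SQA-A5] the Ramsey number
-/

namespace Pool.Agent.SQA

open SimpleGraph

variable {V W : Type} {q : ℕ}

/-- The Ramsey number `r_q(H)`. -/
noncomputable def rr (q : ℕ) (H : SimpleGraph W) : ℕ :=
  sInf {n | Ramsey q H (⊤ : SimpleGraph (Fin n))}

/-- PROOF: `Fin (rr q H)` embeds in `V`; `Nat.sInf_mem`, `NR.comap`. -/
theorem ramsey_top [Finite W] (hq : 1 ≤ q) {H : SimpleGraph W} [Finite V]
    (h : rr q H ≤ Nat.card V) : Ramsey q H (⊤ : SimpleGraph V) := by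
  have h1 : Ramsey q H (⊤ : SimpleGraph (Fin (rr q H))) := Nat.sInf_mem (ramsey_exists hq H)
  by_contra h2
  have hV : Fintype V := Fintype.ofFinite V
  obtain ⟨f⟩ : Nonempty (Fin (rr q H) ↪ V) := by
    refine Function.Embedding.nonempty_of_card_le ?_
    rw [Fintype.card_fin, ← Nat.card_eq_fintype_card]
    exact h
  exact (not_ramsey.2 ((not_ramsey.1 h2).comap f.injective fun a b hab =>
    fun h3 => hab.ne (f.injective h3))) h1

/-- A graph with fewer than `rr q H` non-isolated vertices is not Ramsey. (`W` has an edge or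
at least: `H` has no isolated vertices, stated as `hH`.)
PROOF: `Nat.notMem_of_lt_sInf`: the complete graph on `Fin T.ncard` has an `H`-free colouring,
transport it to `T` and extend it by an arbitrary colour; a copy of `H` has all its vertices in
`T` since every vertex of `H` has a neighbour. -/
theorem nr_of_lt [Finite V] {H : SimpleGraph W} (hq : 1 ≤ q) (hH : ∀ w, ∃ u, H.Adj w u)
    (G : SimpleGraph V) (T : Set V) (hT : ∀ a b, G.Adj a b → a ∈ T) (hc : T.ncard < rr q H) :
    NR q H G := by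
  classical
  have h0 : ¬ Ramsey q H (⊤ : SimpleGraph (Fin T.ncard)) := Nat.notMem_of_lt_sInf hc
  have hT' : Fintype T := Fintype.ofFinite T
  have e : T ≃ Fin T.ncard := by
    refine Fintype.equivFinOfCardEq ?_
    rw [← Nat.card_eq_fintype_card, Nat.card_coe_set_eq]
  obtain ⟨c1, hc1⟩ : NR q H (G.induce T) := (not_ramsey.1 h0).comap e.injective fun a b hab =>
    fun h3 => hab.ne (e.injective h3)
  have hinj : Function.Injective (Sym2.map (Subtype.val : T → V)) := Sym2.map.injective Subtype.val_injective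
  refine ⟨fun p => if h : ∃ p' : Sym2 T, Sym2.map Subtype.val p' = p then c1 h.choose else ⟨0, hq⟩, ?_⟩
  rintro i f ⟨hf, hadj⟩
  have hfT : ∀ w, f w ∈ T := by
    intro w
    obtain ⟨u, hu⟩ := hH w
    exact hT _ _ (hadj w u hu).1
  refine hc1 i (fun w => ⟨f w, hfT w⟩) ⟨fun a b hab => hf (congrArg Subtype.val hab), fun a b hab => ?_⟩
  obtain ⟨h1, h2⟩ := hadj a b hab
  refine ⟨h1, ?_⟩
  have h3 : ∃ p' : Sym2 T, Sym2.map Subtype.val p' = s(f a, f b) :=
    ⟨s(⟨f a, hfT a⟩, ⟨f b, hfT b⟩), by rw [Sym2.map_mk]⟩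
  beta_reduce at h2
  rw [dif_pos h3] at h2
  rw [← h2]
  congr 1
  apply hinj
  rw [h3.choose_spec, Sym2.map_mk]

/-- Lower bounds for `rr`.
PROOF: otherwise `ramsey_top`. -/
theorem lt_rr_of_nr [Finite W] (hq : 1 ≤ q) {H : SimpleGraph W} [Finite V]
    (h : NR q H (⊤ : SimpleGraph V)) : Nat.card V < rr q H := by
  by_contra hcon
  push Not at hcon
  exact (not_ramsey.2 h) (ramsey_top hq hcon)

/-- PROOF: a complete graph with fewer than `Nat.card W` vertices contains no copy of `H`:
apply `lt_rr_of_nr` to `Fin (Nat.card W - 1)`. -/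
theorem card_le_rr [Finite W] [Nonempty W] (hq : 1 ≤ q) (H : SimpleGraph W) :
    Nat.card W ≤ rr q H := by
  have hW : Fintype W := Fintype.ofFinite W
  have hpos : 0 < Nat.card W := Nat.card_pos
  have h1 : NR q H (⊤ : SimpleGraph (Fin (Nat.card W - 1))) := by
    refine ⟨fun _ => ⟨0, hq⟩, ?_⟩
    rintro i f ⟨hf, -⟩
    have h2 := Fintype.card_le_of_injective f hf
    rw [Fintype.card_fin, ← Nat.card_eq_fintype_card] at h2
    omega
  have h2 := lt_rr_of_nr hq h1
  rw [Nat.card_eq_fintype_card, Fintype.card_fin] at h2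
  omega

end Pool.Agent.SQA
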