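import Pool.Agent.SQA.Base

/-!
# [SQA-A5a] Ramsey's theorem
-/

namespace Pool.Agent.SQA

open SimpleGraph

variable {V W : Type} {q : ℕ}

theorem a5a_step (hq : 1 ≤ q) (N : ℕ) : ∃ n : ℕ, ∀ (V : Type) (_ : DecidableEq V) (c : Sym2 V → Fin q)
    (S : Finset V), n ≤ S.card → ∃ (κ : V → Fin q) (L : List V), L.length = N ∧ (∀ x ∈ L, x ∈ S) ∧
      L.Pairwise (fun a b => a ≠ b ∧ c s(a, b) = κ a) := by
  induction N with
  | zero =>
    refine ⟨0, fun V _ c S _ => ⟨fun _ => ⟨0, hq⟩, [], rfl, ?_, List.Pairwise.nil⟩⟩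
    intro x hx
    cases hx
  | succ N ih =>
    obtain ⟨n, hn⟩ := ih
    refine ⟨q * n + 1, fun V _ c S hS => ?_⟩
    obtain ⟨v, hv⟩ : S.Nonempty := by
      rw [← Finset.card_pos]
      omega
    have h1 : q * n ≤ (S.erase v).card := by
      rw [Finset.card_erase_of_mem hv]
      omega
    have hne : (Finset.univ : Finset (Fin q)).Nonempty := ⟨⟨0, hq⟩, Finset.mem_univ _⟩
    obtain ⟨i, -, hi⟩ := Finset.exists_le_card_fiber_of_mul_le_card_of_maps_to
      (f := fun u => c s(v, u)) (s := S.erase v) (t := (Finset.univ : Finset (Fin q))) (n := n)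
      (fun u _ => Finset.mem_univ _) hne (by rw [Finset.card_univ, Fintype.card_fin]; exact h1)
    obtain ⟨κ, L, hL1, hL2, hL3⟩ := hn V inferInstance c _ hi
    have hmem : ∀ x ∈ L, x ∈ S ∧ x ≠ v ∧ c s(v, x) = i := by
      intro x hx
      obtain ⟨h2, h3⟩ := Finset.mem_filter.1 (hL2 x hx)
      obtain ⟨h4, h5⟩ := Finset.mem_erase.1 h2
      exact ⟨h5, h4, h3⟩
    refine ⟨Function.update κ v i, v :: L, by rw [List.length_cons, hL1], ?_, ?_⟩
    · intro x hx
      rcases List.mem_cons.1 hx with rfl | hx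
      · exact hv
      · exact (hmem x hx).1
    · rw [List.pairwise_cons]
      refine ⟨fun x hx => ⟨(hmem x hx).2.1.symm, ?_⟩, ?_⟩
      · rw [Function.update_self]
        exact (hmem x hx).2.2
      · refine List.Pairwise.imp_of_mem ?_ hL3
        intro a b ha hb hab
        refine ⟨hab.1, ?_⟩
        rw [Function.update_of_ne (hmem a ha).2.1]
        exact hab.2

/-- Ramsey's theorem for `q` colours.
PROOF: `m := Nat.card W`. Standard: a complete graph on `n` vertices, `n` large, contains
vertices `v_1, ..., v_N`, `N = q m`, such that the colour of `v_i v_j`, `i < j`, only depends on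
`i` (induction: among the remaining vertices keep the most popular colour at `v_i`,
`Finset.exists_lt_card_fiber_of_mul_lt_card_of_maps_to`); by pigeonhole `m` of the `v_i` have
the same colour. Convenient form: for all `N` there is `n` such that for every `V` with at
least `n` vertices and every colouring there are an injective `v : Fin N → V` and
`κ : Fin N → Fin q` with `c s(v i, v j) = κ i` for `i < j`. -/
theorem ramsey_exists [Finite W] (hq : 1 ≤ q) (H : SimpleGraph W) :
    ∃ n, Ramsey q H (⊤ : SimpleGraph (Fin n)) := by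
  classical
  obtain ⟨n, hn⟩ := a5a_step hq (q * Nat.card W)
  refine ⟨n, fun c => ?_⟩
  obtain ⟨κ, L, hL1, -, hL3⟩ := hn (Fin n) inferInstance c Finset.univ
    (by rw [Finset.card_univ, Fintype.card_fin])
  have hnd : L.Nodup := hL3.imp fun h => h.1
  have hcard : L.toFinset.card = q * Nat.card W := by
    rw [List.toFinset_card_of_nodup hnd, hL1]
  have hne : (Finset.univ : Finset (Fin q)).Nonempty := ⟨⟨0, hq⟩, Finset.mem_univ _⟩
  obtain ⟨i, -, hi⟩ := Finset.exists_le_card_fiber_of_mul_le_card_of_maps_to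
    (f := κ) (s := L.toFinset) (t := (Finset.univ : Finset (Fin q))) (n := Nat.card W)
    (fun u _ => Finset.mem_univ _) hne (by rw [Finset.card_univ, Fintype.card_fin, hcard])
  have hW : Fintype W := Fintype.ofFinite W
  obtain ⟨f⟩ : Nonempty (W ↪ (L.toFinset.filter fun x => κ x = i)) := by
    refine Function.Embedding.nonempty_of_card_le ?_
    rw [Fintype.card_coe, ← Nat.card_eq_fintype_card]
    exact hi
  have hcol : ∀ a ∈ L, ∀ b ∈ L, a ≠ b → c s(a, b) = κ a ∨ c s(a, b) = κ b := by
    have h1 : L.Pairwise (fun a b => c s(a, b) = κ a ∨ c s(a, b) = κ b) := hL3.imp fun h => Or.inl h.2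
    have h2 : Std.Symm (fun a b : Fin n => c s(a, b) = κ a ∨ c s(a, b) = κ b) := ⟨fun x y h => by
      rw [Sym2.eq_swap]
      exact h.symm⟩
    intro a ha b hb hab
    exact h1.forall ha hb hab
  refine ⟨i, fun w => (f w : Fin n), fun a b hab => f.injective (Subtype.ext hab), fun a b hab => ?_⟩
  have hne' : ((f a : Fin n)) ≠ (f b : Fin n) := fun h => hab.ne (f.injective (Subtype.ext h))
  obtain ⟨ha1, ha2⟩ := Finset.mem_filter.1 (f a).2
  obtain ⟨hb1, hb2⟩ := Finset.mem_filter.1 (f b).2
  refine ⟨hne', ?_⟩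
  rcases hcol _ (List.mem_toFinset.1 ha1) _ (List.mem_toFinset.1 hb1) hne' with h | h
  · rw [h, ha2]
  · rw [h, hb2]

end Pool.Agent.SQA
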