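import Pool.Agent.SQA.A4
import Pool.Agent.SQA.A5

/-!
# [SQA-A6] a minimal Ramsey graph attaining `sq`
-/

namespace Pool.Agent.SQA

open SimpleGraph

variable {V W : Type} {q : ℕ}

/-- PROOF: by `ramsey_exists` and `exists_minRamsey` there is a minimal Ramsey graph (transport
to `Fin n`), so the set in the definition of `sq` is nonempty: `Nat.sInf_mem` gives `n`, `G` with
`minDeg G = sq`. The graph is Ramsey for `H` with `W` nonempty, so it has a vertex and the
infimum in `minDeg G` is attained (`Nat.sInf_mem`). -/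
theorem sq_attained [Finite W] [Nonempty W] (hq : 1 ≤ q) (H : SimpleGraph W) :
    ∃ (n : ℕ) (G : SimpleGraph (Fin n)) (v : Fin n), MinRamsey q H G ∧
      (G.neighborSet v).ncard = sq q H := by
  obtain ⟨n0, h0⟩ := ramsey_exists hq H
  obtain ⟨G', hG'⟩ := exists_minRamsey h0
  have hfin : Finite G'.verts := inferInstance
  have e : G'.verts ≃ Fin (Nat.card G'.verts) := Finite.equivFin _
  have hmin := hG'.iso (SimpleGraph.Iso.map e G'.coe)
  have hne : {d | ∃ (n : ℕ) (G : SimpleGraph (Fin n)), MinRamsey q H G ∧ d = minDeg G}.Nonempty :=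
    ⟨_, _, _, hmin, rfl⟩
  obtain ⟨n, G, hG, hd⟩ := Nat.sInf_mem hne
  obtain ⟨w0⟩ := (inferInstance : Nonempty W)
  obtain ⟨_, f0, _⟩ := hG.1 (fun _ => ⟨0, by omega⟩)
  have hne2 : {d | ∃ v, d = (G.neighborSet v).ncard}.Nonempty := ⟨_, f0 w0, rfl⟩
  obtain ⟨v, hv⟩ := Nat.sInf_mem hne2
  refine ⟨n, G, v, hG, ?_⟩
  rw [← hv]
  exact hd.symm

end Pool.Agent.SQA
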