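import Pool.Agent.SQA.Base

/-!
# [SQA-B] sparse hypergraphs: definitions
-/

namespace Pool.Agent.SQA

open Finset

variable {n m d M : ℕ}

/-- The hyperedges `L j` are injective and there is no closed walk of length `2 ≤ k ≤ g` with
different hyperedges and consecutive vertices different. -/
def Sparse (g : ℕ) (L : Fin m → Fin d → Fin n) : Prop :=
  (∀ j, Function.Injective (L j)) ∧
  ∀ k, 2 ≤ k → k ≤ g → ∀ (j : ℕ → Fin m) (y : ℕ → Fin n), Set.InjOn j (Set.Iio k) →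
    y k = y 0 → (∀ i, i < k → y i ≠ y (i + 1) ∧ y i ∈ Set.range (L (j i)) ∧
      y (i + 1) ∈ Set.range (L (j i))) → False

/-- Bad configurations of length `k + 1` (`i + 1` is cyclic in `Fin (k + 1)`). -/
noncomputable def Bad (F : Fin M → Fin d → Fin n) (k : ℕ) :
    Finset ((Fin (k + 1) → Fin M) × (Fin (k + 1) → Fin d) × (Fin (k + 1) → Fin d)) :=
  letI := Classical.decPred (fun x : (Fin (k + 1) → Fin M) × (Fin (k + 1) → Fin d) ×
    (Fin (k + 1) → Fin d) => Function.Injective x.1 ∧ (∀ i, x.2.1 i ≠ x.2.2 i) ∧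
    ∀ i, F (x.1 i) (x.2.2 i) = F (x.1 (i + 1)) (x.2.1 (i + 1)))
  univ.filter (fun x => Function.Injective x.1 ∧ (∀ i, x.2.1 i ≠ x.2.2 i) ∧
    ∀ i, F (x.1 i) (x.2.2 i) = F (x.1 (i + 1)) (x.2.1 (i + 1)))

theorem mem_Bad {F : Fin M → Fin d → Fin n} {k : ℕ}
    {x : (Fin (k + 1) → Fin M) × (Fin (k + 1) → Fin d) × (Fin (k + 1) → Fin d)} :
    x ∈ Bad F k ↔ Function.Injective x.1 ∧ (∀ i, x.2.1 i ≠ x.2.2 i) ∧
      ∀ i, F (x.1 i) (x.2.2 i) = F (x.1 (i + 1)) (x.2.1 (i + 1)) := by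
  simp [Bad]

/-- `f` is monochromatic under the vertex colouring `χ`. -/
def MonoF {q : ℕ} (χ : Fin n → Fin q) (f : Fin d → Fin n) : Prop := ∃ i, ∀ s, χ (f s) = i

end Pool.Agent.SQA
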