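import Pool.Agent.SQA.B0

/-!
# [SQA-B1] counting bad configurations
-/

namespace Pool.Agent.SQA

open Finset

variable {n d M : ℕ}

/-- overwrite `F` at the positions `(j i, s' i)` by `t i` -/
noncomputable def b1w {k : ℕ} (j : Fin (k + 1) → Fin M) (s' : Fin (k + 1) → Fin d)
    (F : Fin M → Fin d → Fin n) (t : Fin (k + 1) → Fin n) : Fin M → Fin d → Fin n :=
  letI := Classical.propDecidable
  fun a b => if h : ∃ i, j i = a ∧ s' i = b then t h.choose else F a b

theorem b1w_pos {k : ℕ} {j : Fin (k + 1) → Fin M} (hj : Function.Injective j) (s' : Fin (k + 1) → Fin d)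
    (F : Fin M → Fin d → Fin n) (t : Fin (k + 1) → Fin n) (i : Fin (k + 1)) :
    b1w j s' F t (j i) (s' i) = t i := by
  classical
  have h : ∃ i', j i' = j i ∧ s' i' = s' i := ⟨i, rfl, rfl⟩
  unfold b1w
  rw [dif_pos h]
  congr 1
  exact hj h.choose_spec.1

theorem b1w_neg {k : ℕ} (j : Fin (k + 1) → Fin M) (s' : Fin (k + 1) → Fin d)
    (F : Fin M → Fin d → Fin n) (t : Fin (k + 1) → Fin n) {a : Fin M} {b : Fin d}
    (h : ¬ ∃ i, j i = a ∧ s' i = b) : b1w j s' F t a b = F a b := by
  classical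
  unfold b1w
  rw [dif_neg h]

theorem b1_one {k : ℕ} (x : (Fin (k + 1) → Fin M) × (Fin (k + 1) → Fin d) × (Fin (k + 1) → Fin d))
    (A : Finset (Fin M → Fin d → Fin n)) (hA : ∀ F ∈ A, x ∈ Bad F k) :
    A.card * n ^ (k + 1) ≤ (n ^ d) ^ M := by
  classical
  have h1 : A.card * n ^ (k + 1) = (A ×ˢ (univ : Finset (Fin (k + 1) → Fin n))).card := by
    rw [card_product, card_univ, Fintype.card_fun, Fintype.card_fin, Fintype.card_fin]
  have h2 : (n ^ d) ^ M = (univ : Finset (Fin M → Fin d → Fin n)).card := by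
    rw [card_univ, Fintype.card_fun, Fintype.card_fun, Fintype.card_fin, Fintype.card_fin, Fintype.card_fin]
  rw [h1, h2]
  refine card_le_card_of_injOn (fun y => b1w x.1 x.2.2 y.1 y.2) (fun y _ => mem_univ _) ?_
  rintro ⟨F, t⟩ hF ⟨F', t'⟩ hF' he
  have hF1 := hA F (mem_product.1 (mem_coe.1 hF)).1
  have hF1' := hA F' (mem_product.1 (mem_coe.1 hF')).1
  rw [mem_Bad] at hF1 hF1'
  obtain ⟨hj, hs, hb⟩ := hF1
  obtain ⟨-, -, hb'⟩ := hF1'
  have he' : b1w x.1 x.2.2 F t = b1w x.1 x.2.2 F' t' := he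
  have ht : t = t' := by
    funext i
    rw [← b1w_pos hj x.2.2 F t i, he', b1w_pos hj x.2.2 F' t' i]
  have hQ : ∀ i, F (x.1 (i + 1)) (x.2.1 (i + 1)) = F' (x.1 (i + 1)) (x.2.1 (i + 1)) := by
    intro i
    have hn : ¬ ∃ i', x.1 i' = x.1 (i + 1) ∧ x.2.2 i' = x.2.1 (i + 1) := by
      rintro ⟨i', h3, h4⟩
      have h5 := hj h3
      subst h5
      exact hs _ h4.symm
    rw [← b1w_neg x.1 x.2.2 F t hn, he', b1w_neg x.1 x.2.2 F' t' hn]
  have hFF : F = F' := by
    funext a b
    by_cases h : ∃ i, x.1 i = a ∧ x.2.2 i = b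
    · obtain ⟨i, rfl, rfl⟩ := h
      rw [hb i, hQ i, hb' i]
    · rw [← b1w_neg x.1 x.2.2 F t h, he', b1w_neg x.1 x.2.2 F' t' h]
  rw [ht, hFF]

/-- The expected number of bad configurations.
PROOF: exchange the sums; for fixed `x = (j, s, s')` with `j` injective and `s i ≠ s' i` let
`A x` be the set of `F` with `F (j i) (s' i) = F (j (i+1)) (s (i+1))` for all `i`. Claim:
`card (A x) * n ^ (k+1) ≤ (n ^ d) ^ M`: the map `A x × (Fin (k+1) → Fin n) → (Fin M → Fin d →
Fin n)` which overwrites `F` at the positions `P i := (j i, s' i)` by `t i` is injective: the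
positions `P i` are different from each other (`j` injective) and from the positions
`Q i := (j (i+1), s (i+1))` (if `P i = Q i'` then `i = i' + 1` and `s' i = s i`), so `t i` is
the value of the new function at `P i`, and `F` is recovered by overwriting the new function at
`P i` with its value at `Q i`. The number of `x` is at most `M ^ (k+1) * d ^ (k+1) * d ^ (k+1)`. -/
theorem sum_bad (n d M k : ℕ) :
    (∑ F : Fin M → Fin d → Fin n, (Bad F k).card) * n ^ (k + 1) ≤
      (M * d ^ 2) ^ (k + 1) * (n ^ d) ^ M := by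
  classical
  have h1 : ∑ F : Fin M → Fin d → Fin n, (Bad F k).card =
      ∑ x : (Fin (k + 1) → Fin M) × (Fin (k + 1) → Fin d) × (Fin (k + 1) → Fin d),
        ((univ : Finset (Fin M → Fin d → Fin n)).filter fun F => x ∈ Bad F k).card := by
    simp_rw [card_eq_sum_ones, sum_filter]
    rw [sum_comm]
    refine sum_congr rfl fun F _ => ?_
    rw [← sum_filter]
    congr 1
    ext x
    simp
  rw [h1, sum_mul]
  calc ∑ x : (Fin (k + 1) → Fin M) × (Fin (k + 1) → Fin d) × (Fin (k + 1) → Fin d),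
        ((univ : Finset (Fin M → Fin d → Fin n)).filter fun F => x ∈ Bad F k).card * n ^ (k + 1)
      ≤ ∑ _x : (Fin (k + 1) → Fin M) × (Fin (k + 1) → Fin d) × (Fin (k + 1) → Fin d), (n ^ d) ^ M :=
        sum_le_sum fun x _ => b1_one x _ fun F hF => (mem_filter.1 hF).2
    _ = (M * d ^ 2) ^ (k + 1) * (n ^ d) ^ M := by
        rw [sum_const, smul_eq_mul, card_univ, Fintype.card_prod, Fintype.card_prod, Fintype.card_fun,
          Fintype.card_fun, Fintype.card_fin, Fintype.card_fin, Fintype.card_fin, mul_pow]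
        ring

end Pool.Agent.SQA
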