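import Pool.Agent.SQA.B0

/-!
# [SQA-B2S] counting families with few members inside a large set
-/

namespace Pool.Agent.SQA

open Finset

theorem card_notin {n d q : ℕ} (hq : 1 ≤ q) (S : Finset (Fin n)) (hS : n ≤ q * S.card) :
    (univ.filter (fun f : Fin d → Fin n => ¬ ∀ s, f s ∈ S)).card * q ^ d ≤
      n ^ d * (q ^ d - 1) := by
  classical
  have h2 : (Fintype.piFinset (fun _ : Fin d => S)) ⊆
      univ.filter (fun f : Fin d → Fin n => ∀ s, f s ∈ S) := by
    intro f hf
    rw [mem_filter]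
    exact ⟨mem_univ _, fun s => (Fintype.mem_piFinset.1 hf) s⟩
  have h3 : S.card ^ d ≤ (univ.filter (fun f : Fin d → Fin n => ∀ s, f s ∈ S)).card := by
    have h4 := card_le_card h2
    rw [Fintype.card_piFinset, Finset.prod_const, Finset.card_univ, Fintype.card_fin] at h4
    exact h4
  have h4 : (univ.filter (fun f : Fin d → Fin n => ∀ s, f s ∈ S)).card +
      (univ.filter (fun f : Fin d → Fin n => ¬ ∀ s, f s ∈ S)).card = n ^ d := by
    have h5 := Finset.card_filter_add_card_filter_not (s := (univ : Finset (Fin d → Fin n)))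
      (fun f : Fin d → Fin n => ∀ s, f s ∈ S)
    rw [h5, Finset.card_univ, Fintype.card_fun, Fintype.card_fin, Fintype.card_fin]
  have h5 : n ^ d ≤ q ^ d * S.card ^ d := by
    rw [← mul_pow]
    exact Nat.pow_le_pow_left hS d
  have h6 : n ^ d ≤ q ^ d * (univ.filter (fun f : Fin d → Fin n => ∀ s, f s ∈ S)).card :=
    h5.trans (Nat.mul_le_mul_left _ h3)
  have h7 : 1 ≤ q ^ d := Nat.one_le_pow _ _ (by omega)
  obtain ⟨b, hb⟩ := Nat.exists_eq_add_of_le h7
  set x := (univ.filter (fun f : Fin d → Fin n => ∀ s, f s ∈ S)).card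
  set y := (univ.filter (fun f : Fin d → Fin n => ¬ ∀ s, f s ∈ S)).card
  rw [hb] at h6 ⊢
  rw [← h4] at h6 ⊢
  have h8 : 1 + b - 1 = b := by omega
  rw [h8]
  nlinarith

open scoped Classical in
theorem card_fewS {n d q M : ℕ} (hq : 1 ≤ q) (S : Finset (Fin n)) (hS : n ≤ q * S.card)
    (T' : Finset (Fin M)) :
    (univ.filter (fun F : Fin M → Fin d → Fin n => ∀ j, j ∉ T' → ¬ ∀ s, F j s ∈ S)).card *
        (q ^ d) ^ (M - T'.card) ≤
      (n ^ d) ^ M * (q ^ d - 1) ^ (M - T'.card) := by
  have h1 : (univ.filter (fun F : Fin M → Fin d → Fin n => ∀ j, j ∉ T' → ¬ ∀ s, F j s ∈ S)) =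
      Fintype.piFinset (fun j : Fin M => if j ∈ T' then (univ : Finset (Fin d → Fin n))
        else univ.filter (fun f : Fin d → Fin n => ¬ ∀ s, f s ∈ S)) := by
    ext F
    rw [mem_filter, Fintype.mem_piFinset]
    constructor
    · rintro ⟨-, h⟩ j
      split_ifs with hj
      · exact mem_univ _
      · exact mem_filter.2 ⟨mem_univ _, h j hj⟩
    · intro h
      refine ⟨mem_univ _, fun j hj => ?_⟩
      have h2 := h j
      rw [if_neg hj] at h2
      exact (mem_filter.1 h2).2
  have h2 : (univ.filter (fun F : Fin M → Fin d → Fin n => ∀ j, j ∉ T' → ¬ ∀ s, F j s ∈ S)).card =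
      (n ^ d) ^ T'.card * (univ.filter (fun f : Fin d → Fin n => ¬ ∀ s, f s ∈ S)).card ^ (M - T'.card) := by
    rw [h1, Fintype.card_piFinset]
    have h3 : ∀ j : Fin M, (if j ∈ T' then (univ : Finset (Fin d → Fin n))
        else univ.filter (fun f : Fin d → Fin n => ¬ ∀ s, f s ∈ S)).card =
        if j ∈ T' then n ^ d else (univ.filter (fun f : Fin d → Fin n => ¬ ∀ s, f s ∈ S)).card := by
      intro j
      split_ifs with hj
      · rw [Finset.card_univ, Fintype.card_fun, Fintype.card_fin, Fintype.card_fin]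
      · rfl
    rw [Finset.prod_congr rfl fun j _ => h3 j, Finset.prod_ite, Finset.prod_const, Finset.prod_const]
    have h4 : (univ.filter (fun j : Fin M => j ∈ T')).card = T'.card := by
      congr 1
      ext j
      simp
    have h5 : (univ.filter (fun j : Fin M => j ∉ T')).card = M - T'.card := by
      have h6 := Finset.card_filter_add_card_filter_not (s := (univ : Finset (Fin M))) (fun j => j ∈ T')
      rw [h4, Finset.card_univ, Fintype.card_fin] at h6
      omega
    rw [h4, h5]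
  rw [h2, mul_assoc, ← mul_pow]
  have h3 : T'.card ≤ M := by
    have := card_le_univ T'
    rwa [Fintype.card_fin] at this
  calc (n ^ d) ^ T'.card * ((univ.filter (fun f : Fin d → Fin n => ¬ ∀ s, f s ∈ S)).card * q ^ d) ^ (M - T'.card)
      ≤ (n ^ d) ^ T'.card * (n ^ d * (q ^ d - 1)) ^ (M - T'.card) :=
        Nat.mul_le_mul_left _ (Nat.pow_le_pow_left (card_notin hq S hS) _)
    _ = (n ^ d) ^ M * (q ^ d - 1) ^ (M - T'.card) := by
        rw [mul_pow, ← mul_assoc, ← pow_add]
        congr 2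
        omega

open scoped Classical in
/-- Union bound over all `S` with `n ≤ q * S.card` and all `T'` with `T` elements. -/
theorem card_exists_fewS {n d q M T : ℕ} (hq : 1 ≤ q) :
    (univ.filter (fun F : Fin M → Fin d → Fin n => ∃ (S : Finset (Fin n)) (T' : Finset (Fin M)),
        n ≤ q * S.card ∧ T'.card = T ∧ ∀ j, j ∉ T' → ¬ ∀ s, F j s ∈ S)).card *
          (q ^ d) ^ (M - T) ≤
      2 ^ n * M ^ T * ((n ^ d) ^ M * (q ^ d - 1) ^ (M - T)) := by
  have h1 : (univ.filter (fun F : Fin M → Fin d → Fin n => ∃ (S : Finset (Fin n)) (T' : Finset (Fin M)),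
        n ≤ q * S.card ∧ T'.card = T ∧ ∀ j, j ∉ T' → ¬ ∀ s, F j s ∈ S)) ⊆
      (((univ : Finset (Finset (Fin n))).filter (fun S => n ≤ q * S.card)) ×ˢ
        powersetCard T (univ : Finset (Fin M))).biUnion
        (fun x => univ.filter (fun F : Fin M → Fin d → Fin n => ∀ j, j ∉ x.2 → ¬ ∀ s, F j s ∈ x.1)) := by
    intro F hF
    obtain ⟨χ, T', hS, hT, h⟩ := (mem_filter.1 hF).2
    rw [mem_biUnion]
    exact ⟨(χ, T'), mem_product.2 ⟨mem_filter.2 ⟨mem_univ _, hS⟩,
      mem_powersetCard.2 ⟨subset_univ _, hT⟩⟩, mem_filter.2 ⟨mem_univ _, h⟩⟩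
  have h2 := (card_le_card h1).trans card_biUnion_le
  refine (Nat.mul_le_mul_right _ h2).trans ?_
  rw [Finset.sum_mul]
  have h3 : ∀ x ∈ (((univ : Finset (Finset (Fin n))).filter (fun S => n ≤ q * S.card)) ×ˢ
        powersetCard T (univ : Finset (Fin M))),
      (univ.filter (fun F : Fin M → Fin d → Fin n => ∀ j, j ∉ x.2 → ¬ ∀ s, F j s ∈ x.1)).card *
        (q ^ d) ^ (M - T) ≤ (n ^ d) ^ M * (q ^ d - 1) ^ (M - T) := by
    intro x hx
    have h4 := (mem_powersetCard.1 (mem_product.1 hx).2).2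
    have h5 := card_fewS (d := d) hq x.1 (mem_filter.1 (mem_product.1 hx).1).2 x.2
    rw [h4] at h5
    exact h5
  refine (Finset.sum_le_sum h3).trans ?_
  rw [Finset.sum_const, Finset.card_product, Finset.card_powersetCard, Finset.card_univ,
    Fintype.card_fin, smul_eq_mul]
  have h6 : ((univ : Finset (Finset (Fin n))).filter (fun S => n ≤ q * S.card)).card ≤ 2 ^ n := by
    refine (card_filter_le _ _).trans ?_
    rw [Finset.card_univ, Fintype.card_finset, Fintype.card_fin]
  exact Nat.mul_le_mul_right _ (Nat.mul_le_mul h6 (Nat.choose_le_pow M T))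

end Pool.Agent.SQA
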