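import Pool.Agent.SQA.B0

/-!
# [SQA-B3] the parameters
-/

namespace Pool.Agent.SQA

open Finset

/-- The bound for the number of vertices of the sparse hypergraph. -/
def sizeB (q d g : ℕ) : ℕ :=
  (q ^ d * (1 + q + 2 * g * d ^ (2 * g) * (g + 3)) + 1) ^ (g + 1)

theorem b3_exp (q n t g T Q r : ℕ) (hQ : 1 ≤ Q)
    (hr : Q * (1 + n * q + T * (g + 2) * t) < r) :
    2 * (q ^ n * (t ^ (g + 2)) ^ T) * (Q - 1) ^ r < Q ^ r := by
  have hQ0 : (0 : ℝ) < (Q : ℝ) := by exact_mod_cast hQ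
  have h1 : ((Q - 1 : ℕ) : ℝ) ≤ (Q : ℝ) * Real.exp (-(1 / (Q : ℝ))) := by
    rw [Nat.cast_sub hQ, Nat.cast_one]
    have h2 := Real.add_one_le_exp (-(1 / (Q : ℝ)))
    calc (Q : ℝ) - 1 = (Q : ℝ) * (-(1 / (Q : ℝ)) + 1) := by field_simp; ring
      _ ≤ _ := mul_le_mul_of_nonneg_left h2 hQ0.le
  have h2 : ((Q - 1 : ℕ) : ℝ) ^ r ≤ (Q : ℝ) ^ r * Real.exp (-((r : ℝ) / (Q : ℝ))) := by
    calc ((Q - 1 : ℕ) : ℝ) ^ r ≤ ((Q : ℝ) * Real.exp (-(1 / (Q : ℝ)))) ^ r :=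
          pow_le_pow_left₀ (Nat.cast_nonneg _) h1 r
      _ = (Q : ℝ) ^ r * Real.exp (-((r : ℝ) / (Q : ℝ))) := by
          rw [mul_pow, ← Real.exp_nat_mul]
          congr 2
          ring
  have h3 : (2 : ℝ) ≤ Real.exp 1 := by
    have := Real.add_one_le_exp (1 : ℝ)
    linarith
  have h4 : ∀ a : ℕ, (a : ℝ) ≤ Real.exp a := by
    intro a
    have := Real.add_one_le_exp (a : ℝ)
    linarith
  have h5 : (q : ℝ) ^ n ≤ Real.exp ((n : ℝ) * q) := by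
    rw [Real.exp_nat_mul]
    exact pow_le_pow_left₀ (Nat.cast_nonneg _) (h4 q) n
  have h6 : ((t : ℝ) ^ (g + 2)) ^ T ≤ Real.exp ((T : ℝ) * (g + 2) * t) := by
    rw [← pow_mul]
    calc (t : ℝ) ^ ((g + 2) * T) ≤ (Real.exp t) ^ ((g + 2) * T) :=
          pow_le_pow_left₀ (Nat.cast_nonneg _) (h4 t) _
      _ = Real.exp ((T : ℝ) * (g + 2) * t) := by
          rw [← Real.exp_nat_mul]
          congr 1
          push_cast
          ring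
  have h7 : (2 : ℝ) * ((q : ℝ) ^ n * ((t : ℝ) ^ (g + 2)) ^ T) ≤
      Real.exp (1 + (n : ℝ) * q + (T : ℝ) * (g + 2) * t) := by
    rw [Real.exp_add, Real.exp_add, mul_assoc]
    exact mul_le_mul h3 (mul_le_mul h5 h6 (by positivity) (Real.exp_pos _).le) (by positivity)
      (Real.exp_pos _).le
  have h8 : (1 + (n : ℝ) * q + (T : ℝ) * (g + 2) * t) < (r : ℝ) / (Q : ℝ) := by
    rw [lt_div_iff₀ hQ0]
    have h9 : ((Q * (1 + n * q + T * (g + 2) * t) : ℕ) : ℝ) < (r : ℝ) := by exact_mod_cast hr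
    push_cast at h9
    linarith
  have h9 : (2 : ℝ) * ((q : ℝ) ^ n * ((t : ℝ) ^ (g + 2)) ^ T) * ((Q - 1 : ℕ) : ℝ) ^ r <
      (Q : ℝ) ^ r := by
    calc (2 : ℝ) * ((q : ℝ) ^ n * ((t : ℝ) ^ (g + 2)) ^ T) * ((Q - 1 : ℕ) : ℝ) ^ r
        ≤ Real.exp (1 + (n : ℝ) * q + (T : ℝ) * (g + 2) * t) *
          ((Q : ℝ) ^ r * Real.exp (-((r : ℝ) / (Q : ℝ)))) :=
          mul_le_mul h7 h2 (by positivity) (Real.exp_pos _).le
      _ = (Q : ℝ) ^ r * Real.exp (1 + (n : ℝ) * q + (T : ℝ) * (g + 2) * t - (r : ℝ) / (Q : ℝ)) := by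
          rw [sub_eq_add_neg, Real.exp_add (1 + (n : ℝ) * q + (T : ℝ) * (g + 2) * t)]
          ring
      _ < (Q : ℝ) ^ r * 1 := by
          apply mul_lt_mul_of_pos_left _ (pow_pos hQ0 r)
          rw [Real.exp_lt_one_iff]
          linarith
      _ = _ := mul_one _
  exact_mod_cast h9

/-- PROOF: put `Q := q ^ d`, `C := 2 * g * d ^ (2 * g)`, `C' := 1 + q + C * (g + 3)`,
`t := Q * C' + 1`, `T := 2 * ∑ k ∈ range g, (t * d ^ 2) ^ (k + 1) ≤ C * t ^ g`,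
`n := t ^ (g + 1) = sizeB q d g`, `M := n * t = t ^ (g + 2)`; `T ≤ M` as `C ≤ C' ≤ t`. The last
inequality in real numbers: `((Q - 1) / Q) ^ (M - T) ≤ exp (- (M - T) / Q)`
(`1 - 1/Q ≤ exp (-1/Q)`), `2 * q ^ n = exp (log 2 + n * log q)`,
`M ^ T = exp (T * (g + 2) * log t) ≤ exp (T * (g + 2) * t)`, and
`log 2 + n * log q + T * (g + 2) * t + T / Q ≤ C' * t ^ (g + 1) < t ^ (g + 2) / Q = M / Q`
(`log q ≤ q`, `log 2 ≤ 1 ≤ t ^ (g + 1)`, `T ≤ C * t ^ g`; the last step is `Q * C' < t`). -/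
theorem params (q d g : ℕ) (hq : 2 ≤ q) (hd : 1 ≤ d) : ∃ n t T : ℕ, 1 ≤ n ∧
    n ≤ sizeB q d g ∧ T ≤ n * t ∧
    2 * ∑ k ∈ range g, (t * d ^ 2) ^ (k + 1) ≤ T ∧
    2 * (q ^ n * (n * t) ^ T) * (q ^ d - 1) ^ (n * t - T) < (q ^ d) ^ (n * t - T) := by
  have hQ1 : 1 ≤ q ^ d := Nat.one_le_pow _ _ (by omega)
  unfold sizeB
  obtain ⟨Q, hQ⟩ : ∃ Q, Q = q ^ d := ⟨_, rfl⟩
  obtain ⟨C, hC⟩ : ∃ C, C = 2 * g * d ^ (2 * g) := ⟨_, rfl⟩
  obtain ⟨C', hC'⟩ : ∃ C', C' = 1 + q + C * (g + 3) := ⟨_, rfl⟩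
  obtain ⟨t, ht⟩ : ∃ t, t = Q * C' + 1 := ⟨_, rfl⟩
  rw [← hQ, ← hC, ← hC', ← ht]
  rw [← hQ] at hQ1
  have ht1 : 1 ≤ t := by omega
  obtain ⟨T, hT⟩ : ∃ T, T = 2 * ∑ k ∈ range g, (t * d ^ 2) ^ (k + 1) := ⟨_, rfl⟩
  have hTC : T ≤ C * t ^ g := by
    have h1 : ∀ k ∈ range g, (t * d ^ 2) ^ (k + 1) ≤ (t * d ^ 2) ^ g := by
      intro k hk
      apply Nat.pow_le_pow_right
      · exact Nat.mul_pos ht1 (pow_pos hd _)
      · exact Finset.mem_range.mp hk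
    have h2 := Finset.sum_le_card_nsmul _ _ _ h1
    rw [card_range, smul_eq_mul, mul_pow, ← pow_mul] at h2
    calc T = 2 * ∑ k ∈ range g, (t * d ^ 2) ^ (k + 1) := hT
      _ ≤ 2 * (g * (t ^ g * d ^ (2 * g))) := Nat.mul_le_mul_left 2 h2
      _ = C * t ^ g := by rw [hC]; ring
  have hg1 : 1 ≤ t ^ (g + 1) := Nat.one_le_pow _ _ ht1
  have hgg : t ^ g ≤ t ^ (g + 1) := Nat.pow_le_pow_right ht1 (by omega)
  have hmain : Q * (1 + t ^ (g + 1) * q + T * (g + 2) * t + T) < t ^ (g + 1) * t := by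
    have h1 : T * (g + 2) * t ≤ C * (g + 2) * t ^ (g + 1) := by
      calc T * (g + 2) * t ≤ C * t ^ g * (g + 2) * t := by gcongr
        _ = C * (g + 2) * t ^ (g + 1) := by ring
    have h2 : T ≤ C * t ^ (g + 1) := hTC.trans (Nat.mul_le_mul_left _ hgg)
    have h3 : 1 + t ^ (g + 1) * q + T * (g + 2) * t + T ≤ t ^ (g + 1) * C' := by
      calc 1 + t ^ (g + 1) * q + T * (g + 2) * t + T
          ≤ t ^ (g + 1) + t ^ (g + 1) * q + C * (g + 2) * t ^ (g + 1) + C * t ^ (g + 1) := by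
            omega
        _ = t ^ (g + 1) * C' := by rw [hC']; ring
    calc Q * (1 + t ^ (g + 1) * q + T * (g + 2) * t + T) ≤ Q * (t ^ (g + 1) * C') :=
          Nat.mul_le_mul_left _ h3
      _ = t ^ (g + 1) * (Q * C') := by ring
      _ < t ^ (g + 1) * t := Nat.mul_lt_mul_of_pos_left (by omega) hg1
  have hTQ : T ≤ Q * T := Nat.le_mul_of_pos_left _ hQ1
  have hsplit : Q * (1 + t ^ (g + 1) * q + T * (g + 2) * t + T) =
      Q * (1 + t ^ (g + 1) * q + T * (g + 2) * t) + Q * T := by ring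
  rw [hsplit] at hmain
  have hTM : T ≤ t ^ (g + 1) * t := by omega
  refine ⟨t ^ (g + 1), t, T, hg1, le_refl _, hTM, le_of_eq hT.symm, ?_⟩
  have h4 := b3_exp q (t ^ (g + 1)) t g T Q (t ^ (g + 1) * t - T) hQ1 (by omega)
  have h5 : t ^ (g + 1) * t = t ^ (g + 2) := by ring
  rw [← h5] at h4
  exact h4

end Pool.Agent.SQA
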