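import Pool.Agent.SQA.B1
import Pool.Agent.SQA.B2S
import Pool.Agent.SQA.B3

/-!
# [SQA-B4] sparse hypergraphs with small independence number
-/

namespace Pool.Agent.SQA

open Finset

theorem b4_bad {n t d g T : ℕ} (hn : 1 ≤ n) (hS : 2 * ∑ k ∈ range g, (t * d ^ 2) ^ (k + 1) ≤ T)
    (A : Finset (Fin (n * t) → Fin d → Fin n))
    (hA : ∀ F ∈ A, T < ∑ k ∈ range g, (Bad F k).card) :
    2 * A.card < (n ^ d) ^ (n * t) := by
  have h1 : ∀ k, (∑ F : Fin (n * t) → Fin d → Fin n, (Bad F k).card) ≤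
      (t * d ^ 2) ^ (k + 1) * (n ^ d) ^ (n * t) := by
    intro k
    have h2 := sum_bad n d (n * t) k
    have h3 : (n * t * d ^ 2) ^ (k + 1) * (n ^ d) ^ (n * t) =
        ((t * d ^ 2) ^ (k + 1) * (n ^ d) ^ (n * t)) * n ^ (k + 1) := by
      rw [mul_assoc n t, mul_pow n]
      ring
    rw [h3] at h2
    exact Nat.le_of_mul_le_mul_right h2 (Nat.pos_of_ne_zero (pow_ne_zero _ (by omega)))
  have h2 : A.card * (T + 1) ≤ ∑ F ∈ A, ∑ k ∈ range g, (Bad F k).card := by
    rw [← smul_eq_mul, ← Finset.sum_const]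
    exact Finset.sum_le_sum fun F hF => hA F hF
  have h3 : ∑ F ∈ A, ∑ k ∈ range g, (Bad F k).card ≤
      ∑ F : Fin (n * t) → Fin d → Fin n, ∑ k ∈ range g, (Bad F k).card :=
    Finset.sum_le_sum_of_subset (subset_univ _)
  have h4 : ∑ F : Fin (n * t) → Fin d → Fin n, ∑ k ∈ range g, (Bad F k).card ≤
      (∑ k ∈ range g, (t * d ^ 2) ^ (k + 1)) * (n ^ d) ^ (n * t) := by
    rw [Finset.sum_comm, Finset.sum_mul]
    exact Finset.sum_le_sum fun k _ => h1 k
  have h5 : 0 < (n ^ d) ^ (n * t) :=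
    Nat.pos_of_ne_zero (pow_ne_zero _ (pow_ne_zero _ (by omega)))
  set N := (n ^ d) ^ (n * t)
  set S := ∑ k ∈ range g, (t * d ^ 2) ^ (k + 1)
  have h6 : A.card * (T + 1) ≤ S * N := (h2.trans h3).trans h4
  by_contra hcon
  rw [not_lt] at hcon
  have h7 : N * (T + 1) ≤ 2 * A.card * (T + 1) := Nat.mul_le_mul_right _ hcon
  have h8 : 2 * S * N ≤ T * N := Nat.mul_le_mul_right _ hS
  nlinarith

open scoped Classical in
theorem b4_few {n d q M T : ℕ} (hq : 2 ≤ q) (hn : 1 ≤ n)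
    (h : 2 * (q ^ n * M ^ T) * (q ^ d - 1) ^ (M - T) < (q ^ d) ^ (M - T)) :
    2 * (univ.filter (fun F : Fin M → Fin d → Fin n => ∃ (S : Finset (Fin n)) (T' : Finset (Fin M)),
        n ≤ q * S.card ∧ T'.card = T ∧ ∀ j, j ∉ T' → ¬ ∀ s, F j s ∈ S)).card < (n ^ d) ^ M := by
  have h1 := card_exists_fewS (n := n) (d := d) (q := q) (M := M) (T := T) (by omega : 1 ≤ q)
  set B := (univ.filter (fun F : Fin M → Fin d → Fin n => ∃ (S : Finset (Fin n)) (T' : Finset (Fin M)),
        n ≤ q * S.card ∧ T'.card = T ∧ ∀ j, j ∉ T' → ¬ ∀ s, F j s ∈ S)).card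
  have h2 : 2 ^ n ≤ q ^ n := Nat.pow_le_pow_left hq n
  have h5 : 0 < (n ^ d) ^ M := Nat.pos_of_ne_zero (pow_ne_zero _ (pow_ne_zero _ (by omega)))
  set N := (n ^ d) ^ M
  set a := (q ^ d - 1) ^ (M - T)
  set c := (q ^ d) ^ (M - T)
  by_contra hcon
  rw [not_lt] at hcon
  have h6 : N * c ≤ 2 * B * c := Nat.mul_le_mul_right _ hcon
  have h7 : 2 * (B * c) ≤ 2 * (2 ^ n * M ^ T * (N * a)) := Nat.mul_le_mul_left _ h1
  have h8 : 2 ^ n * (2 * (M ^ T * (N * a))) ≤ q ^ n * (2 * (M ^ T * (N * a))) :=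
    Nat.mul_le_mul_right _ h2
  have h9 : N * (2 * (q ^ n * M ^ T) * a) < N * c := Nat.mul_lt_mul_of_pos_left h h5
  have h10 : N * c ≤ N * (2 * (q ^ n * M ^ T) * a) := by
    calc N * c ≤ 2 * B * c := h6
      _ = 2 * (B * c) := by ring
      _ ≤ 2 * (2 ^ n * M ^ T * (N * a)) := h7
      _ = 2 ^ n * (2 * (M ^ T * (N * a))) := by ring
      _ ≤ q ^ n * (2 * (M ^ T * (N * a))) := h8
      _ = N * (2 * (q ^ n * M ^ T) * a) := by ring
  exact absurd h9 (not_lt.2 h10)

theorem b4_sparse {n d g M m : ℕ} (hg : 1 ≤ g) (F : Fin M → Fin d → Fin n) (T' : Finset (Fin M))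
    (hT : ∀ k < g, ∀ x ∈ Bad F k, x.1 0 ∈ T') (e : Fin m → Fin M) (he : Function.Injective e)
    (heT : ∀ j, e j ∉ T') : Sparse g (fun j => F (e j)) := by
  constructor
  · intro j s s' hss
    by_contra hne
    apply heT j
    have hx : ((fun _ => e j, fun _ => s', fun _ => s) :
        (Fin (0 + 1) → Fin M) × (Fin (0 + 1) → Fin d) × (Fin (0 + 1) → Fin d)) ∈ Bad F 0 := by
      rw [mem_Bad]
      refine ⟨fun a b _ => Subsingleton.elim (α := Fin 1) a b, fun _ h => hne h.symm, fun _ => hss⟩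
    exact hT 0 hg _ hx
  · intro k hk2 hkg j y hj hy hw
    obtain ⟨k', rfl⟩ : ∃ k', k = k' + 1 := ⟨k - 1, by omega⟩
    have hne : ∀ i, i < k' + 1 → y i ≠ y (i + 1) := fun i hi => (hw i hi).1
    have hw2 : ∀ i, i < k' + 1 → ∃ s, F (e (j i)) s = y i := fun i hi => (hw i hi).2.1
    have hw3 : ∀ i, i < k' + 1 → ∃ s, F (e (j i)) s = y (i + 1) := fun i hi => (hw i hi).2.2
    have : Nonempty (Fin d) := ⟨(hw2 0 (by omega)).choose⟩
    choose! s hs using hw2
    choose! s' hs' using hw3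
    apply heT (j 0)
    have hx : ((fun i => e (j i), fun i => s i, fun i => s' i) :
        (Fin (k' + 1) → Fin M) × (Fin (k' + 1) → Fin d) × (Fin (k' + 1) → Fin d)) ∈ Bad F k' := by
      rw [mem_Bad]
      refine ⟨?_, ?_, ?_⟩
      · intro a b hab
        have h1 := hj (Set.mem_Iio.2 a.2) (Set.mem_Iio.2 b.2) (he hab)
        exact Fin.ext h1
      · intro i hi
        apply hne i i.2
        have hi' : s i = s' i := hi
        rw [← hs i i.2, ← hs' i i.2, hi']
      · intro i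
        change F (e (j i)) (s' i) = F (e (j (i + 1 : Fin (k' + 1)))) (s (i + 1 : Fin (k' + 1)))
        have h1 : F (e (j i)) (s' i) = y (i + 1) := hs' i i.2
        have h2 : F (e (j ((i + 1 : Fin (k' + 1)) : ℕ))) (s ((i + 1 : Fin (k' + 1)) : ℕ)) =
            y ((i + 1 : Fin (k' + 1)) : ℕ) := hs _ (i + 1 : Fin (k' + 1)).2
        rw [h1, h2]
        rcases Nat.lt_or_ge (i : ℕ) k' with hi | hi
        · rw [Fin.val_add_one_of_lt (by rw [Fin.lt_def]; exact hi)]
        · have h3 : i = Fin.last k' := Fin.ext (by have := i.2; simp only [Fin.val_last]; omega)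
          rw [h3, Fin.last_add_one]
          exact hy
    exact hT k' (by omega) _ hx

/-- PROOF: `n, t, T` from `params`, `M := n * t`, `N0 := (n ^ d) ^ M > 0` the number of all
`F : Fin M → Fin d → Fin n`. By `sum_bad` (divide by `n ^ (k+1)`)
`∑ F, ∑ k ∈ range g, (Bad F k).card ≤ ∑ k ∈ range g, (t * d ^ 2) ^ (k+1) * N0 ≤ T * N0 / 2`, so fewer
than half of the `F` have `T < ∑ k ∈ range g, (Bad F k).card`; by `card_exists_fewS`
(`2 ^ n ≤ q ^ n`) and `params` fewer than half of the `F` have `S` with `n ≤ q * S.card` and `T'`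
with `T` elements such that no `F j`, `j ∉ T'`, is contained in `S`. Take `F` outside of both sets.
Let `T'` be a set of `T` elements containing `x.1 0` for all `x ∈ Bad F k`, `k < g`
(`Finset.exists_superset_card_eq`), `m := M - T` and `L := F ∘ e` with `e : Fin m ↪ Fin M` an
enumeration of the complement of `T'` (`Finset.orderEmbOfFin`). `L j` is injective: otherwise
there is `x ∈ Bad F 0` with `x.1 0 = e j` (`1 ≤ g`). A closed walk of length `k` as in `Sparse`
gives `x ∈ Bad F (k - 1)` with `x.1 0 = e (j 0)`. -/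
theorem hypergraphS (q d g : ℕ) (hq : 2 ≤ q) (hd : 1 ≤ d) (hg : 1 ≤ g) :
    ∃ (n m : ℕ) (L : Fin m → Fin d → Fin n), 1 ≤ n ∧ n ≤ sizeB q d g ∧ Sparse g L ∧
      ∀ S : Finset (Fin n), n ≤ q * S.card → ∃ j, ∀ s, L j s ∈ S := by
  classical
  obtain ⟨n, t, T, hn1, hn2, hT, hsum, hlast⟩ := params q d g hq hd
  let A := univ.filter (fun F : Fin (n * t) → Fin d → Fin n => T < ∑ k ∈ range g, (Bad F k).card)
  have hA := b4_bad hn1 hsum A (fun F hF => (mem_filter.1 hF).2)
  have hB := b4_few (d := d) hq hn1 hlast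
  set B := univ.filter (fun F : Fin (n * t) → Fin d → Fin n => ∃ (S : Finset (Fin n))
    (T' : Finset (Fin (n * t))), n ≤ q * S.card ∧ T'.card = T ∧
      ∀ j, j ∉ T' → ¬ ∀ s, F j s ∈ S) with hBdef
  have hcard : (univ : Finset (Fin (n * t) → Fin d → Fin n)).card = (n ^ d) ^ (n * t) := by
    rw [Finset.card_univ, Fintype.card_fun, Fintype.card_fun, Fintype.card_fin, Fintype.card_fin,
      Fintype.card_fin]
  have hlt : (A ∪ B).card < (univ : Finset (Fin (n * t) → Fin d → Fin n)).card := by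
    have := card_union_le A B
    rw [hcard]
    omega
  obtain ⟨F, -, hF⟩ := Finset.exists_mem_notMem_of_card_lt_card hlt
  rw [mem_union, not_or] at hF
  obtain ⟨hFA, hFB⟩ := hF
  have hFA' : ∑ k ∈ range g, (Bad F k).card ≤ T := by
    by_contra h
    exact hFA (mem_filter.2 ⟨mem_univ _, not_le.1 h⟩)
  have hU : ((range g).biUnion (fun k => (Bad F k).image (fun x => x.1 0))).card ≤ T := by
    refine card_biUnion_le.trans (le_trans ?_ hFA')
    exact Finset.sum_le_sum fun k _ => card_image_le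
  obtain ⟨T', hT1, hT2⟩ := Finset.exists_superset_card_eq hU (by
    rw [Fintype.card_fin]
    exact hT)
  have hc : (T'ᶜ).card = n * t - T := by
    rw [card_compl, Fintype.card_fin, hT2]
  refine ⟨n, n * t - T, fun j => F ((T'ᶜ).orderEmbOfFin hc j), hn1, hn2, ?_, ?_⟩
  · apply b4_sparse hg F T' ?_ _ ((T'ᶜ).orderEmbOfFin hc).injective ?_
    · intro k hk x hx
      exact hT1 (mem_biUnion.2 ⟨k, mem_range.2 hk, mem_image.2 ⟨x, hx, rfl⟩⟩)
    · intro j
      exact mem_compl.1 (Finset.orderEmbOfFin_mem _ hc j)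
  · intro S hS
    by_contra hno
    apply hFB
    rw [hBdef, mem_filter]
    refine ⟨mem_univ _, S, T', hS, hT2, fun j hj hjS => hno ?_⟩
    have h1 : j ∈ Set.range ((T'ᶜ).orderEmbOfFin hc) := by
      rw [Finset.range_orderEmbOfFin]
      exact mem_coe.2 (mem_compl.2 hj)
    obtain ⟨i, hi⟩ := h1
    exact ⟨i, fun s => by show F ((T'ᶜ).orderEmbOfFin hc i) s ∈ S; rw [hi]; exact hjS s⟩

/-- PROOF: `hypergraphS q d (g + 1)`; `Sparse (g + 1) L` implies `Sparse g L`; for a colouring `χ`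
some colour class `S` has `n ≤ q * S.card` (sum over the classes). -/
theorem hypergraph (q d g : ℕ) (hq : 2 ≤ q) (hd : 1 ≤ d) :
    ∃ (n m : ℕ) (L : Fin m → Fin d → Fin n), Sparse g L ∧
      ∀ χ : Fin n → Fin q, ∃ j, MonoF χ (L j) := by
  classical
  obtain ⟨n, m, L, hn1, -, hL, hS⟩ := hypergraphS q d (g + 1) hq hd (by omega)
  refine ⟨n, m, L, ⟨hL.1, fun k h2 hk => hL.2 k h2 (by omega)⟩, fun χ => ?_⟩
  have : NeZero q := ⟨by omega⟩
  have h1 : ∃ i : Fin q, n ≤ q * (univ.filter (fun v => χ v = i)).card := by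
    by_contra hcon
    push Not at hcon
    have h2 : (univ : Finset (Fin n)).card = ∑ i : Fin q, (univ.filter (fun v => χ v = i)).card :=
      Finset.card_eq_sum_card_fiberwise (f := χ) (t := univ) (fun x _ => mem_coe.2 (mem_univ _))
    rw [Finset.card_univ, Fintype.card_fin] at h2
    have h3 : ∑ i : Fin q, q * (univ.filter (fun v => χ v = i)).card < ∑ _i : Fin q, n :=
      Finset.sum_lt_sum_of_nonempty univ_nonempty fun i _ => hcon i
    rw [← Finset.mul_sum, ← h2, Finset.sum_const, Finset.card_univ, Fintype.card_fin,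
      smul_eq_mul] at h3
    exact lt_irrefl _ h3
  obtain ⟨i, hi⟩ := h1
  obtain ⟨j, hj⟩ := hS _ hi
  exact ⟨j, i, fun s => (mem_filter.1 (hj s)).2⟩

end Pool.Agent.SQA
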