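import Pool.Agent.SQA.Defs

/-!
# [SQA] auxiliary definitions and trivial facts
-/

namespace Pool.Agent.SQA

open SimpleGraph

variable {V V' W X U S : Type} {q : ℕ}

/-- The colouring `c` of `G` has no monochromatic copy of `H`. -/
def Free (H : SimpleGraph W) (G : SimpleGraph V) (c : Sym2 V → Fin q) : Prop :=
  ∀ i f, ¬ Mono H G c i f

/-- `G` is not `q`-Ramsey for `H`. -/
def NR (q : ℕ) (H : SimpleGraph W) (G : SimpleGraph V) : Prop :=
  ∃ c : Sym2 V → Fin q, Free H G c

theorem not_ramsey {H : SimpleGraph W} {G : SimpleGraph V} : ¬ Ramsey q H G ↔ NR q H G := by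
  simp [Ramsey, NR, Free]

/-- All edges at `v` are deleted. -/
def del (G : SimpleGraph V) (v : V) : SimpleGraph V where
  Adj a b := G.Adj a b ∧ a ≠ v ∧ b ≠ v
  symm := ⟨fun _ _ h => ⟨h.1.symm, h.2.2, h.2.1⟩⟩
  loopless := ⟨fun _ h => h.1.ne rfl⟩

/-- A new vertex `none` joined to the vertices in `N`. -/
def cone (D : SimpleGraph U) (N : Set U) : SimpleGraph (Option U) where
  Adj x y := (∃ a b, x = some a ∧ y = some b ∧ D.Adj a b) ∨
    (x = none ∧ ∃ b ∈ N, y = some b) ∨ (y = none ∧ ∃ a ∈ N, x = some a)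
  symm := ⟨by
    rintro x y (⟨a, b, hx, hy, hab⟩ | ⟨hx, b, hb, hy⟩ | ⟨hy, a, ha, hx⟩)
    · exact Or.inl ⟨b, a, hy, hx, hab.symm⟩
    · exact Or.inr (Or.inr ⟨hx, b, hb, hy⟩)
    · exact Or.inr (Or.inl ⟨hy, a, ha, hx⟩)⟩
  loopless := ⟨by
    rintro x (⟨a, b, hx, hy, hab⟩ | ⟨hx, b, hb, hy⟩ | ⟨hy, a, ha, hx⟩)
    · rw [hx] at hy; cases hy; exact hab.ne rfl
    · rw [hx] at hy; cases hy
    · rw [hx] at hy; cases hy⟩

@[simp] theorem cone_some_some {D : SimpleGraph U} {N : Set U} {a b : U} :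
    (cone D N).Adj (some a) (some b) ↔ D.Adj a b := by
  simp [cone]

@[simp] theorem cone_none_some {D : SimpleGraph U} {N : Set U} {b : U} :
    (cone D N).Adj none (some b) ↔ b ∈ N := by
  simp [cone]

@[simp] theorem cone_some_none {D : SimpleGraph U} {N : Set U} {a : U} :
    (cone D N).Adj (some a) none ↔ a ∈ N := by
  simp [cone]

@[simp] theorem cone_none_none {D : SimpleGraph U} {N : Set U} :
    ¬ (cone D N).Adj none none := by
  simp [cone]

/-- The colouring `c` of `D` extends to an `H`-free colouring of the cone. -/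
def Ext (H : SimpleGraph W) (D : SimpleGraph U) (N : Set U) (c : Sym2 U → Fin q) : Prop :=
  ∃ c' : Sym2 (Option U) → Fin q, Free H (cone D N) c' ∧
    ∀ a b, D.Adj a b → c' s(some a, some b) = c s(a, b)

/-- A non-extendable pattern. -/
def NonExt (H : SimpleGraph W) (D : SimpleGraph U) (N : Set U) (c : Sym2 U → Fin q) : Prop :=
  Free H D c ∧ ¬ Ext H D N c

/-- `a` and `b` have distance at least `h + 2` after deleting `z`, witnessed by a level
function. -/
def Far (h : ℕ) (G : SimpleGraph V) (z a b : V) : Prop :=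
  ∃ l : V → ℕ, l a = 0 ∧ l b = h + 2 ∧ ∀ x y, G.Adj x y → x ≠ z → y ≠ z → l x ≤ l y + 1

/-- The boundary `b : S → X` of the piece `Γ` is local: a connected set of at most `h` interior
vertices has at most two neighbours in the boundary and these are adjacent in `Γ`. -/
def Loc (h : ℕ) (Γ : SimpleGraph X) (b : S → X) : Prop :=
  ∀ K : Set X, (Γ.induce K).Connected → (∀ s, b s ∉ K) → K.ncard ≤ h →
    {s | ∃ x ∈ K, Γ.Adj (b s) x}.ncard ≤ 2 ∧
    ∀ s t, s ≠ t → (∃ x ∈ K, Γ.Adj (b s) x) → (∃ x ∈ K, Γ.Adj (b t) x) → Γ.Adj (b s) (b t)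

theorem Free.comap {H : SimpleGraph W} {G' : SimpleGraph V'} {c : Sym2 V' → Fin q}
    (h : Free H G' c) {G : SimpleGraph V} {φ : V → V'} (hφ : Function.Injective φ)
    (hadj : ∀ a b, G.Adj a b → G'.Adj (φ a) (φ b)) : Free H G (c ∘ Sym2.map φ) := by
  rintro i f ⟨hf, hf'⟩
  exact h i (φ ∘ f) ⟨hφ.comp hf, fun a b hab => ⟨hadj _ _ (hf' a b hab).1, (hf' a b hab).2⟩⟩

theorem Free.congr {H : SimpleGraph W} {G : SimpleGraph V} {c c' : Sym2 V → Fin q}
    (h : Free H G c) (hc : ∀ a b, G.Adj a b → c' s(a, b) = c s(a, b)) : Free H G c' := by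
  rintro i f ⟨hf, hf'⟩
  exact h i f ⟨hf, fun a b hab => ⟨(hf' a b hab).1, by
    rw [← hc _ _ (hf' a b hab).1]; exact (hf' a b hab).2⟩⟩

theorem Free.mono {H : SimpleGraph W} {G G' : SimpleGraph V} {c : Sym2 V → Fin q}
    (h : Free H G' c) (hG : G ≤ G') : Free H G c := by
  rintro i f ⟨hf, hf'⟩
  exact h i f ⟨hf, fun a b hab => ⟨hG (hf' a b hab).1, (hf' a b hab).2⟩⟩

theorem Free.perm {H : SimpleGraph W} {G : SimpleGraph V} {c : Sym2 V → Fin q}
    (h : Free H G c) (σ : Equiv.Perm (Fin q)) : Free H G (fun e => σ (c e)) := by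
  rintro i f ⟨hf, hf'⟩
  exact h (σ.symm i) f ⟨hf, fun a b hab => ⟨(hf' a b hab).1, by
    rw [Equiv.eq_symm_apply]; exact (hf' a b hab).2⟩⟩

theorem NR.comap {H : SimpleGraph W} {G' : SimpleGraph V'} (h : NR q H G') {G : SimpleGraph V}
    {φ : V → V'} (hφ : Function.Injective φ) (hadj : ∀ a b, G.Adj a b → G'.Adj (φ a) (φ b)) :
    NR q H G := by
  obtain ⟨c, hc⟩ := h
  exact ⟨_, hc.comap hφ hadj⟩

theorem NR.mono {H : SimpleGraph W} {G G' : SimpleGraph V} (h : NR q H G') (hG : G ≤ G') :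
    NR q H G := by
  obtain ⟨c, hc⟩ := h
  exact ⟨c, hc.mono hG⟩

/-- An extension may be chosen to agree with `c` on all pairs. -/
theorem Ext.exact {H : SimpleGraph W} {D : SimpleGraph U} {N : Set U} {c : Sym2 U → Fin q}
    (h : Ext H D N c) : ∃ c' : Sym2 (Option U) → Fin q, Free H (cone D N) c' ∧
      ∀ a b, c' s(some a, some b) = c s(a, b) := by
  classical
  obtain ⟨c', h1, h2⟩ := h
  refine ⟨fun e => if h : ∃ e', e = Sym2.map some e' then c h.choose else c' e, ?_, ?_⟩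
  · apply h1.congr
    intro x y hxy
    by_cases h : ∃ e', s(x, y) = Sym2.map some e'
    · rw [dif_pos h]
      obtain ⟨e', he⟩ := h
      have hc := (⟨e', he⟩ : ∃ e', s(x, y) = Sym2.map some e').choose_spec
      generalize (⟨e', he⟩ : ∃ e', s(x, y) = Sym2.map some e').choose = e'' at hc
      induction e'' with
      | _ a b =>
        rw [Sym2.map_mk] at hc
        rw [hc, h2 a b]
        rw [← SimpleGraph.mem_edgeSet, hc, SimpleGraph.mem_edgeSet, cone_some_some] at hxy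
        exact hxy
    · rw [dif_neg h]
  · intro a b
    have h : ∃ e', s(some a, some b) = Sym2.map some e' := ⟨s(a, b), by simp⟩
    simp only [dif_pos h]
    have hc := h.choose_spec
    generalize h.choose = e'' at hc
    induction e'' with
    | _ a' b' =>
      rw [Sym2.map_mk, Sym2.eq_iff] at hc
      rcases hc with ⟨h1, h2⟩ | ⟨h1, h2⟩
      · cases h1; cases h2; rfl
      · cases h1; cases h2; rw [Sym2.eq_swap]

end Pool.Agent.SQA
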