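import Pool.Agent.SQA.Base

/-!
# [SQA-C] gluing pieces on a base: definitions

`Fam VB S`: a family of graphs `Γ j` on `X j` (the pieces) with boundaries `b j : S → X j`, which
are placed on the base `VB` by `φ j : S → VB`. `F.VT` is the vertex set of the amalgam: the base
and the interior vertices of the pieces. `F.emb j : X j → F.VT` is the embedding of the piece `j`,
`F.tot B` the amalgam with the base graph `B`.
-/

namespace Pool.Agent.SQA

open SimpleGraph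

/-- A family of pieces. -/
structure Fam (VB S : Type) where
  J : Type
  X : J → Type
  Γ : ∀ j, SimpleGraph (X j)
  b : ∀ j, S → X j
  φ : J → S → VB
  b_inj : ∀ j, Function.Injective (b j)
  φ_inj : ∀ j, Function.Injective (φ j)

namespace Fam

variable {VB S : Type} (F : Fam VB S)

/-- The vertices of the amalgam: base vertices and interior vertices of the pieces. -/
abbrev VT : Type := VB ⊕ (Σ j : F.J, {x : F.X j // ∀ s, F.b j s ≠ x})

open Classical in
/-- The embedding of the piece `j`. -/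
noncomputable def emb (j : F.J) (x : F.X j) : F.VT :=
  if h : ∃ s, F.b j s = x then Sum.inl (F.φ j h.choose)
  else Sum.inr ⟨j, x, fun s hs => h ⟨s, hs⟩⟩

theorem emb_b (j : F.J) (s : S) : F.emb j (F.b j s) = Sum.inl (F.φ j s) := by
  have h : ∃ s', F.b j s' = F.b j s := ⟨s, rfl⟩
  rw [emb, dif_pos h]
  congr 2
  exact F.b_inj j h.choose_spec

theorem emb_int (j : F.J) (x : F.X j) (h : ∀ s, F.b j s ≠ x) :
    F.emb j x = Sum.inr ⟨j, x, h⟩ := by
  rw [emb, dif_neg (fun ⟨s, hs⟩ => h s hs)]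

theorem emb_eq_inl {j : F.J} {x : F.X j} {v : VB} (h : F.emb j x = Sum.inl v) :
    ∃ s, x = F.b j s ∧ v = F.φ j s := by
  by_cases hs : ∃ s, F.b j s = x
  · obtain ⟨s, rfl⟩ := hs
    rw [emb_b] at h
    exact ⟨s, rfl, (Sum.inl.inj h).symm⟩
  · rw [emb_int F j x (fun s h' => hs ⟨s, h'⟩)] at h
    cases h

theorem emb_eq_inr {j j' : F.J} {x : F.X j} {y : {x : F.X j' // ∀ s, F.b j' s ≠ x}}
    (h : F.emb j x = Sum.inr ⟨j', y⟩) : ∃ e : j = j', e ▸ x = y.1 := by
  by_cases hs : ∃ s, F.b j s = x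
  · obtain ⟨s, rfl⟩ := hs
    rw [emb_b] at h
    cases h
  · rw [emb_int F j x (fun s h' => hs ⟨s, h'⟩)] at h
    cases h
    exact ⟨rfl, rfl⟩

theorem emb_inj (j : F.J) : Function.Injective (F.emb j) := by
  intro x y hxy
  rcases h : F.emb j y with v | ⟨j', z⟩
  · obtain ⟨s, rfl, hs⟩ := F.emb_eq_inl (hxy.trans h)
    obtain ⟨t, rfl, ht⟩ := F.emb_eq_inl h
    rw [F.φ_inj j (hs.symm.trans ht)]
  · obtain ⟨e, h1⟩ := F.emb_eq_inr (hxy.trans h)
    obtain ⟨e', h2⟩ := F.emb_eq_inr h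
    subst e
    exact h1.trans h2.symm

/-- The edges of the pieces. -/
def rest : SimpleGraph F.VT where
  Adj u w := ∃ j x y, (F.Γ j).Adj x y ∧ F.emb j x = u ∧ F.emb j y = w
  symm := ⟨fun _ _ ⟨j, x, y, h, hx, hy⟩ => ⟨j, y, x, h.symm, hy, hx⟩⟩
  loopless := ⟨fun _ ⟨j, x, y, h, hx, hy⟩ => h.ne (F.emb_inj j (hx.trans hy.symm))⟩

/-- The amalgam. -/
def tot (B : SimpleGraph VB) : SimpleGraph F.VT := B.map Sum.inl ⊔ F.rest

theorem tot_adj {B : SimpleGraph VB} {u w : F.VT} : (F.tot B).Adj u w ↔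
    (∃ a b, B.Adj a b ∧ Sum.inl a = u ∧ Sum.inl b = w) ∨
    ∃ j x y, (F.Γ j).Adj x y ∧ F.emb j x = u ∧ F.emb j y = w := by
  rw [tot, SimpleGraph.sup_adj]
  refine or_congr ?_ Iff.rfl
  rw [SimpleGraph.map_adj']
  constructor
  · rintro ⟨_, a, b, hab, ha, hb⟩
    exact ⟨a, b, hab, ha, hb⟩
  · rintro ⟨a, b, hab, rfl, rfl⟩
    exact ⟨fun h => hab.ne (Sum.inl.inj h), a, b, hab, rfl, rfl⟩

/-- An edge at an interior vertex is an edge of its piece. -/
theorem tot_adj_inr {B : SimpleGraph VB} {u : F.VT} {j : F.J}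
    {y : {x : F.X j // ∀ s, F.b j s ≠ x}} (h : (F.tot B).Adj u (Sum.inr ⟨j, y⟩)) :
    ∃ x, F.emb j x = u ∧ (F.Γ j).Adj x y.1 := by
  rw [tot_adj] at h
  rcases h with ⟨a, b, _, _, hb⟩ | ⟨j', x, z, hxz, hx, hz⟩
  · cases hb
  · obtain ⟨e, h1⟩ := F.emb_eq_inr hz
    subst e
    subst h1
    exact ⟨x, hx, hxz⟩

theorem tot_adj_emb {B : SimpleGraph VB} {j : F.J} {x y : F.X j} (h : (F.Γ j).Adj x y) :
    (F.tot B).Adj (F.emb j x) (F.emb j y) :=
  F.tot_adj.mpr (Or.inr ⟨j, x, y, h, rfl, rfl⟩)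

theorem tot_adj_base {B : SimpleGraph VB} {x y : VB} (h : B.Adj x y) :
    (F.tot B).Adj (Sum.inl x) (Sum.inl y) :=
  F.tot_adj.mpr (Or.inl ⟨x, y, h, rfl, rfl⟩)

/-- The edges of the pieces inside the boundary are base edges. -/
def Compat (B : SimpleGraph VB) : Prop :=
  ∀ j s t, (F.Γ j).Adj (F.b j s) (F.b j t) → B.Adj (F.φ j s) (F.φ j t)

variable {W : Type} {q : ℕ}

theorem free_base {H : SimpleGraph W} {B : SimpleGraph VB} {c : Sym2 F.VT → Fin q}
    (h : Free H (F.tot B) c) : Free H B (c ∘ Sym2.map Sum.inl) :=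
  h.comap Sum.inl_injective (fun _ _ h' => F.tot_adj_base h')

theorem free_piece {H : SimpleGraph W} {B : SimpleGraph VB} {c : Sym2 F.VT → Fin q}
    (h : Free H (F.tot B) c) (j : F.J) : Free H (F.Γ j) (c ∘ Sym2.map (F.emb j)) :=
  h.comap (F.emb_inj j) (fun _ _ h' => F.tot_adj_emb h')

theorem finite_VT [Finite VB] [Finite F.J] [∀ j, Finite (F.X j)] : Finite F.VT := inferInstance

end Fam

end Pool.Agent.SQA
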