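import Pool.Agent.SQA.C0
import Pool.Agent.SQA.A1
import Pool.Agent.SQA.A2

/-!
# [SQA-C1] a copy of `H` in an amalgam lies in the base or in one piece
-/

namespace Pool.Agent.SQA

open SimpleGraph

variable {W VB S : Type}

/-- PROOF: First case: all `f w` are `Sum.inl _`. Then `f = Sum.inl ∘ f'`, and an edge of the
amalgam between base vertices is a base edge (`tot_adj`, `emb_eq_inl`, `hB`).
Second case: `f w0 = Sum.inr ⟨j, x0⟩`. Let `T := {w | ∃ x, f w = Sum.inr ⟨j, x⟩}` and let `K0 ⊆ T`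
be the component of `w0` (`exists_component`). Let
`K := {x | ∃ h : (∀ s, F.b j s ≠ x), ∃ w ∈ K0, f w = Sum.inr ⟨j, x, h⟩}`: it is connected in `Γ j`
(`connected_image` with a function `W → X j`, `tot_adj_inr`), avoids the boundary and has at most
`Nat.card W` elements, so `hloc` applies. A vertex `w ∉ K0` with a neighbour `u ∈ K0` is not in
`T`; by `tot_adj_inr`, `f w = F.emb j y` with `Γ j`-adjacent `y`, `f u`; `y` is not interior
(else `w ∈ T`), so `y = F.b j s` with `s` adjacent to `K`: hence there are at most two such `w`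
(`f w = Sum.inl (F.φ j s)`, `f` injective). By `three_closed` every `w` is in `K0` or has a
neighbour in `K0`, so `f w = F.emb j (f' w)` for all `w`. Edges of `H`: if one end is in `K0` use
`tot_adj_inr` and `emb_inj`; if both ends are outside of `K0` they are mapped to two different
boundary vertices adjacent to `K`, which are adjacent in `Γ j` by the second part of `hloc`. -/
theorem Fam.copy [Finite W] (F : Fam VB S) [Finite S] [∀ j, Finite (F.X j)] {H : SimpleGraph W}
    (hH : ThreeConnected H) {B : SimpleGraph VB}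
    (hloc : ∀ j, Loc (Nat.card W) (F.Γ j) (F.b j)) (hB : F.Compat B) {f : W → F.VT}
    (hf : Function.Injective f) (hadj : ∀ a b, H.Adj a b → (F.tot B).Adj (f a) (f b)) :
    (∃ f' : W → VB, (∀ w, f w = Sum.inl (f' w)) ∧ ∀ a b, H.Adj a b → B.Adj (f' a) (f' b)) ∨
    ∃ j, ∃ f' : W → F.X j, (∀ w, f w = F.emb j (f' w)) ∧
      ∀ a b, H.Adj a b → (F.Γ j).Adj (f' a) (f' b) := by
  classical
  by_cases hall : ∀ w, ∃ v, f w = Sum.inl v
  · left
    choose f' hf' using hall
    refine ⟨f', hf', fun a b hab => ?_⟩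
    have h1 := hadj a b hab
    rw [hf', hf', F.tot_adj] at h1
    rcases h1 with ⟨a', b', h2, h3, h4⟩ | ⟨j, x, y, h2, h3, h4⟩
    · rw [← Sum.inl.inj h3, ← Sum.inl.inj h4]
      exact h2
    · obtain ⟨s, rfl, hs⟩ := F.emb_eq_inl h3
      obtain ⟨t, rfl, ht⟩ := F.emb_eq_inl h4
      rw [hs, ht]
      exact hB j s t h2
  · right
    push Not at hall
    obtain ⟨w0, hw0⟩ := hall
    obtain ⟨j, x0, hx0⟩ : ∃ (j : F.J) (x0 : {x : F.X j // ∀ s, F.b j s ≠ x}), f w0 = Sum.inr ⟨j, x0⟩ := by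
      rcases h : f w0 with v | ⟨j, x0⟩
      · exact absurd h (hw0 v)
      · exact ⟨j, x0, rfl⟩
    refine ⟨j, ?_⟩
    let T : Set W := {w | ∃ x, f w = Sum.inr ⟨j, x⟩}
    obtain ⟨K0, hK0T, hw0K, hK0c, hK0cl⟩ := exists_component H T (w0 := w0) ⟨x0, hx0⟩
    have hg : ∀ w, ∃ x : {x : F.X j // ∀ s, F.b j s ≠ x}, w ∈ T → f w = Sum.inr ⟨j, x⟩ := by
      intro w
      by_cases hw : w ∈ T
      · obtain ⟨x, hx⟩ := hw
        exact ⟨x, fun _ => hx⟩
      · exact ⟨x0, fun h => absurd h hw⟩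
    choose g hg using hg
    have hge : ∀ w ∈ T, f w = F.emb j (g w).1 := fun w hw => by
      rw [F.emb_int j (g w).1 (g w).2]
      exact hg w hw
    have hedge : ∀ a, ∀ b ∈ K0, H.Adj a b → ∃ x, F.emb j x = f a ∧ (F.Γ j).Adj x (g b).1 := by
      intro a b hb hab
      have h1 := hadj a b hab
      rw [hg b (hK0T hb)] at h1
      exact F.tot_adj_inr h1
    let K : Set (F.X j) := (fun w => (g w).1) '' K0
    have hKc : ((F.Γ j).induce K).Connected := by
      refine connected_image (fun w => (g w).1) K0 hK0c fun a ha b hb hab => ?_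
      obtain ⟨x, hx, hxb⟩ := hedge a b hb hab
      rw [hge a (hK0T ha)] at hx
      rw [← F.emb_inj j hx]
      exact hxb
    have hKb : ∀ s, F.b j s ∉ K := by
      rintro s ⟨w, -, hw⟩
      exact (g w).2 s hw.symm
    have hKn : K.ncard ≤ Nat.card W :=
      (Set.ncard_image_le (Set.toFinite K0)).trans (Set.ncard_le_card K0)
    obtain ⟨h1, h2⟩ := hloc j K hKc hKb hKn
    let N : Set W := {w | w ∉ K0 ∧ ∃ u ∈ K0, H.Adj w u}
    have hN : ∀ w ∈ N, ∃ s, f w = Sum.inl (F.φ j s) ∧ ∃ x ∈ K, (F.Γ j).Adj (F.b j s) x := by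
      rintro w ⟨hwK, u, hu, hwu⟩
      obtain ⟨x, hx, hxu⟩ := hedge w u hu hwu
      by_cases hs : ∃ s, F.b j s = x
      · obtain ⟨s, rfl⟩ := hs
        exact ⟨s, by rw [← hx, F.emb_b], (g u).1, ⟨u, hu, rfl⟩, hxu⟩
      · exfalso
        push Not at hs
        rw [F.emb_int j x hs] at hx
        exact hwK (hK0cl u hu w ⟨⟨x, hs⟩, hx.symm⟩ hwu)
    have hN2 : N.ncard ≤ 2 := by
      rcases N.eq_empty_or_nonempty with h0 | ⟨n0, hn0⟩
      · rw [h0, Set.ncard_empty]
        exact Nat.zero_le _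
      · obtain ⟨s0, -, -⟩ := hN n0 hn0
        have hσ : ∀ w, ∃ s, w ∈ N → f w = Sum.inl (F.φ j s) ∧ ∃ x ∈ K, (F.Γ j).Adj (F.b j s) x := by
          intro w
          by_cases hw : w ∈ N
          · obtain ⟨s, hs⟩ := hN w hw
            exact ⟨s, fun _ => hs⟩
          · exact ⟨s0, fun h => absurd h hw⟩
        choose σ hσ using hσ
        refine (Set.ncard_le_ncard_of_injOn σ (fun w hw => (hσ w hw).2) (fun w hw w' hw' h => ?_)
          (Set.toFinite _)).trans h1
        apply hf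
        rw [(hσ w hw).1, (hσ w' hw').1, h]
    have hcl := three_closed hH K0 ⟨w0, hw0K⟩ hN2
    have hf' : ∀ w, ∃ x : F.X j, f w = F.emb j x := by
      intro w
      by_cases hw : w ∈ K0
      · exact ⟨_, hge w (hK0T hw)⟩
      · obtain ⟨s, hs, -⟩ := hN w ⟨hw, (hcl w).resolve_left hw⟩
        exact ⟨F.b j s, by rw [hs, F.emb_b]⟩
    choose f' hf' using hf'
    have hone : ∀ a, ∀ b ∈ K0, H.Adj a b → (F.Γ j).Adj (f' a) (f' b) := by
      intro a b hb hab
      obtain ⟨x, hx, hxb⟩ := hedge a b hb hab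
      have h3 : x = f' a := F.emb_inj j (by rw [hx, ← hf'])
      have h4 : (g b).1 = f' b := F.emb_inj j (by rw [← hge b (hK0T hb), ← hf'])
      rw [← h3, ← h4]
      exact hxb
    refine ⟨f', hf', fun a b hab => ?_⟩
    by_cases hb : b ∈ K0
    · exact hone a b hb hab
    · by_cases ha : a ∈ K0
      · exact (hone b a ha hab.symm).symm
      · obtain ⟨s, hs, hs'⟩ := hN a ⟨ha, (hcl a).resolve_left ha⟩
        obtain ⟨t, ht, ht'⟩ := hN b ⟨hb, (hcl b).resolve_left hb⟩
        have h3 : f' a = F.b j s := F.emb_inj j (by rw [← hf', hs, F.emb_b])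
        have h4 : f' b = F.b j t := F.emb_inj j (by rw [← hf', ht, F.emb_b])
        rw [h3, h4]
        refine h2 s t ?_ hs' ht'
        rintro rfl
        exact hab.ne (hf (hs.trans ht.symm))

end Pool.Agent.SQA
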