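import Pool.Agent.SQA.C1

/-!
# [SQA-C2] gluing colourings
-/

namespace Pool.Agent.SQA

open SimpleGraph

variable {W VB S : Type} {q : ℕ}

/-- PROOF: put `c e := cB e'` if `e = Sym2.map Sum.inl e'` (unique `e'`, `Sym2.map` of an injective
function is injective), otherwise `c e := cj j e'` if `e = Sym2.map (F.emb j) e'` (some choice of
`j`, `e'`; if `e` contains an interior vertex, `j` and `e'` are unique), otherwise
anything (`cB` gives an element of `Fin q` if `VB` is nonempty; if `VB` is empty or `q = 0` treat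
these cases separately, or use the value of some `cj`, or `Nonempty (Fin q)` from `hq`). The last
claim for an edge `x y` of `Γ j` with both ends in the boundary: by `hB` and `hag`. `Free`: by
`Fam.copy` a monochromatic copy is a monochromatic copy in the base or in one piece. -/
theorem Fam.glue [Finite W] (F : Fam VB S) [Finite S] [∀ j, Finite (F.X j)]
    {H : SimpleGraph W} (hH : ThreeConnected H) (hq : 1 ≤ q) {B : SimpleGraph VB}
    (hloc : ∀ j, Loc (Nat.card W) (F.Γ j) (F.b j)) (hB : F.Compat B)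
    {cB : Sym2 VB → Fin q} (hcB : Free H B cB) {cj : ∀ j, Sym2 (F.X j) → Fin q}
    (hcj : ∀ j, Free H (F.Γ j) (cj j))
    (hag : ∀ j s t, (F.Γ j).Adj (F.b j s) (F.b j t) →
      cj j s(F.b j s, F.b j t) = cB s(F.φ j s, F.φ j t)) :
    ∃ c : Sym2 F.VT → Fin q, Free H (F.tot B) c ∧
      (∀ x y, c s(Sum.inl x, Sum.inl y) = cB s(x, y)) ∧
      ∀ j x y, (F.Γ j).Adj x y → c s(F.emb j x, F.emb j y) = cj j s(x, y) := by
  classical
  let P : Sym2 F.VT → Fin q → Prop := fun e v => (∃ x y, s(Sum.inl x, Sum.inl y) = e ∧ v = cB s(x, y)) ∨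
    (∃ j x y, (F.Γ j).Adj x y ∧ s(F.emb j x, F.emb j y) = e ∧ v = cj j s(x, y))
  -- uniqueness
  have hu0 : ∀ x y x' y', (s(Sum.inl x, Sum.inl y) : Sym2 F.VT) = s(Sum.inl x', Sum.inl y') →
      cB s(x, y) = cB s(x', y') := by
    intro x y x' y' h
    rw [Sym2.eq_iff] at h
    rcases h with ⟨h1, h2⟩ | ⟨h1, h2⟩
    · rw [Sum.inl.inj h1, Sum.inl.inj h2]
    · rw [Sum.inl.inj h1, Sum.inl.inj h2, Sym2.eq_swap]
  have hu1 : ∀ x y j x' y', (F.Γ j).Adj x' y' → (s(Sum.inl x, Sum.inl y) : Sym2 F.VT) = s(F.emb j x', F.emb j y') →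
      cj j s(x', y') = cB s(x, y) := by
    intro x y j x' y' hadj h
    rw [Sym2.eq_iff] at h
    rcases h with ⟨h1, h2⟩ | ⟨h1, h2⟩
    · obtain ⟨s, rfl, hs⟩ := F.emb_eq_inl h1.symm
      obtain ⟨t, rfl, ht⟩ := F.emb_eq_inl h2.symm
      rw [hag j s t hadj, hs, ht]
    · obtain ⟨s, rfl, hs⟩ := F.emb_eq_inl h1.symm
      obtain ⟨t, rfl, ht⟩ := F.emb_eq_inl h2.symm
      rw [hag j t s hadj, hs, ht, Sym2.eq_swap]
  have hu2 : ∀ j x y j' x' y', (F.Γ j).Adj x y → (F.Γ j').Adj x' y' →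
      (s(F.emb j x, F.emb j y) : Sym2 F.VT) = s(F.emb j' x', F.emb j' y') →
      cj j s(x, y) = cj j' s(x', y') := by
    intro j x y j' x' y' hadj hadj' h
    -- reduce to the ordered case
    have key : ∀ x' y', (F.Γ j').Adj x' y' → F.emb j x = F.emb j' x' → F.emb j y = F.emb j' y' →
        cj j s(x, y) = cj j' s(x', y') := by
      intro x' y' hadj' h1 h2
      rcases hx : F.emb j x with a | ⟨j1, z⟩
      · rcases hy : F.emb j y with b | ⟨j1, z⟩
        · rw [hu1 a b j x y hadj (by rw [hx, hy]), hu1 a b j' x' y' hadj' (by rw [← hx, ← hy, h1, h2])]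
        · obtain ⟨e, -⟩ := F.emb_eq_inr hy
          obtain ⟨e', -⟩ := F.emb_eq_inr (h2.symm.trans hy)
          subst e
          subst e'
          rw [F.emb_inj _ h1, F.emb_inj _ h2]
      · obtain ⟨e, -⟩ := F.emb_eq_inr hx
        obtain ⟨e', -⟩ := F.emb_eq_inr (h1.symm.trans hx)
        subst e
        subst e'
        rw [F.emb_inj _ h1, F.emb_inj _ h2]
    rw [Sym2.eq_iff] at h
    rcases h with ⟨h1, h2⟩ | ⟨h1, h2⟩
    · exact key x' y' hadj' h1 h2
    · rw [key y' x' hadj'.symm h1 h2, Sym2.eq_swap]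
  have hPu : ∀ e v v', P e v → P e v' → v = v' := by
    rintro e v v' (⟨x, y, he, rfl⟩ | ⟨j, x, y, hadj, he, rfl⟩) (⟨x', y', he', rfl⟩ | ⟨j', x', y', hadj', he', rfl⟩)
    · exact hu0 _ _ _ _ (he.trans he'.symm)
    · exact (hu1 _ _ _ _ _ hadj' (he.trans he'.symm)).symm
    · exact hu1 _ _ _ _ _ hadj (he'.trans he.symm)
    · exact hu2 _ _ _ _ _ _ hadj hadj' (he.trans he'.symm)
  let c : Sym2 F.VT → Fin q := fun e => if h : ∃ v, P e v then h.choose else ⟨0, hq⟩
  have hc : ∀ e v, P e v → c e = v := by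
    intro e v hv
    have h : ∃ v, P e v := ⟨v, hv⟩
    simp only [c, dif_pos h]
    exact hPu e _ _ h.choose_spec hv
  have hc1 : ∀ x y, c s(Sum.inl x, Sum.inl y) = cB s(x, y) := fun x y => hc _ _ (Or.inl ⟨x, y, rfl, rfl⟩)
  have hc2 : ∀ j x y, (F.Γ j).Adj x y → c s(F.emb j x, F.emb j y) = cj j s(x, y) := fun j x y h =>
    hc _ _ (Or.inr ⟨j, x, y, h, rfl, rfl⟩)
  refine ⟨c, ?_, hc1, hc2⟩
  rintro i f ⟨hf, hf'⟩
  rcases F.copy hH hloc hB hf (fun a b hab => (hf' a b hab).1) with ⟨f', h1, h2⟩ | ⟨j, f', h1, h2⟩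
  · refine hcB i f' ⟨fun a b hab => hf (by rw [h1, h1, hab]), fun a b hab => ⟨h2 a b hab, ?_⟩⟩
    have h3 := (hf' a b hab).2
    rw [h1, h1, hc1] at h3
    exact h3
  · refine hcj j i f' ⟨fun a b hab => hf (by rw [h1, h1, hab]), fun a b hab => ⟨h2 a b hab, ?_⟩⟩
    have h3 := (hf' a b hab).2
    rw [h1, h1, hc2 j _ _ (h2 a b hab)] at h3
    exact h3

end Pool.Agent.SQA
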