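import Pool.Agent.SQA.C0
import Pool.Agent.SQA.B0

/-!
# [SQA-D] negative adjacency senders: definitions

`Γ` is a graph on `X` with a vertex `v` whose neighbours are `ν 0, ..., ν (d - 1)`. `copies m Γ`
are `m` disjoint copies. `lab` is the label of a vertex `(j, x)`: all `(j, v)` have the same
label, the label of `(j, ν s)` is `Sum.inl (L j s)`, the other vertices have their own label.
A good identification `p` identifies all `(j, v)` with `(j0, v)` and respects the labels.
-/

namespace Pool.Agent.SQA

open SimpleGraph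

variable {X V W : Type} {q n m d : ℕ}

/-- `m` disjoint copies of `Γ`. -/
def copies (m : ℕ) (Γ : SimpleGraph X) : SimpleGraph (Fin m × X) where
  Adj a b := a.1 = b.1 ∧ Γ.Adj a.2 b.2
  symm := ⟨fun _ _ h => ⟨h.1.symm, h.2.symm⟩⟩
  loopless := ⟨fun _ h => h.2.ne rfl⟩

open Classical in
/-- The label of a vertex. -/
noncomputable def lab (v : X) (ν : Fin d → X) (L : Fin m → Fin d → Fin n) (j0 : Fin m)
    (a : Fin m × X) : Fin n ⊕ (Fin m × X) :=
  if a.2 = v then Sum.inr (j0, v)
  else if h : ∃ s, ν s = a.2 then Sum.inl (L a.1 h.choose)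
  else Sum.inr a

/-- Good identifications. -/
def GoodId (v : X) (ν : Fin d → X) (L : Fin m → Fin d → Fin n) (j0 : Fin m)
    (p : Fin m × X → Fin m × X) : Prop :=
  (∀ j, p (j, v) = (j0, v)) ∧ ∀ a, lab v ν L j0 (p a) = lab v ν L j0 a

theorem lab_v (v : X) (ν : Fin d → X) (L : Fin m → Fin d → Fin n) (j0 j : Fin m) :
    lab v ν L j0 (j, v) = Sum.inr (j0, v) := by
  simp [lab]

theorem lab_leaf {v : X} {ν : Fin d → X} (hν : Function.Injective ν) (hv : ∀ s, ν s ≠ v)
    (L : Fin m → Fin d → Fin n) (j0 j : Fin m) (s : Fin d) :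
    lab v ν L j0 (j, ν s) = Sum.inl (L j s) := by
  have h : ∃ s', ν s' = (j, ν s).2 := ⟨s, rfl⟩
  rw [lab, if_neg (hv s), dif_pos h]
  congr 2
  exact hν h.choose_spec

theorem lab_int {v : X} {ν : Fin d → X} (L : Fin m → Fin d → Fin n) (j0 j : Fin m) {x : X}
    (hx : x ≠ v) (hx' : ∀ s, ν s ≠ x) : lab v ν L j0 (j, x) = Sum.inr (j, x) := by
  rw [lab, if_neg (by simpa using hx), dif_neg (by rintro ⟨s, hs⟩; exact hx' s hs)]

open Classical in
/-- `b` is identified with `a`. -/
noncomputable def mg (a b : V) (x : V) : V := if x = b then a else x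

/-- Adjacency senders: two edges `z a`, `z b` which have the same colour (`pos = true`), or
different colours (`pos = false`), in all `H`-free colourings; `a` and `b` are far from each
other after the deletion of `z`. -/
structure ASender (q : ℕ) (H : SimpleGraph W) (pos : Bool) (G : SimpleGraph V) (z a b : V) :
    Prop where
  za : G.Adj z a
  zb : G.Adj z b
  far : Far (Nat.card W) G z a b
  force : ∀ c : Sym2 V → Fin q, Free H G c → (c s(z, a) = c s(z, b) ↔ pos = true)
  real : ∀ i j : Fin q, (i = j ↔ pos = true) →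
    ∃ c : Sym2 V → Fin q, Free H G c ∧ c s(z, a) = i ∧ c s(z, b) = j

end Pool.Agent.SQA
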