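import Pool.Agent.SQA.D0
import Pool.Agent.SQA.A2
import Pool.Agent.SQA.A6

/-!
# [SQA-D1] a vertex whose star is never monochromatic
-/

namespace Pool.Agent.SQA

open SimpleGraph

variable {W : Type} {q : ℕ}

/-- PROOF: `G` a minimal Ramsey graph (`sq_attained`), it has an edge `v y` (`H` has an edge by
`three_nbr` and `G` contains a copy). `Γ := G.deleteEdges {s(v, y)}` is `NR` (`nr_edge`). Let `c`
be an `H`-free colouring of `Γ` such that all edges at `v` have colour `i`; let `i' ≠ i` (`2 ≤ q`)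
and `c' := c` except `c' s(v, y) = i'`. `G` is Ramsey, so there is a monochromatic copy `f` in
`G` for `c'`; it uses the edge `s(v, y)` (otherwise it is a copy in `Γ` for `c`), so its colour
is `i'`, and `v = f w`; `w` has a neighbour `u` with `f u ≠ y` (`three_nbr`), the edge
`s(v, f u)` has colour `i ≠ i'`: contradiction. -/
theorem exists_star [Finite W] [Nonempty W] (hq : 2 ≤ q) {H : SimpleGraph W}
    (hH : ThreeConnected H) :
    ∃ (n : ℕ) (Γ : SimpleGraph (Fin n)) (v : Fin n), NR q H Γ ∧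
      ∀ c : Sym2 (Fin n) → Fin q, Free H Γ c → ∀ i, ∃ x, Γ.Adj v x ∧ c s(v, x) ≠ i := by
  classical
  obtain ⟨n, G, _, hG, _⟩ := sq_attained (show 1 ≤ q by omega) H
  obtain ⟨w0⟩ := (inferInstance : Nonempty W)
  obtain ⟨u0, hu0, _, _⟩ := three_nbr hH w0 w0 w0
  obtain ⟨_, f0, hf0⟩ := hG.1 (fun _ => ⟨0, by omega⟩)
  obtain ⟨hvy, _⟩ := hf0.2 w0 u0 hu0
  generalize f0 w0 = v at hvy
  generalize f0 u0 = y at hvy
  refine ⟨n, G.deleteEdges {s(v, y)}, v, hG.nr_edge hvy, ?_⟩
  intro c hc i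
  by_contra hcon
  push Not at hcon
  have hnt : Nontrivial (Fin q) := Fin.nontrivial_iff_two_le.2 hq
  obtain ⟨i', hi'⟩ := exists_ne i
  obtain ⟨j, f, hf, hf2⟩ := hG.1 (Function.update c s(v, y) i')
  -- the edges different from the edge `v y`
  have key : ∀ a b, H.Adj a b → s(f a, f b) ≠ s(v, y) →
      (G.deleteEdges {s(v, y)}).Adj (f a) (f b) ∧ c s(f a, f b) = j := by
    intro a b hab hne
    obtain ⟨h1, h2⟩ := hf2 a b hab
    rw [Function.update_of_ne hne] at h2
    refine ⟨?_, h2⟩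
    rw [SimpleGraph.deleteEdges_adj]
    exact ⟨h1, by rw [Set.mem_singleton_iff]; exact hne⟩
  have main : ∀ w u, H.Adj w u → f w = v → f u = y → False := by
    intro w u hwu hw hu
    have hj : j = i' := by
      have h2 := (hf2 w u hwu).2
      rw [hw, hu, Function.update_self] at h2
      exact h2.symm
    obtain ⟨u', hu', hne, _⟩ := three_nbr hH w u u
    have hfu : f u' ≠ y := fun h => hne (hf (h.trans hu.symm))
    have hne' : s(f w, f u') ≠ s(v, y) := by
      rw [hw]
      intro h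
      rw [Sym2.eq_iff] at h
      rcases h with ⟨_, h⟩ | ⟨h, _⟩
      · exact hfu h
      · exact hvy.ne h
    obtain ⟨h1, h2⟩ := key w u' hu' hne'
    rw [hw] at h1 h2
    rw [hcon _ h1] at h2
    exact hi' (by rw [← hj, ← h2])
  by_cases hall : ∀ a b, H.Adj a b → s(f a, f b) ≠ s(v, y)
  · exact hc j f ⟨hf, fun a b hab => key a b hab (hall a b hab)⟩
  · push Not at hall
    obtain ⟨a, b, hab, he⟩ := hall
    rw [Sym2.eq_iff] at he
    rcases he with ⟨h1, h2⟩ | ⟨h1, h2⟩
    · exact main a b hab h1 h2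
    · exact main b a hab.symm h2 h1

end Pool.Agent.SQA
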