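import Pool.Agent.SQA.D0
import Pool.Agent.SQA.A1
import Pool.Agent.SQA.A2

/-!
# [SQA-D2] the smallest and the largest identification
-/

namespace Pool.Agent.SQA

open SimpleGraph

variable {X W : Type} {q n m d : ℕ}

open Classical in
/-- Gluing the copies at `v` only: not Ramsey.
PROOF: colour with `c0 ∘ Sym2.map Prod.snd`, `c0` an `H`-free colouring of `Γ`. Let `f` be a
monochromatic copy. Claim: there is `j` with `f w = (j0, v)` or `(f w).1 = j` for all `w`: the
edges of the glued graph between vertices `≠ (j0, v)` join vertices with the same first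
coordinate, and the complement of `{w | f w = (j0, v)}` (at most one element) is connected by
`hH.2`. Then `w ↦ (f w).2` is injective (the vertices `(j, v)` with `j ≠ j0` are isolated in the
glued graph, so they are not in the image of `f`: every vertex of `H` has a neighbour,
`three_nbr`; but treat `j0` and `j` with care) and a homomorphism `H → Γ`: monochromatic copy in
`Γ`. -/
theorem nr_one [Finite W] {H : SimpleGraph W} (hH : ThreeConnected H) {Γ : SimpleGraph X}
    (hΓ : NR q H Γ) (v : X) (j0 : Fin m) :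
    NR q H ((copies m Γ).map (fun a : Fin m × X => if a.2 = v then (j0, v) else a)) := by
  obtain ⟨c0, hc0⟩ := hΓ
  set g : Fin m × X → Fin m × X := fun a => if a.2 = v then (j0, v) else a with hg
  have hg2 : ∀ a, (g a).2 = a.2 := by
    intro a
    simp only [hg]
    split_ifs with h
    · exact h.symm
    · rfl
  have hg1 : ∀ a, a.2 ≠ v → g a = a := by
    intro a h
    simp only [hg, if_neg h]
  have hgv : ∀ a, a.2 = v → g a = (j0, v) := by
    intro a h
    simp only [hg, if_pos h]
  have hadj2 : ∀ x y, ((copies m Γ).map g).Adj x y → Γ.Adj x.2 y.2 := by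
    rintro x y ⟨-, u, w, huw, rfl, rfl⟩
    rw [hg2, hg2]
    exact huw.2
  have hadj1 : ∀ x y, ((copies m Γ).map g).Adj x y → x ≠ (j0, v) → y ≠ (j0, v) → x.1 = y.1 := by
    rintro x y ⟨-, u, w, huw, rfl, rfl⟩ hx hy
    have h1 : u.2 ≠ v := fun h => hx (hgv u h)
    have h2 : w.2 ≠ v := fun h => hy (hgv w h)
    rw [hg1 u h1, hg1 w h2]
    exact huw.1
  have hiso : ∀ x y, ((copies m Γ).map g).Adj x y → x.2 = v → x = (j0, v) := by
    rintro x y ⟨-, u, w, huw, rfl, rfl⟩ hx
    rw [hg2] at hx
    exact hgv u hx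
  refine ⟨c0 ∘ Sym2.map Prod.snd, ?_⟩
  rintro i f ⟨hf, hf'⟩
  have hv0 : ∀ w, (f w).2 = v → f w = (j0, v) := by
    intro w hw
    obtain ⟨u, hu, -, -⟩ := three_nbr hH w w w
    exact hiso _ _ (hf' w u hu).1 hw
  have hS : {w | f w = (j0, v)}.ncard ≤ 2 := by
    have h1 : {w | f w = (j0, v)}.ncard ≤ 1 := by
      rw [Set.ncard_le_one_iff]
      intro a b ha hb
      exact hf (ha.trans hb.symm)
    omega
  have hconn := hH.2 _ hS
  have hwalk : ∀ (u w : {x // x ∈ {w | f w = (j0, v)}ᶜ}), (H.induce {w | f w = (j0, v)}ᶜ).Walk u w →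
      (f u.1).1 = (f w.1).1 := by
    intro u w p
    induction p with
    | nil => rfl
    | @cons a b _ h p ih =>
      rw [← ih]
      exact hadj1 _ _ (hf' a.1 b.1 h).1 a.2 b.2
  have hconst : ∀ u w, f u ≠ (j0, v) → f w ≠ (j0, v) → (f u).1 = (f w).1 := by
    intro u w hu hw
    obtain ⟨p⟩ := hconn.preconnected ⟨u, hu⟩ ⟨w, hw⟩
    exact hwalk _ _ p
  refine hc0 i (fun w => (f w).2) ⟨?_, fun a b hab => ⟨hadj2 _ _ (hf' a b hab).1, ?_⟩⟩
  · intro a b hab
    have hab' : (f a).2 = (f b).2 := hab
    apply hf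
    by_cases ha : (f a).2 = v
    · rw [hv0 a ha, hv0 b (hab'.symm.trans ha)]
    · have h1 : f a ≠ (j0, v) := fun h => ha (by rw [h])
      have h2 : f b ≠ (j0, v) := fun h => ha (by rw [hab', h])
      exact Prod.ext (hconst a b h1 h2) hab'
  · have h1 := (hf' a b hab).2
    rw [Function.comp_apply, Sym2.map_mk] at h1
    exact h1

/-- Identifying all vertices with the same label gives a Ramsey graph.
PROOF: let `c` be an `H`-free colouring of `G := (copies m Γ).map p`. For `y : Fin n` put
`χ y := c s((j0, v), p (j, ν s))` if `y = L j s` for some `j, s` (well defined by `hfull`; any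
choice), arbitrary otherwise. Let `L j` be monochromatic for `χ` with colour `i`. The map
`φ x := p (j, x)` is injective, because the labels of `(j, x)`, `x : X`, are different
(`lab_v`, `lab_leaf`, `lab_int`, `hL`) and `p` respects labels; it is a homomorphism
`Γ → G` (`map_adj_apply'`), so `c ∘ Sym2.map φ` is an `H`-free colouring of `Γ` in which all edges
at `v` have colour `i` (`φ v = (j0, v)`, `φ (ν s) = p (j, ν s)`): contradiction to `hstar`. -/
theorem full_ramsey {H : SimpleGraph W} {Γ : SimpleGraph X} {v : X} {ν : Fin d → X}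
    (hν : Function.Injective ν) (hvν : ∀ x, Γ.Adj v x ↔ ∃ s, ν s = x)
    {L : Fin m → Fin d → Fin n} (hL : ∀ j, Function.Injective (L j)) {j0 : Fin m}
    (hχ : ∀ χ : Fin n → Fin q, ∃ j, MonoF χ (L j))
    (hstar : ∀ c : Sym2 X → Fin q, Free H Γ c → ∀ i, ∃ x, Γ.Adj v x ∧ c s(v, x) ≠ i)
    {p : Fin m × X → Fin m × X} (hp : GoodId v ν L j0 p)
    (hfull : ∀ j s j' s', L j s = L j' s' → p (j, ν s) = p (j', ν s')) :
    ¬ NR q H ((copies m Γ).map p) := by
  classical
  rintro ⟨c, hc⟩
  have hνv : ∀ s, ν s ≠ v := by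
    intro s h
    exact ((hvν (ν s)).2 ⟨s, rfl⟩).ne h.symm
  have hχ0 : ∀ y : Fin n, ∃ i : Fin q, ∀ j s, L j s = y → c s((j0, v), p (j, ν s)) = i := by
    intro y
    by_cases h : ∃ j s, L j s = y
    · obtain ⟨j, s, hjs⟩ := h
      refine ⟨c s((j0, v), p (j, ν s)), fun j' s' h' => ?_⟩
      rw [hfull j' s' j s (h'.trans hjs.symm)]
    · exact ⟨c s((j0, v), (j0, v)), fun j s hjs => absurd ⟨j, s, hjs⟩ h⟩
  choose χ hχ1 using hχ0
  obtain ⟨j, i, hi⟩ := hχ χ
  have hinj : Function.Injective fun x : X => p (j, x) := by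
    intro x x' hxx
    have h1 : lab v ν L j0 (j, x) = lab v ν L j0 (j, x') := by
      rw [← hp.2, ← hp.2 (j, x')]
      exact congrArg _ hxx
    by_cases hx : x = v
    · by_cases hx' : x' = v
      · rw [hx, hx']
      · rw [hx, lab_v] at h1
        by_cases hs : ∃ s, ν s = x'
        · obtain ⟨s, rfl⟩ := hs
          rw [lab_leaf hν hνv] at h1
          cases h1
        · rw [lab_int L j0 j hx' (fun s h => hs ⟨s, h⟩)] at h1
          have := congrArg Prod.snd (Sum.inr.inj h1)
          rw [hx]
          exact this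
    · by_cases hs : ∃ s, ν s = x
      · obtain ⟨s, rfl⟩ := hs
        rw [lab_leaf hν hνv] at h1
        by_cases hx' : x' = v
        · rw [hx', lab_v] at h1
          cases h1
        · by_cases hs' : ∃ s, ν s = x'
          · obtain ⟨s', rfl⟩ := hs'
            rw [lab_leaf hν hνv] at h1
            rw [hL j (Sum.inl.inj h1)]
          · rw [lab_int L j0 j hx' (fun s h => hs' ⟨s, h⟩)] at h1
            cases h1
      · rw [lab_int L j0 j hx (fun s h => hs ⟨s, h⟩)] at h1
        by_cases hx' : x' = v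
        · rw [hx', lab_v] at h1
          have := congrArg Prod.snd (Sum.inr.inj h1)
          rw [hx']
          exact this
        · by_cases hs' : ∃ s, ν s = x'
          · obtain ⟨s', rfl⟩ := hs'
            rw [lab_leaf hν hνv] at h1
            cases h1
          · rw [lab_int L j0 j hx' (fun s h => hs' ⟨s, h⟩)] at h1
            exact congrArg Prod.snd (Sum.inr.inj h1)
  have hfree : Free H Γ (c ∘ Sym2.map fun x : X => p (j, x)) := by
    refine hc.comap hinj fun a b hab => ?_
    exact ⟨fun h => hab.ne (hinj h), (j, a), (j, b), ⟨rfl, hab⟩, rfl, rfl⟩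
  obtain ⟨x, hx, hxi⟩ := hstar _ hfree i
  obtain ⟨s, rfl⟩ := (hvν x).1 hx
  apply hxi
  rw [Function.comp_apply, Sym2.map_mk, hp.1 j, hχ1 (L j s) j s rfl]
  exact hi s

end Pool.Agent.SQA
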