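import Pool.Agent.SQA.D0
import Pool.Agent.SQA.A1
import Pool.Agent.SQA.A2

/-!
# [SQA-D3] merging two far leaves whose edges have the same colour
-/

namespace Pool.Agent.SQA

open SimpleGraph

variable {V W : Type} {q : ℕ}

theorem D3_sym {H : SimpleGraph W} {G : SimpleGraph V} {c : Sym2 V → Fin q} {i : Fin q} {g : W → V} {w0 : W}
    (h1 : ∀ u, H.Adj w0 u → G.Adj (g w0) (g u) ∧ c s(g w0, g u) = i)
    (h2 : ∀ w u, w ≠ w0 → u ≠ w0 → H.Adj w u → G.Adj (g w) (g u) ∧ c s(g w, g u) = i) :
    ∀ w u, H.Adj w u → G.Adj (g w) (g u) ∧ c s(g w, g u) = i := by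
  intro w u hwu
  by_cases hw : w = w0
  · subst hw
    exact h1 u hwu
  · by_cases hu : u = w0
    · subst hu
      obtain ⟨h3, h4⟩ := h1 w hwu.symm
      exact ⟨h3.symm, by rw [Sym2.eq_swap]; exact h4⟩
    · exact h2 w u hw hu hwu

theorem D3_b {G : SimpleGraph V} {a b : V} (hab : a ≠ b) (y : V) : ¬ (G.map (mg a b)).Adj b y := by
  rintro ⟨-, u, v, -, hu, -⟩
  unfold mg at hu
  split_ifs at hu with h
  · exact hab hu
  · exact h hu

theorem D3_other {G : SimpleGraph V} {a b x y : V} (hxa : x ≠ a) (hya : y ≠ a)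
    (h : (G.map (mg a b)).Adj x y) : G.Adj x y := by
  obtain ⟨-, u, v, huv, hu, hv⟩ := h
  unfold mg at hu hv
  split_ifs at hu with h1
  · exact absurd hu.symm hxa
  · split_ifs at hv with h2
    · exact absurd hv.symm hya
    · rw [← hu, ← hv]
      exact huv

theorem D3_a {G : SimpleGraph V} {a b y : V} (hya : y ≠ a)
    (h : (G.map (mg a b)).Adj a y) : G.Adj a y ∨ G.Adj b y := by
  obtain ⟨-, u, v, huv, hu, hv⟩ := h
  unfold mg at hu hv
  split_ifs at hv with h2
  · exact absurd hv.symm hya
  · rw [← hv]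
    split_ifs at hu with h1
    · rw [h1] at huv
      exact Or.inr huv
    · rw [hu] at huv
      exact Or.inl huv

/-- PROOF: `Far` implies `a ≠ b`, `¬ G.Adj a b`, and no vertex `x ≠ z` is adjacent to both `a`
and `b` (level function `l`). Colour the merged graph `G' := G.map (mg a b)` by
`c' e := if e ∈ G.edgeSet then c e else c (Sym2.map (mg b a) e)` (`mg b a` sends `a` to `b`).
`G'`-edges: `x y` with `x, y ≠ a, b`: a `G`-edge; `b` is isolated in `G'`; `a x` with `G.Adj a x`
or `G.Adj b x`. Let `f` be a monochromatic copy of colour `i` in `G'`. `b` is not in its image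
(`b` is isolated, `three_nbr`). If `a` is not in the image, `f` is a copy in `G`:
contradiction. Let `f w0 = a`. Let `T := {w | f w ≠ a ∧ f w ≠ z}`: `H.induce T` is connected
(`hH.2`, the complement has at most two elements), so `K := f '' T` is connected in `G`
(`connected_image`; edges of `G'` between vertices `≠ a, b` are `G`-edges), has at most
`Nat.card W` elements (even one less) and avoids `z, a, b`. If `K` contained both a vertex adjacent to `a` and a vertex
adjacent to `b` (in `G`), then `conn_level` for `l` on `K` (levels `≤ 1` and `≥ h + 1`) would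
give `h + 1 + 1 ≤ 1 + K.ncard`: contradiction. So either all `f u`, `u` a neighbour of `w0`,
`f u ≠ z`, are `G`-adjacent to `a`, then `f` is a monochromatic copy in `G` (for `f u = z`:
`G.Adj z a`); or all are `G`-adjacent to `b` and not to `a`; then replace the value `a` of `f` by
`b`: `f' := mg b a ∘ f` is a monochromatic copy in `G` of colour `i` (for `f u = z`: the edge
`z a` of `G'` has colour `c s(z, a) = c s(z, b)`). -/
theorem merge [Finite V] [Finite W] {H : SimpleGraph W} (hH : ThreeConnected H)
    {G : SimpleGraph V} {z a b : V} (hza : G.Adj z a) (hzb : G.Adj z b)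
    (hfar : Far (Nat.card W) G z a b) {c : Sym2 V → Fin q} (hc : Free H G c)
    (he : c s(z, a) = c s(z, b)) : NR q H (G.map (mg a b)) := by
  classical
  obtain ⟨l, hla, hlb, hl⟩ := hfar
  have hW : 4 ≤ Nat.card W := hH.1
  have haz : a ≠ z := hza.ne'
  have hbz : b ≠ z := hzb.ne'
  have hab : a ≠ b := by
    intro h
    rw [h] at hla
    omega
  refine ⟨fun e => if e ∈ G.edgeSet then c e else c (Sym2.map (mg b a) e), ?_⟩
  have hc1 : ∀ x y, G.Adj x y →
      (if s(x, y) ∈ G.edgeSet then c s(x, y) else c (Sym2.map (mg b a) s(x, y))) = c s(x, y) := by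
    intro x y hxy
    rw [if_pos ((SimpleGraph.mem_edgeSet G).2 hxy)]
  have hc2 : ∀ y, y ≠ a → ¬ G.Adj a y →
      (if s(a, y) ∈ G.edgeSet then c s(a, y) else c (Sym2.map (mg b a) s(a, y))) = c s(b, y) := by
    intro y hy hay
    rw [if_neg (fun h => hay ((SimpleGraph.mem_edgeSet G).1 h)), Sym2.map_mk]
    have h1 : mg b a a = b := by simp [mg]
    have h2 : mg b a y = y := by simp [mg, hy]
    rw [h1, h2]
  rintro i f ⟨hfi, hf⟩
  have hfb : ∀ w, f w ≠ b := by
    intro w hw
    obtain ⟨u, hu, -, -⟩ := three_nbr hH w w w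
    have h1 := (hf w u hu).1
    rw [hw] at h1
    exact D3_b hab _ h1
  by_cases hA : ∀ w, f w ≠ a
  · refine hc i f ⟨hfi, fun w u hwu => ?_⟩
    obtain ⟨h1, h2⟩ := hf w u hwu
    have h3 := D3_other (hA w) (hA u) h1
    refine ⟨h3, ?_⟩
    rw [← hc1 _ _ h3]
    exact h2
  · push Not at hA
    obtain ⟨w0, hw0⟩ := hA
    have hfa : ∀ u, u ≠ w0 → f u ≠ a := by
      intro u hu h
      exact hu (hfi (h.trans hw0.symm))
    have hadj0 : ∀ u, H.Adj w0 u → f u ≠ a ∧ (G.Adj a (f u) ∨ G.Adj b (f u)) := by
      intro u hu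
      have h1 := (hf w0 u hu).1
      rw [hw0] at h1
      have h2 := hfa u hu.ne'
      exact ⟨h2, D3_a h2 h1⟩
    have hrest : ∀ w u, w ≠ w0 → u ≠ w0 → H.Adj w u → G.Adj (f w) (f u) ∧ c s(f w, f u) = i := by
      intro w u hw hu hwu
      obtain ⟨h1, h2⟩ := hf w u hwu
      have h3 := D3_other (hfa w hw) (hfa u hu) h1
      refine ⟨h3, ?_⟩
      rw [← hc1 _ _ h3]
      exact h2
    set T : Set W := {w | f w ≠ a ∧ f w ≠ z} with hT
    have hTc : (H.induce T).Connected := by
      have h1 := hH.2 {w | f w = a ∨ f w = z} (by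
        rw [← Set.ncard_image_of_injective _ hfi]
        have h2 : f '' {w | f w = a ∨ f w = z} ⊆ {a, z} := by
          rintro _ ⟨w, hw, rfl⟩
          exact hw
        have h3 := Set.ncard_le_ncard h2 (Set.toFinite _)
        rw [Set.ncard_pair haz] at h3
        exact h3)
      have h4 : {w | f w = a ∨ f w = z}ᶜ = T := by
        ext w
        simp only [Set.mem_compl_iff, Set.mem_ofPred_eq, hT, not_or]
      rw [h4] at h1
      exact h1
    have hTne : ∀ w ∈ T, w ≠ w0 := by
      rintro w hw rfl
      exact hw.1 hw0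
    have hKc : (G.induce (f '' T)).Connected :=
      connected_image f T hTc fun x hx y hy hxy => (hrest x y (hTne x hx) (hTne y hy) hxy).1
    have hKcard : (f '' T).ncard ≤ Nat.card W :=
      (Set.ncard_image_le (Set.toFinite T)).trans (Set.ncard_le_card T)
    have hKz : ∀ x ∈ f '' T, x ≠ z := by
      rintro _ ⟨w, hw, rfl⟩
      exact hw.2
    by_cases hB1 : ∃ y ∈ f '' T, G.Adj b y
    · -- no vertex of the connected set is adjacent to `a`
      have hB2 : ∀ x ∈ f '' T, ¬ G.Adj a x := by
        intro x hx hax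
        obtain ⟨y, hy, hby⟩ := hB1
        have h1 := conn_level (Set.toFinite (f '' T)) hKc l
          (fun x hx y hy hxy => hl x y hxy (hKz x hx) (hKz y hy)) hx hy
        have h2 := hl x a hax.symm (hKz x hx) haz
        have h3 := hl b y hby hbz (hKz y hy)
        omega
      have hg0 : mg b a (f w0) = b := by simp [mg, hw0]
      have hg1 : ∀ u, u ≠ w0 → mg b a (f u) = f u := by
        intro u hu
        simp [mg, hfa u hu]
      refine hc i (fun w => mg b a (f w)) ⟨?_, D3_sym (w0 := w0) ?_ ?_⟩
      · intro w u hwu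
        by_cases hw : w = w0
        · by_cases hu : u = w0
          · rw [hw, hu]
          · simp only [hw, hg0, hg1 u hu] at hwu
            exact absurd hwu.symm (hfb u)
        · by_cases hu : u = w0
          · simp only [hu, hg0, hg1 w hw] at hwu
            exact absurd hwu (hfb w)
          · simp only [hg1 w hw, hg1 u hu] at hwu
            exact hfi hwu
      · intro u hu
        have hu0 : u ≠ w0 := hu.ne'
        obtain ⟨h1, h2⟩ := hf w0 u hu
        rw [hw0] at h1 h2
        simp only [hg0, hg1 u hu0]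
        by_cases huz : f u = z
        · rw [huz]
          refine ⟨hzb.symm, ?_⟩
          rw [huz] at h2
          have h3 := hc1 a z hza.symm
          have h4 : c s(a, z) = i := by
            rw [← h3]
            exact h2
          rw [Sym2.eq_swap, ← he, Sym2.eq_swap]
          exact h4
        · have h3 : f u ∈ f '' T := ⟨u, ⟨hfa u hu0, huz⟩, rfl⟩
          have h4 := hB2 _ h3
          have h5 : G.Adj b (f u) := (hadj0 u hu).2.resolve_left h4
          refine ⟨h5, ?_⟩
          rw [← hc2 (f u) (hfa u hu0) h4]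
          exact h2
      · intro w u hw hu hwu
        simp only [hg1 w hw, hg1 u hu]
        exact hrest w u hw hu hwu
    · push Not at hB1
      refine hc i f ⟨hfi, D3_sym (w0 := w0) ?_ hrest⟩
      intro u hu
      have hu0 : u ≠ w0 := hu.ne'
      obtain ⟨h1, h2⟩ := hf w0 u hu
      have h5 : G.Adj (f w0) (f u) := by
        rw [hw0]
        by_cases huz : f u = z
        · rw [huz]
          exact hza.symm
        · have h3 : f u ∈ f '' T := ⟨u, ⟨hfa u hu0, huz⟩, rfl⟩
          exact (hadj0 u hu).2.resolve_right (hB1 _ h3)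
      refine ⟨h5, ?_⟩
      rw [← hc1 _ _ h5]
      exact h2

end Pool.Agent.SQA
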