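import Pool.Agent.SQA.D0

/-!
# [SQA-D4] chains of sets
-/

namespace Pool.Agent.SQA

variable {V : Type} {m : ℕ}

/-- Either there is a level function separating `a` and `b`, or there is a short chain of
different sets of the family from `a` to `b`.
PROOF: let `P l x` say that there are `x_ : ℕ → V`, `j_ : ℕ → Fin m` with `x_ 0 = a`, `x_ l = x`,
`x_ i ≠ z` for `i ≤ l`, and `x_ i, x_ (i+1) ∈ C (j_ i)` for `i < l`. If `P k b` fails for all
`k ≤ h + 1`, then `l x := sInf ({k | P k x} ∪ {h + 2})` is a level function (if `P k y` and
`x, y ∈ C j`, then `P (k+1) x`; `Function.update`). Otherwise take the least `k` with `P k b` and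
its sequences: `j_` is injective on `Set.Iio k` and consecutive vertices are different, since
otherwise the chain can be shortened (`j_ i = j_ i'`, `i < i'`: omit `x_ (i+1), ..., x_ i'`). -/
theorem chain_or_level [NeZero m] (C : Fin m → Set V) (h : ℕ) {z a b : V} (ha : a ≠ z)
    (hb : b ≠ z) :
    (∃ l : V → ℕ, l a = 0 ∧ l b = h + 2 ∧
      ∀ j, ∀ x ∈ C j, ∀ y ∈ C j, x ≠ z → y ≠ z → l x ≤ l y + 1) ∨
    ∃ (k : ℕ) (x : ℕ → V) (j : ℕ → Fin m), k ≤ h + 1 ∧ x 0 = a ∧ x k = b ∧
      Set.InjOn j (Set.Iio k) ∧ (∀ i, i ≤ k → x i ≠ z) ∧
      ∀ i, i < k → x i ≠ x (i + 1) ∧ x i ∈ C (j i) ∧ x (i + 1) ∈ C (j i) := by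
  classical
  let P : ℕ → V → Prop := fun k y => ∃ (x : ℕ → V) (j : ℕ → Fin m), x 0 = a ∧ x k = y ∧
    (∀ i, i ≤ k → x i ≠ z) ∧ ∀ i, i < k → x i ∈ C (j i) ∧ x (i + 1) ∈ C (j i)
  have hP0 : P 0 a := ⟨fun _ => a, fun _ => 0, rfl, rfl, fun _ _ => ha, fun i hi => absurd hi (Nat.not_lt_zero _)⟩
  have hPs : ∀ k x y (j : Fin m), P k y → x ∈ C j → y ∈ C j → x ≠ z → P (k + 1) x := by
    rintro k x y j ⟨x', j', h0, hk, hz, hC⟩ hx hy hxz
    refine ⟨fun n => if n ≤ k then x' n else x, fun n => if n < k then j' n else j, ?_, ?_, ?_, ?_⟩
    · simp [h0]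
    · simp
    · intro i _
      by_cases hik : i ≤ k
      · simp only [if_pos hik]
        exact hz i hik
      · simp only [if_neg hik]
        exact hxz
    · intro i hi
      by_cases hik : i < k
      · simp only [if_pos hik.le, if_pos hik, if_pos (show i + 1 ≤ k from hik)]
        exact hC i hik
      · have hik' : i = k := by omega
        subst hik'
        simp only [le_refl, if_true, lt_irrefl, if_false, if_neg (show ¬ (i + 1 ≤ i) by omega)]
        rw [hk]
        exact ⟨hy, hx⟩
  by_cases hex : ∃ k, k ≤ h + 1 ∧ P k b
  · right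
    have hex' : ∃ k, P k b := by
      obtain ⟨k, -, hk⟩ := hex
      exact ⟨k, hk⟩
    set k := Nat.find hex' with hk
    obtain ⟨x, j, h0, hxk, hz, hC⟩ : P k b := Nat.find_spec hex'
    have hkh : k ≤ h + 1 := by
      obtain ⟨k', hk', hPk'⟩ := hex
      exact (Nat.find_min' hex' hPk').trans hk'
    have hmin : ∀ k', k' < k → ¬ P k' b := fun k' hk' => Nat.find_min hex' hk'
    refine ⟨k, x, j, hkh, h0, hxk, ?_, hz, fun i hi => ⟨?_, hC i hi⟩⟩
    · -- injectivity
      have key : ∀ i i', i < i' → i' < k → j i ≠ j i' := by
        intro i i' hii hik hji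
        refine hmin (k - (i' - i)) (by omega) ⟨fun n => if n ≤ i then x n else x (n + (i' - i)),
          fun n => if n ≤ i then j n else j (n + (i' - i)), ?_, ?_, ?_, ?_⟩
        · simp [h0]
        · have h1 : ¬ (k - (i' - i) ≤ i) := by omega
          simp only [if_neg h1]
          rw [Nat.sub_add_cancel (by omega)]
          exact hxk
        · intro n hn
          by_cases hni : n ≤ i
          · simp only [if_pos hni]
            exact hz n (by omega)
          · simp only [if_neg hni]
            exact hz _ (by omega)
        · intro n hn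
          by_cases hni : n < i
          · simp only [if_pos hni.le, if_pos (show n + 1 ≤ i from hni)]
            exact hC n (by omega)
          · by_cases hni' : n = i
            · subst hni'
              simp only [le_refl, if_true, if_neg (show ¬ (n + 1 ≤ n) by omega)]
              refine ⟨(hC n (by omega)).1, ?_⟩
              rw [hji, show n + 1 + (i' - n) = i' + 1 by omega]
              exact (hC i' hik).2
            · simp only [if_neg (show ¬ (n ≤ i) by omega), if_neg (show ¬ (n + 1 ≤ i) by omega)]
              rw [show n + 1 + (i' - i) = n + (i' - i) + 1 by omega]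
              exact hC _ (by omega)
      intro i hi i' hi' hji
      have hi1 : i < k := hi
      have hi2 : i' < k := hi'
      rcases lt_trichotomy i i' with h1 | h1 | h1
      · exact absurd hji (key i i' h1 hi2)
      · exact h1
      · exact absurd hji.symm (key i' i h1 hi1)
    · intro hxx
      refine hmin (k - 1) (by omega) ⟨fun n => if n ≤ i then x n else x (n + 1),
        fun n => if n < i then j n else j (n + 1), ?_, ?_, ?_, ?_⟩
      · simp [h0]
      · by_cases h1 : k - 1 ≤ i
        · have h2 : k - 1 = i := by omega
          simp only [if_pos h1]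
          rw [h2, hxx, show i + 1 = k by omega]
          exact hxk
        · simp only [if_neg h1]
          rw [Nat.sub_add_cancel (by omega)]
          exact hxk
      · intro n hn
        by_cases hni : n ≤ i
        · simp only [if_pos hni]
          exact hz n (by omega)
        · simp only [if_neg hni]
          exact hz _ (by omega)
      · intro n hn
        by_cases hni : n < i
        · simp only [if_pos hni.le, if_pos hni, if_pos (show n + 1 ≤ i from hni)]
          exact hC n (by omega)
        · by_cases hni' : n = i
          · subst hni'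
            simp only [le_refl, if_true, lt_irrefl, if_false, if_neg (show ¬ (n + 1 ≤ n) by omega)]
            rw [hxx]
            exact hC (n + 1) (by omega)
          · simp only [if_neg (show ¬ (n ≤ i) by omega), if_neg (show ¬ (n + 1 ≤ i) by omega),
              if_neg hni]
            exact hC (n + 1) (by omega)
  · left
    push Not at hex
    let S : V → Set ℕ := fun y => {k | P k y} ∪ {h + 2}
    have hSne : ∀ y, (S y).Nonempty := fun y => ⟨h + 2, Or.inr rfl⟩
    have hle : ∀ y, sInf (S y) ≤ h + 2 := fun y => Nat.sInf_le (Or.inr rfl)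
    refine ⟨fun y => sInf (S y), ?_, ?_, ?_⟩
    · exact Nat.le_zero.1 (Nat.sInf_le (Or.inl hP0))
    · show sInf (S b) = h + 2
      refine le_antisymm (hle b) ?_
      rcases Nat.sInf_mem (hSne b) with h1 | h1
      · by_contra h2
        exact hex _ (by omega) h1
      · exact (show sInf (S b) = h + 2 from h1).ge
    · intro j x hx y hy hxz _
      rcases Nat.sInf_mem (hSne y) with h1 | h1
      · exact Nat.sInf_le (Or.inl (hPs _ x y j h1 hx hy hxz))
      · have h2 : sInf (S y) = h + 2 := h1
        have h3 := hle x
        show sInf (S x) ≤ sInf (S y) + 1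
        omega

end Pool.Agent.SQA
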