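import Pool.Agent.SQA.D4

/-!
# [SQA-D5] different leaves with the same label are far
-/

namespace Pool.Agent.SQA

open SimpleGraph

variable {X : Type} {n m d : ℕ}

/-- PROOF: apply `chain_or_level` with `C j := {y | ∃ x, p (j, x) = y}`, `z := (j0, v)`; every edge
of the glued graph lies in some `C j`, so the first alternative gives `Far`. In the second
alternative `k ≥ 1`. For `i ≤ k` the label of `x i` is `Sum.inl (y i)` for some `y i`: for `i = 0`
and `i = k` by assumption (`y 0 = y k`); for `0 < i < k`: `x i ∈ C (j (i-1)) ∩ C (j i)` with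
different indices; write `x i = p (j (i-1), x') = p (j i, x'')`; `lab (j (i-1), x') =
lab (j i, x'')` and both are `≠ (j0, v)` (if `x' = v` then `x i = (j0, v)`), so
the label is not of the form `Sum.inr _` (`lab_int` would give equal first coordinates). For
`i < k`: `x i = p (j i, ν s)` and `x (i+1) = p (j i, ν s')` with `s ≠ s'`, so
`y i = L (j i) s ≠ L (j i) s' = y (i+1)`. For `k = 1` this contradicts `y 0 = y 1`; for `k ≥ 2` it
contradicts `hL.2` (define `y i` arbitrarily for `i > k`). -/
theorem far_of_sparse {Γ : SimpleGraph X} {v : X} {ν : Fin d → X}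
    (hν : Function.Injective ν) (hvν : ∀ x, Γ.Adj v x ↔ ∃ s, ν s = x)
    {L : Fin m → Fin d → Fin n} {h : ℕ} (hL : Sparse (h + 1) L) {j0 : Fin m}
    {p : Fin m × X → Fin m × X} (hp : GoodId v ν L j0 p) {a b : Fin m × X} (hab : a ≠ b)
    {y : Fin n} (ha : lab v ν L j0 a = Sum.inl y) (hb : lab v ν L j0 b = Sum.inl y) :
    Far h ((copies m Γ).map p) (j0, v) a b := by
  classical
  haveI : NeZero m := ⟨fun h => by subst h; exact j0.elim0⟩
  have hνv : ∀ s, ν s ≠ v := by
    intro s h
    exact ((hvν (ν s)).2 ⟨s, rfl⟩).ne h.symm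
  -- vertices with a label of the first kind
  have hleaf : ∀ (j : Fin m) (x : X) (t : Fin n), lab v ν L j0 (j, x) = Sum.inl t → ∃ s, ν s = x ∧ L j s = t := by
    intro j x t ht
    by_cases hx : x = v
    · rw [hx, lab_v] at ht
      cases ht
    · by_cases hs : ∃ s, ν s = x
      · obtain ⟨s, rfl⟩ := hs
        rw [lab_leaf hν hνv] at ht
        exact ⟨s, rfl, Sum.inl.inj ht⟩
      · rw [lab_int L j0 j hx (fun s h => hs ⟨s, h⟩)] at ht
        cases ht
  have hv1 : ∀ w t, lab v ν L j0 w = Sum.inl t → w ≠ (j0, v) := by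
    rintro w t ht rfl
    rw [lab_v] at ht
    cases ht
  rcases chain_or_level (fun j : Fin m => {y | ∃ x, p (j, x) = y}) h (hv1 a y ha) (hv1 b y hb) with
    ⟨l, hla, hlb, hl⟩ | ⟨k, x, j, hkh, hx0, hxk, hinj, hz, hC⟩
  · refine ⟨l, hla, hlb, ?_⟩
    rintro u w ⟨-, ⟨j1, x1⟩, ⟨j2, x2⟩, ⟨hj, -⟩, rfl, rfl⟩ hu hw
    have hj' : j1 = j2 := hj
    subst hj'
    exact hl j1 _ ⟨x1, rfl⟩ _ ⟨x2, rfl⟩ hu hw
  · exfalso
    have hlabx : ∀ i, i ≤ k → ∃ t, lab v ν L j0 (x i) = Sum.inl t := by
      intro i hik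
      rcases Nat.eq_zero_or_pos i with rfl | hi0
      · exact ⟨y, by rw [hx0]; exact ha⟩
      · rcases Nat.lt_or_ge i k with hik' | hik'
        · obtain ⟨x1, hx1⟩ := (hC (i - 1) (by omega)).2.2
          obtain ⟨x2, hx2⟩ := (hC i hik').2.1
          rw [Nat.sub_add_cancel hi0] at hx1
          have hjne : j (i - 1) ≠ j i := by
            intro h1
            have := hinj (show i - 1 < k by omega) (show i < k from hik') h1
            omega
          have h1 : lab v ν L j0 (j (i - 1), x1) = lab v ν L j0 (x i) := by rw [← hx1, hp.2]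
          have h2 : lab v ν L j0 (j i, x2) = lab v ν L j0 (x i) := by rw [← hx2, hp.2]
          have hx1v : x1 ≠ v := by
            intro h3
            rw [h3, hp.1] at hx1
            exact hz i hik hx1.symm
          have hx2v : x2 ≠ v := by
            intro h3
            rw [h3, hp.1] at hx2
            exact hz i hik hx2.symm
          by_cases hs1 : ∃ s, ν s = x1
          · obtain ⟨s, rfl⟩ := hs1
            rw [lab_leaf hν hνv] at h1
            exact ⟨_, h1.symm⟩
          · by_cases hs2 : ∃ s, ν s = x2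
            · obtain ⟨s, rfl⟩ := hs2
              rw [lab_leaf hν hνv] at h2
              exact ⟨_, h2.symm⟩
            · rw [lab_int L j0 _ hx1v (fun s h => hs1 ⟨s, h⟩)] at h1
              rw [lab_int L j0 _ hx2v (fun s h => hs2 ⟨s, h⟩)] at h2
              exact absurd (congrArg Prod.fst (Sum.inr.inj (h1.trans h2.symm))) hjne
        · have : i = k := by omega
          rw [this, hxk]
          exact ⟨y, hb⟩
    have hlabx' : ∀ i, ∃ t, i ≤ k → lab v ν L j0 (x i) = Sum.inl t := by
      intro i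
      by_cases hik : i ≤ k
      · obtain ⟨t, ht⟩ := hlabx i hik
        exact ⟨t, fun _ => ht⟩
      · exact ⟨y, fun h => absurd h hik⟩
    choose y' hy' using hlabx'
    have hy0 : y' 0 = y := by
      have h1 := hy' 0 (Nat.zero_le _)
      rw [hx0, ha] at h1
      exact (Sum.inl.inj h1).symm
    have hyk : y' k = y := by
      have h1 := hy' k le_rfl
      rw [hxk, hb] at h1
      exact (Sum.inl.inj h1).symm
    have hstep : ∀ i, i < k → y' i ≠ y' (i + 1) ∧ y' i ∈ Set.range (L (j i)) ∧ y' (i + 1) ∈ Set.range (L (j i)) := by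
      intro i hi
      obtain ⟨hne, ⟨x1, hx1⟩, ⟨x2, hx2⟩⟩ := hC i hi
      have h1 := hy' i hi.le
      have h2 := hy' (i + 1) hi
      rw [← hx1, hp.2] at h1
      rw [← hx2, hp.2] at h2
      obtain ⟨s1, rfl, hs1⟩ := hleaf _ _ _ h1
      obtain ⟨s2, rfl, hs2⟩ := hleaf _ _ _ h2
      refine ⟨?_, ⟨s1, hs1⟩, ⟨s2, hs2⟩⟩
      rw [← hs1, ← hs2]
      intro h3
      have h4 := hL.1 (j i) h3
      apply hne
      rw [← hx1, ← hx2, h4]
    have hk1 : k ≠ 0 := by
      rintro rfl
      exact hab (hx0.symm.trans hxk)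
    by_cases hk2 : k = 1
    · subst hk2
      exact (hstep 0 (by omega)).1 (hy0.trans hyk.symm)
    · exact hL.2 k (by omega) hkh j y' hinj (hyk.trans hy0.symm) hstep

end Pool.Agent.SQA
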