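import Pool.Agent.SQA.B4
import Pool.Agent.SQA.D1
import Pool.Agent.SQA.D2
import Pool.Agent.SQA.D3
import Pool.Agent.SQA.D5

/-!
# [SQA-D6] negative adjacency senders exist
-/

namespace Pool.Agent.SQA

open SimpleGraph

variable {W : Type} {q : ℕ}

theorem d6_perm {i j c1 c2 : Fin q} (h : c1 ≠ c2) (hij : i ≠ j) :
    ∃ σ : Equiv.Perm (Fin q), σ c1 = i ∧ σ c2 = j := by
  refine ⟨(Equiv.swap c1 i).trans (Equiv.swap (Equiv.swap c1 i c2) j), ?_, ?_⟩
  · rw [Equiv.trans_apply, Equiv.swap_apply_left]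
    refine Equiv.swap_apply_of_ne_of_ne ?_ hij
    intro h1
    have h2 : Equiv.swap c1 i c1 = Equiv.swap c1 i c2 := by rw [Equiv.swap_apply_left]; exact h1
    exact h ((Equiv.swap c1 i).injective h2)
  · rw [Equiv.trans_apply, Equiv.swap_apply_left]

/-- PROOF: `Γ, v` from `exists_star` (on `X := Fin n'`), `d := (Γ.neighborSet v).ncard`,
`ν : Fin d → X` an enumeration of `Γ.neighborSet v`; `d ≥ 1` (`Γ` has an `H`-free colouring, use
the star property). `hypergraph q d (Nat.card W + 1)` gives `n, m, L`; `m ≥ 1` (apply the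
colouring property to any colouring; `j0`). Among the good identifications `p` with
`NR q H ((copies m Γ).map p)` (there is one: `nr_one`, its map is good) take one with
`(Set.range p).ncard` minimal. By `full_ramsey` there are `α = (j, ν s)`, `β = (j', ν s')` with
`L j s = L j' s' =: y` and `a := p α ≠ b := p β`; both have label `Sum.inl y`. `G := (copies m
Γ).map p`, `z := (j0, v)`. Edges `z a`, `z b` of `G`: images of the edges `v, ν s` of the copies.
`Far`: `far_of_sparse`. `mg a b ∘ p` is good (labels of `a` and `b` agree, `b ≠ z`) and its range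
is contained in `Set.range p \ {b}`, so `(copies m Γ).map (mg a b ∘ p) = G.map (mg a b)`
(`SimpleGraph.map_map`) is not `NR`; by `merge` no `H`-free colouring `c` of `G` has
`c s(z, a) = c s(z, b)`: this is `force` for `pos = false`. `real`: take any `H`-free colouring
of `G` and permute the colours (`Free.perm`; a permutation with `σ (c s(z, a)) = i` and
`σ (c s(z, b)) = j` for `i ≠ j`, e.g. a product of two `Equiv.swap`s). -/
theorem exists_negA [Finite W] [Nonempty W] (hq : 2 ≤ q) {H : SimpleGraph W}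
    (hH : ThreeConnected H) :
    ∃ (V : Type) (_ : Finite V) (G : SimpleGraph V) (z a b : V), ASender q H false G z a b := by
  classical
  obtain ⟨n', Γ, v, hNR, hstar⟩ := exists_star hq hH
  obtain ⟨d, ⟨e⟩⟩ := Finite.exists_equiv_fin (Γ.neighborSet v)
  let ν : Fin d → Fin n' := fun s => (e.symm s).1
  have hν : Function.Injective ν := fun s t h => e.symm.injective (Subtype.ext h)
  have hvν : ∀ x, Γ.Adj v x ↔ ∃ s, ν s = x := by
    intro x
    constructor
    · intro hx
      exact ⟨e ⟨x, hx⟩, by simp [ν]⟩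
    · rintro ⟨s, rfl⟩
      exact (e.symm s).2
  have hνv : ∀ s, ν s ≠ v := by
    intro s h
    exact ((hvν (ν s)).2 ⟨s, rfl⟩).ne h.symm
  let i0 : Fin q := ⟨0, by omega⟩
  have hd : 1 ≤ d := by
    obtain ⟨c, hc⟩ := hNR
    obtain ⟨x, hx, -⟩ := hstar c hc i0
    obtain ⟨s, -⟩ := (hvν x).1 hx
    exact Nat.one_le_iff_ne_zero.2 fun h => by subst h; exact s.elim0
  obtain ⟨n, m, L, hL, hχ⟩ := hypergraph q d (Nat.card W + 1) hq hd
  obtain ⟨j0, -⟩ := hχ fun _ => i0
  have hex : ∃ k, ∃ p : Fin m × Fin n' → Fin m × Fin n', GoodId v ν L j0 p ∧ NR q H ((copies m Γ).map p) ∧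
      (Set.range p).ncard = k := by
    refine ⟨_, _, ?_, nr_one hH hNR v j0, rfl⟩
    constructor
    · intro j
      simp
    · rintro ⟨j, x⟩
      by_cases hx : x = v
      · simp only [hx, if_true]
        rw [lab_v, lab_v]
      · simp only [if_neg hx]
  obtain ⟨p, hp, hpNR, hpk⟩ := Nat.find_spec hex
  have hmin : ∀ p' : Fin m × Fin n' → Fin m × Fin n', GoodId v ν L j0 p' →
      (Set.range p').ncard < (Set.range p).ncard → ¬ NR q H ((copies m Γ).map p') := by
    intro p' hp' hlt hNR'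
    rw [hpk] at hlt
    exact Nat.find_min hex hlt ⟨p', hp', hNR', rfl⟩
  have hnf : ¬ ∀ j s j' s', L j s = L j' s' → p (j, ν s) = p (j', ν s') := fun hfull =>
    full_ramsey hν hvν hL.1 hχ hstar hp hfull hpNR
  push Not at hnf
  obtain ⟨j, s, j', s', hLL, hab⟩ := hnf
  have hla : lab v ν L j0 (p (j, ν s)) = Sum.inl (L j s) := by rw [hp.2, lab_leaf hν hνv]
  have hlb : lab v ν L j0 (p (j', ν s')) = Sum.inl (L j s) := by rw [hp.2, lab_leaf hν hνv, hLL]
  have hlz : ∀ w t, lab v ν L j0 w = Sum.inl t → (j0, v) ≠ w := by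
    rintro w t ht rfl
    rw [lab_v] at ht
    cases ht
  have hza : ((copies m Γ).map p).Adj (j0, v) (p (j, ν s)) :=
    ⟨hlz _ _ hla, (j, v), (j, ν s), ⟨rfl, (hvν _).2 ⟨s, rfl⟩⟩, hp.1 j, rfl⟩
  have hzb : ((copies m Γ).map p).Adj (j0, v) (p (j', ν s')) :=
    ⟨hlz _ _ hlb, (j', v), (j', ν s'), ⟨rfl, (hvν _).2 ⟨s', rfl⟩⟩, hp.1 j', rfl⟩
  have hfar : Far (Nat.card W) ((copies m Γ).map p) (j0, v) (p (j, ν s)) (p (j', ν s')) :=
    far_of_sparse hν hvν hL hp hab hla hlb
  have hforce : ∀ c : Sym2 (Fin m × Fin n') → Fin q, Free H ((copies m Γ).map p) c →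
      c s((j0, v), p (j, ν s)) ≠ c s((j0, v), p (j', ν s')) := by
    intro c hc he
    have h1 := merge hH hza hzb hfar hc he
    rw [SimpleGraph.map_map] at h1
    refine hmin _ ⟨?_, ?_⟩ ?_ h1
    · intro j1
      simp only [Function.comp_apply, hp.1, mg]
      rw [if_neg (hlz _ _ hlb)]
    · intro x
      simp only [Function.comp_apply, mg]
      split_ifs with h2
      · rw [hla, ← hlb, ← h2, hp.2]
      · exact hp.2 x
    · refine Set.ncard_lt_ncard ?_ (Set.toFinite _)
      rw [Set.ssubset_iff_of_subset]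
      · refine ⟨p (j', ν s'), ⟨_, rfl⟩, ?_⟩
        rintro ⟨x, hx⟩
        simp only [Function.comp_apply, mg] at hx
        split_ifs at hx with h2
        · exact hab hx
        · exact h2 hx
      · rintro _ ⟨x, rfl⟩
        simp only [Function.comp_apply, mg]
        split_ifs with h2
        · exact ⟨_, rfl⟩
        · exact ⟨_, rfl⟩
  refine ⟨Fin m × Fin n', inferInstance, (copies m Γ).map p, (j0, v), p (j, ν s), p (j', ν s'),
    ⟨hza, hzb, hfar, ?_, ?_⟩⟩
  · intro c hc
    constructor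
    · intro h
      exact absurd h (hforce c hc)
    · intro h
      cases h
  · intro i1 i2 hi
    have hne : i1 ≠ i2 := fun h => by
      have := hi.1 h
      cases this
    obtain ⟨c, hc⟩ := hpNR
    obtain ⟨σ, h1, h2⟩ := d6_perm (hforce c hc) hne
    exact ⟨fun e => σ (c e), hc.perm σ, h1, h2⟩

end Pool.Agent.SQA
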