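import Mathlib

/-!
# [SQA] MP_3bcd8c_co : the definitions of the problem
-/

namespace Pool.Agent.SQA

variable {V W : Type} {q : ℕ}

/-- `f` is a copy of `H` in `G` all of whose edges have colour `i` in the colouring `c`. -/
def Mono (H : SimpleGraph W) (G : SimpleGraph V) (c : Sym2 V → Fin q) (i : Fin q) (f : W → V) :
    Prop :=
  Function.Injective f ∧ ∀ a b, H.Adj a b → G.Adj (f a) (f b) ∧ c s(f a, f b) = i

/-- `G` is `q`-Ramsey for `H`: every colouring of the edges with `q` colours contains a
monochromatic copy of `H`. (The values of `c` on the non-edges do not matter.) -/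
def Ramsey (q : ℕ) (H : SimpleGraph W) (G : SimpleGraph V) : Prop :=
  ∀ c : Sym2 V → Fin q, ∃ i f, Mono H G c i f

/-- `G` is minimal `q`-Ramsey for `H`: no proper subgraph is `q`-Ramsey for `H`. -/
def MinRamsey (q : ℕ) (H : SimpleGraph W) (G : SimpleGraph V) : Prop :=
  Ramsey q H G ∧ ∀ G' : G.Subgraph, G' ≠ ⊤ → ¬ Ramsey q H G'.coe

/-- The minimum degree of a finite graph. -/
noncomputable def minDeg (G : SimpleGraph V) : ℕ :=
  sInf {d | ∃ v, d = (G.neighborSet v).ncard}

/-- `s_q(H)`: the smallest minimum degree of a minimal `q`-Ramsey graph for `H`. -/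
noncomputable def sq (q : ℕ) (H : SimpleGraph W) : ℕ :=
  sInf {d | ∃ (n : ℕ) (G : SimpleGraph (Fin n)), MinRamsey q H G ∧ d = minDeg G}

/-- `H` is `s_q`-abundant: minimal `q`-Ramsey graphs for `H` can have arbitrarily many vertices
of degree exactly `s_q(H)`. -/
def Abundant (q : ℕ) (H : SimpleGraph W) : Prop :=
  ∀ k : ℕ, ∃ (n : ℕ) (G : SimpleGraph (Fin n)), MinRamsey q H G ∧
    k ≤ {v | (G.neighborSet v).ncard = sq q H}.ncard

/-- `H` is `3`-connected: at least four vertices, connected after deleting any at most two. -/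
def ThreeConnected (H : SimpleGraph W) : Prop :=
  4 ≤ Nat.card W ∧ ∀ S : Set W, S.ncard ≤ 2 → (H.induce Sᶜ).Connected

end Pool.Agent.SQA
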