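import Pool.Agent.SQA.D0
import Pool.Agent.SQA.A1
import Pool.Agent.SQA.A2
import Pool.Agent.SQA.C2

/-!
# [SQA-E1] adjacency senders as pieces
-/

namespace Pool.Agent.SQA

open SimpleGraph

variable {V W X : Type} {q : ℕ}

/-- The level function can be reversed.
PROOF: `l' x := h + 2 - min (l x) (h + 2)`. -/
theorem Far.symm {h : ℕ} {G : SimpleGraph V} {z a b : V} (H : Far h G z a b) :
    Far h G z b a := by
  obtain ⟨l, hla, hlb, hl⟩ := H
  refine ⟨fun x => h + 2 - min (l x) (h + 2), ?_, ?_, ?_⟩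
  · simp only [hlb]
    omega
  · simp only [hla]
    omega
  · intro x y hxy hx hy
    have h1 := hl y x hxy.symm hy hx
    simp only
    omega

theorem e1_far {h : ℕ} {G : SimpleGraph V} {z a b : V} (H : Far h G z a b) : a ≠ b := by
  obtain ⟨l, hla, hlb, hl⟩ := H
  intro hab
  rw [hab, hlb] at hla
  omega

theorem e1_nadj {h : ℕ} {G : SimpleGraph V} {z a b : V} (H : Far h G z a b) (haz : a ≠ z) (hbz : b ≠ z) :
    ¬ G.Adj a b := by
  obtain ⟨l, hla, hlb, hl⟩ := H
  intro hab
  have := hl b a hab.symm hbz haz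
  omega

/-- PROOF: an edge `a b` would give `h + 2 ≤ 0 + 1`. (`za`, `zb` give `a ≠ z`, `b ≠ z`.) -/
theorem ASender.bdry_inj {H : SimpleGraph W} {pos : Bool} {G : SimpleGraph V} {z a b : V}
    (hS : ASender q H pos G z a b) : Function.Injective (![z, a, b] : Fin 3 → V) := by
  have h1 := hS.za.ne
  have h2 := hS.zb.ne
  have h3 := e1_far hS.far
  intro s t hst
  fin_cases s <;> fin_cases t <;> simp_all [eq_comm]

/-- The edges inside the boundary are exactly `z a` and `z b`. -/
theorem ASender.bdry_adj {H : SimpleGraph W} {pos : Bool} {G : SimpleGraph V} {z a b : V}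
    (hS : ASender q H pos G z a b) (s t : Fin 3) :
    G.Adj ((![z, a, b] : Fin 3 → V) s) ((![z, a, b] : Fin 3 → V) t) ↔
      (s = 0 ∧ t ≠ 0) ∨ (s ≠ 0 ∧ t = 0) := by
  have h1 := hS.za
  have h2 := hS.zb
  have h3 := e1_nadj hS.far hS.za.ne' hS.zb.ne'
  have h4 : ¬ G.Adj b a := fun h => h3 h.symm
  have h5 := hS.za.symm
  have h6 := hS.zb.symm
  fin_cases s <;> fin_cases t <;> simp_all

/-- PROOF: if a connected `K` with at most `h` elements avoiding `z, a, b` were adjacent to both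
`a` and `b`, then `conn_level` for the level function of `hS.far` gives `h + 2 ≤ 1 + K.ncard`.
So the set of the boundary neighbours is contained in `{0, 1}` or in `{0, 2}`, and `z a`, `z b`
are edges. -/
theorem ASender.loc [Finite V] {H : SimpleGraph W} {pos : Bool} {G : SimpleGraph V} {z a b : V}
    (hS : ASender q H pos G z a b) :
    Loc (Nat.card W) G (![z, a, b] : Fin 3 → V) := by
  intro K hKc hKb hKn
  have hKz : ∀ x ∈ K, x ≠ z := by
    rintro x hx rfl
    exact hKb 0 hx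
  obtain ⟨l, hla, hlb, hl⟩ := hS.far
  have hno : ¬ ((∃ x ∈ K, G.Adj a x) ∧ ∃ y ∈ K, G.Adj b y) := by
    rintro ⟨⟨x, hx, hax⟩, ⟨y, hy, hby⟩⟩
    have h1 := conn_level (Set.toFinite K) hKc l
      (fun x hx y hy hxy => hl x y hxy (hKz x hx) (hKz y hy)) hx hy
    have h2 := hl x a hax.symm (hKz x hx) hS.za.ne'
    have h3 := hl b y hby hS.zb.ne' (hKz y hy)
    omega
  let T : Set (Fin 3) := {s | ∃ x ∈ K, G.Adj ((![z, a, b] : Fin 3 → V) s) x}
  have hT : ¬ ((1 : Fin 3) ∈ T ∧ (2 : Fin 3) ∈ T) := hno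
  refine ⟨?_, ?_⟩
  · show T.ncard ≤ 2
    by_contra hcon
    push Not at hcon
    have h3 : T.ncard ≤ Nat.card (Fin 3) := Set.ncard_le_card T
    have h4 : T = Set.univ := by
      rw [Set.eq_univ_iff_ncard]
      rw [Nat.card_fin] at h3 ⊢
      omega
    apply hT
    rw [h4]
    exact ⟨Set.mem_univ _, Set.mem_univ _⟩
  · intro s t hst hs ht
    rw [hS.bdry_adj]
    have hs' : s ∈ T := hs
    have ht' : t ∈ T := ht
    by_contra hcon
    push Not at hcon
    have h5 : s ≠ 0 ∧ t ≠ 0 := by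
      constructor
      · intro h
        exact hst (h.trans (hcon.1 h).symm)
      · intro h
        by_cases h6 : s = 0
        · exact hst (h6.trans h.symm)
        · exact hcon.2 h6 h
    apply hT
    have h6 : (s = 1 ∧ t = 2) ∨ (s = 2 ∧ t = 1) := by
      revert hst h5
      clear hcon hs ht hs' ht'
      revert s t
      decide
    rcases h6 with ⟨h7, h8⟩ | ⟨h7, h8⟩
    · exact ⟨h7 ▸ hs', h8 ▸ ht'⟩
    · exact ⟨h8 ▸ ht', h7 ▸ hs'⟩

end Pool.Agent.SQA
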