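import Pool.Agent.SQA.E2a

/-!
# [SQA-E2] level functions on networks
-/

namespace Pool.Agent.SQA

open SimpleGraph

variable {W VB : Type} {q : ℕ}

namespace Net

variable {H : SimpleGraph W} {B : SimpleGraph VB} (N : Net q H B)

/-- A level function on the base extends to the network.
PROOF: the interior vertices of the piece `j` get the level of `z j`; cases by `tot_adj`,
`emb_b`, `emb_int`; a piece has no edge `a' b'` (`bdry_adj`) and `N.za j`, `N.zb j` are edges of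
`B`. -/
theorem level (lB : VB → ℕ) (hl : ∀ x y, B.Adj x y → lB x ≤ lB y + 1) :
    ∃ l : N.fam.VT → ℕ, (∀ x, l (Sum.inl x) = lB x) ∧
      ∀ u w, (N.fam.tot B).Adj u w → l u ≤ l w + 1 := by
  let l : N.fam.VT → ℕ := fun u => match u with
    | Sum.inl x => lB x
    | Sum.inr y => lB (N.z y.1)
  have hl1 : ∀ x, l (Sum.inl x) = lB x := fun x => rfl
  refine ⟨l, hl1, fun u w huw => ?_⟩
  -- the level of a vertex of a piece
  have hφ : ∀ j (s : Fin 3), lB (N.fam.φ j s) ≤ lB (N.z j) + 1 ∧ lB (N.z j) ≤ lB (N.fam.φ j s) + 1 := by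
    intro j s
    have h1 := hl _ _ (N.za j)
    have h2 := hl _ _ (N.za j).symm
    have h3 := hl _ _ (N.zb j)
    have h4 := hl _ _ (N.zb j).symm
    show lB ((![N.z j, N.a j, N.b j] : Fin 3 → VB) s) ≤ lB (N.z j) + 1 ∧
      lB (N.z j) ≤ lB ((![N.z j, N.a j, N.b j] : Fin 3 → VB) s) + 1
    fin_cases s <;> simp <;> omega
  have hint : ∀ j (x : N.fam.X j) (hx : ∀ s, N.fam.b j s ≠ x), l (N.fam.emb j x) = lB (N.z j) := by
    intro j x hx
    rw [N.fam.emb_int j x hx]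
  have hbd : ∀ j (s : Fin 3), l (N.fam.emb j (N.fam.b j s)) = lB (N.fam.φ j s) := by
    intro j s
    rw [N.fam.emb_b]
  rw [N.fam.tot_adj] at huw
  rcases huw with ⟨a, b, hab, rfl, rfl⟩ | ⟨j, x, y, hxy, rfl, rfl⟩
  · exact hl a b hab
  · by_cases hx : ∃ s, N.fam.b j s = x
    · obtain ⟨s, rfl⟩ := hx
      by_cases hy : ∃ t, N.fam.b j t = y
      · obtain ⟨t, rfl⟩ := hy
        rw [hbd, hbd]
        exact hl _ _ (N.compat j s t hxy)
      · rw [hbd, hint j y fun t ht => hy ⟨t, ht⟩]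
        exact (hφ j s).1
    · rw [hint j x fun t ht => hx ⟨t, ht⟩]
      by_cases hy : ∃ t, N.fam.b j t = y
      · obtain ⟨t, rfl⟩ := hy
        rw [hbd]
        exact (hφ j t).2
      · rw [hint j y fun t ht => hy ⟨t, ht⟩]
        omega

/-- If all `z j` are the same vertex `z0`, levels away from `z0` extend, provided that the levels
of `a j` and `b j` are `0` or `h + 2` (`h = Nat.card W`).
PROOF: the interior vertices of the piece `j` get the level `l x` capped at `h + 2`, where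
`l` is the level function of `(N.sender j).far` if `lB (a j) = 0` and `lB (b j) = h + 2`, that
of `(N.sender j).far.symm` if `lB (a j) = h + 2`, `lB (b j) = 0`, and constant `lB (a j)` if
`lB (a j) = lB (b j)`. -/
theorem level' {z0 : VB} (hz : ∀ j, N.z j = z0) (lB : VB → ℕ)
    (hl : ∀ x, lB x = 0 ∨ lB x = Nat.card W + 2)
    (hB : ∀ x y, B.Adj x y → x ≠ z0 → y ≠ z0 → lB x ≤ lB y + 1) :
    ∃ l : N.fam.VT → ℕ, (∀ x, x ≠ z0 → l (Sum.inl x) = lB x) ∧
      ∀ u w, (N.fam.tot B).Adj u w → u ≠ Sum.inl z0 → w ≠ Sum.inl z0 → l u ≤ l w + 1 := by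
  have hj : ∀ j, ∃ lj : N.X j → ℕ, lj (N.a' j) = lB (N.a j) ∧ lj (N.b' j) = lB (N.b j) ∧
      ∀ x y, (N.Γ j).Adj x y → x ≠ N.z' j → y ≠ N.z' j → lj x ≤ lj y + 1 := by
    intro j
    rcases hl (N.a j) with ha | ha <;> rcases hl (N.b j) with hb | hb
    · exact ⟨fun _ => 0, ha.symm, hb.symm, fun _ _ _ _ _ => Nat.zero_le _⟩
    · obtain ⟨l, h1, h2, h3⟩ := (N.sender j).far
      exact ⟨l, h1.trans ha.symm, h2.trans hb.symm, h3⟩
    · obtain ⟨l, h1, h2, h3⟩ := (N.sender j).far.symm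
      exact ⟨l, h2.trans ha.symm, h1.trans hb.symm, h3⟩
    · exact ⟨fun _ => Nat.card W + 2, ha.symm, hb.symm, fun _ _ _ _ _ => Nat.le_succ _⟩
  choose lj h1 h2 h3 using hj
  let l : N.fam.VT → ℕ := fun u => match u with
    | Sum.inl x => lB x
    | Sum.inr y => lj y.1 y.2.1
  have hl1 : ∀ x, l (Sum.inl x) = lB x := fun x => rfl
  refine ⟨l, fun x _ => hl1 x, fun u w huw hu hw => ?_⟩
  have hlev : ∀ j (x : N.X j), N.fam.emb j x ≠ Sum.inl z0 → x ≠ N.z' j ∧ l (N.fam.emb j x) = lj j x := by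
    intro j x hx
    have hxz : x ≠ N.z' j := by
      rintro rfl
      apply hx
      have e0 : N.fam.emb j (N.z' j) = Sum.inl (N.z j) := N.fam.emb_b j 0
      rw [e0, hz]
    refine ⟨hxz, ?_⟩
    by_cases hs : ∃ s, N.fam.b j s = x
    · obtain ⟨s, rfl⟩ := hs
      refine (congrArg l (N.fam.emb_b j s)).trans ?_
      have h4 := h1 j
      have h5 := h2 j
      have hxz' : (![N.z' j, N.a' j, N.b' j] : Fin 3 → N.X j) s ≠ N.z' j := hxz
      show lB ((![N.z j, N.a j, N.b j] : Fin 3 → VB) s) = lj j ((![N.z' j, N.a' j, N.b' j] : Fin 3 → N.X j) s)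
      clear hx hxz
      fin_cases s
      · exact absurd rfl hxz'
      · exact h4.symm
      · exact h5.symm
    · rw [N.fam.emb_int j x fun s h => hs ⟨s, h⟩]
  rw [N.fam.tot_adj] at huw
  rcases huw with ⟨a, b, hab, rfl, rfl⟩ | ⟨j, x, y, hxy, rfl, rfl⟩
  · exact hB a b hab (fun h => hu (by rw [h])) (fun h => hw (by rw [h]))
  · obtain ⟨hx1, hx2⟩ := hlev j x hu
    obtain ⟨hy1, hy2⟩ := hlev j y hw
    rw [hx2, hy2]
    exact h3 j x y hxy hx1 hy1

end Net

end Pool.Agent.SQA
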