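import Pool.Agent.SQA.E1

/-!
# [SQA-E2a] networks of adjacency senders
-/

namespace Pool.Agent.SQA

open SimpleGraph

variable {W VB : Type} {q : ℕ}

/-- The data of a network: adjacency senders `j` with signs, to be placed at `z j, a j, b j` in
the base graph `B`. -/
structure Net (q : ℕ) (H : SimpleGraph W) (B : SimpleGraph VB) where
  J : Type
  finJ : Finite J
  sg : J → Bool
  X : J → Type
  finX : ∀ j, Finite (X j)
  Γ : ∀ j, SimpleGraph (X j)
  z' : ∀ j, X j
  a' : ∀ j, X j
  b' : ∀ j, X j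
  sender : ∀ j, ASender q H (sg j) (Γ j) (z' j) (a' j) (b' j)
  z : J → VB
  a : J → VB
  b : J → VB
  za : ∀ j, B.Adj (z j) (a j)
  zb : ∀ j, B.Adj (z j) (b j)
  ab : ∀ j, a j ≠ b j

namespace Net

variable {H : SimpleGraph W} {B : SimpleGraph VB} (N : Net q H B)

theorem fam_inj (j : N.J) : Function.Injective (![N.z j, N.a j, N.b j] : Fin 3 → VB) := by
  have h1 := (N.za j).ne
  have h2 := (N.zb j).ne
  have h3 := N.ab j
  intro s t hst
  fin_cases s <;> fin_cases t <;> simp_all [eq_comm]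

/-- The family of pieces of a network. -/
def fam : Fam VB (Fin 3) where
  J := N.J
  X := N.X
  Γ := N.Γ
  b := fun j => ![N.z' j, N.a' j, N.b' j]
  φ := fun j => ![N.z j, N.a j, N.b j]
  b_inj := fun j => (N.sender j).bdry_inj
  φ_inj := N.fam_inj

theorem compat : N.fam.Compat B := by
  intro j s t hst
  have h1 := ((N.sender j).bdry_adj s t).1 hst
  have h2 := N.za j
  have h3 := N.zb j
  show B.Adj ((![N.z j, N.a j, N.b j] : Fin 3 → VB) s) ((![N.z j, N.a j, N.b j] : Fin 3 → VB) t)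
  have h4 := h2.symm
  have h5 := h3.symm
  clear hst
  fin_cases s <;> fin_cases t <;> simp_all

theorem finite_VT [Finite VB] : Finite N.fam.VT := by
  have := N.finJ
  have := N.finX
  have h1 : Finite N.fam.J := N.finJ
  have h2 : ∀ j, Finite (N.fam.X j) := N.finX
  exact Fam.finite_VT _

/-- PROOF: `Fam.free_piece`, `(N.sender j).force`, `emb_b`. -/
theorem force {c : Sym2 N.fam.VT → Fin q} (hc : Free H (N.fam.tot B) c) (j : N.J) :
    c s(Sum.inl (N.z j), Sum.inl (N.a j)) = c s(Sum.inl (N.z j), Sum.inl (N.b j)) ↔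
      N.sg j = true := by
  have h1 : (c s(N.fam.emb j (N.z' j), N.fam.emb j (N.a' j)) =
      c s(N.fam.emb j (N.z' j), N.fam.emb j (N.b' j)) ↔ N.sg j = true) :=
    (N.sender j).force _ (Fam.free_piece N.fam hc j)
  have e0 : N.fam.emb j (N.z' j) = Sum.inl (N.z j) := N.fam.emb_b j 0
  have e1 : N.fam.emb j (N.a' j) = Sum.inl (N.a j) := N.fam.emb_b j 1
  have e2 : N.fam.emb j (N.b' j) = Sum.inl (N.b j) := N.fam.emb_b j 2
  rw [← e0, ← e1, ← e2]
  exact h1

/-- PROOF: `Fam.glue` with `hloc` from `ASender.loc` and the colourings `(N.sender j).real`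
for the colours `cB s(z j, a j)`, `cB s(z j, b j)`; the agreement on the boundary edges by
`bdry_adj`. -/
theorem glue [Finite W] (hH : ThreeConnected H) (hq : 1 ≤ q) {cB : Sym2 VB → Fin q}
    (hcB : Free H B cB)
    (hs : ∀ j, cB s(N.z j, N.a j) = cB s(N.z j, N.b j) ↔ N.sg j = true) :
    ∃ c : Sym2 N.fam.VT → Fin q, Free H (N.fam.tot B) c ∧
      ∀ x y, c s(Sum.inl x, Sum.inl y) = cB s(x, y) := by
  have hX : ∀ j, Finite (N.fam.X j) := N.finX
  have hcj := fun j => (N.sender j).real _ _ (hs j)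
  choose cj h1 h2 h3 using hcj
  obtain ⟨c, hc, hc1, -⟩ := Fam.glue N.fam hH hq (B := B)
    (fun j => by
      haveI := N.finX j
      exact (N.sender j).loc) N.compat hcB (cj := cj) h1 (by
      intro j s t hst
      have h4 := ((N.sender j).bdry_adj s t).1 hst
      have h5 := h2 j
      have h6 := h3 j
      have h7 : cj j s(N.a' j, N.z' j) = cB s(N.a j, N.z j) := by
        rw [Sym2.eq_swap, h5, Sym2.eq_swap]
      have h8 : cj j s(N.b' j, N.z' j) = cB s(N.b j, N.z j) := by
        rw [Sym2.eq_swap, h6, Sym2.eq_swap]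
      show cj j s((![N.z' j, N.a' j, N.b' j] : Fin 3 → N.X j) s, (![N.z' j, N.a' j, N.b' j] : Fin 3 → N.X j) t) =
        cB s((![N.z j, N.a j, N.b j] : Fin 3 → VB) s, (![N.z j, N.a j, N.b j] : Fin 3 → VB) t)
      clear hst
      fin_cases s <;> fin_cases t <;> simp_all)
  exact ⟨c, hc, hc1⟩

end Net

end Pool.Agent.SQA
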