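import Pool.Agent.SQA.E2
import Pool.Agent.SQA.D6

/-!
# [SQA-E3] positive adjacency senders exist
-/

namespace Pool.Agent.SQA

open SimpleGraph

variable {W : Type} {q : ℕ}

/-- The star with centre `none` and `q + 1` leaves. -/
def starG (q : ℕ) : SimpleGraph (Option (Fin (q + 1))) where
  Adj x y := (x = none ∧ y ≠ none) ∨ (x ≠ none ∧ y = none)
  symm := ⟨fun _ _ h => h.elim (fun h => Or.inr ⟨h.2, h.1⟩) (fun h => Or.inl ⟨h.2, h.1⟩)⟩
  loopless := ⟨fun _ h => h.elim (fun h => h.2 h.1) (fun h => h.1 h.2)⟩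

theorem starG_ne {q : ℕ} {x y : Option (Fin (q + 1))} (h : (starG q).Adj x y) (hx : x ≠ none) : y = none := by
  rcases h with h | h
  · exact absurd h.1 hx
  · exact h.2

/-- PROOF: take the network on `B := starG q` with `J := {e : Fin (q+1) × Fin (q+1) // e.1 < e.2 ∧
¬ (e.1 = 0 ∧ e.2 = 1)}`, each piece the sender of `exists_negA`, placed at
`z := none`, `a := some e.1`, `b := some e.2`. `G := N.fam.tot B`, `z := Sum.inl none`,
`a := Sum.inl (some 0)`, `b := Sum.inl (some 1)`.
`far`: `Net.level'` with `lB (some 0) = 0` and all other levels `h + 2`.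
`force`: let `χ i := c s(z, x_i)`, `i : Fin (q+1)`. By `Net.force`, `χ i ≠ χ j` for `i < j` except
possibly `(0, 1)`. So the `q` colours `χ 1, ..., χ q` are different and exhaust `Fin q`
(`Finite.injective_iff_surjective`), `χ 0` equals one of them, hence `χ 0 = χ 1`.
`real`: for `i : Fin q` colour the star by `x_0, x_1 ↦ 0` and `x_j ↦ j - 1` for `j ≥ 1`, composed
with a permutation that sends `0` to `i`; it is `H`-free by `free_of_low` (all vertices except the
centre have one neighbour); `Net.glue`. -/
theorem exists_posA [Finite W] [Nonempty W] (hq : 2 ≤ q) {H : SimpleGraph W}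
    (hH : ThreeConnected H) :
    ∃ (V : Type) (_ : Finite V) (G : SimpleGraph V) (z a b : V), ASender q H true G z a b := by
  classical
  obtain ⟨V, hV, G, z, a, b, hS⟩ := exists_negA hq hH
  have hq1 : 1 ≤ q := by omega
  let i1 : Fin (q + 1) := ⟨1, by omega⟩
  have hi1 : i1 ≠ 0 := by
    intro h
    have := congrArg Fin.val h
    simp [i1] at this
  let N : Net q H (starG q) :=
    { J := {e : Fin (q + 1) × Fin (q + 1) // e.1 < e.2 ∧ ¬ (e.1 = 0 ∧ e.2 = i1)}
      finJ := inferInstance
      sg := fun _ => false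
      X := fun _ => V
      finX := fun _ => hV
      Γ := fun _ => G
      z' := fun _ => z
      a' := fun _ => a
      b' := fun _ => b
      sender := fun _ => hS
      z := fun _ => none
      a := fun e => some e.1.1
      b := fun e => some e.1.2
      za := fun e => Or.inl ⟨rfl, Option.some_ne_none _⟩
      zb := fun e => Or.inl ⟨rfl, Option.some_ne_none _⟩
      ab := fun e h => e.2.1.ne (Option.some.inj h) }
  have hstar : ∀ k : Fin (q + 1), (starG q).Adj none (some k) := fun k => Or.inl ⟨rfl, Option.some_ne_none _⟩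
  refine ⟨N.fam.VT, N.finite_VT, N.fam.tot (starG q), Sum.inl none, Sum.inl (some 0), Sum.inl (some i1),
    ⟨N.fam.tot_adj_base (hstar 0), N.fam.tot_adj_base (hstar i1), ?_, ?_, ?_⟩⟩
  · obtain ⟨l, hl1, hl2⟩ := N.level' (z0 := none) (fun _ => rfl) (fun x => if x = some 0 then 0 else Nat.card W + 2)
      (fun x => by
        by_cases h : x = some 0
        · left; rw [if_pos h]
        · right; rw [if_neg h])
      (fun x y hxy hx hy => absurd (starG_ne hxy hx) hy)
    refine ⟨l, ?_, ?_, hl2⟩
    · rw [hl1 _ (Option.some_ne_none _)]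
      simp
    · rw [hl1 _ (Option.some_ne_none _), if_neg]
      intro h
      exact hi1 (Option.some.inj h)
  · intro c hc
    refine ⟨fun _ => rfl, fun _ => ?_⟩
    let χ : Fin (q + 1) → Fin q := fun k => c s(Sum.inl none, Sum.inl (some k))
    have hχ : ∀ i j : Fin (q + 1), i < j → ¬ (i = 0 ∧ j = i1) → χ i ≠ χ j := by
      intro i j hij hn he
      have h1 := (N.force hc ⟨(i, j), hij, hn⟩).1 he
      cases h1
    have hinj : Function.Injective fun k : Fin q => χ k.succ := by
      intro k k' hkk
      by_contra hne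
      rcases lt_or_gt_of_ne hne with h | h
      · exact hχ _ _ (Fin.succ_lt_succ_iff.2 h) (fun h' => Fin.succ_ne_zero _ h'.1) hkk
      · exact hχ _ _ (Fin.succ_lt_succ_iff.2 h) (fun h' => Fin.succ_ne_zero _ h'.1) hkk.symm
    obtain ⟨k, hk⟩ := (Finite.injective_iff_surjective.1 hinj) (χ 0)
    have hk' : χ k.succ = χ 0 := hk
    by_cases hk1 : k.succ = i1
    · rw [hk1] at hk'
      exact hk'.symm
    · exact absurd hk'.symm (hχ 0 k.succ (Fin.succ_pos k) (fun h => hk1 h.2))
  · intro i j hij
    have hij' : i = j := hij.2 rfl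
    subst hij'
    let q0 : Fin q := ⟨0, hq1⟩
    let χ : Fin (q + 1) → Fin q := Fin.cases i (fun k => Equiv.swap q0 i k)
    have hχ0 : χ 0 = i := rfl
    have hχs : ∀ k : Fin q, χ k.succ = Equiv.swap q0 i k := fun k => rfl
    have hq0 : q0.succ = i1 := Fin.ext rfl
    have hχ1 : χ i1 = i := by rw [← hq0, hχs, Equiv.swap_apply_left]
    let cB : Sym2 (Option (Fin (q + 1))) → Fin q := fun e => if h : ∃ k, e = s(none, some k) then χ h.choose else i
    have hcB : ∀ k, cB s(none, some k) = χ k := by
      intro k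
      have h : ∃ k', (s(none, some k) : Sym2 (Option (Fin (q + 1)))) = s(none, some k') := ⟨k, rfl⟩
      simp only [cB, dif_pos h]
      have h1 := h.choose_spec
      rw [Sym2.eq_iff] at h1
      rcases h1 with ⟨-, h1⟩ | ⟨h1, -⟩
      · rw [← Option.some.inj h1]
      · cases h1
    have hfree : Free H (starG q) cB := free_of_low hH none (fun x hx => ⟨none, none, fun y hy =>
      Or.inl (starG_ne hy hx)⟩) cB
    obtain ⟨c, hc, hc1⟩ := N.glue hH hq1 hfree (by
      rintro ⟨⟨e1, e2⟩, he, hne⟩
      have hlt : e1 < e2 := he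
      refine ⟨fun h => ?_, fun h => by cases h⟩
      exfalso
      have h1 : cB s(none, some e1) = cB s(none, some e2) := h
      rw [hcB, hcB] at h1
      obtain ⟨k2, rfl⟩ : ∃ k2 : Fin q, k2.succ = e2 := Fin.exists_succ_eq.2 (fun h => by
        rw [h] at hlt
        exact absurd hlt (Fin.not_lt_zero _))
      by_cases h0 : e1 = 0
      · rw [h0, hχ0, hχs] at h1
        have h2 : k2 = q0 := by
          apply (Equiv.swap q0 i).injective
          rw [Equiv.swap_apply_left]
          exact h1.symm
        exact hne ⟨h0, by rw [h2, hq0]⟩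
      · obtain ⟨k1, rfl⟩ : ∃ k1 : Fin q, k1.succ = e1 := Fin.exists_succ_eq.2 h0
        rw [hχs, hχs] at h1
        rw [(Equiv.swap q0 i).injective h1] at hlt
        exact lt_irrefl _ hlt)
    refine ⟨c, hc, ?_, ?_⟩
    · rw [hc1, hcB, hχ0]
    · rw [hc1, hcB, hχ1]

end Pool.Agent.SQA
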