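import Pool.Agent.SQA.E3

/-!
# [SQA-E4] senders between far edges
-/

namespace Pool.Agent.SQA

open SimpleGraph

variable {W X : Type} {q : ℕ}

/-- Senders between the far edges `b 0, b 1` and `b 2, b 3`. -/
structure FSender (q : ℕ) (H : SimpleGraph W) (pos : Bool) (G : SimpleGraph X) (b : Fin 4 → X) :
    Prop where
  inj : Function.Injective b
  adj01 : G.Adj (b 0) (b 1)
  adj23 : G.Adj (b 2) (b 3)
  adj : ∀ s t, G.Adj (b s) (b t) →
    (s = 0 ∧ t = 1) ∨ (s = 1 ∧ t = 0) ∨ (s = 2 ∧ t = 3) ∨ (s = 3 ∧ t = 2)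
  loc : Loc (Nat.card W) G b
  force : ∀ c : Sym2 X → Fin q, Free H G c → (c s(b 0, b 1) = c s(b 2, b 3) ↔ pos = true)
  real : ∀ i j : Fin q, (i = j ↔ pos = true) →
    ∃ c : Sym2 X → Fin q, Free H G c ∧ c s(b 0, b 1) = i ∧ c s(b 2, b 3) = j

/-- The path with vertices `0, 1, ..., k + 1`. -/
def pathG (k : ℕ) : SimpleGraph (Fin (k + 2)) where
  Adj x y := x.val + 1 = y.val ∨ y.val + 1 = x.val
  symm := ⟨fun _ _ h => h.symm⟩
  loopless := ⟨fun _ h => by rcases h with h | h <;> omega⟩

theorem e4_pair {α : Type} (a b : α) : ({a, b} : Set α).ncard ≤ 2 := by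
  refine (Set.ncard_insert_le a {b}).trans ?_
  rw [Set.ncard_singleton]

/-- PROOF: `h := Nat.card W`, `k := h + 4`. Network on `B := pathG k` with `J := Fin k`; the piece
`i` is placed at `z := i + 1`, `a := i`, `b := i + 2`; the piece `0` is the sender of sign `pos`
(`exists_negA` / `exists_posA`), the other pieces are positive. `G := N.fam.tot B`,
`b := ![x_0, x_1, x_k, x_(k+1)]` (`x_i := Sum.inl i`).
Level function: `Net.level` with `lB i = i` gives `l`.
`adj`: edges between base vertices are base edges (`tot_adj`, `emb_eq_inl`, `N.compat`).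
`loc`: a connected `K` with at most `h` elements adjacent to `x_0` or `x_1` and to `x_k` or
`x_(k+1)` contains vertices of level `≤ 2` and `≥ k - 1`: `conn_level` gives
`k - 1 + 1 ≤ 2 + h`: contradiction; so the neighbours of `K` in the boundary are among `x_0, x_1`
or among `x_k, x_(k+1)`.
`force`: with `e i := c s(x_i, x_(i+1))`, `i ≤ k`: `e 0 = e 1 ↔ pos`, `e i = e (i+1)` for `1 ≤ i`
(`Net.force`).
`real`: colour `s(x_0, x_1)` by `i` and the other pairs by `j`; `H`-free by `free_of_low`
(a vertex `x_i` has only the neighbours `x_(i-1)`, `x_(i+1)`); `Net.glue`. -/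
theorem exists_FSender [Finite W] [Nonempty W] (hq : 2 ≤ q) {H : SimpleGraph W}
    (hH : ThreeConnected H) (pos : Bool) :
    ∃ (X : Type) (_ : Finite X) (G : SimpleGraph X) (b : Fin 4 → X), FSender q H pos G b := by
  classical
  have hA : ∀ s : Bool, ∃ (V : Type) (_ : Finite V) (G : SimpleGraph V) (z a b : V),
      ASender q H s G z a b := by
    intro s
    cases s
    · exact exists_negA hq hH
    · exact exists_posA hq hH
  choose V hV Γ z a b hS using hA
  obtain ⟨k, hk⟩ : ∃ k, k = Nat.card W + 4 := ⟨_, rfl⟩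
  let sg : Fin k → Bool := fun i => if i.val = 0 then pos else true
  let N : Net q H (pathG k) :=
    { J := Fin k
      finJ := inferInstance
      sg := sg
      X := fun i => V (sg i)
      finX := fun i => hV (sg i)
      Γ := fun i => Γ (sg i)
      z' := fun i => z (sg i)
      a' := fun i => a (sg i)
      b' := fun i => b (sg i)
      sender := fun i => hS (sg i)
      z := fun i => ⟨i.val + 1, by omega⟩
      a := fun i => ⟨i.val, by omega⟩
      b := fun i => ⟨i.val + 2, by omega⟩
      za := fun i => Or.inr rfl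
      zb := fun i => Or.inl rfl
      ab := fun i h => by
        have := congrArg Fin.val h
        simp at this }
  let x0 : Fin (k + 2) := ⟨0, by omega⟩
  let x1 : Fin (k + 2) := ⟨1, by omega⟩
  let xk : Fin (k + 2) := ⟨k, by omega⟩
  let xk1 : Fin (k + 2) := ⟨k + 1, by omega⟩
  let v : Fin 4 → Fin (k + 2) := ![x0, x1, xk, xk1]
  have hv0 : (v 0).val = 0 := rfl
  have hv1 : (v 1).val = 1 := rfl
  have hv2 : (v 2).val = k := rfl
  have hv3 : (v 3).val = k + 1 := rfl
  let bb : Fin 4 → N.fam.VT := fun s => Sum.inl (v s)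
  have hbase : ∀ x y, (N.fam.tot (pathG k)).Adj (Sum.inl x) (Sum.inl y) → (pathG k).Adj x y := by
    intro x y h
    rw [N.fam.tot_adj] at h
    rcases h with ⟨a1, b1, hab, h1, h2⟩ | ⟨j, x', y', hxy, h1, h2⟩
    · rw [← Sum.inl.inj h1, ← Sum.inl.inj h2]
      exact hab
    · obtain ⟨s, rfl, rfl⟩ := N.fam.emb_eq_inl h1
      obtain ⟨t, rfl, rfl⟩ := N.fam.emb_eq_inl h2
      exact N.compat j s t hxy
  have hadjv : ∀ s t, (pathG k).Adj (v s) (v t) →
      (s = 0 ∧ t = 1) ∨ (s = 1 ∧ t = 0) ∨ (s = 2 ∧ t = 3) ∨ (s = 3 ∧ t = 2) := by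
    intro s t h
    have h' : (v s).val + 1 = (v t).val ∨ (v t).val + 1 = (v s).val := h
    clear h
    revert h'
    fin_cases s <;> fin_cases t <;> intro h' <;>
      simp only [Fin.zero_eta, Fin.mk_one, Fin.reduceFinMk, hv0, hv1, hv2, hv3] at h' <;>
      first | omega | simp
  have h01 : (N.fam.tot (pathG k)).Adj (bb 0) (bb 1) := N.fam.tot_adj_base (Or.inl rfl)
  have h23 : (N.fam.tot (pathG k)).Adj (bb 2) (bb 3) := N.fam.tot_adj_base (Or.inl rfl)
  have : Finite N.fam.VT := N.finite_VT
  refine ⟨N.fam.VT, N.finite_VT, N.fam.tot (pathG k), bb, ⟨?_, h01, h23, ?_, ?_, ?_, ?_⟩⟩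
  · intro s t hst
    have h1 : (v s).val = (v t).val := congrArg Fin.val (Sum.inl.inj hst)
    clear hst
    revert h1
    fin_cases s <;> fin_cases t <;> intro h1 <;>
      simp only [Fin.zero_eta, Fin.mk_one, Fin.reduceFinMk, hv0, hv1, hv2, hv3] at h1 <;>
      first | rfl | omega
  · intro s t hst
    exact hadjv s t (hbase _ _ hst)
  · obtain ⟨l, hl1, hl2⟩ := N.level (fun x => x.val) (by
      intro x y hxy
      have h : x.val + 1 = y.val ∨ y.val + 1 = x.val := hxy
      show x.val ≤ y.val + 1
      omega)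
    intro K hKc hKb hKn
    let T : Set (Fin 4) := {s | ∃ x ∈ K, (N.fam.tot (pathG k)).Adj (bb s) x}
    have hlow : ∀ s : Fin 4, (v s).val ≤ 1 → s ∈ T → ∃ x ∈ K, l x ≤ 2 := by
      rintro s hs ⟨x, hx, hadj⟩
      refine ⟨x, hx, ?_⟩
      have h1 := hl2 _ _ hadj.symm
      have h2 : l (bb s) = (v s).val := hl1 (v s)
      omega
    have hhigh : ∀ s : Fin 4, k ≤ (v s).val → s ∈ T → ∃ x ∈ K, k ≤ l x + 1 := by
      rintro s hs ⟨x, hx, hadj⟩
      refine ⟨x, hx, ?_⟩
      have h1 := hl2 _ _ hadj
      have h2 : l (bb s) = (v s).val := hl1 (v s)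
      omega
    have hno : ∀ s t : Fin 4, (v s).val ≤ 1 → k ≤ (v t).val → s ∈ T → t ∈ T → False := by
      intro s t hs ht hsT htT
      obtain ⟨x, hx, hx2⟩ := hlow s hs hsT
      obtain ⟨y, hy, hy2⟩ := hhigh t ht htT
      have h1 := conn_level (Set.toFinite K) hKc l (fun x _ y _ hxy => hl2 x y hxy) hx hy
      omega
    have h02 : ¬ ((0 : Fin 4) ∈ T ∧ (2 : Fin 4) ∈ T) := fun h => hno 0 2 (by omega) (by omega) h.1 h.2
    have h03 : ¬ ((0 : Fin 4) ∈ T ∧ (3 : Fin 4) ∈ T) := fun h => hno 0 3 (by omega) (by omega) h.1 h.2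
    have h12 : ¬ ((1 : Fin 4) ∈ T ∧ (2 : Fin 4) ∈ T) := fun h => hno 1 2 (by omega) (by omega) h.1 h.2
    have h13 : ¬ ((1 : Fin 4) ∈ T ∧ (3 : Fin 4) ∈ T) := fun h => hno 1 3 (by omega) (by omega) h.1 h.2
    have hT : T ⊆ {0, 1} ∨ T ⊆ {2, 3} := by
      by_cases h : (0 : Fin 4) ∈ T ∨ (1 : Fin 4) ∈ T
      · left
        intro s hs
        fin_cases s
        · simp
        · simp
        · exfalso
          have hs' : (2 : Fin 4) ∈ T := hs
          rcases h with h | h
          · exact h02 ⟨h, hs'⟩
          · exact h12 ⟨h, hs'⟩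
        · exfalso
          have hs' : (3 : Fin 4) ∈ T := hs
          rcases h with h | h
          · exact h03 ⟨h, hs'⟩
          · exact h13 ⟨h, hs'⟩
      · right
        push Not at h
        intro s hs
        fin_cases s
        · exact absurd hs h.1
        · exact absurd hs h.2
        · simp
        · simp
    refine ⟨?_, ?_⟩
    · show T.ncard ≤ 2
      rcases hT with h | h
      · exact (Set.ncard_le_ncard h (Set.toFinite _)).trans (e4_pair _ _)
      · exact (Set.ncard_le_ncard h (Set.toFinite _)).trans (e4_pair _ _)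
    · intro s t hst hs ht
      have hs' : s ∈ T := hs
      have ht' : t ∈ T := ht
      rcases hT with h | h
      · have h1 := h hs'
        have h2 := h ht'
        simp only [Set.mem_insert_iff, Set.mem_singleton_iff] at h1 h2
        rcases h1 with rfl | rfl <;> rcases h2 with rfl | rfl
        · exact absurd rfl hst
        · exact h01
        · exact h01.symm
        · exact absurd rfl hst
      · have h1 := h hs'
        have h2 := h ht'
        simp only [Set.mem_insert_iff, Set.mem_singleton_iff] at h1 h2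
        rcases h1 with rfl | rfl <;> rcases h2 with rfl | rfl
        · exact absurd rfl hst
        · exact h23
        · exact h23.symm
        · exact absurd rfl hst
  · intro c hc
    let e : ℕ → Fin q := fun i => if h : i ≤ k then
      c s(Sum.inl (⟨i, by omega⟩ : Fin (k + 2)), Sum.inl (⟨i + 1, by omega⟩ : Fin (k + 2)))
      else c s(Sum.inl x0, Sum.inl x0)
    have he : ∀ i (hi : i ≤ k), e i = c s(Sum.inl (⟨i, by omega⟩ : Fin (k + 2)), Sum.inl (⟨i + 1, by omega⟩ : Fin (k + 2))) := by
      intro i hi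
      simp only [e, dif_pos hi]
    have hf : ∀ i (hi : i < k), e i = e (i + 1) ↔ sg ⟨i, hi⟩ = true := by
      intro i hi
      have h1 := N.force hc ⟨i, hi⟩
      rw [he i hi.le, he (i + 1) hi]
      rw [Sym2.eq_swap]
      exact h1
    have h0 : e 0 = e 1 ↔ pos = true := by
      have := hf 0 (by omega)
      simpa [sg] using this
    have h1 : ∀ i, i + 1 ≤ k → e (i + 1) = e 1 := by
      intro i
      induction i with
      | zero => intro _; rfl
      | succ i ih =>
        intro hi
        rw [← ih (by omega)]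
        refine ((hf (i + 1) (by omega)).2 ?_).symm
        simp [sg]
    have h2 : e k = e 1 := by
      have := h1 (k - 1) (by omega)
      rwa [Nat.sub_add_cancel (by omega)] at this
    have h3 : c s(bb 0, bb 1) = e 0 := by rw [he 0 (by omega)]; rfl
    have h4 : c s(bb 2, bb 3) = e k := by rw [he k le_rfl]; rfl
    rw [h3, h4, h2]
    exact h0
  · intro i j hij
    let cB : Sym2 (Fin (k + 2)) → Fin q := fun e => if e = s(x0, x1) then i else j
    have hfree : Free H (pathG k) cB := by
      refine free_of_low hH x0 (fun x _ => ?_) cB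
      refine ⟨⟨x.val - 1, by omega⟩, if h : x.val + 1 < k + 2 then ⟨x.val + 1, h⟩ else x0, ?_⟩
      intro y hxy
      have h : x.val + 1 = y.val ∨ y.val + 1 = x.val := hxy
      rcases h with h | h
      · right
        rw [dif_pos (by omega)]
        exact Fin.ext h.symm
      · left
        apply Fin.ext
        show y.val = x.val - 1
        omega
    have hne : ∀ (m n : Fin (k + 2)), 2 ≤ m.val → cB s(m, n) = j := by
      intro m n hm
      refine if_neg fun h => ?_
      rw [Sym2.eq_iff] at h
      have e0 : x0.val = 0 := rfl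
      have e1 : x1.val = 1 := rfl
      rcases h with ⟨h, -⟩ | ⟨h, -⟩
      · rw [h] at hm; omega
      · rw [h] at hm; omega
    obtain ⟨c, hc, hc1⟩ := N.glue hH (by omega) hfree (by
      intro m
      have hz : N.z m = ⟨m.val + 1, by have := m.isLt; omega⟩ := rfl
      have ha : N.a m = ⟨m.val, by have := m.isLt; omega⟩ := rfl
      have hb : N.b m = ⟨m.val + 2, by have := m.isLt; omega⟩ := rfl
      have hb' : cB s(N.z m, N.b m) = j := by
        rw [Sym2.eq_swap]
        exact hne _ _ (by rw [hb]; show 2 ≤ m.val + 2; omega)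
      rw [hb']
      by_cases hm : m.val = 0
      · have ha' : cB s(N.z m, N.a m) = i := by
          refine if_pos ?_
          have e1 : N.z m = x1 := Fin.ext (show m.val + 1 = 1 by omega)
          have e2 : N.a m = x0 := Fin.ext hm
          rw [e1, e2, Sym2.eq_swap]
        rw [ha', hij]
        show pos = true ↔ (if m.val = 0 then pos else true) = true
        rw [if_pos hm]
      · have ha' : cB s(N.z m, N.a m) = j := hne _ _ (by rw [hz]; show 2 ≤ m.val + 1; omega)
        rw [ha']
        show j = j ↔ (if m.val = 0 then pos else true) = true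
        rw [if_neg hm]
        simp)
    refine ⟨c, hc, ?_, ?_⟩
    · exact (hc1 _ _).trans (if_pos rfl)
    · exact (hc1 _ _).trans (hne _ _ (by rw [hv2]; omega))

end Pool.Agent.SQA
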