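import Pool.Agent.SQA.E4

/-!
# [SQA-F1] links between arbitrary disjoint edges
-/

namespace Pool.Agent.SQA

open SimpleGraph

variable {W VB Λ : Type} {q : ℕ}

/-- Links: for finitely many pairs of disjoint edges `L ℓ 0, L ℓ 1` and `L ℓ 2, L ℓ 3` on the base
with signs `sg ℓ` there is a graph `R` on a larger vertex set such that the `H`-free colourings
of `B ∪ R` restrict exactly to the `H`-free colourings of `B` with the prescribed equalities and
inequalities, for all base graphs `B` containing the linked edges; `R` does not touch base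
vertices which are not in a link.
PROOF: `Fam VB (Fin 4)` with `J := Λ`, the piece `ℓ` is the sender `exists_FSender (sg ℓ)` with
boundary `b` and `φ ℓ := L ℓ`. `V := F.VT`, `ι := Sum.inl`, `R := F.rest`, `B.map ι ⊔ R = F.tot B`.
Second claim: `emb_eq_inl`. `Compat`: `FSender.adj` and the hypothesis on `B`. Force:
`Fam.free_piece`, `FSender.force`, `emb_b`. Glueing: `Fam.glue` with `FSender.real`,
`FSender.loc`. -/
theorem link [Finite W] [Nonempty W] (hq : 2 ≤ q) {H : SimpleGraph W} (hH : ThreeConnected H)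
    [Finite VB] [Finite Λ] (L : Λ → Fin 4 → VB) (hL : ∀ ℓ, Function.Injective (L ℓ))
    (sg : Λ → Bool) :
    ∃ (V : Type) (_ : Finite V) (ι : VB → V) (R : SimpleGraph V), Function.Injective ι ∧
      (∀ x, (∀ ℓ s, L ℓ s ≠ x) → ∀ y, ¬ R.Adj (ι x) y) ∧
      ∀ B : SimpleGraph VB, (∀ ℓ, B.Adj (L ℓ 0) (L ℓ 1) ∧ B.Adj (L ℓ 2) (L ℓ 3)) →
        (∀ c : Sym2 V → Fin q, Free H (B.map ι ⊔ R) c → ∀ ℓ,
          (c s(ι (L ℓ 0), ι (L ℓ 1)) = c s(ι (L ℓ 2), ι (L ℓ 3)) ↔ sg ℓ = true)) ∧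
        ∀ cB : Sym2 VB → Fin q, Free H B cB →
          (∀ ℓ, (cB s(L ℓ 0, L ℓ 1) = cB s(L ℓ 2, L ℓ 3) ↔ sg ℓ = true)) →
          ∃ c : Sym2 V → Fin q, Free H (B.map ι ⊔ R) c ∧
            ∀ x y, c s(ι x, ι y) = cB s(x, y) := by
  have hS := fun ℓ : Λ => exists_FSender hq hH (sg ℓ)
  choose X finX G b hS using hS
  let F : Fam VB (Fin 4) :=
    { J := Λ
      X := X
      Γ := G
      b := b
      φ := L
      b_inj := fun ℓ => (hS ℓ).inj
      φ_inj := hL }
  have finX' : ∀ j : F.J, Finite (F.X j) := finX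
  have finJ : Finite F.J := inferInstanceAs (Finite Λ)
  refine ⟨F.VT, F.finite_VT, Sum.inl, F.rest, Sum.inl_injective, ?_, ?_⟩
  · rintro x hx y ⟨j, x', y', -, h1, -⟩
    obtain ⟨s, -, hs⟩ := F.emb_eq_inl h1
    exact hx j s hs.symm
  · intro B hB
    have hcomp : F.Compat B := by
      intro j s t hst
      obtain ⟨h1, h2⟩ := hB j
      rcases (hS j).adj s t hst with ⟨rfl, rfl⟩ | ⟨rfl, rfl⟩ | ⟨rfl, rfl⟩ | ⟨rfl, rfl⟩
      · exact h1
      · exact h1.symm
      · exact h2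
      · exact h2.symm
    refine ⟨?_, ?_⟩
    · intro c hc ℓ
      have h1 := (hS ℓ).force _ (F.free_piece (B := B) hc ℓ)
      have e : ∀ s t, (c ∘ Sym2.map (F.emb ℓ)) s(b ℓ s, b ℓ t) =
          c s(Sum.inl (L ℓ s), Sum.inl (L ℓ t)) := by
        intro s t
        rw [Function.comp_apply, Sym2.map_mk]
        exact congrArg c (congrArg₂ (fun x y => s(x, y)) (F.emb_b ℓ s) (F.emb_b ℓ t))
      rw [e, e] at h1
      exact h1
    · intro cB hcB hs
      have hr := fun ℓ => (hS ℓ).real (cB s(L ℓ 0, L ℓ 1)) (cB s(L ℓ 2, L ℓ 3)) (hs ℓ)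
      choose cj hcj h01 h23 using hr
      have hag : ∀ (j : F.J) (s t : Fin 4), (F.Γ j).Adj (F.b j s) (F.b j t) →
          cj j s(F.b j s, F.b j t) = cB s(F.φ j s, F.φ j t) := by
        intro j s t hst
        have h1 : cj j s(F.b j 0, F.b j 1) = cB s(F.φ j 0, F.φ j 1) := h01 j
        have h2 : cj j s(F.b j 2, F.b j 3) = cB s(F.φ j 2, F.φ j 3) := h23 j
        rcases (hS j).adj s t hst with ⟨rfl, rfl⟩ | ⟨rfl, rfl⟩ | ⟨rfl, rfl⟩ | ⟨rfl, rfl⟩
        · exact h1
        · rw [Sym2.eq_swap, h1, Sym2.eq_swap]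
        · exact h2
        · rw [Sym2.eq_swap, h2, Sym2.eq_swap]
      obtain ⟨c, hc1, hc2, -⟩ := F.glue hH (by omega) (fun j => (hS j).loc) hcomp hcB hcj hag
      exact ⟨c, hc1, hc2⟩

end Pool.Agent.SQA
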