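import Pool.Agent.SQA.Base

/-!
# [SQA-G] pattern gadgets: definitions
-/

namespace Pool.Agent.SQA

/-- A palette `P` with inequality constraints `Ne'` and a table `t i a b`: every assignment
satisfying the constraints reads `a` (up to a permutation of the colours) in some row `i`, and for
every `i` there is an assignment that reads `a` in row `i` and `b` (up to permutations) in all
the other rows. -/
structure Palette (q k : ℕ) where
  P : Type
  fin : Finite P
  Ne' : P → P → Prop
  irr : ∀ x, ¬ Ne' x x
  t : Fin k → Fin q → Fin q → P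
  force : ∀ f : P → Fin q, (∀ x y, Ne' x y → f x ≠ f y) →
    ∃ i, ∃ σ : Equiv.Perm (Fin q), ∀ a b, f (t i a b) = σ a
  real : ∀ i, ∃ f : P → Fin q, (∀ x y, Ne' x y → f x ≠ f y) ∧ (∀ a b, f (t i a b) = a) ∧
    ∀ j, j ≠ i → ∃ σ : Equiv.Perm (Fin q), ∀ a b, f (t j a b) = σ b

/-- The palette with one row. -/
def palette1 (q : ℕ) : Palette q 1 where
  P := Fin q
  fin := inferInstance
  Ne' := fun x y => x ≠ y
  irr := fun x h => h rfl
  t := fun _ a _ => a
  force := fun f hf => by
    have hinj : Function.Injective f := fun x y hxy => by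
      by_contra h
      exact hf x y h hxy
    refine ⟨0, Equiv.ofBijective f (Finite.injective_iff_bijective.mp hinj), fun a b => rfl⟩
  real := fun i => ⟨id, fun x y h => h, fun _ _ => rfl,
    fun j hj => absurd (Subsingleton.elim j i) hj⟩

end Pool.Agent.SQA
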