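import Pool.Agent.SQA.G0

/-!
# [SQA-G1] the theorem of Greenwell and Lovasz
-/

namespace Pool.Agent.SQA

/-- `a` on `A` and `b` off `A` -/
def g1m {q k : ℕ} (A : Finset (Fin k)) (a b : Fin q) : Fin k → Fin q := fun i => if i ∈ A then a else b

theorem g1m_pos {q k : ℕ} {A : Finset (Fin k)} (a b : Fin q) {i : Fin k} (h : i ∈ A) : g1m A a b i = a :=
  if_pos h

theorem g1m_neg {q k : ℕ} {A : Finset (Fin k)} (a b : Fin q) {i : Fin k} (h : i ∉ A) : g1m A a b i = b :=
  if_neg h

/-- `A` wins -/
def g1W {q k : ℕ} (F : (Fin k → Fin q) → Fin q) (A : Finset (Fin k)) : Prop :=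
  ∀ a b, a ≠ b → F (g1m A a b) = a

section
variable {q k : ℕ} (F : (Fin k → Fin q) → Fin q) (hF : ∀ x y, (∀ i, x i ≠ y i) → F x ≠ F y)
  (hc : ∀ a, F (fun _ => a) = a)
include hF hc

theorem g1_two (A : Finset (Fin k)) (a b : Fin q) : F (g1m A a b) = a ∨ F (g1m A a b) = b := by
  by_contra hcon
  push Not at hcon
  refine hF (g1m A a b) (fun _ => F (g1m A a b)) (fun i => ?_) (hc _).symm
  by_cases hi : i ∈ A
  · rw [g1m_pos a b hi]
    exact hcon.1.symm
  · rw [g1m_neg a b hi]
    exact hcon.2.symm

theorem g1_swap (A : Finset (Fin k)) {a b : Fin q} (hab : a ≠ b) (h : F (g1m A a b) = a) :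
    F (g1m A b a) = b := by
  have h1 : F (g1m A a b) ≠ F (g1m A b a) := by
    refine hF _ _ fun i => ?_
    by_cases hi : i ∈ A
    · rw [g1m_pos a b hi, g1m_pos b a hi]
      exact hab
    · rw [g1m_neg a b hi, g1m_neg b a hi]
      exact hab.symm
  rcases g1_two F hF hc A b a with h2 | h2
  · exact h2
  · exact absurd (h.trans h2.symm) h1

theorem g1_third (A : Finset (Fin k)) {a b c : Fin q} (hab : a ≠ b) (hca : c ≠ a)
    (h : F (g1m A a b) = a) : F (g1m A a c) = a := by
  have h1 : F (g1m A a b) ≠ F (g1m A c a) := by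
    refine hF _ _ fun i => ?_
    by_cases hi : i ∈ A
    · rw [g1m_pos a b hi, g1m_pos c a hi]
      exact hca.symm
    · rw [g1m_neg a b hi, g1m_neg c a hi]
      exact hab.symm
  have h2 : F (g1m A c a) = c := by
    rcases g1_two F hF hc A c a with h2 | h2
    · exact h2
    · exact absurd (h.trans h2.symm) h1
  exact g1_swap F hF hc A hca h2

theorem g1_win (A : Finset (Fin k)) {a b : Fin q} (hab : a ≠ b) (h : F (g1m A a b) = a) : g1W F A := by
  intro a' b' hab'
  by_cases h1 : a' = a
  · subst h1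
    exact g1_third F hF hc A hab hab'.symm h
  · have h2 : F (g1m A a a') = a := g1_third F hF hc A hab h1 h
    have h3 : F (g1m A a' a) = a' := g1_swap F hF hc A (Ne.symm h1) h2
    exact g1_third F hF hc A h1 hab'.symm h3

theorem g1_compl {A : Finset (Fin k)} {a b : Fin q} (hab : a ≠ b) (h : ¬ g1W F A) : g1W F Aᶜ := by
  have h1 : F (g1m A a b) = b := by
    rcases g1_two F hF hc A a b with h1 | h1
    · exact absurd (g1_win F hF hc A hab h1) h
    · exact h1
  have h2 : g1m Aᶜ b a = g1m A a b := by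
    funext i
    by_cases hi : i ∈ A
    · rw [g1m_pos a b hi, g1m_neg b a (by rw [Finset.mem_compl]; exact fun h => h hi)]
    · rw [g1m_neg a b hi, g1m_pos b a (by rw [Finset.mem_compl]; exact hi)]
  exact g1_win F hF hc Aᶜ hab.symm (by rw [h2]; exact h1)

theorem g1_fiber (hq : 3 ≤ q) (x : Fin k → Fin q) (a : Fin q) (hx : F x = a) :
    g1W F (Finset.univ.filter fun i => x i = a) := by
  obtain ⟨b, hb⟩ : ∃ b : Fin q, b ≠ a := by
    by_cases h : a = ⟨0, by omega⟩
    · exact ⟨⟨1, by omega⟩, by rw [h]; simp [Fin.ext_iff]⟩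
    · exact ⟨_, Ne.symm h⟩
  by_contra hcon
  have h1 := g1_compl F hF hc hb.symm hcon a b hb.symm
  refine hF x (g1m (Finset.univ.filter fun i => x i = a)ᶜ a b) (fun i => ?_) (hx.trans h1.symm)
  by_cases hi : x i = a
  · rw [g1m_neg a b (by
      rw [Finset.mem_compl]
      exact fun h => h (Finset.mem_filter.2 ⟨Finset.mem_univ _, hi⟩)), hi]
    exact hb.symm
  · rw [g1m_pos a b (by
      rw [Finset.mem_compl, Finset.mem_filter]
      exact fun h => hi h.2)]
    exact hi

theorem g1_inter (hq : 3 ≤ q) {A B : Finset (Fin k)} (hA : g1W F A) (hB : g1W F B) : (A ∩ B).Nonempty := by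
  by_contra hcon
  have hd : ∀ i, i ∈ A → i ∉ B := fun i h1 h2 => hcon ⟨i, Finset.mem_inter.2 ⟨h1, h2⟩⟩
  have h1 := hA ⟨0, by omega⟩ ⟨1, by omega⟩ (by simp [Fin.ext_iff])
  have h2 := hB ⟨0, by omega⟩ ⟨2, by omega⟩ (by simp [Fin.ext_iff])
  -- values 0, but compare with swapped roles
  refine hF (g1m A ⟨0, by omega⟩ ⟨1, by omega⟩) (g1m B ⟨0, by omega⟩ ⟨2, by omega⟩) (fun i => ?_)
    (h1.trans h2.symm)
  by_cases hiA : i ∈ A
  · rw [g1m_pos _ _ hiA, g1m_neg _ _ (hd i hiA)]
    simp [Fin.ext_iff]
  · rw [g1m_neg _ _ hiA]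
    by_cases hiB : i ∈ B
    · rw [g1m_pos _ _ hiB]
      simp [Fin.ext_iff]
    · rw [g1m_neg _ _ hiB]
      simp [Fin.ext_iff]

theorem g1_and (hq : 3 ≤ q) {A B : Finset (Fin k)} (hA : g1W F A) (hB : g1W F B) : g1W F (A ∩ B) := by
  set a : Fin q := ⟨0, by omega⟩ with ha
  set b : Fin q := ⟨1, by omega⟩ with hb
  set c : Fin q := ⟨2, by omega⟩ with hcc
  have hab : a ≠ b := by simp [ha, hb, Fin.ext_iff]
  have hac : a ≠ c := by simp [ha, hcc, Fin.ext_iff]
  have hbc : b ≠ c := by simp [hb, hcc, Fin.ext_iff]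
  set x : Fin k → Fin q := fun i => if i ∈ A then (if i ∈ B then a else b) else c with hx
  have hxa : ∀ i, x i = a → i ∈ A ∧ i ∈ B := by
    intro i hi
    by_cases h1 : i ∈ A
    · by_cases h2 : i ∈ B
      · exact ⟨h1, h2⟩
      · rw [hx] at hi
        simp only [if_pos h1, if_neg h2] at hi
        exact absurd hi.symm hab
    · rw [hx] at hi
      simp only [if_neg h1] at hi
      exact absurd hi.symm hac
  have hxb : ∀ i, x i = b → i ∉ B := by
    intro i hi h2
    by_cases h1 : i ∈ A
    · rw [hx] at hi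
      simp only [if_pos h1, if_pos h2] at hi
      exact hab hi
    · rw [hx] at hi
      simp only [if_neg h1] at hi
      exact hbc hi.symm
  have hxc : ∀ i, x i = c → i ∉ A := by
    intro i hi h1
    by_cases h2 : i ∈ B
    · rw [hx] at hi
      simp only [if_pos h1, if_pos h2] at hi
      exact hac hi
    · rw [hx] at hi
      simp only [if_pos h1, if_neg h2] at hi
      exact hbc hi
  have hw := g1_fiber F hF hc hq x (F x) rfl
  by_cases h1 : F x = a
  · rw [h1] at hw
    have h2 : (Finset.univ.filter fun i => x i = a) = A ∩ B := by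
      ext i
      rw [Finset.mem_filter, Finset.mem_inter]
      constructor
      · exact fun h => hxa i h.2
      · intro h
        refine ⟨Finset.mem_univ _, ?_⟩
        rw [hx]
        simp only [if_pos h.1, if_pos h.2]
    rwa [h2] at hw
  · exfalso
    by_cases h2 : F x = b
    · rw [h2] at hw
      obtain ⟨i, hi⟩ := g1_inter F hF hc hq hw hB
      rw [Finset.mem_inter, Finset.mem_filter] at hi
      exact hxb i hi.1.2 hi.2
    · by_cases h3 : F x = c
      · rw [h3] at hw
        obtain ⟨i, hi⟩ := g1_inter F hF hc hq hw hA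
        rw [Finset.mem_inter, Finset.mem_filter] at hi
        exact hxc i hi.1.2 hi.2
      · obtain ⟨i, hi⟩ := g1_inter F hF hc hq hw hw
        rw [Finset.mem_inter, Finset.mem_filter] at hi
        have h4 := hi.1.2
        by_cases h5 : i ∈ A
        · by_cases h6 : i ∈ B
          · rw [hx] at h4
            simp only [if_pos h5, if_pos h6] at h4
            exact h1 h4.symm
          · rw [hx] at h4
            simp only [if_pos h5, if_neg h6] at h4
            exact h2 h4.symm
        · rw [hx] at h4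
          simp only [if_neg h5] at h4
          exact h3 h4.symm

theorem g1_core (hq : 3 ≤ q) : ∃ i, ∀ x, F x = x i := by
  classical
  have huniv : g1W F Finset.univ := by
    intro a b hab
    have h1 : g1m (Finset.univ : Finset (Fin k)) a b = fun _ => a := by
      funext i
      exact g1m_pos a b (Finset.mem_univ i)
    rw [h1, hc]
  set I : Finset (Fin k) := (Finset.univ.filter fun A : Finset (Fin k) => g1W F A).inf id with hI
  have hIW : g1W F I := by
    rw [hI]
    refine Finset.inf_induction (p := fun A => g1W F A) ?_ ?_ ?_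
    · exact huniv
    · intro A hA B hB
      exact g1_and F hF hc hq hA hB
    · intro A hA
      exact (Finset.mem_filter.1 hA).2
  obtain ⟨i, hi⟩ := g1_inter F hF hc hq hIW hIW
  rw [Finset.inter_self] at hi
  refine ⟨i, fun x => ?_⟩
  have hw := g1_fiber F hF hc hq x (F x) rfl
  have h1 : I ≤ Finset.univ.filter fun i => x i = F x := by
    rw [hI]
    exact Finset.inf_le (f := id) (Finset.mem_filter.2 ⟨Finset.mem_univ _, hw⟩)
  exact ((Finset.mem_filter.1 (h1 hi)).2).symm

end

/-- PROOF. `x ∼ y` means `x i ≠ y i` for all `i` (so `f x ≠ f y`). The constants are pairwise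
adjacent, so `a ↦ f (fun _ => a)` is a permutation `π`; replace `f` by `π.symm ∘ f`: then
`f (fun _ => a) = a`. For `A : Set (Fin k)` (or `Finset`) let `m A a b` be `a` on `A` and `b` off `A`.
(1) For `a ≠ b`: `f (m A a b) ∈ {a, b}` (adjacent to the other constants). Say `A` wins for
`(a, b)` if `f (m A a b) = a`. `m A a b ∼ m A b a`, so `A` wins for `(a, b)` iff for `(b, a)`. If
`c ≠ a, b` then `m A a b ∼ m A c a`, so `A` wins for `(a, b)` implies `A` wins for `(c, a)`, hence
for `(a, c)`. Therefore (`q ≥ 3`) winning does not depend on the pair. `univ` wins, `∅` does not;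
`A` wins iff `Aᶜ` does not (`m Aᶜ b a = m A a b`).
(2) If `f x = a` then `A := {i | x i = a}` wins: otherwise `Aᶜ` wins; take `b ≠ a`;
`x ∼ m Aᶜ a b` and `f (m Aᶜ a b) = a = f x`: contradiction.
(3) Two winning sets `A`, `B` intersect: otherwise (`a, b, c` different) `m A a b ∼ m B a c` and
both have the value `a`. Hence winning sets are upward closed (`A ⊆ B`, `B` not winning: `Bᶜ`
wins and is disjoint from `A`).
(4) If `A`, `B` win then `A ∩ B` wins: let `x` be `a` on `A ∩ B`, `b` on `A \ B`, `c` off `A`; by (2)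
the set `{i | x i = f x}` wins; it is one of `A ∩ B`, `A \ B`, `Aᶜ`, `∅`; the last three are
impossible by (3).
(5) So the intersection of all winning sets wins (finitely many), it is nonempty; let `i` be an
element. Every `x`: `{j | x j = f x}` wins by (2), so it contains `i`: `f x = x i`. -/
theorem greenwell_lovasz {q k : ℕ} (hq : 3 ≤ q) (f : (Fin k → Fin q) → Fin q)
    (hf : ∀ x y, (∀ i, x i ≠ y i) → f x ≠ f y) (hk : 1 ≤ k) :
    ∃ i, ∃ σ : Equiv.Perm (Fin q), ∀ x, f x = σ (x i) := by
  have hinj : Function.Injective (fun a : Fin q => f (fun _ => a)) := by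
    intro a b hab
    by_contra hne
    exact hf (fun _ => a) (fun _ => b) (fun _ => hne) hab
  set π : Equiv.Perm (Fin q) := Equiv.ofBijective _ (Finite.injective_iff_bijective.mp hinj) with hπ
  have hπa : ∀ a, π a = f (fun _ => a) := fun a => rfl
  obtain ⟨i, hi⟩ := g1_core (fun x => π.symm (f x)) (fun x y hxy h => hf x y hxy (π.symm.injective h))
    (fun a => by rw [← hπa, Equiv.symm_apply_apply]) hq
  refine ⟨i, π, fun x => ?_⟩
  have h1 : π.symm (f x) = x i := hi x
  rw [← h1, Equiv.apply_symm_apply]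

/-- PROOF: `P := Fin k → Fin q`, `Ne' x y := ∀ i, x i ≠ y i` (irreflexive since `1 ≤ k`),
`t i a b := fun j => if j = i then a else b`, `force` by `greenwell_lovasz`, `real i`: `f x := x i`. -/
theorem exists_palette3 {q k : ℕ} (hq : 3 ≤ q) (hk : 1 ≤ k) : Nonempty (Palette q k) := by
  refine ⟨{ P := Fin k → Fin q
            fin := inferInstance
            Ne' := fun x y => ∀ i, x i ≠ y i
            irr := fun x h => h ⟨0, hk⟩ rfl
            t := fun i a b j => if j = i then a else b
            force := fun f hf => ?_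
            real := fun i => ⟨fun x => x i, fun x y h => h i, fun a b => if_pos rfl, fun j hj =>
              ⟨Equiv.refl _, fun a b => if_neg (Ne.symm hj)⟩⟩ }⟩
  obtain ⟨i, σ, h⟩ := greenwell_lovasz hq f hf hk
  refine ⟨i, σ, fun a b => ?_⟩
  rw [h, if_pos rfl]

end Pool.Agent.SQA
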