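import Pool.Agent.SQA.G0

/-!
# [SQA-G2] the odd ring (two colours)
-/

namespace Pool.Agent.SQA

theorem g2_add (x y : Fin 2) (h : x ≠ y) : y = x + 1 := by
  revert x y
  decide

/-- the parity -/
def g2p (n : ℕ) : Fin 2 := if n % 2 = 0 then 0 else 1

theorem g2p_succ (n : ℕ) : g2p (n + 1) = g2p n + 1 := by
  unfold g2p
  rcases Nat.mod_two_eq_zero_or_one n with h | h
  · rw [if_neg (by omega), if_pos h]
    rfl
  · rw [if_pos (by omega), if_neg (by omega)]
    rfl

theorem g2_e {l : ℕ} (x : Fin (2 * l + 1)) (hx : x + 1 ≠ 0) : g2p (x + 1).val = g2p x.val + 1 := by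
  have h1 : x ≠ Fin.last (2 * l) := by
    rintro rfl
    exact hx (Fin.last_add_one _)
  have h2 : (x + 1).val = x.val + 1 := by
    rw [Fin.val_add_one, if_neg h1]
  rw [h2, g2p_succ]

theorem g2_last {l : ℕ} (x : Fin (2 * l + 1)) (hx : x + 1 = 0) : g2p x.val = 0 := by
  have h1 : x = Fin.last (2 * l) := by
    by_contra h
    have h2 : (x + 1).val = x.val + 1 := by
      rw [Fin.val_add_one, if_neg h]
    rw [hx] at h2
    simp at h2
  rw [h1, Fin.val_last]
  unfold g2p
  rw [if_pos (by omega)]

/-- PROOF: write `k = 2 * l + 1`. `P := Fin k × Fin 2`, `Ne' (i, s) (j, s') := i = j ∧ s ≠ s'`,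
`t i a b := (if a = b then i else i + 1, a)` (`i + 1` is cyclic in `Fin (2 * l + 1)`).
`force`: `f (i, ·)` is a permutation `σ i` of `Fin 2`. If `σ i ≠ σ (i + 1)` for all `i`, then
`σ` alternates around a cycle of odd length: contradiction (`f (i, 0) ≠ f (i+1, 0)` for all `i` is a
proper 2-colouring of an odd cycle: show `f (i, 0) = f (0, 0) + i` for `i = 0, ..., 2 l`, as
elements of `Fin 2`, by induction, then `i = 2 l` and `i + 1 = 0` contradict). So `σ i = σ (i+1)`
for some `i`, and `f (t i a b) = σ i a`.
`real i`: `f (j, s) := s` if `(j - i - 1 : Fin k).val` is even and `1 - s` otherwise (`j - i - 1` in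
the cyclic group `Fin k`): for `j = i + 1` the value is `0`, for `j = i` it is `2 l`: both even, so
`f (t i a b) = a`; for `j ≠ i`: the values for `j` and `j + 1` are consecutive numbers, so
`σ j ≠ σ (j+1)`; `f (t j a b) = σ j a = σ j b` if `a = b` and `σ (j+1) a = σ j b` if `a ≠ b`
(only two colours). -/
theorem exists_palette2 (l : ℕ) : Nonempty (Palette 2 (2 * l + 1)) := by
  refine ⟨{ P := Fin (2 * l + 1) × Fin 2
            fin := inferInstance
            Ne' := fun x y => x.1 = y.1 ∧ x.2 ≠ y.2
            irr := fun x h => h.2 rfl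
            t := fun i a b => (if a = b then i else i + 1, a)
            force := fun f hf => ?_
            real := fun i => ?_ }⟩
  · have h01 : ∀ i s, f (i, s) = f (i, 0) + s := by
      intro i s
      by_cases hs : s = 0
      · rw [hs, add_zero]
      · have hs1 : s = 1 := g2_add 0 s (Ne.symm hs)
        rw [hs1]
        exact g2_add _ _ (hf (i, 0) (i, 1) ⟨rfl, (zero_ne_one : (0 : Fin 2) ≠ 1)⟩)
    obtain ⟨i, hi⟩ : ∃ i : Fin (2 * l + 1), f (i, 0) = f (i + 1, 0) := by
      by_contra hcon
      push Not at hcon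
      have h2 : ∀ n : ℕ, f (n • (1 : Fin (2 * l + 1)), 0) = f (0, 0) + g2p n := by
        intro n
        induction n with
        | zero =>
          rw [zero_nsmul]
          show f (0, 0) = f (0, 0) + 0
          rw [add_zero]
        | succ n ih =>
          rw [succ_nsmul, g2_add _ _ (hcon _), ih, g2p_succ, add_assoc]
      have h3 := h2 (2 * l + 1)
      have h4 : (2 * l + 1) • (1 : Fin (2 * l + 1)) = 0 := by
        have h5 := card_nsmul_eq_zero (x := (1 : Fin (2 * l + 1)))
        rwa [Fintype.card_fin] at h5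
      have h5 : g2p (2 * l + 1) = 1 := by
        unfold g2p
        rw [if_neg (by omega)]
      rw [h4, h5] at h3
      have h6 : ∀ x : Fin 2, x ≠ x + 1 := by decide
      exact h6 _ h3
    refine ⟨i, Equiv.addLeft (f (i, 0)), fun a b => ?_⟩
    rw [Equiv.coe_addLeft]
    by_cases hab : a = b
    · rw [if_pos hab]
      exact h01 i a
    · rw [if_neg hab, h01, hi]
  · refine ⟨fun x => x.2 + g2p (x.1 - i - 1).val, ?_, ?_, ?_⟩
    · rintro ⟨j, s⟩ ⟨j', s'⟩ ⟨h1, h2⟩ h3
      have h1' : j = j' := h1
      subst h1'
      exact h2 (add_right_cancel h3)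
    · intro a b
      by_cases hab : a = b
      · rw [if_pos hab]
        show a + g2p (i - i - 1).val = a
        rw [g2_last (i - i - 1) (by abel), add_zero]
      · rw [if_neg hab]
        show a + g2p (i + 1 - i - 1).val = a
        have h1 : i + 1 - i - 1 = 0 := by abel
        rw [h1]
        exact add_zero a
    · intro j hj
      refine ⟨Equiv.addRight (g2p (j - i - 1).val), fun a b => ?_⟩
      rw [Equiv.coe_addRight]
      by_cases hab : a = b
      · rw [if_pos hab, hab]
      · rw [if_neg hab]
        show a + g2p (j + 1 - i - 1).val = b + g2p (j - i - 1).val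
        have h1 : j + 1 - i - 1 = (j - i - 1) + 1 := by abel
        have h2 : (j - i - 1) + 1 ≠ 0 := by
          intro h3
          have h4 : j - i = 0 := by
            rw [← h3]
            abel
          exact hj (sub_eq_zero.1 h4)
        rw [h1, g2_e _ h2, g2_add a b hab]
        abel

end Pool.Agent.SQA
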