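import Pool.Agent.SQA.Base
import Pool.Agent.SQA.A2

/-!
# [SQA-G3a] the base graph of the gadget
-/

namespace Pool.Agent.SQA

open SimpleGraph

variable {W U : Type} {q k : ℕ}

/-- The base graph: `k` copies of the cone over `D` and one edge for every palette element. -/
def baseG (D : SimpleGraph U) (N : Set U) (P : Type) (k : ℕ) :
    SimpleGraph ((Fin k × Option U) ⊕ (P × Fin 2)) where
  Adj x y := (∃ i u w, x = Sum.inl (i, u) ∧ y = Sum.inl (i, w) ∧ (cone D N).Adj u w) ∨
    ∃ p s t, x = Sum.inr (p, s) ∧ y = Sum.inr (p, t) ∧ s ≠ t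
  symm := ⟨by
    rintro x y (⟨i, u, w, hx, hy, h⟩ | ⟨p, s, t, hx, hy, h⟩)
    · exact Or.inl ⟨i, w, u, hy, hx, h.symm⟩
    · exact Or.inr ⟨p, t, s, hy, hx, h.symm⟩⟩
  loopless := ⟨by
    rintro x (⟨i, u, w, hx, hy, h⟩ | ⟨p, s, t, hx, hy, h⟩)
    · rw [hx] at hy; cases hy; exact h.ne rfl
    · rw [hx] at hy; cases hy; exact h rfl⟩

/-- the component of a vertex -/
def g3c {U : Type} {k : ℕ} {P : Type} : (Fin k × Option U) ⊕ (P × Fin 2) → Fin k ⊕ P
  | Sum.inl x => Sum.inl x.1
  | Sum.inr x => Sum.inr x.1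

theorem g3c_adj {D : SimpleGraph U} {N : Set U} {P : Type} {x y : (Fin k × Option U) ⊕ (P × Fin 2)}
    (h : (baseG D N P k).Adj x y) : g3c x = g3c y := by
  rcases h with ⟨i, u, w, hx, hy, -⟩ | ⟨p, s, t, hx, hy, -⟩
  · rw [hx, hy]
    rfl
  · rw [hx, hy]
    rfl

theorem g3_const [Finite W] {H : SimpleGraph W} (hH : ThreeConnected H) {β : Type} (F : W → β)
    (hF : ∀ a b, H.Adj a b → F a = F b) (a b : W) : F a = F b := by
  have h1 := hH.2 ∅ (by rw [Set.ncard_empty]; omega)
  have h2 : ∀ w : W, w ∈ (∅ : Set W)ᶜ := fun w h => h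
  obtain ⟨p⟩ := h1.preconnected ⟨a, h2 a⟩ ⟨b, h2 b⟩
  have h3 : ∀ {x y : ((∅ : Set W)ᶜ : Set W)} (_ : (H.induce ((∅ : Set W)ᶜ)).Walk x y), F x = F y := by
    intro x y p
    induction p with
    | nil => rfl
    | @cons u v w h p ih => exact (hF u v h).trans ih
  exact h3 p

/-- A colouring of the base graph (or of a subgraph) is `H`-free as soon as it is `H`-free on
every copy of the cone.
PROOF: let `f` be a copy in `B ≤ baseG`. `H` is connected (`hH.2 ∅`) and has at least four
vertices, so all `f w` are in the same component type: all of the form `Sum.inl (i, _)` with the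
same `i` (the property `f w = Sum.inl (i, _)` is constant along edges of `H`), and not
`Sum.inr (p, _)` (only two vertices, `f` injective). -/
theorem base_free [Finite W] {H : SimpleGraph W} (hH : ThreeConnected H) {D : SimpleGraph U}
    {N : Set U} {P : Type} {B : SimpleGraph ((Fin k × Option U) ⊕ (P × Fin 2))}
    (hB : B ≤ baseG D N P k) {c : Sym2 ((Fin k × Option U) ⊕ (P × Fin 2)) → Fin q}
    (hc : ∀ i, ∀ G : SimpleGraph (Option U), (∀ u w, G.Adj u w → B.Adj (Sum.inl (i, u)) (Sum.inl (i, w))) →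
      Free H G (c ∘ Sym2.map (fun u => Sum.inl (i, u)))) : Free H B c := by
  rintro i0 f ⟨hf, hadj⟩
  have hW : 4 ≤ Nat.card W := hH.1
  have hne : Nonempty W := by
    by_contra h
    rw [not_nonempty_iff] at h
    rw [Nat.card_of_isEmpty] at hW
    omega
  obtain ⟨w0⟩ := hne
  have hcomp : ∀ w, g3c (f w) = g3c (f w0) := fun w =>
    g3_const hH (fun w => g3c (f w)) (fun a b hab => g3c_adj (hB (hadj a b hab).1)) w w0
  rcases h0 : g3c (f w0) with i | p
  · have h1 : ∀ w, ∃ u : Option U, f w = Sum.inl (i, u) := by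
      intro w
      have h2 := hcomp w
      rw [h0] at h2
      rcases h3 : f w with ⟨j, u⟩ | ⟨p, s⟩
      · rw [h3] at h2
        have h4 : j = i := Sum.inl_injective h2
        rw [h4]
        exact ⟨u, rfl⟩
      · rw [h3] at h2
        exact absurd h2 (by simp [g3c])
    choose g hg using h1
    refine hc i (B.comap fun u => Sum.inl (i, u)) (fun u w h => h) i0 g ⟨?_, ?_⟩
    · intro a b hab
      apply hf
      rw [hg a, hg b, hab]
    · intro a b hab
      obtain ⟨h2, h3⟩ := hadj a b hab
      rw [hg a, hg b] at h2 h3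
      exact ⟨h2, h3⟩
  · have h1 : ∀ w, ∃ s : Fin 2, f w = Sum.inr (p, s) := by
      intro w
      have h2 := hcomp w
      rw [h0] at h2
      rcases h3 : f w with ⟨j, u⟩ | ⟨p', s⟩
      · rw [h3] at h2
        exact absurd h2 (by simp [g3c])
      · rw [h3] at h2
        have h4 : p' = p := Sum.inr_injective h2
        rw [h4]
        exact ⟨s, rfl⟩
    choose g hg using h1
    have hginj : Function.Injective g := by
      intro a b hab
      apply hf
      rw [hg a, hg b, hab]
    have h2 := Nat.card_le_card_of_injective g hginj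
    rw [Nat.card_eq_fintype_card (α := Fin 2), Fintype.card_fin] at h2
    omega

end Pool.Agent.SQA
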