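import Pool.Agent.SQA.G0
import Pool.Agent.SQA.G3a
import Pool.Agent.SQA.F1

/-!
# [SQA-G3] many critical cone vertices
-/

namespace Pool.Agent.SQA

open SimpleGraph

variable {W U : Type} {q k : ℕ}

theorem g3_inj4 {X : Type} {x0 x1 x2 x3 : X} (h01 : x0 ≠ x1) (h02 : x0 ≠ x2) (h03 : x0 ≠ x3)
    (h12 : x1 ≠ x2) (h13 : x1 ≠ x3) (h23 : x2 ≠ x3) : Function.Injective ![x0, x1, x2, x3] := by
  intro s t h
  fin_cases s <;> fin_cases t <;> first
    | rfl
    | exact absurd h h01
    | exact absurd h h02
    | exact absurd h h03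
    | exact absurd h h12
    | exact absurd h h13
    | exact absurd h h23
    | exact absurd h.symm h01
    | exact absurd h.symm h02
    | exact absurd h.symm h03
    | exact absurd h.symm h12
    | exact absurd h.symm h13
    | exact absurd h.symm h23

/-- The links. -/
def g3_L (D : SimpleGraph U) (c cs : Sym2 U → Fin q) (T : Palette q k) :
    (Fin k × {e : U × U // D.Adj e.1 e.2}) ⊕ {e : T.P × T.P // T.Ne' e.1 e.2} → Fin 4 →
      (Fin k × Option U) ⊕ (T.P × Fin 2)
  | Sum.inl (i, e) => ![Sum.inl (i, some e.1.1), Sum.inl (i, some e.1.2),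
      Sum.inr (T.t i (c s(e.1.1, e.1.2)) (cs s(e.1.1, e.1.2)), 0),
      Sum.inr (T.t i (c s(e.1.1, e.1.2)) (cs s(e.1.1, e.1.2)), 1)]
  | Sum.inr e => ![Sum.inr (e.1.1, 0), Sum.inr (e.1.1, 1), Sum.inr (e.1.2, 0), Sum.inr (e.1.2, 1)]

/-- The signs of the links. -/
def g3_sg (D : SimpleGraph U) (T : Palette q k) :
    (Fin k × {e : U × U // D.Adj e.1 e.2}) ⊕ {e : T.P × T.P // T.Ne' e.1 e.2} → Bool
  | Sum.inl _ => true
  | Sum.inr _ => false

theorem g3_L_inj (D : SimpleGraph U) (c cs : Sym2 U → Fin q) (T : Palette q k)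
    (l : (Fin k × {e : U × U // D.Adj e.1 e.2}) ⊕ {e : T.P × T.P // T.Ne' e.1 e.2}) :
    Function.Injective (g3_L D c cs T l) := by
  rcases l with ⟨i, ⟨⟨a, b⟩, hab⟩⟩ | ⟨⟨p, p'⟩, hp⟩
  · apply g3_inj4
    · intro h
      have h1 := Sum.inl.inj h
      rw [Prod.mk.injEq] at h1
      exact hab.ne (Option.some.inj h1.2)
    · intro h; cases h
    · intro h; cases h
    · intro h; cases h
    · intro h; cases h
    · intro h
      have h1 := Sum.inr.inj h
      rw [Prod.mk.injEq] at h1
      exact absurd h1.2 (by decide)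
  · have hne : p ≠ p' := by
      rintro rfl
      exact T.irr p hp
    have h01 : ∀ (x y : T.P), (Sum.inr (x, 0) : (Fin k × Option U) ⊕ (T.P × Fin 2)) ≠
        Sum.inr (y, 1) := by
      intro x y h
      have h1 := Sum.inr.inj h
      rw [Prod.mk.injEq] at h1
      exact absurd h1.2 (by decide)
    have hpp : ∀ (s t : Fin 2), (Sum.inr (p, s) : (Fin k × Option U) ⊕ (T.P × Fin 2)) ≠
        Sum.inr (p', t) := by
      intro s t h
      have h1 := Sum.inr.inj h
      rw [Prod.mk.injEq] at h1
      exact hne h1.1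
    exact g3_inj4 (h01 p p) (hpp 0 0) (hpp 0 1) (hpp 1 0) (hpp 1 1) (h01 p' p')

theorem g3_L_none (D : SimpleGraph U) (c cs : Sym2 U → Fin q) (T : Palette q k)
    (l : (Fin k × {e : U × U // D.Adj e.1 e.2}) ⊕ {e : T.P × T.P // T.Ne' e.1 e.2})
    (s : Fin 4) (i : Fin k) : g3_L D c cs T l s ≠ Sum.inl (i, none) := by
  rcases l with ⟨j, e⟩ | e
  · fin_cases s <;> simp [g3_L]
  · fin_cases s <;> simp [g3_L]

open Classical in
/-- The colouring of the base. -/
noncomputable def g3_col {P : Type} (col : Fin k → Sym2 (Option U) → Fin q) (f : P → Fin q)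
    (z : Fin q) : Sym2 ((Fin k × Option U) ⊕ (P × Fin 2)) → Fin q :=
  Sym2.lift ⟨fun a b => match a, b with
    | Sum.inl (j, u), Sum.inl (j', w) => if j = j' then col j s(u, w) else z
    | Sum.inr (p, _), Sum.inr (p', _) => if p = p' then f p else z
    | Sum.inl _, Sum.inr _ => z
    | Sum.inr _, Sum.inl _ => z, by
      intro a b
      rcases a with ⟨j, u⟩ | ⟨p, s⟩ <;> rcases b with ⟨j', w⟩ | ⟨p', t⟩
      · show (if j = j' then col j s(u, w) else z) = if j' = j then col j' s(w, u) else z
        by_cases h : j = j'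
        · subst h
          rw [Sym2.eq_swap]
        · rw [if_neg h, if_neg (Ne.symm h)]
      · rfl
      · rfl
      · show (if p = p' then f p else z) = if p' = p then f p' else z
        by_cases h : p = p'
        · subst h
          rfl
        · rw [if_neg h, if_neg (Ne.symm h)]⟩

theorem g3_col_inl {P : Type} (col : Fin k → Sym2 (Option U) → Fin q) (f : P → Fin q)
    (z : Fin q) (j : Fin k) (u w : Option U) :
    g3_col col f z s(Sum.inl (j, u), Sum.inl (j, w)) = col j s(u, w) := by
  show (if j = j then col j s(u, w) else z) = _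
  rw [if_pos rfl]

theorem g3_col_inr {P : Type} (col : Fin k → Sym2 (Option U) → Fin q) (f : P → Fin q)
    (z : Fin q) (p : P) (s t : Fin 2) :
    g3_col col f z s(Sum.inr (p, s), Sum.inr (p, t)) = f p := if_pos rfl

/-- The colouring of the critical copy. -/
def g3_c1 (c : Sym2 U → Fin q) (z : Fin q) : Sym2 (Option U) → Fin q :=
  Sym2.lift ⟨fun a b => match a, b with
    | some x, some y => c s(x, y)
    | none, some _ => z
    | some _, none => z
    | none, none => z, by
      intro a b
      rcases a with _ | x <;> rcases b with _ | y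
      · rfl
      · rfl
      · rfl
      · show c s(x, y) = c s(y, x)
        rw [Sym2.eq_swap]⟩

theorem g3_adj {D : SimpleGraph U} {N : Set U} {P : Type} {j : Fin k} {u : Option U}
    {y : (Fin k × Option U) ⊕ (P × Fin 2)} (h : (baseG D N P k).Adj (Sum.inl (j, u)) y) :
    ∃ w, y = Sum.inl (j, w) ∧ (cone D N).Adj u w := by
  rcases h with ⟨i, u', w, h1, h2, h3⟩ | ⟨p, s, t, h1, _, _⟩
  · have h4 := Sum.inl.inj h1
    rw [Prod.mk.injEq] at h4
    obtain ⟨rfl, rfl⟩ := h4
    exact ⟨w, h2, h3⟩
  · cases h1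

theorem g3_adj_mk {D : SimpleGraph U} {N : Set U} {P : Type} (j : Fin k) {u w : Option U}
    (h : (cone D N).Adj u w) : (baseG D N P k).Adj (Sum.inl (j, u)) (Sum.inl (j, w)) :=
  Or.inl ⟨j, u, w, rfl, rfl, h⟩

theorem g3_adj_iff {D : SimpleGraph U} {N : Set U} {P : Type} {j : Fin k} {u w : Option U}
    (h : (baseG D N P k).Adj (Sum.inl (j, u)) (Sum.inl (j, w))) : (cone D N).Adj u w := by
  obtain ⟨w', h1, h2⟩ := g3_adj h
  have h4 := Sum.inl.inj h1
  rw [Prod.mk.injEq] at h4
  obtain ⟨_, rfl⟩ := h4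
  exact h2

theorem g3_L_adj (D : SimpleGraph U) (N : Set U) (c cs : Sym2 U → Fin q) (T : Palette q k)
    (l : (Fin k × {e : U × U // D.Adj e.1 e.2}) ⊕ {e : T.P × T.P // T.Ne' e.1 e.2}) :
    (baseG D N T.P k).Adj (g3_L D c cs T l 0) (g3_L D c cs T l 1) ∧
      (baseG D N T.P k).Adj (g3_L D c cs T l 2) (g3_L D c cs T l 3) := by
  have hr : ∀ p : T.P, (baseG D N T.P k).Adj (Sum.inr (p, 0)) (Sum.inr (p, 1)) :=
    fun p => Or.inr ⟨p, 0, 1, rfl, rfl, by decide⟩
  rcases l with ⟨i, ⟨⟨a, b⟩, hab⟩⟩ | ⟨⟨p, p'⟩, hp⟩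
  · exact ⟨g3_adj_mk i (cone_some_some.2 hab), hr _⟩
  · exact ⟨hr p, hr p'⟩

theorem g3_map_adj {V VB : Type} {B : SimpleGraph VB} {ι : VB → V} (hι : Function.Injective ι)
    {a b : VB} (h : B.Adj a b) : (B.map ι).Adj (ι a) (ι b) := by
  rw [SimpleGraph.map_adj']
  exact ⟨fun he => h.ne (hι he), a, b, h, rfl, rfl⟩

/-- The critical copy is free. -/
theorem g3_free1 [Finite W] {H : SimpleGraph W} (hH : ThreeConnected H) {D : SimpleGraph U}
    {N : Set U} {c : Sym2 U → Fin q} (hc : Free H D c) (z : Fin q) {G : SimpleGraph (Option U)}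
    (hG : ∀ u w, G.Adj u w → (cone D N).Adj u w ∧ u ≠ none ∧ w ≠ none) :
    Free H G (g3_c1 c z) := by
  rintro i f ⟨hf, hf2⟩
  have hsome : ∀ w, ∃ x, f w = some x := by
    intro w
    obtain ⟨u, hu, _, _⟩ := three_nbr hH w w w
    exact Option.ne_none_iff_exists'.1 (hG _ _ (hf2 w u hu).1).2.1
  choose g hg using hsome
  refine hc i g ⟨?_, ?_⟩
  · intro w w' h
    apply hf
    rw [hg w, hg w', h]
  · intro a b hab
    obtain ⟨h1, h2⟩ := hf2 a b hab
    have h3 := (hG _ _ h1).1
    rw [hg a, hg b, cone_some_some] at h3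
    rw [hg a, hg b] at h2
    exact ⟨h3, h2⟩

/-- The main gadget.
PROOF: `VB := (Fin k × Option U) ⊕ (P × Fin 2)`. Links: `Λ := (Fin k × {e : U × U // D.Adj e.1 e.2})
⊕ {e : P × P // T.Ne' e.1 e.2}`. A left link `(i, (a, b))` is positive and joins the edge
`Sum.inl (i, some a), Sum.inl (i, some b)` with the palette edge `p := t i (c s(a, b)) (cs s(a, b))`,
`Sum.inr (p, 0), Sum.inr (p, 1)`; a right link `(p, p')` is negative and joins the palette edges `p`
and `p'`. Let `V, ι, R` be as in `link`, `G := (baseG D N P k).map ι ⊔ R`, `x i := ι (Sum.inl (i,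
none))`.
Ramsey: let `c0` be an `H`-free colouring of `G`, `f p := c0 s(ι (Sum.inr (p, 0)), ι (Sum.inr
(p, 1)))`. By the negative links and `T.force` there are `i`, `σ` with `f (t i a b) = σ a`; by the
positive links `c0` of the edge `(i, some a), (i, some b)` is `σ (c s(a, b))` for `D.Adj a b`. Then
`fun e => σ.symm (c0 (Sym2.map (fun u => ι (Sum.inl (i, u))) e))` is an `H`-free colouring of
`cone D N` which extends `c`: contradiction to `hne`.
Critical: for `i` let `B := del (baseG D N P k) (Sum.inl (i, none))`; then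
`del G (x i) ≤ B.map ι ⊔ R` (`R` has no edge at `x i`: second claim of `link`; no link contains a
vertex `(i, none)`). Let `f` be as in `T.real i`, `σ j` the permutations for `j ≠ i`, `c'`
(`Ext.exact`) an extension of `cs` to the cone. Colour the copy `i` by `c` (on pairs of `some`s;
any colour on pairs with `none`), the copy `j ≠ i` by `σ j ∘ c'`, the palette edge `p` by `f p`. This
is `H`-free on `B` by `base_free` (on the copy `i`: `D` is `H`-free for `c` and `(i, none)` is
isolated; if `k = 1` there is no `j ≠ i` and `hcs` is not needed) and satisfies the links, so it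
extends to `B.map ι ⊔ R`.
Degree: the neighbours of `x i` in `G` are the `ι (Sum.inl (i, some u))`, `u ∈ N`. -/
theorem gadget [Finite W] [Nonempty W] (hq : 2 ≤ q) {H : SimpleGraph W}
    (hH : ThreeConnected H) [Finite U] {D : SimpleGraph U} {N : Set U} {c cs : Sym2 U → Fin q}
    (hne : NonExt H D N c) (T : Palette q k) (hcs : 2 ≤ k → Ext H D N cs) :
    ∃ (V : Type) (_ : Finite V) (G : SimpleGraph V) (x : Fin k → V), Function.Injective x ∧
      Ramsey q H G ∧ ∀ i, NR q H (del G (x i)) ∧ (G.neighborSet (x i)).ncard = N.ncard := by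
  classical
  have hPfin := T.fin
  obtain ⟨hfree, hext⟩ := hne
  obtain ⟨V, hV, ι, R, hι, hR, hlink⟩ := link hq hH (g3_L D c cs T) (g3_L_inj D c cs T)
    (g3_sg D T)
  have hLadj := g3_L_adj D N c cs T
  refine ⟨V, hV, (baseG D N T.P k).map ι ⊔ R, fun i => ι (Sum.inl (i, none)), ?_, ?_, ?_⟩
  · intro i j hij
    have h1 := Sum.inl.inj (hι hij)
    rw [Prod.mk.injEq] at h1
    exact h1.1
  · -- Ramsey
    by_contra hnot
    rw [not_ramsey] at hnot
    obtain ⟨c0, hc0⟩ := hnot
    have hl := (hlink (baseG D N T.P k) hLadj).1 c0 hc0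
    obtain ⟨i, σ, hσ⟩ := T.force (fun p => c0 s(ι (Sum.inr (p, 0)), ι (Sum.inr (p, 1)))) (by
      intro x y hxy h
      have h1 := hl (Sum.inr ⟨(x, y), hxy⟩)
      exact Bool.noConfusion (h1.1 h))
    apply hext
    refine ⟨fun e => σ.symm (c0 (Sym2.map (fun u => ι (Sum.inl (i, u))) e)), ?_, ?_⟩
    · have h1 : Free H (cone D N) (c0 ∘ Sym2.map (fun u => ι (Sum.inl (i, u)))) := by
        apply hc0.comap
        · intro u w huw
          have h1 := Sum.inl.inj (hι huw)
          rw [Prod.mk.injEq] at h1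
          exact h1.2
        · intro u w huw
          exact Or.inl (g3_map_adj hι (g3_adj_mk i huw))
      exact h1.perm σ.symm
    · intro a b hab
      have h1 := (hl (Sum.inl (i, ⟨(a, b), hab⟩))).2 rfl
      have h2 : c0 s(ι (Sum.inl (i, some a)), ι (Sum.inl (i, some b))) = σ (c s(a, b)) := by
        rw [← hσ (c s(a, b)) (cs s(a, b))]
        exact h1
      show σ.symm (c0 s(ι (Sum.inl (i, some a)), ι (Sum.inl (i, some b)))) = c s(a, b)
      rw [h2, Equiv.symm_apply_apply]
  · intro i
    refine ⟨?_, ?_⟩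
    · -- critical
      obtain ⟨f, hf1, hf2, hf3⟩ := T.real i
      have hσ' : ∀ j, ∃ σ : Equiv.Perm (Fin q), j ≠ i → ∀ a b, f (T.t j a b) = σ b := by
        intro j
        by_cases hj : j = i
        · exact ⟨Equiv.refl _, fun h => absurd hj h⟩
        · obtain ⟨σ, hσ⟩ := hf3 j hj
          exact ⟨σ, fun _ => hσ⟩
      choose σ hσ using hσ'
      have hz : 0 < q := by omega
      have hc' : ∃ c' : Sym2 (Option U) → Fin q, ∀ j, j ≠ i → Free H (cone D N) c' ∧
          ∀ a b, c' s(some a, some b) = cs s(a, b) := by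
        by_cases hk : 2 ≤ k
        · obtain ⟨c', h1, h2⟩ := (hcs hk).exact
          exact ⟨c', fun _ _ => ⟨h1, h2⟩⟩
        · refine ⟨fun _ => ⟨0, hz⟩, fun j hj => absurd ?_ hj⟩
          apply Fin.ext
          have h1 := j.isLt
          have h2 := i.isLt
          omega
      obtain ⟨c', hc'⟩ := hc'
      set col : Fin k → Sym2 (Option U) → Fin q :=
        fun j => if j = i then g3_c1 c ⟨0, hz⟩ else fun e => σ j (c' e) with hcol
      have hcoli : col i = g3_c1 c ⟨0, hz⟩ := by
        rw [hcol]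
        exact if_pos rfl
      have hcolj : ∀ j, j ≠ i → col j = fun e => σ j (c' e) := by
        intro j hj
        rw [hcol]
        exact if_neg hj
      have hB' : del (baseG D N T.P k) (Sum.inl (i, none)) ≤ baseG D N T.P k :=
        fun _ _ h => h.1
      have hB'adj : ∀ l, (del (baseG D N T.P k) (Sum.inl (i, none))).Adj
          (g3_L D c cs T l 0) (g3_L D c cs T l 1) ∧
          (del (baseG D N T.P k) (Sum.inl (i, none))).Adj
          (g3_L D c cs T l 2) (g3_L D c cs T l 3) := fun l =>
        ⟨⟨(hLadj l).1, g3_L_none D c cs T l 0 i, g3_L_none D c cs T l 1 i⟩,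
          ⟨(hLadj l).2, g3_L_none D c cs T l 2 i, g3_L_none D c cs T l 3 i⟩⟩
      have hfreeB : Free H (del (baseG D N T.P k) (Sum.inl (i, none)))
          (g3_col col f ⟨0, hz⟩) := by
        apply base_free hH hB'
        intro j G hG
        have hcomp : (g3_col col f ⟨0, hz⟩ ∘ Sym2.map (fun u => Sum.inl (j, u))) = col j := by
          funext e
          induction e with
          | _ u w => exact g3_col_inl col f ⟨0, hz⟩ j u w
        rw [hcomp]
        by_cases hj : j = i
        · subst hj
          rw [hcoli]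
          apply g3_free1 (N := N) hH hfree
          intro u w huw
          obtain ⟨h1, h2, h3⟩ := hG u w huw
          refine ⟨g3_adj_iff h1, ?_, ?_⟩
          · rintro rfl
            exact h2 rfl
          · rintro rfl
            exact h3 rfl
        · rw [hcolj j hj]
          have h1 : G ≤ cone D N := fun u w huw => g3_adj_iff (hG u w huw).1
          exact ((hc' j hj).1.mono h1).perm (σ j)
      obtain ⟨cV, hcV, _⟩ := (hlink (del (baseG D N T.P k) (Sum.inl (i, none))) hB'adj).2
        (g3_col col f ⟨0, hz⟩) hfreeB (by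
          rintro (⟨j, ⟨⟨a, b⟩, hab⟩⟩ | ⟨⟨p, p'⟩, hp⟩)
          · have h1 : g3_col col f ⟨0, hz⟩ s(Sum.inl (j, some a), Sum.inl (j, some b)) =
                g3_col col f ⟨0, hz⟩ s(Sum.inr (T.t j (c s(a, b)) (cs s(a, b)), 0),
                  Sum.inr (T.t j (c s(a, b)) (cs s(a, b)), 1)) := by
              rw [g3_col_inl, g3_col_inr]
              by_cases hj : j = i
              · subst hj
                rw [hcoli, hf2]
                rfl
              · rw [hcolj j hj, hσ j hj]
                show σ j (c' s(some a, some b)) = _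
                rw [(hc' j hj).2]
            exact ⟨fun _ => rfl, fun _ => h1⟩
          · have h1 : g3_col col f ⟨0, hz⟩ s(Sum.inr (p, 0), Sum.inr (p, 1)) ≠
                g3_col col f ⟨0, hz⟩ s(Sum.inr (p', 0), Sum.inr (p', 1)) := by
              rw [g3_col_inr, g3_col_inr]
              exact hf1 p p' hp
            exact ⟨fun h => absurd h h1, fun h => Bool.noConfusion h⟩)
      refine NR.mono ⟨cV, hcV⟩ ?_
      rintro a b ⟨h1 | h1, h2, h3⟩
      · rw [SimpleGraph.map_adj'] at h1
        obtain ⟨_, a', b', h4, rfl, rfl⟩ := h1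
        refine Or.inl (g3_map_adj hι ⟨h4, ?_, ?_⟩)
        · rintro rfl
          exact h2 rfl
        · rintro rfl
          exact h3 rfl
      · exact Or.inr h1
    · -- the degree
      have himg : ((baseG D N T.P k).map ι ⊔ R).neighborSet (ι (Sum.inl (i, none))) =
          (fun u => ι (Sum.inl (i, some u))) '' N := by
        ext y
        constructor
        · rintro (h1 | h1)
          · rw [SimpleGraph.map_adj'] at h1
            obtain ⟨_, a', b', h4, h5, h6⟩ := h1
            have h7 := hι h5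
            subst h7
            obtain ⟨w, rfl, hw⟩ := g3_adj h4
            rcases w with _ | u
            · exact absurd hw cone_none_none
            · rw [cone_none_some] at hw
              exact ⟨u, hw, h6⟩
          · exact absurd h1 (hR _ (fun l s => g3_L_none D c cs T l s i) y)
        · rintro ⟨u, hu, rfl⟩
          exact Or.inl (g3_map_adj hι (g3_adj_mk i (cone_none_some.2 hu)))
      rw [himg]
      apply Set.ncard_image_of_injective
      intro u w huw
      have h1 := Sum.inl.inj (hι huw)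
      rw [Prod.mk.injEq] at h1
      exact Option.some.inj h1.2

end Pool.Agent.SQA
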