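import Pool.Agent.SQA.G1
import Pool.Agent.SQA.G2
import Pool.Agent.SQA.G3
import Pool.Agent.SQA.A4

/-!
# [SQA-G4] consequences of the gadget
-/

namespace Pool.Agent.SQA

open SimpleGraph

variable {W U : Type} {q : ℕ}

/-- PROOF: `gadget` with `palette1 q` (`cs := c`, `hcs` is vacuous), then `sq_le`. -/
theorem sq_le_ncard [Finite W] [Nonempty W] (hq : 2 ≤ q) {H : SimpleGraph W}
    (hH : ThreeConnected H) [Finite U] {D : SimpleGraph U} {N : Set U} {c : Sym2 U → Fin q}
    (hne : NonExt H D N c) : sq q H ≤ N.ncard := by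
  obtain ⟨V, hV, G, x, -, hR, h⟩ := gadget hq hH hne (palette1 q) (cs := c) (fun h => absurd h (by norm_num))
  obtain ⟨h1, h2⟩ := h 0
  rw [← h2]
  exact sq_le hR (x 0) h1

/-- PROOF: given `k`, let `k' := 2 * k + 1 ≥ k`, `T : Palette q k'` (`exists_palette2` if `q = 2`,
`exists_palette3` otherwise); `hnr` gives an `H`-free colouring of the cone, whose restriction
`cs := c' ∘ Sym2.map some` satisfies `Ext H D N cs`; `gadget` and `many_critical`. -/
theorem abundant_of_pattern [Finite W] [Nonempty W] (hq : 2 ≤ q) {H : SimpleGraph W}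
    (hH : ThreeConnected H) [Finite U] {D : SimpleGraph U} {N : Set U} {c : Sym2 U → Fin q}
    (hne : NonExt H D N c) (hnr : NR q H (cone D N)) (hN : N.ncard ≤ sq q H) :
    Abundant q H := by
  intro k
  obtain ⟨T⟩ : Nonempty (Palette q (2 * k + 1)) := by
    rcases Nat.lt_or_ge 2 q with h | h
    · exact exists_palette3 h (by omega)
    · have h2 : q = 2 := by omega
      subst h2
      exact exists_palette2 k
  obtain ⟨c', hc'⟩ := hnr
  obtain ⟨V, hV, G, x, hx, hR, h⟩ := gadget hq hH hne T (cs := c' ∘ Sym2.map some)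
    (fun _ => ⟨c', hc', fun a b _ => rfl⟩)
  obtain ⟨n, G', h1, h2⟩ := many_critical hR x hx (fun i => (h i).1) (fun i => by
    rw [(h i).2]
    exact hN)
  exact ⟨n, G', h1, le_trans (by omega) h2⟩

end Pool.Agent.SQA
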