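import Pool.Agent.SQA.N0

/-!
# [SQA-J0] robust one-colour structures, the grid

`Rob H b s0`: an `H`-free graph `Γ` with `b` marked points such that a new vertex joined to any
`s0` marked points creates a copy of `H`. The grid: `Fin b × ZMod P`; for the colour (slope)
`i : Fin k` the lines `{(x, y0 + i x)}`, `y0 : ZMod P`, carry copies of `Γ`.
-/

namespace Pool.Agent.SQA

open SimpleGraph

variable {W X : Type} {b P k : ℕ}

/-- Robust one-colour structures. -/
def Rob (H : SimpleGraph W) (b s0 : ℕ) : Prop :=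
  ∃ (X : Type) (_ : Finite X) (Γ : SimpleGraph X) (ν : Fin b → X), Function.Injective ν ∧
    (∀ f : W → X, Function.Injective f → ¬ ∀ x y, H.Adj x y → Γ.Adj (f x) (f y)) ∧
    ∀ S : Set (Fin b), s0 ≤ S.ncard → ∃ f : W → Option X, Function.Injective f ∧
      ∀ x y, H.Adj x y → (cone Γ (ν '' S)).Adj (f x) (f y)

/-- The vertices of the grid pattern: grid points and private vertices. -/
abbrev GV (b P k : ℕ) (X : Type) : Type := (Fin b × ZMod P) ⊕ (Fin k × ZMod P × X)

open Classical in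
/-- The embedding of the structure on the line of slope `i` through `(0, y0)`. -/
noncomputable def eps (ν : Fin b → X) (i : Fin k) (y0 : ZMod P) (ξ : X) : GV b P k X :=
  if h : ∃ x, ν x = ξ then Sum.inl (h.choose, y0 + (i.val : ZMod P) * (h.choose.val : ZMod P))
  else Sum.inr (i, y0, ξ)

theorem eps_nu {ν : Fin b → X} (hν : Function.Injective ν) (i : Fin k) (y0 : ZMod P)
    (x : Fin b) : eps ν i y0 (ν x) = Sum.inl (x, y0 + (i.val : ZMod P) * (x.val : ZMod P)) := by
  have h : ∃ x', ν x' = ν x := ⟨x, rfl⟩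
  rw [eps, dif_pos h, hν h.choose_spec]

theorem eps_other {ν : Fin b → X} (i : Fin k) (y0 : ZMod P) {ξ : X} (h : ∀ x, ν x ≠ ξ) :
    eps ν i y0 ξ = Sum.inr (i, y0, ξ) := by
  rw [eps, dif_neg (fun ⟨x, hx⟩ => h x hx)]

/-- The number of the line of slope `i` through a vertex. -/
def lineNo (i : Fin k) : GV b P k X → ZMod P
  | Sum.inl (x, y) => y - (i.val : ZMod P) * (x.val : ZMod P)
  | Sum.inr (_, y0, _) => y0

theorem lineNo_eps {ν : Fin b → X} (i : Fin k) (y0 : ZMod P) (ξ : X) :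
    lineNo i (eps ν i y0 ξ) = y0 := by
  by_cases h : ∃ x, ν x = ξ
  · rw [eps, dif_pos h]
    simp [lineNo]
  · rw [eps, dif_neg h]
    rfl

theorem eps_inj {ν : Fin b → X} (hν : Function.Injective ν) (i : Fin k) (y0 : ZMod P) :
    Function.Injective (eps ν i y0) := by
  intro ξ ξ' h
  by_cases h1 : ∃ x, ν x = ξ
  · obtain ⟨x, rfl⟩ := h1
    by_cases h2 : ∃ x', ν x' = ξ'
    · obtain ⟨x', rfl⟩ := h2
      rw [eps_nu hν, eps_nu hν] at h
      have := Sum.inl.inj h
      rw [Prod.mk.injEq] at this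
      rw [this.1]
    · rw [eps_nu hν, eps_other i y0 (fun x hx => h2 ⟨x, hx⟩)] at h
      cases h
  · by_cases h2 : ∃ x', ν x' = ξ'
    · obtain ⟨x', rfl⟩ := h2
      rw [eps_nu hν, eps_other i y0 (fun x hx => h1 ⟨x, hx⟩)] at h
      cases h
    · rw [eps_other i y0 (fun x hx => h1 ⟨x, hx⟩), eps_other i y0 (fun x hx => h2 ⟨x, hx⟩)] at h
      have := Sum.inr.inj h
      rw [Prod.mk.injEq, Prod.mk.injEq] at this
      exact this.2.2

/-- The graph of slope `i`. -/
def gridE (Γ : SimpleGraph X) (ν : Fin b → X) (hν : Function.Injective ν) (P : ℕ) (i : Fin k) :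
    SimpleGraph (GV b P k X) where
  Adj u w := ∃ y0 ξ ξ', Γ.Adj ξ ξ' ∧ eps ν i y0 ξ = u ∧ eps ν i y0 ξ' = w
  symm := ⟨fun _ _ ⟨y0, ξ, ξ', h, h1, h2⟩ => ⟨y0, ξ', ξ, h.symm, h2, h1⟩⟩
  loopless := ⟨fun _ ⟨y0, _, _, h, h1, h2⟩ => h.ne (eps_inj hν _ y0 (h1.trans h2.symm))⟩

end Pool.Agent.SQA
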