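import Pool.Agent.SQA.J0

/-!
# [SQA-J1] the grid: disjoint slopes, no copies
-/

namespace Pool.Agent.SQA

open SimpleGraph

variable {W X : Type} {b P k : ℕ}

/-- PROOF: let `u w` be an edge of the slopes `i` and `i'`. If one end is `Sum.inr (i'', _, _)` then
`i = i'' = i'`. Otherwise `u = inl (x, y)`, `w = inl (x', y')`, on a line of slope `i` and on a line of
slope `i'`: `y' - y = i (x' - x) = i' (x' - x)` in `ZMod P`, so `P` divides the integer
`(i - i') (x' - x)`, whose absolute value is at most `(k - 1) * (b - 1) < P`; hence `i = i'` or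
`x = x'`; in the second case `y = y'`, `u = w`: contradiction. (`ZMod.intCast_zmod_eq_zero_iff_dvd`,
`Int.eq_zero_of_abs_lt_dvd`.) -/
theorem gridE_disjoint {Γ : SimpleGraph X} {ν : Fin b → X} (hν : Function.Injective ν)
    (hP : (k - 1) * (b - 1) + 1 ≤ P) (i i' : Fin k) (u w : GV b P k X)
    (h1 : (gridE Γ ν hν P i).Adj u w) (h2 : (gridE Γ ν hν P i').Adj u w) : i = i' := by
  have hne : u ≠ w := h1.ne
  obtain ⟨y0, ξ, ξ', -, hu, hw⟩ := h1
  obtain ⟨y1, η, η', -, hu', hw'⟩ := h2
  have key : ∀ (j : Fin k) (y : ZMod P) (ζ : X) (t : Fin k × ZMod P × X),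
      eps ν j y ζ = Sum.inr t → j = t.1 := by
    intro j y ζ t h
    by_cases h3 : ∃ x, ν x = ζ
    · obtain ⟨x, rfl⟩ := h3
      rw [eps_nu hν] at h
      cases h
    · rw [eps_other j y (fun x hx => h3 ⟨x, hx⟩)] at h
      rw [← Sum.inr.inj h]
  rcases u with ⟨x, y⟩ | t
  · rcases w with ⟨x', y'⟩ | t
    · have e1 : lineNo i (eps ν i y0 ξ) = lineNo i (eps ν i y0 ξ') := by
        rw [lineNo_eps, lineNo_eps]
      have e2 : lineNo i' (eps ν i' y1 η) = lineNo i' (eps ν i' y1 η') := by
        rw [lineNo_eps, lineNo_eps]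
      rw [hu, hw] at e1
      rw [hu', hw'] at e2
      simp only [lineNo] at e1 e2
      have e3 : ((((i.val : ℤ) - (i'.val : ℤ)) * ((x'.val : ℤ) - (x.val : ℤ)) : ℤ) : ZMod P) = 0 := by
        push_cast
        linear_combination e1 - e2
      rw [ZMod.intCast_zmod_eq_zero_iff_dvd] at e3
      have hi := i.2
      have hi' := i'.2
      have hx := x.2
      have hx' := x'.2
      have a1 : |(i.val : ℤ) - (i'.val : ℤ)| ≤ ((k - 1 : ℕ) : ℤ) := by
        rw [abs_le]; constructor <;> omega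
      have a2 : |(x'.val : ℤ) - (x.val : ℤ)| ≤ ((b - 1 : ℕ) : ℤ) := by
        rw [abs_le]; constructor <;> omega
      have a3 : |((i.val : ℤ) - (i'.val : ℤ)) * ((x'.val : ℤ) - (x.val : ℤ))| < (P : ℤ) := by
        rw [abs_mul]
        calc |(i.val : ℤ) - (i'.val : ℤ)| * |(x'.val : ℤ) - (x.val : ℤ)|
            ≤ ((k - 1 : ℕ) : ℤ) * ((b - 1 : ℕ) : ℤ) := mul_le_mul a1 a2 (abs_nonneg _) (by positivity)
          _ < (P : ℤ) := by
            have : (((k - 1) * (b - 1) + 1 : ℕ) : ℤ) ≤ (P : ℤ) := by exact_mod_cast hP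
            push_cast at this ⊢
            linarith
      have e4 := Int.eq_zero_of_abs_lt_dvd e3 a3
      rcases mul_eq_zero.1 e4 with h | h
      · exact Fin.ext (by omega)
      · exfalso
        have hxx : x = x' := Fin.ext (by omega)
        subst hxx
        apply hne
        have : y = y' := by linear_combination e1
        rw [this]
    · rw [key _ _ _ _ hw, key _ _ _ _ hw']
  · rw [key _ _ _ _ hu, key _ _ _ _ hu']

/-- PROOF: let `f` be a copy in `gridE i`. `lineNo i ∘ f` is constant along edges (`lineNo_eps`), so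
it is constant `= y0` (`const_of_connected`); every vertex of `H` has a neighbour (`three_nbr`), so
`f w = eps ν i y0 (ξ w)` for all `w`, and `ξ` is a copy of `H` in `Γ` (`eps_inj`). -/
theorem gridE_free [Finite W] {H : SimpleGraph W} (hH : ThreeConnected H) {Γ : SimpleGraph X}
    {ν : Fin b → X} (hν : Function.Injective ν)
    (hΓ : ∀ f : W → X, Function.Injective f → ¬ ∀ x y, H.Adj x y → Γ.Adj (f x) (f y))
    (i : Fin k) (f : W → GV b P k X) (hf : Function.Injective f) :
    ¬ ∀ x y, H.Adj x y → (gridE Γ ν hν P i).Adj (f x) (f y) := by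
  intro hadj
  have hc : ∀ a b, H.Adj a b → lineNo i (f a) = lineNo i (f b) := by
    intro a b' hab
    obtain ⟨y0, ξ, ξ', -, h1, h2⟩ := hadj a b' hab
    rw [← h1, ← h2, lineNo_eps, lineNo_eps]
  have hne : Nonempty W := by
    by_contra hW
    rw [not_nonempty_iff] at hW
    have := hH.1
    rw [Nat.card_of_isEmpty] at this
    omega
  obtain ⟨w0⟩ := hne
  have hξ : ∀ w : W, ∃ ξ : X, eps ν i (lineNo i (f w0)) ξ = f w := by
    intro w
    obtain ⟨u, hu, -, -⟩ := three_nbr hH w w w
    obtain ⟨y0, ξ, ξ', -, h1, h2⟩ := hadj w u hu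
    refine ⟨ξ, ?_⟩
    rw [← const_of_connected hH (fun w => lineNo i (f w)) hc w w0, ← h1, lineNo_eps]
  choose ξ hξ' using hξ
  refine hΓ ξ ?_ ?_
  · intro a b' hab
    apply hf
    rw [← hξ' a, ← hξ' b', hab]
  · intro a b' hab
    obtain ⟨y0, η, η', h0, h1, h2⟩ := hadj a b' hab
    have hy : y0 = lineNo i (f w0) := by
      rw [← const_of_connected hH (fun w => lineNo i (f w)) hc a w0, ← h1, lineNo_eps]
    subst hy
    rw [← hξ' a] at h1
    rw [← hξ' b'] at h2
    rw [← eps_inj hν _ _ h1, ← eps_inj hν _ _ h2]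
    exact h0

end Pool.Agent.SQA
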