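import Pool.Agent.SQA.J1

/-!
# [SQA-J2] the grid: an inner pattern
-/

namespace Pool.Agent.SQA

open SimpleGraph

variable {W : Type}

/-- PROOF: `Γ`, `ν` from `hR`; `N := range Sum.inl` in `GV b P k X` (`N.ncard = b * P`; `P ≥ 1`, so
`ZMod P` has `P` elements, `NeZero P`). The graph `E` of the colour `c : Fin (p + k)` is `⊥` for
`c < p` and `gridE` of slope `c - p` otherwise; `D` their union, `c` from `exists_unionCol` and
`gridE_disjoint`; `free` from `free_of_union` and `gridE_free`. (`H` has an edge, so `⊥` has no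
copy.) `rob`: let `N' ⊆ N` with at most `t` elements missing and `c'` an `H`-free colouring of the
cone with colours `≥ p` at `none`. For a slope `i` and `y0 : ZMod P` let
`S i y0 := {x | inl (x, y0 + i x) ∈ N' ∧ c' s(none, some (inl (x, y0 + i x))) = p + i}`. If
`s0 ≤ (S i y0).ncard`, the copy `f : W → Option X` given by `hR` yields the monochromatic copy
`Option.map (eps ν i y0) ∘ f` in the cone: contradiction. So all `(S i y0).ncard ≤ s0 - 1`; every
element of `N'` has a colour `p + i` and lies on exactly one line of slope `i`, so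
`N'.ncard ≤ k * (P * (s0 - 1))` and `b * P ≤ N'.ncard + t`: contradiction to `hcount`. -/
theorem grid_inner [Finite W] {H : SimpleGraph W} (hH : ThreeConnected H) {p k b s0 P t : ℕ}
    (hk : 1 ≤ k) (hR : Rob H b s0) (hs0 : 1 ≤ s0) (hP : (k - 1) * (b - 1) + 1 ≤ P)
    (hcount : k * ((s0 - 1) * P) + t < b * P) :
    ∃ (U : Type) (_ : Finite U) (D : SimpleGraph U) (N : Set U) (c : Sym2 U → Fin (p + k)),
      Inner (p + k) p H D N c t ∧ N.ncard = b * P := by
  classical
  obtain ⟨X, hX, Γ, ν, hν, hΓ, hS⟩ := hR
  have hP1 : 1 ≤ P := le_trans (Nat.le_add_left 1 _) hP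
  have hPz : NeZero P := ⟨by omega⟩
  let E : Fin (p + k) → SimpleGraph (GV b P k X) := fun c =>
    Fin.addCases (motive := fun _ => SimpleGraph (GV b P k X)) (fun _ => ⊥) (fun i => gridE Γ ν hν P i) c
  have hEl : ∀ i : Fin p, E (Fin.castAdd k i) = ⊥ := fun i => Fin.addCases_left i
  have hEr : ∀ i : Fin k, E (Fin.natAdd p i) = gridE Γ ν hν P i := fun i => Fin.addCases_right i
  have hdis : ∀ i i' x y, (E i).Adj x y → (E i').Adj x y → i = i' := by
    intro i i' x y
    refine Fin.addCases (fun i => ?_) (fun i => ?_) i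
    · intro h
      rw [hEl] at h
      exact absurd h (by simp)
    · refine Fin.addCases (fun i' => ?_) (fun i' => ?_) i'
      · intro _ h
        rw [hEl] at h
        exact absurd h (by simp)
      · intro h h'
        rw [hEr] at h h'
        rw [gridE_disjoint hν hP i i' x y h h']
  obtain ⟨c, hc⟩ := exists_unionCol (by omega : 1 ≤ p + k) E hdis
  let D : SimpleGraph (GV b P k X) := ⨆ i, E i
  have hD : ∀ x y, D.Adj x y ↔ ∃ i, (E i).Adj x y := fun x y => SimpleGraph.iSup_adj
  have hW : Nonempty W := by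
    by_contra hW
    rw [not_nonempty_iff] at hW
    have := hH.1
    rw [Nat.card_of_isEmpty] at this
    omega
  have hfree : Free H D c := by
    refine free_of_union E (fun x y h => (hD x y).1 h) hc ?_
    intro i f hf
    revert i
    intro i
    refine Fin.addCases (fun i => ?_) (fun i => ?_) i
    · intro h
      obtain ⟨w⟩ := hW
      obtain ⟨u, hu, -, -⟩ := three_nbr hH w w w
      have := h w u hu
      rw [hEl] at this
      exact absurd this (by simp)
    · rw [hEr]
      exact gridE_free hH hν hΓ i f hf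
  have hN : (Set.range (Sum.inl : Fin b × ZMod P → GV b P k X)).ncard = b * P := by
    rw [← Set.image_univ, Set.ncard_image_of_injective _ Sum.inl_injective, Set.ncard_univ, Nat.card_prod,
      Nat.card_eq_fintype_card, Nat.card_eq_fintype_card, Fintype.card_fin, ZMod.card]
  refine ⟨GV b P k X, inferInstance, D, Set.range Sum.inl, c, ⟨hfree, ?_, ?_⟩, hN⟩
  · intro x y h
    obtain ⟨i, hi⟩ := (hD x y).1 h
    rw [hc i x y hi]
    revert hi
    refine Fin.addCases (fun i => ?_) (fun i => ?_) i
    · intro h
      rw [hEl] at h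
      exact absurd h (by simp)
    · intro _
      simp
  · rintro N' hN' ht ⟨c', hc1, hc2, hc3⟩
    let S : Fin k × ZMod P → Set (Fin b) := fun q => {x | (Sum.inl (x, q.2 + (q.1.val : ZMod P) * (x.val : ZMod P)) : GV b P k X) ∈ N' ∧
      c' s(none, some (Sum.inl (x, q.2 + (q.1.val : ZMod P) * (x.val : ZMod P)))) = Fin.natAdd p q.1}
    have hScard : ∀ q, (S q).ncard ≤ s0 - 1 := by
      rintro ⟨i, y0⟩
      by_contra hlt
      obtain ⟨f, hf, hfa⟩ := hS (S (i, y0)) (by omega)
      refine hc1 (Fin.natAdd p i) (fun w => Option.map (eps ν i y0) (f w))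
        ⟨(Option.map_injective (eps_inj hν i y0)).comp hf, ?_⟩
      have hkey : ∀ ξ, ξ ∈ ν '' S (i, y0) → eps ν i y0 ξ ∈ N' ∧ c' s(none, some (eps ν i y0 ξ)) = Fin.natAdd p i := by
        rintro ξ ⟨x, hx, rfl⟩
        rw [eps_nu hν]
        exact hx
      intro a b' hab
      have h1 := hfa a b' hab
      simp only
      rcases hfa' : f a with _ | ξ
      · rcases hfb' : f b' with _ | ξ'
        · rw [hfa', hfb'] at h1
          exact absurd h1 cone_none_none
        · rw [hfa', hfb', cone_none_some] at h1
          rw [Option.map_none, Option.map_some, cone_none_some]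
          exact hkey ξ' h1
      · rcases hfb' : f b' with _ | ξ'
        · rw [hfa', hfb', cone_some_none] at h1
          rw [Option.map_none, Option.map_some, cone_some_none, Sym2.eq_swap]
          exact hkey ξ h1
        · rw [hfa', hfb', cone_some_some] at h1
          rw [Option.map_some, Option.map_some, cone_some_some]
          have h2 : (E (Fin.natAdd p i)).Adj (eps ν i y0 ξ) (eps ν i y0 ξ') := by
            rw [hEr]
            exact ⟨y0, ξ, ξ', h1, rfl, rfl⟩
          have h3 : D.Adj (eps ν i y0 ξ) (eps ν i y0 ξ') := (hD _ _).2 ⟨_, h2⟩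
          refine ⟨h3, ?_⟩
          rw [hc2 _ _ h3, hc _ _ _ h2]
    have hcover : N' ⊆ ⋃ q : Fin k × ZMod P,
        (fun x : Fin b => (Sum.inl (x, q.2 + (q.1.val : ZMod P) * (x.val : ZMod P)) : GV b P k X)) '' S q := by
      intro u hu
      obtain ⟨⟨x, y⟩, rfl⟩ := hN' hu
      have h1 := hc3 _ hu
      obtain ⟨i, hi⟩ : ∃ i : Fin k, c' s(none, some (Sum.inl (x, y))) = Fin.natAdd p i := by
        have h2 := (c' s(none, some (Sum.inl (x, y)))).2
        refine ⟨⟨(c' s(none, some (Sum.inl (x, y)))).val - p, by omega⟩, ?_⟩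
        apply Fin.ext
        simp only [Fin.val_natAdd]
        omega
      rw [Set.mem_iUnion]
      have he : y - (i.val : ZMod P) * (x.val : ZMod P) + (i.val : ZMod P) * (x.val : ZMod P) = y := by ring
      refine ⟨(i, y - (i.val : ZMod P) * (x.val : ZMod P)), x, ?_, ?_⟩
      · simp only [S, Set.mem_ofPred_eq]
        rw [he]
        exact ⟨hu, hi⟩
      · simp only
        rw [he]
    have h1 : N'.ncard ≤ k * P * (s0 - 1) := by
      calc N'.ncard ≤ (⋃ q : Fin k × ZMod P,
            (fun x : Fin b => (Sum.inl (x, q.2 + (q.1.val : ZMod P) * (x.val : ZMod P)) : GV b P k X)) '' S q).ncard :=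
            Set.ncard_le_ncard hcover (Set.toFinite _)
        _ ≤ ∑ q : Fin k × ZMod P,
            ((fun x : Fin b => (Sum.inl (x, q.2 + (q.1.val : ZMod P) * (x.val : ZMod P)) : GV b P k X)) '' S q).ncard :=
            Set.ncard_iUnion_le_of_fintype _
        _ ≤ ∑ _q : Fin k × ZMod P, (s0 - 1) :=
            Finset.sum_le_sum (fun q _ => (Set.ncard_image_le (Set.toFinite _)).trans (hScard q))
        _ = k * P * (s0 - 1) := by
            rw [Finset.sum_const, Finset.card_univ, Fintype.card_prod, Fintype.card_fin, ZMod.card, smul_eq_mul]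
    have h2 : b * P ≤ N'.ncard + (Set.range (Sum.inl : Fin b × ZMod P → GV b P k X) \ N').ncard := by
      rw [← hN, add_comm, Set.ncard_sdiff_add_ncard_of_subset hN' (Set.toFinite _)]
    have h3 : k * P * (s0 - 1) = k * ((s0 - 1) * P) := by ring
    omega

end Pool.Agent.SQA
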