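import Pool.Agent.SQA.J0
import Pool.Agent.SQA.B0
import Pool.Agent.SQA.D4

/-!
# [SQA-J3] robust structures from cliques and from sparse hypergraphs

The pieces of the hypergraph structure: for every hyperedge `L j` (with `d` points) a clique with
`h - 1` vertices consisting of the points of `L j` and `h - 1 - d` private vertices.
-/

namespace Pool.Agent.SQA

open SimpleGraph

variable {W : Type} {n m d h : ℕ}

/-- PROOF: `X := Fin (Nat.card W - 1)`, `Γ := ⊤`, `ν := Fin.castLE hb`: an injective `f : W → X` does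
not exist. For `S` apply `copy_of_clique` in the cone (`v := none`, `K i := some i`, `R := ν '' S`). -/
theorem rob_clique [Finite W] {H : SimpleGraph W} (a : W) {b : ℕ} (hb : b ≤ Nat.card W - 1) :
    Rob H b (H.neighborSet a).ncard := by
  have : Nonempty W := ⟨a⟩
  have hpos : 0 < Nat.card W := Nat.card_pos
  refine ⟨Fin (Nat.card W - 1), inferInstance, ⊤, Fin.castLE hb, Fin.castLE_injective hb, ?_, ?_⟩
  · intro f hf _
    have h1 := Nat.card_le_card_of_injective f hf
    rw [Nat.card_fin] at h1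
    omega
  · intro S hS
    obtain ⟨f, hf, -, -, hadj⟩ := copy_of_clique (H := H) (cone (⊤ : SimpleGraph (Fin (Nat.card W - 1)))
      (Fin.castLE hb '' S)) (fun i => some i) (Option.some_injective _)
      (fun i j hij => by
        rw [cone_some_some]
        exact hij) none (fun i => Option.some_ne_none _) (Fin.castLE hb '' S)
      (fun i hi => by
        rw [cone_none_some]
        exact hi) a (by
        rw [Set.ncard_image_of_injective _ (Fin.castLE_injective hb)]
        exact hS)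
    exact ⟨f, hf, hadj⟩

/-- The piece `j`. -/
def pieceC (L : Fin m → Fin d → Fin n) (h : ℕ) (j : Fin m) :
    Set (Fin n ⊕ (Fin m × Fin (h - 1 - d))) :=
  {x | (∃ s, x = Sum.inl (L j s)) ∨ ∃ t, x = Sum.inr (j, t)}

/-- The union of the cliques on the pieces. -/
def pieceG (L : Fin m → Fin d → Fin n) (h : ℕ) :
    SimpleGraph (Fin n ⊕ (Fin m × Fin (h - 1 - d))) where
  Adj x y := x ≠ y ∧ ∃ j, x ∈ pieceC L h j ∧ y ∈ pieceC L h j
  symm := ⟨fun _ _ ⟨h1, j, h2, h3⟩ => ⟨h1.symm, j, h3, h2⟩⟩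
  loopless := ⟨fun _ h => h.1 rfl⟩

theorem pieceC_two {L : Fin m → Fin d → Fin n} {h' : ℕ} {w : Fin n ⊕ (Fin m × Fin (h' - 1 - d))}
    {j j' : Fin m} (hne : j ≠ j') (h1 : w ∈ pieceC L h' j) (h2 : w ∈ pieceC L h' j') :
    ∃ t, w = Sum.inl t := by
  rcases h1 with ⟨s, h1⟩ | ⟨t, h1⟩
  · exact ⟨_, h1⟩
  · rcases h2 with ⟨s, h2⟩ | ⟨t', h2⟩
    · exact ⟨_, h2⟩
    · exfalso
      apply hne
      have h3 := Sum.inr.inj (h1.symm.trans h2)
      exact congrArg Prod.fst h3

theorem pieceC_range {L : Fin m → Fin d → Fin n} {h' : ℕ} {t : Fin n} {j : Fin m}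
    (h1 : (Sum.inl t : Fin n ⊕ (Fin m × Fin (h' - 1 - d))) ∈ pieceC L h' j) :
    t ∈ Set.range (L j) := by
  rcases h1 with ⟨s, h1⟩ | ⟨t, h1⟩
  · exact ⟨s, (Sum.inl.inj h1).symm⟩
  · cases h1

/-- A shortest chain between two different pieces closes up. -/
theorem j3_chain {L : Fin m → Fin d → Fin n} {g h' : ℕ} (hL : Sparse g L)
    {z : Fin n ⊕ (Fin m × Fin (h' - 1 - d))} {j1 j2 : Fin m} (hj : j1 ≠ j2)
    (hz1 : z ∈ pieceC L h' j1) (hz2 : z ∈ pieceC L h' j2) {l : ℕ} (hlg : l + 2 ≤ g)
    {u : ℕ → Fin n ⊕ (Fin m × Fin (h' - 1 - d))} {p : ℕ → Fin m}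
    (h0 : u 0 ∈ pieceC L h' j1) (h1 : u l ∈ pieceC L h' j2) (hz : ∀ i, i ≤ l → u i ≠ z)
    (hC : ∀ i, i < l → u i ∈ pieceC L h' (p i) ∧ u (i + 1) ∈ pieceC L h' (p i))
    (hmin : ∀ l', l' < l → ¬ ∃ (u : ℕ → Fin n ⊕ (Fin m × Fin (h' - 1 - d))) (p : ℕ → Fin m),
      u 0 ∈ pieceC L h' j1 ∧ u l' ∈ pieceC L h' j2 ∧ (∀ i, i ≤ l' → u i ≠ z) ∧
      ∀ i, i < l' → u i ∈ pieceC L h' (p i) ∧ u (i + 1) ∈ pieceC L h' (p i)) : False := by
  classical
  -- shifting
  have hshift : ∀ i, i < l → u (i + 1) ∉ pieceC L h' j1 := by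
    intro i hi hu
    refine hmin (l - (i + 1)) (by omega) ⟨fun n => u (n + (i + 1)), fun n => p (n + (i + 1)), ?_, ?_, ?_, ?_⟩
    · simpa using hu
    · show u (l - (i + 1) + (i + 1)) ∈ _
      rw [Nat.sub_add_cancel hi]
      exact h1
    · intro n hn
      exact hz _ (by omega)
    · intro n hn
      have h2 := hC (n + (i + 1)) (by omega)
      have h3 : n + 1 + (i + 1) = n + (i + 1) + 1 := by omega
      simp only [h3]
      exact h2
  have hend : ∀ i, i < l → u i ∉ pieceC L h' j2 := by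
    intro i hi hu
    exact hmin i hi ⟨u, p, h0, hu, fun n hn => hz n (by omega), fun n hn => hC n (by omega)⟩
  have hcut : ∀ a b pp, a + 1 < b → b ≤ l → u a ∈ pieceC L h' pp → u b ∈ pieceC L h' pp → False := by
    intro a b pp hab hbl ha hb
    refine hmin (l - (b - (a + 1))) (by omega) ⟨fun n => if n ≤ a then u n else u (n + (b - (a + 1))),
      fun n => if n < a then p n else if n = a then pp else p (n + (b - (a + 1))), ?_, ?_, ?_, ?_⟩
    · simpa using h0
    · have h2 : ¬ (l - (b - (a + 1)) ≤ a) := by omega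
      simp only [if_neg h2]
      rw [show l - (b - (a + 1)) + (b - (a + 1)) = l by omega]
      exact h1
    · intro n hn
      by_cases h2 : n ≤ a
      · simp only [if_pos h2]
        exact hz n (by omega)
      · simp only [if_neg h2]
        exact hz _ (by omega)
    · intro n hn
      by_cases h2 : n < a
      · simp only [if_pos h2, if_pos h2.le, if_pos (show n + 1 ≤ a from h2)]
        exact hC n (by omega)
      · by_cases h3 : n = a
        · subst h3
          simp only [lt_irrefl, if_false, if_true, le_refl, if_neg (show ¬ (n + 1 ≤ n) by omega)]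
          refine ⟨ha, ?_⟩
          rw [show n + 1 + (b - (n + 1)) = b by omega]
          exact hb
        · simp only [if_neg h2, if_neg h3, if_neg (show ¬ (n ≤ a) by omega), if_neg (show ¬ (n + 1 ≤ a) by omega)]
          have h4 := hC (n + (b - (a + 1))) (by omega)
          have h5 : n + 1 + (b - (a + 1)) = n + (b - (a + 1)) + 1 := by omega
          rw [h5]
          exact h4
  have hne : ∀ i, i < l → u i ≠ u (i + 1) := by
    intro i hi he
    rcases Nat.eq_zero_or_pos i with rfl | hi0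
    · exact hshift 0 hi (by rw [← he]; exact h0)
    · have h2 := (hC (i - 1) (by omega)).1
      have h3 := (hC (i - 1) (by omega)).2
      rw [Nat.sub_add_cancel hi0] at h3
      exact hcut (i - 1) (i + 1) (p (i - 1)) (by omega) (by omega) h2 (by rw [← he]; exact h3)
  have hinj : ∀ i i', i < i' → i' < l → p i ≠ p i' := by
    intro i i' hii hi' he
    exact hcut i (i' + 1) (p i) (by omega) (by omega) (hC i (by omega)).1 (by
      rw [he]; exact (hC i' hi').2)
  have hp1 : ∀ i, i < l → p i ≠ j1 := by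
    intro i hi he
    exact hshift i hi (by rw [← he]; exact (hC i hi).2)
  have hp2 : ∀ i, i < l → p i ≠ j2 := by
    intro i hi he
    exact hend i hi (by rw [← he]; exact (hC i hi).1)
  -- the closed walk
  let v : ℕ → Fin n ⊕ (Fin m × Fin (h' - 1 - d)) := fun n => if n = 0 ∨ n = l + 2 then z else u (n - 1)
  let P : ℕ → Fin m := fun n => if n = 0 then j1 else if n = l + 1 then j2 else p (n - 1)
  have hv0 : v 0 = z := if_pos (Or.inl rfl)
  have hvl : v (l + 2) = z := if_pos (Or.inr rfl)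
  have hvn : ∀ n, n ≤ l → v (n + 1) = u n := by
    intro n hn
    exact if_neg (by omega)
  have hP0 : P 0 = j1 := if_pos rfl
  have hPl : P (l + 1) = j2 := by
    show (if l + 1 = 0 then j1 else if l + 1 = l + 1 then j2 else p (l + 1 - 1)) = j2
    rw [if_neg (Nat.succ_ne_zero _), if_pos rfl]
  have hPn : ∀ n, n < l → P (n + 1) = p n := by
    intro n hn
    show (if n + 1 = 0 then j1 else if n + 1 = l + 1 then j2 else p (n + 1 - 1)) = p n
    rw [if_neg (Nat.succ_ne_zero _), if_neg (by omega)]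
    rfl
  have hvP : ∀ n, n < l + 2 → v n ∈ pieceC L h' (P n) ∧ v (n + 1) ∈ pieceC L h' (P n) ∧ v n ≠ v (n + 1) := by
    intro n hn
    rcases Nat.eq_zero_or_pos n with rfl | hn0
    · rw [hv0, hvn 0 (Nat.zero_le _), hP0]
      exact ⟨hz1, h0, (hz 0 (Nat.zero_le _)).symm⟩
    · obtain ⟨n, rfl⟩ : ∃ n', n = n' + 1 := ⟨n - 1, by omega⟩
      rw [hvn n (by omega)]
      by_cases hnl : n = l
      · subst hnl
        rw [hPl, hvl]
        exact ⟨h1, hz2, hz n le_rfl⟩
      · rw [hvn (n + 1) (by omega), hPn n (by omega)]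
        exact ⟨(hC n (by omega)).1, (hC n (by omega)).2, hne n (by omega)⟩
  have hPinj : Set.InjOn P (Set.Iio (l + 2)) := by
    have h2 : ∀ a b, a < b → b < l + 2 → P a ≠ P b := by
      intro a b hab hb
      obtain ⟨b, rfl⟩ : ∃ b', b = b' + 1 := ⟨b - 1, by omega⟩
      rcases Nat.eq_zero_or_pos a with rfl | ha0
      · rw [hP0]
        by_cases hbl : b = l
        · rw [hbl, hPl]
          exact hj
        · rw [hPn b (by omega)]
          exact (hp1 b (by omega)).symm
      · obtain ⟨a, rfl⟩ : ∃ a', a = a' + 1 := ⟨a - 1, by omega⟩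
        rw [hPn a (by omega)]
        by_cases hbl : b = l
        · rw [hbl, hPl]
          exact hp2 a (by omega)
        · rw [hPn b (by omega)]
          exact hinj a b (by omega) (by omega)
    intro a ha b hb hab
    by_contra hne'
    rcases lt_or_gt_of_ne hne' with h3 | h3
    · exact h2 a b h3 hb hab
    · exact h2 b a h3 ha hab.symm
  have hinl : ∀ n, n ≤ l + 2 → ∃ t, v n = Sum.inl t := by
    intro n hn
    by_cases hn0 : n = 0 ∨ n = l + 2
    · have h2 : v n = z := if_pos hn0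
      rw [h2]
      exact pieceC_two hj hz1 hz2
    · obtain ⟨n, rfl⟩ : ∃ n', n = n' + 1 := ⟨n - 1, by omega⟩
      have h2 := (hvP n (by omega)).2.1
      have h3 := (hvP (n + 1) (by omega)).1
      refine pieceC_two ?_ h2 h3
      intro h4
      have h5 := hPinj (show n < l + 2 by omega) (show n + 1 < l + 2 by omega) h4
      omega
  obtain ⟨t0, ht0⟩ := hinl 0 (Nat.zero_le _)
  have hinl' : ∀ n, ∃ t, n ≤ l + 2 → v n = Sum.inl t := by
    intro n
    by_cases hn : n ≤ l + 2
    · obtain ⟨t, ht⟩ := hinl n hn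
      exact ⟨t, fun _ => ht⟩
    · exact ⟨t0, fun h => absurd h hn⟩
  choose y hy using hinl'
  refine hL.2 (l + 2) (by omega) hlg P y hPinj ?_ ?_
  · have h2 := hy (l + 2) le_rfl
    have h3 := hy 0 (Nat.zero_le _)
    rw [hvl, ← hv0, h3] at h2
    exact (Sum.inl.inj h2).symm
  · intro i hi
    obtain ⟨h2, h3, h4⟩ := hvP i hi
    rw [hy i hi.le] at h2
    rw [hy (i + 1) hi] at h3
    rw [hy i hi.le, hy (i + 1) hi] at h4
    exact ⟨fun h5 => h4 (by rw [h5]), pieceC_range h2, pieceC_range h3⟩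

/-- Two neighbours `x, y` of a vertex `z` which are connected by a short path avoiding `z` are
joined to `z` by the same piece: if `z, x ∈ C j1`, `z, y ∈ C j2` and there is no level
function separating `x` and `y` (off `z`), then `j1 = j2`.
PROOF: apply `chain_or_level` (with `h + 1` in place of the bound; `C := pieceC L h'`, points
`x, y ≠ z`); the first alternative is excluded by `hlev`. So there is a chain
`x = x_0, ..., x_k = y`, `k ≤ h + 1`, different pieces `j_i`, all `x_i ≠ z`. Suppose `j1 ≠ j2`. Cut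
the chain: if `j1 = j_i` drop the first `i + 1` steps, then, if `j2 = j_i` for a remaining `i`, cut
it at `x_i`; if `j1 = j_i` and `j2 = j_i'` with `i' < i` use the part `x_(i'+1), ..., x_i` with the
roles of `j1, j2` exchanged. In all cases: a (possibly one-vertex) chain `u_0, ..., u_l` off `z`
with `u_0 ∈ C j1`, `u_l ∈ C j2` (or exchanged) whose pieces together with `j1, j2` are all
different. Then `z, u_0, ..., u_l, z` with the pieces `j1, .., j2` is a closed walk of length
`l + 2 ≤ h + 3` with different pieces; a vertex in two different pieces is of the form `Sum.inl _`,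
so this contradicts `Sparse`. -/
theorem same_piece {L : Fin m → Fin d → Fin n} {h' : ℕ} (hL : Sparse (h + 3) L)
    {z x y : Fin n ⊕ (Fin m × Fin (h' - 1 - d))} (hx : x ≠ z) (hy : y ≠ z) {j1 j2 : Fin m}
    (hz1 : z ∈ pieceC L h' j1) (hx1 : x ∈ pieceC L h' j1) (hz2 : z ∈ pieceC L h' j2)
    (hy2 : y ∈ pieceC L h' j2)
    (hlev : ¬ ∃ l : Fin n ⊕ (Fin m × Fin (h' - 1 - d)) → ℕ, l x = 0 ∧ l y = h + 2 ∧
      ∀ j, ∀ u ∈ pieceC L h' j, ∀ w ∈ pieceC L h' j, u ≠ z → w ≠ z → l u ≤ l w + 1) :
    j1 = j2 := by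
  classical
  have : NeZero m := ⟨fun h => by subst h; exact j1.elim0⟩
  by_contra hj
  rcases chain_or_level (pieceC L h') h hx hy with h1 | ⟨k, u, p, hk, hu0, huk, -, huz, huC⟩
  · exact hlev h1
  · have hex : ∃ l, ∃ (u : ℕ → Fin n ⊕ (Fin m × Fin (h' - 1 - d))) (p : ℕ → Fin m),
        u 0 ∈ pieceC L h' j1 ∧ u l ∈ pieceC L h' j2 ∧ (∀ i, i ≤ l → u i ≠ z) ∧
        ∀ i, i < l → u i ∈ pieceC L h' (p i) ∧ u (i + 1) ∈ pieceC L h' (p i) :=
      ⟨k, u, p, by rw [hu0]; exact hx1, by rw [huk]; exact hy2, huz, fun i hi => (huC i hi).2⟩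
    obtain ⟨u', p', h0', h1', hz', hC'⟩ := Nat.find_spec hex
    have hle : Nat.find hex ≤ k := Nat.find_min' hex
      ⟨u, p, by rw [hu0]; exact hx1, by rw [huk]; exact hy2, huz, fun i hi => (huC i hi).2⟩
    exact j3_chain hL hj hz1 hz2 (by omega) h0' h1' hz' hC' (fun l' hl' => Nat.find_min hex hl')

end Pool.Agent.SQA
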