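import Pool.Agent.SQA.J3
import Pool.Agent.SQA.B4
import Pool.Agent.SQA.A1
import Pool.Agent.SQA.A2

/-!
# [SQA-J4] robust structures from sparse hypergraphs
-/

namespace Pool.Agent.SQA

open SimpleGraph

variable {W : Type} {n m d : ℕ}

/-- The numbering of a piece. -/
def J4_K {h : ℕ} (L : Fin m → Fin d → Fin n) (j : Fin m) (i : Fin (h - 1)) :
    Fin n ⊕ (Fin m × Fin (h - 1 - d)) :=
  if hi : i.val < d then Sum.inl (L j ⟨i.val, hi⟩)
  else Sum.inr (j, ⟨i.val - d, by have := i.isLt; omega⟩)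

theorem J4_K_lt {h : ℕ} (L : Fin m → Fin d → Fin n) (j : Fin m) (i : Fin (h - 1))
    (hi : i.val < d) : J4_K L j i = Sum.inl (L j ⟨i.val, hi⟩) := by
  rw [J4_K, dif_pos hi]

theorem J4_K_ge {h : ℕ} (L : Fin m → Fin d → Fin n) (j : Fin m) (i : Fin (h - 1))
    (hi : ¬ i.val < d) :
    J4_K L j i = Sum.inr (j, ⟨i.val - d, by have := i.isLt; omega⟩) := by
  rw [J4_K, dif_neg hi]

theorem J4_K_mem {h : ℕ} (L : Fin m → Fin d → Fin n) (j : Fin m) (i : Fin (h - 1)) :
    J4_K L j i ∈ pieceC L h j := by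
  by_cases hi : i.val < d
  · rw [J4_K_lt L j i hi]
    exact Or.inl ⟨_, rfl⟩
  · rw [J4_K_ge L j i hi]
    exact Or.inr ⟨_, rfl⟩

theorem J4_K_inj {h : ℕ} {L : Fin m → Fin d → Fin n} {j : Fin m}
    (hL : Function.Injective (L j)) : Function.Injective (J4_K (h := h) L j) := by
  intro i i' hii
  by_cases hi : i.val < d
  · by_cases hi' : i'.val < d
    · rw [J4_K_lt L j i hi, J4_K_lt L j i' hi'] at hii
      have h1 := hL (Sum.inl.inj hii)
      rw [Fin.mk.injEq] at h1
      exact Fin.ext h1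
    · rw [J4_K_lt L j i hi, J4_K_ge L j i' hi'] at hii
      cases hii
  · by_cases hi' : i'.val < d
    · rw [J4_K_ge L j i hi, J4_K_lt L j i' hi'] at hii
      cases hii
    · rw [J4_K_ge L j i hi, J4_K_ge L j i' hi'] at hii
      have h1 := Sum.inr.inj hii
      rw [Prod.mk.injEq] at h1
      have h2 : i.val - d = i'.val - d := congrArg Fin.val h1.2
      apply Fin.ext
      omega

/-- PROOF: let `f` be a copy of `H` in `pieceG L h` (`h = Nat.card W`). For `w : W` and neighbours
`u, u'` of `w` in `H` let `j, j'` be pieces containing `f w, f u` and `f w, f u'`. Then `j = j'`: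
`same_piece` with `z := f w`, `x := f u`, `y := f u'`; a level function `l` would give a function
`l ∘ f` on `H` that is 1-Lipschitz along the edges avoiding `w`; the set `K := {w}ᶜ` is connected
in `H` (`hH.2`) with fewer than `h` elements, so `conn_level` gives `h + 2 + 1 ≤ 0 + h`:
contradiction. So there is one piece `j w` containing `f w` and all `f u`, `u` a neighbour of `w`
(every `w` has a neighbour), and `j w = j u` for neighbours `w, u`; `const_of_connected`: `j` is
constant. So `f` is an injection of `W` into a piece, which has at most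
`d + (h - 1 - d) = h - 1` elements (`d ≤ h - 1`): contradiction. -/
theorem pieceG_free [Finite W] {H : SimpleGraph W} (hH : ThreeConnected H)
    {L : Fin m → Fin d → Fin n} (hL : Sparse (Nat.card W + 3) L) (hd : d ≤ Nat.card W - 1)
    (f : W → Fin n ⊕ (Fin m × Fin (Nat.card W - 1 - d))) (hf : Function.Injective f) :
    ¬ ∀ x y, H.Adj x y → (pieceG L (Nat.card W)).Adj (f x) (f y) := by
  intro hadj
  have hW : 4 ≤ Nat.card W := hH.1
  -- two pieces at a vertex are equal
  have claimA : ∀ (w u u' : W) (j j' : Fin m), H.Adj w u → H.Adj w u' →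
      f w ∈ pieceC L (Nat.card W) j → f u ∈ pieceC L (Nat.card W) j →
      f w ∈ pieceC L (Nat.card W) j' → f u' ∈ pieceC L (Nat.card W) j' → j = j' := by
    intro w u u' j j' hu hu' h1 h2 h3 h4
    apply same_piece hL (z := f w) (x := f u) (y := f u') (fun h => hu.ne (hf h).symm)
      (fun h => hu'.ne (hf h).symm) h1 h2 h3 h4
    rintro ⟨l, l1, l2, l3⟩
    have hc : (H.induce ({w}ᶜ : Set W)).Connected := hH.2 {w} (by rw [Set.ncard_singleton]; omega)
    have hK := conn_level (Set.toFinite ({w}ᶜ : Set W)) hc (fun x => l (f x)) (by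
      intro x hx y hy hxy
      obtain ⟨_, i, hi1, hi2⟩ := hadj x y hxy
      exact l3 i _ hi1 _ hi2 (fun h => hx (hf h)) (fun h => hy (hf h)))
      (x := u) (y := u') (fun h => hu.ne h.symm) (fun h => hu'.ne h.symm)
    have hcard : ({w}ᶜ : Set W).ncard ≤ Nat.card W := by
      rw [← Set.ncard_univ W]
      exact Set.ncard_le_ncard (Set.subset_univ _) (Set.toFinite _)
    have e1 : l (f u) = 0 := l1
    have e2 : l (f u') = Nat.card W + 2 := l2
    simp only [e1, e2] at hK
    omega
  have claimB : ∀ w : W, ∃ j : Fin m, f w ∈ pieceC L (Nat.card W) j ∧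
      ∀ u, H.Adj w u → f u ∈ pieceC L (Nat.card W) j := by
    intro w
    obtain ⟨u0, hu0, _, _⟩ := three_nbr hH w w w
    obtain ⟨_, j, h1, h2⟩ := hadj w u0 hu0
    refine ⟨j, h1, fun u hu => ?_⟩
    obtain ⟨_, j', h3, h4⟩ := hadj w u hu
    have : j = j' := claimA w u0 u j j' hu0 hu h1 h2 h3 h4
    rw [this]
    exact h4
  choose j hj1 hj2 using claimB
  have hconst : ∀ x y, j x = j y := const_of_connected hH j (by
    intro x y hxy
    exact claimA x y y (j x) (j y) hxy hxy (hj1 x) (hj2 x y hxy) (hj2 y x hxy.symm) (hj1 y))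
  have hne : Nonempty W := (Nat.card_pos_iff.1 (by omega)).1
  obtain ⟨w0⟩ := hne
  have hall : ∀ w, ∃ e : Fin d ⊕ Fin (Nat.card W - 1 - d),
      f w = Sum.elim (fun s => Sum.inl (L (j w0) s)) (fun t => Sum.inr (j w0, t)) e := by
    intro w
    have h1 := hj1 w
    rw [hconst w w0] at h1
    rcases h1 with ⟨s, hs⟩ | ⟨t, ht⟩
    · exact ⟨Sum.inl s, hs⟩
    · exact ⟨Sum.inr t, ht⟩
  choose g hg using hall
  have hginj : Function.Injective g := by
    intro x y hxy
    apply hf
    rw [hg x, hg y, hxy]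
  have hle := Nat.card_le_card_of_injective g hginj
  rw [Nat.card_sum, Nat.card_fin, Nat.card_fin] at hle
  omega

/-- PROOF: `d := (H.neighborSet a).ncard` (`1 ≤ d ≤ Nat.card W - 1`), `hypergraphS q d
(Nat.card W + 3)`; `X := Fin n ⊕ _`, `Γ := pieceG L (Nat.card W)`, `ν := Sum.inl`. If
`s0 ≤ S.ncard` then `n ≤ q * S.ncard`, so `S` contains some `L j`; `copy_of_clique` with
`K : Fin (Nat.card W - 1) → Option X`, `K i := some (inl (L j i))` for `i < d` and
`some (inr (j, i - d))` otherwise, `v := none`, `R := {i | i < d}`. -/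
theorem rob_hyper [Finite W] {H : SimpleGraph W} (hH : ThreeConnected H) {q : ℕ} (hq : 2 ≤ q)
    (a : W) :
    ∃ n, 1 ≤ n ∧ n ≤ sizeB q (H.neighborSet a).ncard (Nat.card W + 3) ∧
      ∀ s0, n ≤ q * s0 → Rob H n s0 := by
  classical
  have hW : 4 ≤ Nat.card W := hH.1
  have hd1 : 1 ≤ (H.neighborSet a).ncard := by
    obtain ⟨u, hu, _, _⟩ := three_nbr hH a a a
    exact (Set.ncard_pos (Set.toFinite _)).2 ⟨u, hu⟩
  have hd2 : (H.neighborSet a).ncard ≤ Nat.card W - 1 := by
    have h1 : (H.neighborSet a).ncard < (Set.univ : Set W).ncard := by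
      apply Set.ncard_lt_ncard _ (Set.toFinite _)
      refine ⟨Set.subset_univ _, fun h => ?_⟩
      exact (H.ne_of_adj (h (Set.mem_univ a))) rfl
    rw [Set.ncard_univ] at h1
    omega
  generalize hdd : (H.neighborSet a).ncard = d at hd1 hd2
  obtain ⟨n, m, L, hn1, hn2, hL, hS⟩ := hypergraphS q d (Nat.card W + 3) hq hd1 (by omega)
  refine ⟨n, hn1, hn2, fun s0 hs0 => ?_⟩
  refine ⟨Fin n ⊕ (Fin m × Fin (Nat.card W - 1 - d)), inferInstance, pieceG L (Nat.card W),
    Sum.inl, Sum.inl_injective, fun f hf => pieceG_free hH hL hd2 f hf, ?_⟩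
  intro S hSs
  have hcard : (Set.toFinite S).toFinset.card = S.ncard :=
    (Set.ncard_eq_toFinset_card S (Set.toFinite S)).symm
  obtain ⟨j, hj⟩ := hS (Set.toFinite S).toFinset (by
    rw [hcard]
    exact hs0.trans (Nat.mul_le_mul_left q hSs))
  have hjS : ∀ s, L j s ∈ S := fun s => (Set.Finite.mem_toFinset _).1 (hj s)
  have hKinj : Function.Injective (J4_K (h := Nat.card W) L j) := J4_K_inj (hL.1 j)
  obtain ⟨f, hf1, _, _, hf4⟩ := copy_of_clique (H := H)
    (cone (pieceG L (Nat.card W)) (Sum.inl '' S)) (fun i => some (J4_K (h := Nat.card W) L j i))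
    (fun i i' h => hKinj (Option.some.inj h))
    (by
      intro i i' hne
      rw [cone_some_some]
      exact ⟨fun h => hne (hKinj h), j, J4_K_mem L j i, J4_K_mem L j i'⟩)
    none (fun i h => by cases h) {i | i.val < d}
    (by
      intro i hi
      rw [cone_none_some, J4_K_lt L j i hi]
      exact ⟨_, hjS _, rfl⟩) a
    (by
      rw [hdd]
      have h1 : (Fin.castLE hd2 '' (Set.univ : Set (Fin d))).ncard = d := by
        rw [Set.ncard_image_of_injective _ (Fin.castLE_injective hd2), Set.ncard_univ,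
          Nat.card_fin]
      rw [← h1]
      conv_rhs => rw [h1]
      apply Set.ncard_le_ncard _ (Set.toFinite _)
      rintro _ ⟨s, _, rfl⟩
      exact s.isLt)
  exact ⟨f, hf1, hf4⟩

end Pool.Agent.SQA
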