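import Pool.Agent.SQA.A5

/-!
# [SQA-J5] the probabilistic lower bound for the Ramsey number
-/

namespace Pool.Agent.SQA

open SimpleGraph

variable {W : Type} {q : ℕ}

/-- PROOF: counting. For `i : Fin q` and an injective `f : W → Fin N0` the colourings
`c : Sym2 (Fin N0) → Fin q` with `c (Sym2.map f e) = i` for all `e ∈ H.edgeSet`: at most
`q ^ (S - E)` with `S := card (Sym2 (Fin N0))`, `E := H.edgeSet.ncard` (`Sym2.map f` is injective, so
`E` values are prescribed). If all colourings had a monochromatic copy then
`q ^ S ≤ q * N0 ^ (card W) * q ^ (S - E)` (`S ≥ E` if there is an injective `f`), so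
`q ^ E ≤ N0 ^ (card W) * q`: contradiction. `lt_rr_of_nr`. -/
theorem rr_prob [Finite W] (hq : 1 ≤ q) (H : SimpleGraph W) {N0 : ℕ}
    (h : N0 ^ Nat.card W * q < q ^ H.edgeSet.ncard) : N0 < rr q H := by
  classical
  have : Fintype W := Fintype.ofFinite W
  suffices hNR : NR q H (⊤ : SimpleGraph (Fin N0)) by
    have h1 := lt_rr_of_nr hq hNR
    rwa [Nat.card_eq_fintype_card, Fintype.card_fin] at h1
  by_contra hNR
  rw [← not_ramsey, not_not] at hNR
  set M : ℕ := Fintype.card (Sym2 (Fin N0)) with hM
  let S : Fin q × (W → Fin N0) → Finset (Sym2 (Fin N0) → Fin q) := fun p =>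
    Finset.univ.filter (fun c => Function.Injective p.2 ∧ ∀ e ∈ H.edgeSet, c (Sym2.map p.2 e) = p.1)
  have h1 : (Finset.univ : Finset (Sym2 (Fin N0) → Fin q)) ⊆ Finset.univ.biUnion S := by
    intro c _
    obtain ⟨i, f, hf, hf'⟩ := hNR c
    rw [Finset.mem_biUnion]
    refine ⟨(i, f), Finset.mem_univ _, ?_⟩
    rw [Finset.mem_filter]
    refine ⟨Finset.mem_univ _, hf, ?_⟩
    intro e
    induction e with
    | _ a b =>
      intro he
      exact (hf' a b he).2
  have h2 : ∀ p, (S p).card * q ^ H.edgeSet.ncard ≤ q ^ M := by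
    rintro ⟨i, f⟩
    by_cases hf : Function.Injective f
    · have hφ : Function.Injective (fun e : H.edgeSet => Sym2.map f e.1) := by
        intro e e' he
        exact Subtype.ext (Sym2.map.injective hf he)
      have hinj : Function.Injective (fun t : (S (i, f)) × (H.edgeSet → Fin q) =>
          (Function.extend (fun e : H.edgeSet => Sym2.map f e.1) t.2 t.1.1 : Sym2 (Fin N0) → Fin q)) := by
        rintro ⟨⟨c, hc⟩, g⟩ ⟨⟨c', hc'⟩, g'⟩ heq
        replace heq : Function.extend (fun e : H.edgeSet => Sym2.map f e.1) g c =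
          Function.extend (fun e : H.edgeSet => Sym2.map f e.1) g' c' := heq
        have hg : g = g' := by
          funext e
          have := congrFun heq (Sym2.map f e.1)
          rw [hφ.extend_apply g c e, hφ.extend_apply g' c' e] at this
          exact this
        have hcc : c = c' := by
          funext e'
          by_cases he' : ∃ e : H.edgeSet, Sym2.map f e.1 = e'
          · obtain ⟨e, rfl⟩ := he'
            rw [Finset.mem_filter] at hc hc'
            rw [hc.2.2 e.1 e.2, hc'.2.2 e.1 e.2]
          · have := congrFun heq e'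
            rw [Function.extend_apply' _ _ _ he', Function.extend_apply' _ _ _ he'] at this
            exact this
        subst hg
        subst hcc
        rfl
      have := Fintype.card_le_of_injective _ hinj
      rw [Fintype.card_prod, Fintype.card_coe, Fintype.card_fun, Fintype.card_fun, Fintype.card_fin,
        ← Nat.card_eq_fintype_card (α := H.edgeSet)] at this
      exact this
    · have : S (i, f) = ∅ := by
        rw [Finset.filter_eq_empty_iff]
        intro c _ h3
        exact hf h3.1
      rw [this, Finset.card_empty, zero_mul]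
      exact Nat.zero_le _
  have h3 : q ^ M ≤ ∑ p, (S p).card := by
    calc q ^ M = (Finset.univ : Finset (Sym2 (Fin N0) → Fin q)).card := by
          rw [Finset.card_univ, Fintype.card_fun, Fintype.card_fin]
      _ ≤ (Finset.univ.biUnion S).card := Finset.card_le_card h1
      _ ≤ ∑ p, (S p).card := Finset.card_biUnion_le
  have h4 : q ^ M * q ^ H.edgeSet.ncard ≤ q ^ M * (N0 ^ Nat.card W * q) := by
    calc q ^ M * q ^ H.edgeSet.ncard ≤ (∑ p, (S p).card) * q ^ H.edgeSet.ncard :=
          Nat.mul_le_mul_right _ h3
      _ = ∑ p, (S p).card * q ^ H.edgeSet.ncard := Finset.sum_mul _ _ _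
      _ ≤ ∑ _p : Fin q × (W → Fin N0), q ^ M := Finset.sum_le_sum (fun p _ => h2 p)
      _ = q ^ M * (N0 ^ Nat.card W * q) := by
        rw [Finset.sum_const, Finset.card_univ, Fintype.card_prod, Fintype.card_fun, Fintype.card_fin,
          Fintype.card_fin, Nat.card_eq_fintype_card, smul_eq_mul]
        ring
  have h5 : q ^ H.edgeSet.ncard ≤ N0 ^ Nat.card W * q :=
    Nat.le_of_mul_le_mul_left h4 (Nat.pow_pos hq)
  omega

/-- PROOF: handshake lemma (`SimpleGraph.sum_degrees_eq_twice_card_edges`). -/
theorem min_deg_edges [Finite W] (H : SimpleGraph W) {δ : ℕ}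
    (hδ : ∀ w, δ ≤ (H.neighborSet w).ncard) : δ * Nat.card W ≤ 2 * H.edgeSet.ncard := by
  classical
  have : Fintype W := Fintype.ofFinite W
  have h1 := H.sum_degrees_eq_twice_card_edges
  have h2 : ∀ w, (H.neighborSet w).ncard = H.degree w := by
    intro w
    rw [← SimpleGraph.card_neighborSet_eq_degree, ← Nat.card_eq_fintype_card]
    rfl
  have h3 : H.edgeSet.ncard = H.edgeFinset.card := by
    rw [Set.ncard_eq_toFinset_card']
    rfl
  rw [h3, ← h1, Nat.card_eq_fintype_card]
  calc δ * Fintype.card W = ∑ _w : W, δ := by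
        rw [Finset.sum_const, Finset.card_univ, smul_eq_mul, mul_comm]
    _ ≤ ∑ w, H.degree w := Finset.sum_le_sum (fun w _ => by rw [← h2]; exact hδ w)

end Pool.Agent.SQA
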