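import Pool.Agent.SQA.Base
import Pool.Agent.SQA.A2

/-!
# [SQA-P2] edge-minimal patterns, recolouring
-/

namespace Pool.Agent.SQA

open SimpleGraph

variable {W U : Type} {q : ℕ}

/-- PROOF: take `D'` minimal among the `D' ≤ D` with `¬ Ext H D' N c` (finitely many graphs). -/
theorem edge_minimal [Finite U] {H : SimpleGraph W} {D : SimpleGraph U} {N : Set U}
    {c : Sym2 U → Fin q} (hne : NonExt H D N c) :
    ∃ D' ≤ D, NonExt H D' N c ∧
      ∀ a b, D'.Adj a b → Ext H (D'.deleteEdges {s(a, b)}) N c := by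
  obtain ⟨D', ⟨hD', hE'⟩, hmin⟩ := (Set.toFinite {D' : SimpleGraph U | D' ≤ D ∧ ¬ Ext H D' N c}).exists_minimal
    ⟨D, le_refl _, hne.2⟩
  refine ⟨D', hD', ⟨hne.1.mono hD', hE'⟩, fun a b hab => ?_⟩
  by_contra hcon
  have h1 : D'.deleteEdges {s(a, b)} ≤ D' := deleteEdges_le _
  have h2 := hmin ⟨h1.trans hD', hcon⟩ h1
  have h3 := h2 hab
  rw [deleteEdges_adj] at h3
  exact h3.2 rfl

/-- Recolouring an edge with a private end.
PROOF: let `c'` be the colouring of `cone (D - xy) N`, `β ≠ i`, `c''` equal to `c'` except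
`c'' s(some x, some y) = β`. A monochromatic copy `f` in `cone D N` for `c''` which does not use
the edge `x y` is a monochromatic copy for `c'` in the smaller graph: contradiction. Otherwise its
colour is `β`, `some x = f w`, and `w` has a neighbour `u` with `f u ≠ some y` (`three_nbr`);
`f u ≠ none` as `x ∉ N`, so `f u = some u'`, `D.Adj x u'` and the colour is
`c s(x, u') = i ≠ β`. -/
theorem nr_of_private [Finite W] (hq : 2 ≤ q) {H : SimpleGraph W} (hH : ThreeConnected H)
    {D : SimpleGraph U} {N : Set U} {c : Sym2 U → Fin q} {x y : U} (hxy : D.Adj x y)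
    (hx : x ∉ N) {i : Fin q} (hi : ∀ y, D.Adj x y → c s(x, y) = i)
    (hE : Ext H (D.deleteEdges {s(x, y)}) N c) : NR q H (cone D N) := by
  classical
  obtain ⟨c', hc', hcc⟩ := hE.exact
  obtain ⟨β, hβ⟩ : ∃ β : Fin q, β ≠ i := by
    by_cases h : i = ⟨0, by omega⟩
    · exact ⟨⟨1, by omega⟩, by rw [h]; simp [Fin.ext_iff]⟩
    · exact ⟨_, Ne.symm h⟩
  refine ⟨fun e => if e = s(some x, some y) then β else c' e, ?_⟩
  rintro j f ⟨hf, hadj⟩
  by_cases hex : ∃ u v, H.Adj u v ∧ f u = some x ∧ f v = some y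
  · obtain ⟨u, v, huv, hu, hv⟩ := hex
    have hj : β = j := by
      have h1 := (hadj u v huv).2
      rw [hu, hv] at h1
      beta_reduce at h1
      rwa [if_pos rfl] at h1
    obtain ⟨w, huw, hwv, -⟩ := three_nbr hH u v v
    obtain ⟨h1, h2⟩ := hadj u w huw
    rw [hu] at h1 h2
    have hwy : f w ≠ some y := fun h => hwv (hf (h.trans hv.symm))
    rcases hw : f w with _ | u'
    · rw [hw, cone_some_none] at h1
      exact hx h1
    · rw [hw, cone_some_some] at h1
      rw [hw] at h2 hwy
      beta_reduce at h2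
      have h3 : s(some x, some u') ≠ s(some x, some y) := by
        intro h
        rw [Sym2.eq_iff] at h
        rcases h with ⟨-, h⟩ | ⟨h4, h5⟩
        · exact hwy h
        · rw [h5] at hwy
          exact hwy h4
      rw [if_neg h3, hcc, hi u' h1] at h2
      exact hβ (hj.trans h2.symm)
  · have hne' : ∀ a b, H.Adj a b → s(f a, f b) ≠ s(some x, some y) := by
      intro a b hab h
      rw [Sym2.eq_iff] at h
      rcases h with ⟨h1, h2⟩ | ⟨h1, h2⟩
      · exact hex ⟨a, b, hab, h1, h2⟩
      · exact hex ⟨b, a, hab.symm, h2, h1⟩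
    refine hc' j f ⟨hf, fun a b hab => ?_⟩
    obtain ⟨h1, h2⟩ := hadj a b hab
    have h3 := hne' a b hab
    beta_reduce at h2
    rw [if_neg h3] at h2
    refine ⟨?_, h2⟩
    rcases ha : f a with _ | a'
    · rcases hb : f b with _ | b'
      · rw [ha, hb] at h1
        exact absurd h1 cone_none_none
      · rw [ha, hb, cone_none_some] at h1
        rw [cone_none_some]
        exact h1
    · rcases hb : f b with _ | b'
      · rw [ha, hb, cone_some_none] at h1
        rw [cone_some_none]
        exact h1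
      · rw [ha, hb, cone_some_some] at h1
        rw [ha, hb] at h3
        rw [cone_some_some, deleteEdges_adj]
        refine ⟨h1, fun h4 => h3 ?_⟩
        have h5 : s(a', b') = s(x, y) := h4
        have h6 := congrArg (Sym2.map some) h5
        rwa [Sym2.map_mk, Sym2.map_mk] at h6

end Pool.Agent.SQA
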