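import Pool.Agent.SQA.A4
import Pool.Agent.SQA.A5
import Pool.Agent.SQA.A2

/-!
# [SQA-P3] cones with few vertices are not Ramsey
-/

namespace Pool.Agent.SQA

open SimpleGraph

variable {W U : Type} {q : ℕ}

theorem p3_deg_le {V : Type} [Finite V] {G : SimpleGraph V} (G' : G.Subgraph) (v : G'.verts) :
    (G'.coe.neighborSet v).ncard ≤ (G.neighborSet (v : V)).ncard := by
  rw [← Set.ncard_image_of_injective (G'.coe.neighborSet v) Subtype.val_injective]
  refine Set.ncard_le_ncard ?_ (Set.toFinite _)
  rintro x ⟨y, hy, rfl⟩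
  have hy' : G'.Adj v y := hy
  exact G'.adj_sub hy'

theorem p3_card {U : Type} (N : Set U) : (insert none (some '' N) : Set (Option U)).ncard ≤ N.ncard + 1 := by
  refine (Set.ncard_insert_le _ _).trans ?_
  rw [Set.ncard_image_of_injective _ (Option.some_injective U)]

theorem p3_diff {U : Type} [Finite U] {N : Set U} {x y : U} (hx : x ∈ N) (hy : y ∈ N) (hxy : x ≠ y) :
    (N \ {x, y}).ncard + 2 = N.ncard := by
  have h1 : ({x, y} : Set U) ⊆ N := by
    rintro z (rfl | rfl)
    · exact hx
    · exact hy
  have h2 := Set.ncard_sdiff_add_ncard_of_subset h1 (Set.toFinite _)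
  rwa [Set.ncard_pair hxy] at h2

/-- PROOF: `nr_of_lt` with `T := insert none (some '' N)`, `T.ncard = N.ncard + 1`. -/
theorem nr_small [Finite W] (hq : 1 ≤ q) {H : SimpleGraph W} (hH : ThreeConnected H) [Finite U]
    {D : SimpleGraph U} {N : Set U} (hD : ∀ a b, D.Adj a b → a ∈ N)
    (hN : N.ncard + 2 ≤ rr q H) : NR q H (cone D N) := by
  refine nr_of_lt hq (fun w => ?_) (cone D N) (insert none (some '' N)) ?_ ?_
  · obtain ⟨u, hu, -, -⟩ := three_nbr hH w w w
    exact ⟨u, hu⟩
  · intro a b hab
    rcases a with _ | a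
    · exact Set.mem_insert _ _
    · refine Set.mem_insert_of_mem _ (Set.mem_image_of_mem _ ?_)
      rcases b with _ | b
      · rwa [cone_some_none] at hab
      · rw [cone_some_some] at hab
        exact hD a b hab
  · have := p3_card N
    omega

/-- PROOF: suppose `cone D N` is Ramsey, let `G'` be a minimal Ramsey subgraph
(`exists_minRamsey`). In `cone D N` the vertex `some x` has only the neighbours `none` and
`some z`, `z ∈ N \ {x, y}`: at most `N.ncard - 1` neighbours, so by `sq_le_deg` it is not in
`G'.verts` (its degree in `G'.coe` would be at least `sq ≥ N.ncard`); same for `some y`. So all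
non-isolated vertices of `G'.coe` are in `insert none (some '' (N \ {x, y}))`, which has
`N.ncard - 1 < rr` elements: `nr_of_lt` contradicts that `G'.coe` is Ramsey. -/
theorem nr_small' [Finite W] (hq : 1 ≤ q) {H : SimpleGraph W} (hH : ThreeConnected H)
    [Finite U] {D : SimpleGraph U} {N : Set U} (hD : ∀ a b, D.Adj a b → a ∈ N)
    (hN : N.ncard + 1 = rr q H) (hs : N.ncard ≤ sq q H)
    (hxy : ∃ x ∈ N, ∃ y ∈ N, x ≠ y ∧ ¬ D.Adj x y) : NR q H (cone D N) := by
  by_contra hcon
  obtain ⟨x, hx, y, hy, hxy, hnadj⟩ := hxy
  obtain ⟨G', hG'⟩ := exists_minRamsey (not_imp_comm.1 not_ramsey.1 hcon)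
  have hkey : ∀ x ∈ N, ∀ y ∈ N, x ≠ y → ¬ D.Adj x y → some x ∉ G'.verts := by
    intro x hx y hy hxy hnadj hmem
    have h1 := sq_le_deg hG' ⟨some x, hmem⟩
    have h2 := p3_deg_le G' ⟨some x, hmem⟩
    have h3 : ((cone D N).neighborSet (some x)).ncard ≤ (insert none (some '' (N \ {x, y})) : Set (Option U)).ncard := by
      refine Set.ncard_le_ncard ?_ (Set.toFinite _)
      intro z hz
      have hz' : (cone D N).Adj (some x) z := hz
      rcases z with _ | z
      · exact Set.mem_insert _ _
      · rw [cone_some_some] at hz'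
        refine Set.mem_insert_of_mem _ (Set.mem_image_of_mem _ ⟨hD z x hz'.symm, ?_⟩)
        rintro (h | h)
        · exact hz'.ne h.symm
        · rw [h] at hz'
          exact hnadj hz'
    have h4 := p3_card (N \ {x, y})
    have h5 := p3_diff hx hy hxy
    have h6 : ((cone D N).neighborSet ((⟨some x, hmem⟩ : G'.verts) : Option U)).ncard =
      ((cone D N).neighborSet (some x)).ncard := rfl
    omega
  have hx' := hkey x hx y hy hxy hnadj
  have hy' := hkey y hy x hx hxy.symm fun h => hnadj h.symm
  have hfin : Finite G'.verts := inferInstance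
  have hNR : NR q H G'.coe := by
    refine nr_of_lt hq (fun w => ?_) G'.coe {v | (v : Option U) ∈ (insert none (some '' (N \ {x, y})) : Set (Option U))} ?_ ?_
    · obtain ⟨u, hu, -, -⟩ := three_nbr hH w w w
      exact ⟨u, hu⟩
    · rintro ⟨a, ha⟩ ⟨b, hb⟩ hab
      have hab' : (cone D N).Adj a b := G'.adj_sub hab
      show a ∈ (insert none (some '' (N \ {x, y})) : Set (Option U))
      rcases a with _ | a
      · exact Set.mem_insert _ _
      · refine Set.mem_insert_of_mem _ (Set.mem_image_of_mem _ ⟨?_, ?_⟩)
        · rcases b with _ | b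
          · rwa [cone_some_none] at hab'
          · rw [cone_some_some] at hab'
            exact hD a b hab'
        · rintro (h | h)
          · rw [h] at ha
            exact hx' ha
          · have h' : a = y := h
            rw [h'] at ha
            exact hy' ha
    · have h1 : ({v : G'.verts | (v : Option U) ∈ (insert none (some '' (N \ {x, y})) : Set (Option U))}).ncard ≤
          (insert none (some '' (N \ {x, y})) : Set (Option U)).ncard := by
        rw [← Set.ncard_image_of_injective _ Subtype.val_injective]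
        refine Set.ncard_le_ncard ?_ (Set.toFinite _)
        rintro z ⟨z', hz', rfl⟩
        exact hz'
      have h4 := p3_card (N \ {x, y})
      have h5 := p3_diff hx hy hxy
      omega
  exact (not_ramsey.2 hNR) hG'.1

end Pool.Agent.SQA
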