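import Pool.Agent.SQA.P1
import Pool.Agent.SQA.P2
import Pool.Agent.SQA.P3
import Pool.Agent.SQA.G4
import Pool.Agent.SQA.A6

/-!
# [SQA-P4] a small non-extendable pattern implies abundance
-/

namespace Pool.Agent.SQA

open SimpleGraph

variable {W U : Type} {q : ℕ}

/-- PROOF: first `unglue`, then `edge_minimal`: a pattern `(D', N', c')` with `N'.ncard = N.ncard`,
whose vertices outside `N'` are private (this passes to the subgraph), in which every edge
deletion is extendable and which has a non-adjacent pair in `N'` if `(D, N)` has. If some edge of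
`D'` has an end outside of `N'`, `nr_of_private` shows that `cone D' N'` is `NR`; otherwise
`nr_small` or `nr_small'` shows this. `abundant_of_pattern`. -/
theorem abundant_of_eq [Finite W] [Nonempty W] (hq : 2 ≤ q) {H : SimpleGraph W}
    (hH : ThreeConnected H) [Finite U] {D : SimpleGraph U} {N : Set U} {c : Sym2 U → Fin q}
    (hne : NonExt H D N c) (hs : N.ncard = sq q H)
    (hN : N.ncard + 2 ≤ rr q H ∨
      (N.ncard + 1 = rr q H ∧ ∃ x ∈ N, ∃ y ∈ N, x ≠ y ∧ ¬ D.Adj x y)) :
    Abundant q H := by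
  obtain ⟨U', hU', D', N', c', hne', hcard, hpriv, hnonadj⟩ := unglue (by omega) hH hne
  obtain ⟨D'', hD'', hne'', hE⟩ := edge_minimal hne'
  have hnr : NR q H (cone D'' N') := by
    by_cases hex : ∃ x y, D''.Adj x y ∧ x ∉ N'
    · obtain ⟨x, y, hxy, hx⟩ := hex
      obtain ⟨i, hi⟩ := hpriv x hx
      exact nr_of_private hq hH hxy hx (fun y hy => hi y (hD'' hy)) (hE x y hxy)
    · have hD : ∀ a b, D''.Adj a b → a ∈ N' := by
        intro a b hab
        by_contra h
        exact hex ⟨a, b, hab, h⟩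
      rcases hN with hN | ⟨hN, hN'⟩
      · exact nr_small (by omega) hH hD (by rw [hcard]; exact hN)
      · refine nr_small' (by omega) hH hD (by rw [hcard]; exact hN) (by rw [hcard]; exact hs.le) ?_
        obtain ⟨x, hx, y, hy, hxy, hn⟩ := hnonadj hN'
        exact ⟨x, hx, y, hy, hxy, fun h => hn (hD'' h)⟩
  exact abundant_of_pattern hq hH hne'' hnr (by rw [hcard]; exact hs.le)

/-- PROOF: `sq_le_ncard` gives `sq ≤ N.ncard`. If `sq + 2 ≤ rr`, apply `abundant_of_eq` to the
pattern of a vertex of degree `sq` (`sq_attained`, `MinRamsey.pattern`). Otherwise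
`N.ncard + 1 = rr` and `N.ncard = sq`: apply `abundant_of_eq` to the given pattern. -/
theorem abundant_of_small [Finite W] [Nonempty W] (hq : 2 ≤ q) {H : SimpleGraph W}
    (hH : ThreeConnected H) [Finite U] {D : SimpleGraph U} {N : Set U} {c : Sym2 U → Fin q}
    (hne : NonExt H D N c)
    (hN : N.ncard + 2 ≤ rr q H ∨
      (N.ncard + 1 = rr q H ∧ ∃ x ∈ N, ∃ y ∈ N, x ≠ y ∧ ¬ D.Adj x y)) :
    Abundant q H := by
  have h1 := sq_le_ncard hq hH hne
  by_cases h2 : sq q H + 2 ≤ rr q H
  · obtain ⟨n, G, v, hmin, hdeg⟩ := sq_attained (q := q) (by omega) H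
    obtain ⟨U', hU', D', N', c', hne', hcard⟩ := hmin.pattern v
    exact abundant_of_eq hq hH hne' (hcard.trans hdeg) (Or.inl (by rw [hcard, hdeg]; exact h2))
  · rcases hN with hN | ⟨hN, hN'⟩
    · omega
    · exact abundant_of_eq hq hH hne (by omega) (Or.inr ⟨hN, hN'⟩)

/-- All patterns of the relevant size are extendable. -/
def AllExt (q : ℕ) (H : SimpleGraph W) : Prop :=
  ∀ (U : Type) [Finite U] (D : SimpleGraph U) (N : Set U) (c : Sym2 U → Fin q), Free H D c →
    (N.ncard + 2 ≤ rr q H ∨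
      (N.ncard + 1 = rr q H ∧ ∃ x ∈ N, ∃ y ∈ N, x ≠ y ∧ ¬ D.Adj x y)) → Ext H D N c

theorem abundant_of_not_allExt [Finite W] [Nonempty W] (hq : 2 ≤ q) {H : SimpleGraph W}
    (hH : ThreeConnected H) (h : ¬ AllExt q H) : Abundant q H := by
  by_contra hA
  apply h
  intro U _ D N c hc hN
  by_contra hE
  exact hA (abundant_of_small hq hH ⟨hc, hE⟩ hN)

end Pool.Agent.SQA
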