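import Pool.Agent.SQA.R4a

/-!
# [SQA-R4] two colours: the complete multipartite graphs, continued
-/

namespace Pool.Agent.SQA

open SimpleGraph

variable {W : Type}

/-- PROOF: `(m - 2) * M + (p + (M - p) + p + (M - p) + 1)`. -/
theorem card_V4 {m p M : ℕ} (hm : 2 ≤ m) (hM : M = m * p) :
    Nat.card (V4 m p M) = m * M + 1 := by
  have hp : p ≤ M := by
    rw [hM]
    nlinarith
  rw [Nat.card_eq_fintype_card, Fintype.card_sum, Fintype.card_prod, Fintype.card_sigma,
    Fin.sum_univ_five]
  have e : ∀ i, Fintype.card (Fin (sz p M i)) = sz p M i := fun i => Fintype.card_fin _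
  rw [e, e, e, e, e, Fintype.card_fin, Fintype.card_fin]
  have s0 : sz p M 0 = p := rfl
  have s1 : sz p M 1 = M - p := rfl
  have s2 : sz p M 2 = p := rfl
  have s3 : sz p M 3 = M - p := rfl
  have s4 : sz p M 4 = 1 := rfl
  rw [s0, s1, s2, s3, s4]
  have h1 : (m - 2) * M + 2 * M = m * M := by
    rw [← Nat.add_mul, Nat.sub_add_cancel hm]
  omega

theorem r4_five : ∀ i j k : Fin 5, (i = j ∨ j = i + 1 ∨ i = j + 1) ∨ (i = k ∨ k = i + 1 ∨ i = k + 1) ∨
    (j = k ∨ k = j + 1 ∨ j = k + 1) := by decide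

theorem r4_count {m : ℕ} (hm : 2 ≤ m) (P : Fin (m + 1) → Fin (m - 2) ⊕ Fin 5)
    (hP : ∀ i j, i ≠ j → ¬ redP (P i) (P j)) : False := by
  classical
  have hinj : Function.Injective P := by
    intro i j hij
    by_contra h
    apply hP i j h
    rw [hij]
    exact redP_refl _
  have h1 : (Finset.univ.image P).card = m + 1 := by
    rw [Finset.card_image_of_injective _ hinj, Finset.card_univ, Fintype.card_fin]
  have h2 : Finset.univ.image P ⊆ (Finset.univ.image (Sum.inl : Fin (m - 2) → Fin (m - 2) ⊕ Fin 5)) ∪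
      ((Finset.univ.image P).filter (fun x => ∃ i : Fin 5, x = Sum.inr i)) := by
    intro x hx
    rw [Finset.mem_union]
    rcases x with j | i
    · exact Or.inl (Finset.mem_image.2 ⟨j, Finset.mem_univ _, rfl⟩)
    · exact Or.inr (Finset.mem_filter.2 ⟨hx, i, rfl⟩)
  have h3 : (Finset.univ.image (Sum.inl : Fin (m - 2) → Fin (m - 2) ⊕ Fin 5)).card ≤ m - 2 := by
    refine Finset.card_image_le.trans ?_
    rw [Finset.card_univ, Fintype.card_fin]
  have h4 : ((Finset.univ.image P).filter (fun x => ∃ i : Fin 5, x = Sum.inr i)).card ≤ 2 := by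
    by_contra h
    rw [not_le, Finset.two_lt_card] at h
    obtain ⟨a, ha, b, hb, c, hc, hab, hac, hbc⟩ := h
    rw [Finset.mem_filter, Finset.mem_image] at ha hb hc
    obtain ⟨⟨i, -, hi⟩, i', hi'⟩ := ha
    obtain ⟨⟨j, -, hj⟩, j', hj'⟩ := hb
    obtain ⟨⟨k, -, hk⟩, k', hk'⟩ := hc
    have hij : i ≠ j := fun h => hab (by rw [← hi, ← hj, h])
    have hik : i ≠ k := fun h => hac (by rw [← hi, ← hk, h])
    have hjk : j ≠ k := fun h => hbc (by rw [← hj, ← hk, h])
    have e1 := hP i j hij
    have e2 := hP i k hik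
    have e3 := hP j k hjk
    rw [hi, hj, hi', hj'] at e1
    rw [hi, hk, hi', hk'] at e2
    rw [hj, hk, hj', hk'] at e3
    rcases r4_five i' j' k' with h | h | h
    · exact e1 h
    · exact e2 h
    · exact e3 h
  have h5 := (Finset.card_le_card h2).trans (Finset.card_union_le _ _)
  omega

/-- PROOF: choose a vertex `r j` in every class `j : Fin (m + 1)` of `C`; they are pairwise
adjacent, so the positions `pos4 (f (r j))` are pairwise not `redP`. At most one of them is in every
block `Sum.inl j'` and at most two are of the form `Sum.inr i` (among three elements of `Fin 5` two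
are equal or neighbours: `decide`); so `m + 1 ≤ (m - 2) + 2`: contradiction. -/
theorem no_blue4 [Finite W] {H : SimpleGraph W} {m p : ℕ} (hm : 2 ≤ m)
    (hp : 1 ≤ p) {C : W → Fin (m + 1)} (hC : ∀ x y, H.Adj x y ↔ C x ≠ C y)
    (h0 : {w | C w = 0}.ncard = 1) (hj : ∀ j : Fin m, {w | C w = j.succ}.ncard = p)
    {f : W → V4 m p (m * p)} :
    ¬ ∀ x y, H.Adj x y → (blue4 m p (m * p)).Adj (f x) (f y) := by
  intro hf
  have hne : ∀ j : Fin (m + 1), ∃ w, C w = j := by
    intro j
    refine Fin.cases ?_ (fun j => ?_) j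
    · have : {w | C w = 0}.Nonempty := by
        apply Set.nonempty_of_ncard_ne_zero
        rw [h0]
        exact one_ne_zero
      exact this
    · have : {w | C w = j.succ}.Nonempty := by
        apply Set.nonempty_of_ncard_ne_zero
        rw [hj]
        omega
      exact this
  choose r hr using hne
  apply r4_count hm (fun j => pos4 (f (r j)))
  intro i j hij
  apply hf (r i) (r j)
  rw [hC, hr, hr]
  exact hij

/-- PROOF: `exists_unionCol`, `free_of_union` (with `D = ⊤`), `no_red4`, `no_blue4`,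
`lt_rr_of_nr`, `card_V4`. -/
theorem lower_multipartite [Finite W] {H : SimpleGraph W} (hH : ThreeConnected H) {m p : ℕ}
    (hm : 2 ≤ m) (hp : 1 ≤ p) {C : W → Fin (m + 1)} (hC : ∀ x y, H.Adj x y ↔ C x ≠ C y)
    (h0 : {w | C w = 0}.ncard = 1) (hj : ∀ j : Fin m, {w | C w = j.succ}.ncard = p)
    (hcard : Nat.card W = m * p + 1) : m * (Nat.card W - 1) + 2 ≤ rr 2 H := by
  have hdis : ∀ (i i' : Fin 2) (x y : V4 m p (m * p)),
      ((![red4 m p (m * p), blue4 m p (m * p)] : Fin 2 → SimpleGraph (V4 m p (m * p))) i).Adj x y →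
      ((![red4 m p (m * p), blue4 m p (m * p)] : Fin 2 → SimpleGraph (V4 m p (m * p))) i').Adj x y →
      i = i' := by
    intro i i' x y h1 h2
    fin_cases i <;> fin_cases i'
    · rfl
    · exact absurd h1.2 h2
    · exact absurd h2.2 h1
    · rfl
  obtain ⟨c, hc⟩ := exists_unionCol (by norm_num : 1 ≤ 2)
    (![red4 m p (m * p), blue4 m p (m * p)] : Fin 2 → SimpleGraph (V4 m p (m * p))) hdis
  have hfree : Free H (⊤ : SimpleGraph (V4 m p (m * p))) c := by
    apply free_of_union (![red4 m p (m * p), blue4 m p (m * p)] :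
      Fin 2 → SimpleGraph (V4 m p (m * p))) ?_ hc ?_
    · intro x y hxy
      by_cases h : redP (pos4 x) (pos4 y)
      · exact ⟨0, hxy, h⟩
      · exact ⟨1, h⟩
    · intro i f hf
      fin_cases i
      · exact no_red4 hH hm hp hC h0 hj hcard hf
      · exact no_blue4 hm hp hC h0 hj
  have h1 := lt_rr_of_nr (by norm_num : 1 ≤ 2) (⟨c, hfree⟩ : NR 2 H (⊤ : SimpleGraph (V4 m p (m * p))))
  rw [card_V4 hm rfl] at h1
  rw [hcard, Nat.add_sub_cancel]
  omega

end Pool.Agent.SQA
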