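import Pool.Agent.SQA.N4a
import Pool.Agent.SQA.R4
import Pool.Agent.SQA.P4

/-!
# [SQA-N4] two colours
-/

namespace Pool.Agent.SQA

open SimpleGraph

variable {W : Type} {q p m : ℕ}

/-- Two colours.
PROOF: `exists_optCol`; `b` a vertex of minimum degree `δ ≥ 1` (`three_nbr`). For `j : Fin m`,
`dj := {x | H.Adj a x ∧ C x = j.succ}.ncard ≥ 1` (`nbr`), `inner_clique` (`p = 1`, `t = dj - 1`,
`w = δ + (dj - 1) ≤ Nat.card W - 1` by `deg_le`). `nest_step` (`q = 2`, `p = 0`, `t = 0`) gives a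
pattern with `N'.ncard = ∑ j, (δ + (dj - 1)) = m * (δ - 1) + deg a` (`sum_nbr`). By `arith` either
`N'.ncard + 2 ≤ m * (Nat.card W - 1) + {w | C w = 0}.ncard ≤ rr 2 H` (`rr_succ` for `q = 1` and
`card_le_rr`), or `N'.ncard + 2 ≤ m * (Nat.card W - 1) + 2 ≤ rr 2 H` (`lower_multipartite`).
`abundant_of_small`. -/
theorem abundant_two [Finite W] [Nonempty W] {H : SimpleGraph W} (hH : ThreeConnected H)
    (hT : ¬ H.CliqueFree 3) : Abundant 2 H := by
  obtain ⟨m, C, a, hm, hopt⟩ := exists_optCol hT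
  obtain ⟨b, hb⟩ := Finite.exists_min fun w => (H.neighborSet w).ncard
  have hδ1 : 1 ≤ (H.neighborSet b).ncard := by
    obtain ⟨u, hu, -, -⟩ := three_nbr hH b b b
    rw [Nat.one_le_iff_ne_zero, Ne, Set.ncard_eq_zero (Set.toFinite _)]
    intro h
    have : u ∈ H.neighborSet b := hu
    rw [h] at this
    exact this
  obtain ⟨δ, hδ⟩ : ∃ δ, δ = (H.neighborSet b).ncard := ⟨_, rfl⟩
  have hb' : ∀ w, δ ≤ (H.neighborSet w).ncard := fun w => hδ ▸ hb w
  rw [← hδ] at hδ1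
  have hdj : ∀ j : Fin m, 1 ≤ {x | H.Adj a x ∧ C x = j.succ}.ncard := by
    intro j
    obtain ⟨w, hw, hw'⟩ := hopt.nbr j.succ (Fin.succ_ne_zero _)
    rw [Nat.one_le_iff_ne_zero, Ne, Set.ncard_eq_zero (Set.toFinite _)]
    intro h
    have : w ∈ {x | H.Adj a x ∧ C x = j.succ} := ⟨hw, hw'⟩
    rw [h] at this
    exact this
  have hdeg := fun j => hopt.deg_le hb' j
  have hj : ∀ j : Fin m, ∃ (N : Set (Fin (Nat.card W - 1))) (c : Sym2 (Fin (Nat.card W - 1)) → Fin (1 + 1)),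
      N.ncard = δ + (0 + ({x | H.Adj a x ∧ C x = j.succ}.ncard - 1)) ∧
      Inner (1 + 1) 1 H (⊤ : SimpleGraph (Fin (Nat.card W - 1))) N c
        (0 + ({x | H.Adj a x ∧ C x = j.succ}.ncard - 1)) := by
    intro j
    refine inner_clique b ?_ ?_
    · rw [hδ]
    · have h1 := hdeg j
      have h2 := hdj j
      omega
  choose N c hN hin using hj
  obtain ⟨U', hU', D', N', c', h1, h2⟩ := nest_step (q := 2) (p := 0) (t := 0) hH (by omega) hopt
    (fun _ => Fin (Nat.card W - 1)) (fun _ => ⊤) N c hin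
  refine abundant_of_small le_rfl hH h1.nonExt (Or.inl ?_)
  have h3 : N'.ncard = m * (δ - 1) + (H.neighborSet a).ncard := by
    rw [h2, ← hopt.sum_nbr]
    have h4 : ∀ j : Fin m, (N j).ncard = (δ - 1) + {w | H.Adj a w ∧ C w = j.succ}.ncard := by
      intro j
      have h5 := hN j
      have h6 := hdj j
      omega
    rw [Finset.sum_congr rfl fun j _ => h4 j, Finset.sum_add_distrib, Finset.sum_const, Finset.card_univ,
      Fintype.card_fin, smul_eq_mul]
  rw [h3]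
  rcases hopt.arith hm hb' hδ1 with h | ⟨h, h0, ⟨p, hp1, hp2, hp3⟩, hC⟩
  · have h5 := rr_succ hH (q := 1) le_rfl hopt
    have h6 := card_le_rr (q := 1) le_rfl H
    have h7 : m * (Nat.card W - 1) ≤ m * (rr 1 H - 1) := Nat.mul_le_mul_left _ (by omega)
    have h8 : rr (1 + 1) H = rr 2 H := rfl
    omega
  · have h5 := lower_multipartite hH hm hp1 hC h0 hp3 hp2
    omega

end Pool.Agent.SQA
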