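import Pool.Agent.SQA.J2
import Pool.Agent.SQA.J3
import Pool.Agent.SQA.N4

/-!
# [SQA-J6b] grids of cliques
-/

namespace Pool.Agent.SQA

open SimpleGraph

variable {W : Type} {q : ℕ}

theorem j6_deg [Finite W] {H : SimpleGraph W} (hH : ThreeConnected H) (a : W) :
    1 ≤ (H.neighborSet a).ncard := by
  obtain ⟨u, hu, -, -⟩ := three_nbr hH a a a
  rw [Nat.one_le_iff_ne_zero, Ne, Set.ncard_eq_zero (Set.toFinite _)]
  intro h
  have : u ∈ H.neighborSet a := hu
  rw [h] at this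
  exact this

/-- Grids of cliques, many colours: `k` slopes, `k ≤ q`.
PROOF: `grid_inner` with `p = q - k`, `b = Nat.card W - 1`, `s0 = deg a`, `rob_clique`,
`t = p * (Nat.card W - 1)`; `abundant_of_inner` with `κ = Nat.card W - 1`; by `rr_ge`
`m ^ (q - 1) * (Nat.card W - 1) + 1 ≤ rr q H`, `m ^ (q - 1) = m ^ p * m ^ (k - 1)` and
`m ^ (k - 1) ≥ 2 ^ (k - 1) ≥ P + 1`. -/
theorem abundant_grid [Finite W] [Nonempty W] (hq : 2 ≤ q) {H : SimpleGraph W}
    (hH : ThreeConnected H) (hT : ¬ H.CliqueFree 3) (a : W) {k P : ℕ} (hk : 1 ≤ k)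
    (hkq : k ≤ q) (hP : (k - 1) * (Nat.card W - 2) + 1 ≤ P) (hP2 : P + 1 ≤ 2 ^ (k - 1))
    (hcount : k * (((H.neighborSet a).ncard - 1) * P) + (q - k) * (Nat.card W - 1) <
      (Nat.card W - 1) * P) : Abundant q H := by
  have h4 := hH.1
  obtain ⟨m, C, a0, hm, hopt⟩ := exists_optCol hT
  obtain ⟨p, rfl⟩ : ∃ p, q = p + k := ⟨q - k, by omega⟩
  rw [Nat.add_sub_cancel] at hcount
  obtain ⟨U, hU, D, N, c, hin, hN⟩ := grid_inner hH (p := p) (k := k) (b := Nat.card W - 1)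
    (s0 := (H.neighborSet a).ncard) (P := P) (t := p * (Nat.card W - 1)) hk (rob_clique a le_rfl)
    (j6_deg hH a) (by
      have h5 : Nat.card W - 1 - 1 = Nat.card W - 2 := by omega
      rw [h5]
      exact hP) hcount
  refine abundant_of_inner (p := p) (κ := Nat.card W - 1) hq hH hopt ?_ (by omega) hin ?_
  · intro j
    have h5 : {x | H.Adj a0 x ∧ C x = j.succ}.ncard ≤ Nat.card W := Set.ncard_le_card _
    omega
  · rw [hN]
    have h5 := rr_ge hH (q := p + k) (by omega) hopt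
    have h6 : p + k - 1 = p + (k - 1) := by omega
    have h7 : P + 1 ≤ m ^ (k - 1) := hP2.trans (Nat.pow_le_pow_left hm _)
    have h8 : 1 ≤ m ^ p := Nat.one_le_pow _ _ (by omega)
    have h9 : m ^ p * ((P + 1) * (Nat.card W - 1)) ≤ m ^ (p + k - 1) * (Nat.card W - 1) := by
      rw [h6, pow_add, mul_assoc]
      exact Nat.mul_le_mul_left _ (Nat.mul_le_mul_right _ h7)
    have h10 : m ^ p * ((P + 1) * (Nat.card W - 1)) =
        m ^ p * ((Nat.card W - 1) * P) + m ^ p * (Nat.card W - 1) := by ring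
    have h11 : 1 ≤ m ^ p * (Nat.card W - 1) := Nat.mul_pos h8 (by omega)
    omega

/-- Grids of cliques, few colours.
PROOF: `d := deg a`, `b := q * (d - 1) + 1`, `P := q * b ≥ (q - 1) * (b - 1) + 1`, `grid_inner` with
`p = 0`, `t = 0`, `rob_clique`, `Inner.nonExt`, `abundant_of_small`; `b * P + 2 ≤ Nat.card W ≤ rr q H`
(`card_le_rr`). -/
theorem abundant_grid' [Finite W] [Nonempty W] (hq : 2 ≤ q) {H : SimpleGraph W}
    (hH : ThreeConnected H) (a : W)
    (hc : q * (q * ((H.neighborSet a).ncard - 1) + 1) ^ 2 + 2 ≤ Nat.card W) :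
    Abundant q H := by
  have h4 := hH.1
  have hd := j6_deg hH a
  obtain ⟨e, he⟩ : ∃ e, e = (H.neighborSet a).ncard - 1 := ⟨_, rfl⟩
  rw [← he] at hc
  obtain ⟨b, hb⟩ : ∃ b, b = q * e + 1 := ⟨_, rfl⟩
  rw [← hb] at hc
  have hb1 : 1 ≤ b := by omega
  have hbb : b ≤ q * b ^ 2 := by
    calc b = 1 * b := (one_mul b).symm
      _ ≤ (q * b) * b := Nat.mul_le_mul_right _ (Nat.mul_pos (by omega) hb1)
      _ = q * b ^ 2 := by ring
  have hq1 : (q - 1) * (b - 1) + 1 ≤ q * b := by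
    obtain ⟨q', rfl⟩ : ∃ q', q = q' + 1 := ⟨q - 1, by omega⟩
    obtain ⟨b', rfl⟩ : ∃ b', b = b' + 1 := ⟨b - 1, by omega⟩
    rw [Nat.add_sub_cancel, Nat.add_sub_cancel]
    nlinarith
  have key : ∃ (U : Type) (_ : Finite U) (D : SimpleGraph U) (N : Set U) (c : Sym2 U → Fin q),
      Inner q 0 H D N c 0 ∧ N.ncard = b * (q * b) := by
    have h := grid_inner hH (p := 0) (k := q) (b := b) (s0 := (H.neighborSet a).ncard) (P := q * b) (t := 0)
      (by omega) (rob_clique a (by omega)) hd hq1 (by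
        rw [← he, Nat.add_zero]
        have h5 : 0 < q * b := Nat.mul_pos (by omega) hb1
        have h6 : q * e < b := by omega
        calc q * (e * (q * b)) = (q * e) * (q * b) := by ring
          _ < b * (q * b) := Nat.mul_lt_mul_of_pos_right h6 h5)
    rwa [Nat.zero_add] at h
  obtain ⟨U, hU, D, N, c, hin, hN⟩ := key
  refine abundant_of_small hq hH hin.nonExt (Or.inl ?_)
  have h5 := card_le_rr (q := q) (by omega) H
  have h6 : b * (q * b) = q * b ^ 2 := by ring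
  rw [hN, h6]
  omega

end Pool.Agent.SQA
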