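import Pool.Agent.SQA.J2
import Pool.Agent.SQA.J4
import Pool.Agent.SQA.N4

/-!
# [SQA-J6c] many colours
-/

namespace Pool.Agent.SQA

open SimpleGraph

variable {W : Type} {q : ℕ}

/-- Many colours.
PROOF: `n` from `rob_hyper`, `s0 := (n - 1) / q + 1` (`n ≤ q * s0`, `q * (s0 - 1) < n`),
`P := q * n`, `grid_inner` with `p = 0`, `k = q`, `b = n`, `t = 0`; `n * P + 2 ≤ q * S ^ 2 + 2 ≤
2 ^ (q - 1) * (Nat.card W - 1) + 1 ≤ rr q H` (`rr_ge`, `exists_optCol`), `S := sizeB ..`;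
`abundant_of_small`. -/
theorem abundant_hyper [Finite W] [Nonempty W] (hq : 2 ≤ q) {H : SimpleGraph W}
    (hH : ThreeConnected H) (hT : ¬ H.CliqueFree 3) (a : W)
    (hc : q * sizeB q (H.neighborSet a).ncard (Nat.card W + 3) ^ 2 ≤ 2 ^ (q - 1)) :
    Abundant q H := by
  have h4 := hH.1
  obtain ⟨m, C, a0, hm, hopt⟩ := exists_optCol hT
  obtain ⟨n, hn1, hnS, hR⟩ := rob_hyper hH hq a
  obtain ⟨s1, hs1⟩ : ∃ s1, s1 = (n - 1) / q := ⟨_, rfl⟩
  have hs2 : q * s1 ≤ n - 1 := by rw [hs1]; exact Nat.mul_div_le _ _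
  have hs3 : n - 1 < q * (s1 + 1) := by
    rw [hs1]
    exact Nat.lt_mul_div_succ _ (by omega)
  have hq1 : (q - 1) * (n - 1) + 1 ≤ q * n := by
    obtain ⟨q', rfl⟩ : ∃ q', q = q' + 1 := ⟨q - 1, by omega⟩
    obtain ⟨n', rfl⟩ : ∃ n', n = n' + 1 := ⟨n - 1, by omega⟩
    rw [Nat.add_sub_cancel, Nat.add_sub_cancel]
    nlinarith
  have key : ∃ (U : Type) (_ : Finite U) (D : SimpleGraph U) (N : Set U) (c : Sym2 U → Fin q),
      Inner q 0 H D N c 0 ∧ N.ncard = n * (q * n) := by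
    have h := grid_inner hH (p := 0) (k := q) (b := n) (s0 := s1 + 1) (P := q * n) (t := 0)
      (by omega) (hR (s1 + 1) (by omega)) (by omega) hq1 (by
        rw [Nat.add_sub_cancel, Nat.add_zero]
        have h5 : 0 < q * n := Nat.mul_pos (by omega) hn1
        have h6 : q * s1 < n := by omega
        calc q * (s1 * (q * n)) = (q * s1) * (q * n) := by ring
          _ < n * (q * n) := Nat.mul_lt_mul_of_pos_right h6 h5)
    rwa [Nat.zero_add] at h
  obtain ⟨U, hU, D, N, c, hin, hN⟩ := key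
  refine abundant_of_small hq hH hin.nonExt (Or.inl ?_)
  have h5 := rr_ge hH (q := q) (by omega) hopt
  have h6 : n * (q * n) ≤ q * sizeB q (H.neighborSet a).ncard (Nat.card W + 3) ^ 2 := by
    calc n * (q * n) = q * n ^ 2 := by ring
      _ ≤ _ := Nat.mul_le_mul_left _ (Nat.pow_le_pow_left hnS 2)
  have h7 : 2 ^ (q - 1) ≤ m ^ (q - 1) := Nat.pow_le_pow_left hm _
  have h8 : 2 ^ (q - 1) * 3 ≤ m ^ (q - 1) * (Nat.card W - 1) := Nat.mul_le_mul h7 (by omega)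
  have h9 : 1 ≤ 2 ^ (q - 1) := Nat.one_le_pow _ _ (by omega)
  rw [hN]
  omega

end Pool.Agent.SQA
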