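import Pool.Agent.SQA.J5
import Pool.Agent.SQA.N4

/-!
# [SQA-J6a] dense graphs
-/

namespace Pool.Agent.SQA

open SimpleGraph

variable {W : Type} {q : ℕ}

theorem j6a_prob [Finite W] {H : SimpleGraph W} (hW : 4 ≤ Nat.card W) (hq : 2 ≤ q) {δ : ℕ}
    (hδ : ∀ w, δ ≤ (H.neighborSet w).ncard)
    (hc : 2 * (q * Nat.card W ^ 3) ^ 2 ≤ 2 ^ δ) : q * Nat.card W ^ 3 < rr 2 H := by
  apply rr_prob (by norm_num) H
  have hE := min_deg_edges H hδ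
  set h := Nat.card W with hh
  set E := H.edgeSet.ncard with hEd
  set N0 := q * h ^ 3 with hN0
  have hpos : 0 < N0 := by
    rw [hN0]
    have : 0 < h ^ 3 := Nat.pow_pos (by omega)
    exact Nat.mul_pos (by omega) this
  apply lt_of_pow_lt_pow_left₀ 2 (Nat.zero_le _)
  have h4 : 4 < 2 ^ h := by
    calc 4 < 2 ^ 4 := by norm_num
      _ ≤ 2 ^ h := Nat.pow_le_pow_right (by norm_num) hW
  calc (N0 ^ h * 2) ^ 2 = (N0 ^ 2) ^ h * 4 := by ring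
    _ < (N0 ^ 2) ^ h * 2 ^ h :=
        Nat.mul_lt_mul_of_pos_left h4 (Nat.pow_pos (Nat.pow_pos hpos))
    _ = (2 * N0 ^ 2) ^ h := by rw [← mul_pow, mul_comm]
    _ ≤ (2 ^ δ) ^ h := Nat.pow_le_pow_left hc h
    _ = 2 ^ (δ * h) := by rw [← pow_mul]
    _ ≤ 2 ^ (2 * E) := Nat.pow_le_pow_right (by norm_num) hE
    _ = (2 ^ E) ^ 2 := by rw [mul_comm, pow_mul]

theorem j6a_arith {h m q : ℕ} (hm : m + 1 ≤ h) (hq : 2 ≤ q) :
    m ^ 2 * (q * (h - 1) + 1) + 1 ≤ q * h ^ 3 := by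
  obtain ⟨k, rfl⟩ := Nat.exists_eq_add_of_le' (show 1 ≤ h by omega)
  have hmk : m ≤ k := by omega
  rw [Nat.add_sub_cancel]
  have h2 : m ^ 2 ≤ k ^ 2 := Nat.pow_le_pow_left hmk 2
  have h3 : m ^ 2 * (q * k + 1) ≤ k ^ 2 * (q * k + 1) := Nat.mul_le_mul_right _ h2
  have h4 : k ^ 2 * (q * k + 1) + 1 ≤ q * (k + 1) ^ 3 := by
    nlinarith [Nat.zero_le (k ^ 2), Nat.zero_le k, Nat.zero_le (q * k ^ 2), Nat.zero_le (q * k),
      Nat.mul_le_mul_right (k ^ 2) hq]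
  omega

/-- Dense graphs.
PROOF: `h := Nat.card W`, `exists_optCol` (`2 ≤ m ≤ h - 1`). `w := q * (h - 1) + 1`, `inner_empty`
(`p = q`, `t = q * (h - 1)`), `abundant_of_inner` with `κ = h - 1`; it remains to show
`m ^ q * w + 2 ≤ rr q H`. By `rr_iter` (`q = 2 + (q - 2)`)
`m ^ (q - 2) * (rr 2 H - 1) + 1 ≤ rr q H`, so it suffices that `m ^ 2 * w + 2 ≤ rr 2 H`. Now
`m ^ 2 * w + 1 ≤ q * h ^ 3` and `q * h ^ 3 < rr 2 H` by `rr_prob`:
`((q * h ^ 3) ^ h * 2) ^ 2 = ((q * h ^ 3) ^ 2) ^ h * 4 < (2 * (q * h ^ 3) ^ 2) ^ h ≤ 2 ^ (δ * h) ≤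
(2 ^ E) ^ 2` (`4 < 2 ^ h` as `h ≥ 4`, `δ * h ≤ 2 * E` by `min_deg_edges`). -/
theorem abundant_dense [Finite W] [Nonempty W] (hq : 2 ≤ q) {H : SimpleGraph W}
    (hH : ThreeConnected H) (hT : ¬ H.CliqueFree 3) {δ : ℕ}
    (hδ : ∀ w, δ ≤ (H.neighborSet w).ncard)
    (hc : 2 * (q * Nat.card W ^ 3) ^ 2 ≤ 2 ^ δ) : Abundant q H := by
  obtain ⟨m, C, a, hm, hopt⟩ := exists_optCol (H := H) hT
  have hmh : m + 1 ≤ Nat.card W := hopt.le_card
  have hW : 4 ≤ Nat.card W := hH.1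
  obtain ⟨c, hin⟩ := inner_empty (q := q) (t := q * (Nat.card W - 1))
    (w := q * (Nat.card W - 1) + 1) (by omega) hH (Nat.lt_succ_self _)
  apply abundant_of_inner hq hH hopt (κ := Nat.card W - 1) _ (le_refl q) hin
  · rw [Set.ncard_univ, Nat.card_fin]
    have h1 := rr_iter hH (q := 2) (by norm_num) hopt (q - 2)
    rw [show 2 + (q - 2) = q by omega] at h1
    have h2 := j6a_prob hW hq hδ hc
    have h3 := j6a_arith hmh hq
    set w := q * (Nat.card W - 1) + 1 with hw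
    have h4 : m ^ 2 * w + 1 ≤ rr 2 H - 1 := by omega
    have h5 : m ^ (q - 2) * (m ^ 2 * w + 1) ≤ m ^ (q - 2) * (rr 2 H - 1) :=
      Nat.mul_le_mul_left _ h4
    have h6 : m ^ (q - 2) * (m ^ 2 * w + 1) = m ^ q * w + m ^ (q - 2) := by
      have : m ^ q = m ^ (q - 2) * m ^ 2 := by
        rw [← pow_add, Nat.sub_add_cancel hq]
      rw [this]
      ring
    have h7 : 1 ≤ m ^ (q - 2) := Nat.one_le_pow _ _ (by omega)
    omega
  · intro j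
    have : {x | H.Adj a x ∧ C x = j.succ}.ncard ≤ Nat.card W := by
      rw [← Set.ncard_univ W]
      exact Set.ncard_le_ncard (Set.subset_univ _) (Set.toFinite _)
    omega

end Pool.Agent.SQA
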