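import Pool.Agent.SQA.B3

/-!
# [SQA-J7b] numerical estimates
-/

namespace Pool.Agent.SQA

theorem j7b_pow (n : ℕ) : 2922 * (n + 61) ^ 6 ≤ 2 ^ (n + 59) := by
  induction n with
  | zero => norm_num
  | succ n ih =>
    have h1 : (n + 1 + 61) ^ 6 ≤ 2 * (n + 61) ^ 6 := by
      have h2 : 10 * (n + 1 + 61) ≤ 11 * (n + 61) := by omega
      have h3 := Nat.pow_le_pow_left h2 6
      rw [mul_pow, mul_pow] at h3
      norm_num at h3
      omega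
    calc 2922 * (n + 1 + 61) ^ 6 ≤ 2922 * (2 * (n + 61) ^ 6) := Nat.mul_le_mul_left _ h1
      _ = 2 * (2922 * (n + 61) ^ 6) := by ring
      _ ≤ 2 * 2 ^ (n + 59) := Nat.mul_le_mul_left _ ih
      _ = 2 ^ (n + 1 + 59) := by ring

/-- PROOF: `L = Nat.clog 2 (q * h)`; `q ≤ 3 * L + 2`, `d ≤ 6 * L`: `q * (q * (d - 1) + 1) ^ 2 + 2 ≤
(3 L + 2) * ((3 L + 2) * 6 L) ^ 2 + 2 ≤ 10 ^ 5 * (L + 1) ^ 5`, and `2 ^ (L - 1) < q * h ≤
(3 L + 3) * h`, so `L` is at most `2 * log2 h + const`: `h ≥ 2 ^ (L - 1) / (3 L + 3)`, which is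
larger than `10 ^ 5 * (L + 1) ^ 5` for `L ≥ L0`, and `L ≥ L0` if `h ≥ 2 ^ L0`. -/
theorem num_few : ∃ h0 : ℕ, ∀ q h d : ℕ, 2 ≤ q → h0 ≤ h → 1 ≤ d →
    q < 3 * Nat.clog 2 (q * h) + 3 → 2 ^ d < 2 * (q * h ^ 3) ^ 2 →
    q * (q * (d - 1) + 1) ^ 2 + 2 ≤ h := by
  refine ⟨2 ^ 60, fun q h d hq hh hd hqL hdL => ?_⟩
  obtain ⟨L, hL⟩ : ∃ L, L = Nat.clog 2 (q * h) := ⟨_, rfl⟩
  rw [← hL] at hqL
  have hh1 : 1 ≤ h := le_trans (by norm_num) hh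
  have hqh : q * h ≤ 2 ^ L := by rw [hL]; exact Nat.le_pow_clog (by norm_num) _
  have hL60 : 60 ≤ L := by
    have h1 : 2 ^ 60 ≤ 2 ^ L := by
      refine hh.trans (le_trans ?_ hqh)
      exact Nat.le_mul_of_pos_left _ (by omega)
    exact (Nat.pow_le_pow_iff_right (by norm_num)).1 h1
  have hL2 : 2 ^ (L - 1) < q * h := by
    have h2 : 1 < q * h := by nlinarith
    rw [hL]
    exact Nat.pow_pred_clog_lt_self (by norm_num) h2
  -- d ≤ 6 L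
  have hd6 : d ≤ 6 * L := by
    have h1 : q * h ^ 3 ≤ (2 ^ L) ^ 3 := by
      refine le_trans ?_ (Nat.pow_le_pow_left hqh 3)
      rw [mul_pow]
      refine Nat.mul_le_mul_right _ ?_
      calc q = q ^ 1 := (pow_one q).symm
        _ ≤ q ^ 3 := Nat.pow_le_pow_right (by omega) (by norm_num)
    have h2 : 2 * (q * h ^ 3) ^ 2 ≤ 2 ^ (6 * L + 1) := by
      calc 2 * (q * h ^ 3) ^ 2 ≤ 2 * ((2 ^ L) ^ 3) ^ 2 := Nat.mul_le_mul_left _ (Nat.pow_le_pow_left h1 2)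
        _ = 2 ^ (6 * L + 1) := by
          rw [← pow_mul, ← pow_mul, pow_succ, mul_comm 2]
          congr 2
          ring
    have h3 : 2 ^ d < 2 ^ (6 * L + 1) := lt_of_lt_of_le hdL h2
    have h4 := (Nat.pow_lt_pow_iff_right (by norm_num)).1 h3
    omega
  obtain ⟨e, he⟩ : ∃ e, e = L + 1 := ⟨_, rfl⟩
  have hq3 : q ≤ 3 * e := by omega
  have hd1 : d - 1 ≤ 6 * e - 1 := by omega
  have h1 : q * (d - 1) + 1 ≤ 18 * e ^ 2 := by
    have h2 : q * (d - 1) ≤ (3 * e) * (6 * e - 1) := Nat.mul_le_mul hq3 hd1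
    obtain ⟨e', he'⟩ : ∃ e', e = e' + 1 := ⟨L, he⟩
    have h3 : 6 * e - 1 = 6 * e' + 5 := by omega
    rw [h3, he'] at h2
    rw [he']
    nlinarith
  have h2 : q * (q * (d - 1) + 1) ^ 2 ≤ 972 * e ^ 5 := by
    calc q * (q * (d - 1) + 1) ^ 2 ≤ (3 * e) * (18 * e ^ 2) ^ 2 :=
          Nat.mul_le_mul hq3 (Nat.pow_le_pow_left h1 2)
      _ = 972 * e ^ 5 := by ring
  have h3 : 1 ≤ e ^ 5 := Nat.one_le_pow _ _ (by omega)
  have h4 : 2922 * e ^ 6 ≤ 2 ^ (L - 1) := by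
    have h5 := j7b_pow (L - 60)
    rw [show L - 60 + 61 = e by omega, show L - 60 + 59 = L - 1 by omega] at h5
    exact h5
  have h5 : q * (974 * e ^ 5) < q * h := by
    refine lt_of_le_of_lt ?_ hL2
    refine le_trans ?_ h4
    calc q * (974 * e ^ 5) ≤ (3 * e) * (974 * e ^ 5) := Nat.mul_le_mul_right _ hq3
      _ = 2922 * e ^ 6 := by ring
  have h6 : 974 * e ^ 5 < h := Nat.lt_of_mul_lt_mul_left h5
  omega

end Pool.Agent.SQA
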