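import Pool.Agent.SQA.B3

/-!
# [SQA-J7c] numerical estimates
-/

namespace Pool.Agent.SQA

theorem j7c_growth : ∃ N : ℕ, ∀ l ≥ N, 2000000 * (l + 10) ^ 5 ≤ 2 ^ (l - 1) := by
  have h1 := tendsto_pow_const_div_const_pow_of_one_lt 5 (one_lt_two : (1 : ℝ) < 2)
  have hpos : (0 : ℝ) < 1 / (2000000 * 2 ^ 11) := by positivity
  obtain ⟨N, hN⟩ := Filter.eventually_atTop.1 (h1.eventually (gt_mem_nhds hpos))
  refine ⟨max N 1, fun l hl => ?_⟩
  have hl1 : 1 ≤ l := (le_max_right _ _).trans hl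
  have hlN : N ≤ l + 10 := ((le_max_left _ _).trans hl).trans (by omega)
  have h2 := hN (l + 10) hlN
  rw [div_lt_div_iff₀ (by positivity) (by positivity)] at h2
  have h3 : (2 : ℝ) ^ (l + 10) = 2 ^ (l - 1) * 2 ^ 11 := by
    rw [← pow_add]
    congr 1
    omega
  rw [h3] at h2
  have h4 : (2000000 * (l + 10) ^ 5 : ℝ) ≤ 2 ^ (l - 1) := by
    push_cast at h2
    have h5 : (0 : ℝ) < 2 ^ 11 := by positivity
    nlinarith
  exact_mod_cast h4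

theorem j7c_sq : ∀ L : ℕ, 40 * (L + 1) ^ 2 ≤ 2 ^ (L / 2 + 9)
  | 0 => by norm_num
  | 1 => by norm_num
  | 2 => by norm_num
  | 3 => by norm_num
  | 4 => by norm_num
  | 5 => by norm_num
  | L + 6 => by
    have ih := j7c_sq (L + 4)
    have e : (L + 6) / 2 + 9 = ((L + 4) / 2 + 9) + 1 := by omega
    have h2 : 2 ^ ((L + 4) / 2 + 9 + 1) = 2 * 2 ^ ((L + 4) / 2 + 9) := by
      rw [pow_succ, mul_comm]
    have h3 : 40 * (L + 6 + 1) ^ 2 ≤ 2 * (40 * (L + 4 + 1) ^ 2) := by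
      have e1 : 2 * (40 * (L + 4 + 1) ^ 2) =
          40 * (L + 6 + 1) ^ 2 + (40 * L ^ 2 + 240 * L + 40) := by ring
      omega
    rw [e, h2]
    exact h3.trans (Nat.mul_le_mul_left 2 ih)

/-- The bound of the base of `sizeB`. -/
theorem j7c_base {q d g l : ℕ} (hq : q ≤ 2 ^ l) :
    q ^ d * (1 + q + 2 * g * d ^ (2 * g) * (g + 3)) + 1 ≤
      2 ^ (l * d + (l + 2 * g + 2 * g * d + 4) + 3) := by
  set X := l + 2 * g + 2 * g * d + 4 with hX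
  have h1 : q ^ d ≤ 2 ^ (l * d) := by
    rw [pow_mul]
    exact Nat.pow_le_pow_left hq d
  have h2 : 1 ≤ 2 ^ X := Nat.one_le_two_pow
  have h3 : q ≤ 2 ^ X := hq.trans (Nat.pow_le_pow_right (by norm_num) (by omega))
  have h4 : 2 * g * d ^ (2 * g) * (g + 3) ≤ 2 ^ X := by
    have a1 : g ≤ 2 ^ g := Nat.lt_two_pow_self.le
    have a2 : d ^ (2 * g) ≤ 2 ^ (d * (2 * g)) := by
      calc d ^ (2 * g) ≤ (2 ^ d) ^ (2 * g) := Nat.pow_le_pow_left Nat.lt_two_pow_self.le _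
        _ = 2 ^ (d * (2 * g)) := (pow_mul _ _ _).symm
    have a3 : g + 3 ≤ 2 ^ (g + 3) := Nat.lt_two_pow_self.le
    calc 2 * g * d ^ (2 * g) * (g + 3) ≤ 2 * 2 ^ g * 2 ^ (d * (2 * g)) * 2 ^ (g + 3) :=
          Nat.mul_le_mul (Nat.mul_le_mul (Nat.mul_le_mul_left 2 a1) a2) a3
      _ = 2 ^ (1 + g + d * (2 * g) + (g + 3)) := by
          rw [pow_add 2 (1 + g + d * (2 * g)) (g + 3), pow_add 2 (1 + g) (d * (2 * g)),
            pow_add 2 1 g, pow_one]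
      _ ≤ 2 ^ X := Nat.pow_le_pow_right (by norm_num) (by
          have : d * (2 * g) = 2 * g * d := by ring
          omega)
  have h5 : 1 + q + 2 * g * d ^ (2 * g) * (g + 3) ≤ 2 ^ (X + 2) := by
    have : 2 ^ (X + 2) = 4 * 2 ^ X := by rw [pow_add]; ring
    omega
  have h6 : q ^ d * (1 + q + 2 * g * d ^ (2 * g) * (g + 3)) ≤ 2 ^ (l * d + X + 2) := by
    calc _ ≤ 2 ^ (l * d) * 2 ^ (X + 2) := Nat.mul_le_mul h1 h5
      _ = 2 ^ (l * d + X + 2) := by rw [← pow_add, Nat.add_assoc (l * d) X 2]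
  have h7 : 1 ≤ 2 ^ (l * d + X + 2) := Nat.one_le_two_pow
  have h8 : 2 ^ (l * d + X + 3) = 2 * 2 ^ (l * d + X + 2) := by
    rw [show l * d + X + 3 = (l * d + X + 2) + 1 by omega, pow_succ, mul_comm]
  omega

theorem j7c_poly {l d h M : ℕ} (hM : M = l + 10) (hd : d ≤ 12 * M) (hh : h ≤ 160 * M ^ 2) :
    l + 2 * ((l * d + (l + 2 * (h + 3) + 2 * (h + 3) * d + 4) + 3) * (h + 3 + 1)) ≤
      2000000 * M ^ 5 := by
  have hM10 : 10 ≤ M := by omega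
  have hlM : l ≤ M := by omega
  have m2 : 10 * M ≤ M ^ 2 := by nlinarith
  have m3 : 10 * M ^ 2 ≤ M ^ 3 := by
    calc 10 * M ^ 2 ≤ M * M ^ 2 := Nat.mul_le_mul_right _ hM10
      _ = M ^ 3 := by ring
  have hg : h + 3 ≤ 161 * M ^ 2 := by omega
  have a1 : l * d ≤ 12 * M ^ 2 := by
    calc l * d ≤ M * (12 * M) := Nat.mul_le_mul hlM hd
      _ = 12 * M ^ 2 := by ring
  have a2 : 2 * (h + 3) * d ≤ 3864 * M ^ 3 := by
    calc 2 * (h + 3) * d ≤ 2 * (161 * M ^ 2) * (12 * M) :=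
          Nat.mul_le_mul (Nat.mul_le_mul_left 2 hg) hd
      _ = 3864 * M ^ 3 := by ring
  have hY : l * d + (l + 2 * (h + 3) + 2 * (h + 3) * d + 4) + 3 ≤ 4000 * M ^ 3 := by omega
  have hg1 : h + 3 + 1 ≤ 162 * M ^ 2 := by omega
  have hYg : (l * d + (l + 2 * (h + 3) + 2 * (h + 3) * d + 4) + 3) * (h + 3 + 1) ≤
      648000 * M ^ 5 := by
    calc _ ≤ (4000 * M ^ 3) * (162 * M ^ 2) := Nat.mul_le_mul hY hg1
      _ = 648000 * M ^ 5 := by ring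
  have hl5 : l ≤ M ^ 5 := hlM.trans (by
    calc M = M ^ 1 := (pow_one M).symm
      _ ≤ M ^ 5 := Nat.pow_le_pow_right (by omega) (by norm_num))
  omega

/-- PROOF: with `L = Nat.clog 2 (q * h)`, `h < 40 * (L + 1) ^ 2`, `d ≤ 6 * L`:
`2 ^ (L - 1) < q * h < 40 * q * (L + 1) ^ 2`, so `L ≤ 2 * log2 q + const` and, for `q ≥ q0`,
`log2 (q * sizeB q d (h + 3) ^ 2)` is at most a polynomial in `L`, hence `≤ q - 1`. In detail
`sizeB q d g ≤ (q ^ d * (4 * q * (g + 3) ^ 2 * d ^ (2 * g)) + 1) ^ (g + 1)`, `g = h + 3`,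
`log2 ≤ (h + 4) * (d L + 2 + L + 2 log2 (h + 6) + 2 (h + 3) log2 d + 1) ≤ C * (L + 1) ^ 5`. -/
theorem num_many : ∃ q0 : ℕ, ∀ q h d : ℕ, q0 ≤ q → 4 ≤ h → 1 ≤ d →
    h < 40 * (Nat.clog 2 (q * h) + 1) ^ 2 → 2 ^ d < 2 * (q * h ^ 3) ^ 2 →
    q * sizeB q d (h + 3) ^ 2 ≤ 2 ^ (q - 1) := by
  obtain ⟨N, hN⟩ := j7c_growth
  refine ⟨2 ^ N + 2, fun q h d hq0 h4 hd hh hd2 => ?_⟩
  have h2N : 1 ≤ 2 ^ N := Nat.one_le_two_pow
  have hq1 : q ≤ 2 ^ Nat.clog 2 q := Nat.le_pow_clog one_lt_two q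
  have hq2 : 2 ^ (Nat.clog 2 q).pred < q := Nat.pow_pred_clog_lt_self one_lt_two (by omega)
  have hL1 : q * h ≤ 2 ^ Nat.clog 2 (q * h) := Nat.le_pow_clog one_lt_two _
  generalize hl : Nat.clog 2 q = l at hq1 hq2
  generalize hLe : Nat.clog 2 (q * h) = L at hh hL1
  have hlN : N ≤ l := by
    have h1 : 2 ^ N ≤ 2 ^ l := by omega
    exact (Nat.pow_le_pow_iff_right (by norm_num)).1 h1
  -- the bound of `L`
  have hLl : L ≤ l + (L / 2 + 9) := by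
    rw [← hLe]
    apply Nat.clog_le_of_le_pow
    rw [hLe, pow_add]
    exact Nat.mul_le_mul hq1 (hh.le.trans (j7c_sq L))
  have hLl2 : L ≤ 2 * l + 18 := by omega
  obtain ⟨M, hM⟩ : ∃ M, M = l + 10 := ⟨_, rfl⟩
  have hLM : L + 1 ≤ 2 * M := by omega
  have hhM : h ≤ 160 * M ^ 2 := by
    have h1 : (L + 1) ^ 2 ≤ (2 * M) ^ 2 := Nat.pow_le_pow_left hLM 2
    have h2 : (2 * M) ^ 2 = 4 * M ^ 2 := by ring
    omega
  have hdM : d ≤ 12 * M := by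
    have h1 : q * h ^ 3 ≤ (q * h) ^ 3 := by
      have h2 : q ≤ q ^ 3 := Nat.le_self_pow (by norm_num) q
      calc q * h ^ 3 ≤ q ^ 3 * h ^ 3 := Nat.mul_le_mul_right _ h2
        _ = (q * h) ^ 3 := by ring
    have h3 : (q * h) ^ 3 ≤ (2 ^ L) ^ 3 := Nat.pow_le_pow_left hL1 3
    have h4 : 2 ^ d < 2 ^ (6 * L + 1) := by
      calc 2 ^ d < 2 * (q * h ^ 3) ^ 2 := hd2
        _ ≤ 2 * ((2 ^ L) ^ 3) ^ 2 :=
            Nat.mul_le_mul_left 2 (Nat.pow_le_pow_left (h1.trans h3) 2)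
        _ = 2 ^ (6 * L + 1) := by
            rw [← pow_mul, ← pow_mul, pow_succ, mul_comm 2]
            congr 2
            ring
    have h5 := (Nat.pow_lt_pow_iff_right (by norm_num)).1 h4
    omega
  have hbase := j7c_base (q := q) (d := d) (g := h + 3) (l := l) hq1
  have hpoly := j7c_poly hM hdM hhM
  have hgrow := hN l hlN
  rw [← hM] at hgrow
  have hsize : sizeB q d (h + 3) ≤
      2 ^ ((l * d + (l + 2 * (h + 3) + 2 * (h + 3) * d + 4) + 3) * (h + 3 + 1)) := by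
    rw [pow_mul]
    exact Nat.pow_le_pow_left hbase _
  have hexp : l + 2 * ((l * d + (l + 2 * (h + 3) + 2 * (h + 3) * d + 4) + 3) * (h + 3 + 1)) ≤
      q - 1 := by
    have e1 : (Nat.clog 2 q).pred = l - 1 := by rw [hl]; rfl
    have e2 : l.pred = l - 1 := rfl
    rw [e2] at hq2
    omega
  calc q * sizeB q d (h + 3) ^ 2 ≤ 2 ^ l *
        (2 ^ ((l * d + (l + 2 * (h + 3) + 2 * (h + 3) * d + 4) + 3) * (h + 3 + 1))) ^ 2 :=
        Nat.mul_le_mul hq1 (Nat.pow_le_pow_left hsize 2)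
    _ = 2 ^ (l + 2 * ((l * d + (l + 2 * (h + 3) + 2 * (h + 3) * d + 4) + 3) * (h + 3 + 1))) := by
        rw [← pow_mul, ← pow_add]
        congr 1
        ring
    _ ≤ 2 ^ (q - 1) := Nat.pow_le_pow_right (by norm_num) hexp

end Pool.Agent.SQA
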