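import Pool.Agent.SQA.B3

/-!
# [SQA-J7a] numerical estimates
-/

namespace Pool.Agent.SQA

private theorem j7a_lin (L : ℕ) : 3 * L + 2 ≤ 2 ^ (2 * L + 1) := by
  induction L with
  | zero => norm_num
  | succ L ih =>
    have e : 2 * (L + 1) + 1 = (2 * L + 1) + 2 := by ring
    rw [e, pow_add]
    omega

private theorem j7a_quad (m : ℕ) (hm : 16 ≤ m) : 160 * m ^ 2 ≤ 2 ^ m := by
  induction m, hm using Nat.le_induction with
  | base => norm_num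
  | succ m hm ih =>
    rw [pow_succ 2 m]
    nlinarith

/-- PROOF: `L := Nat.clog 2 (q * h)`, `q * h ≤ 2 ^ L`; `d ≤ 6 * L` from `hd`:
`2 ^ d < 2 * (q * h ^ 3) ^ 2 ≤ 2 * (2 ^ L) ^ 6`. Let `k := 3 * L + 3 ≤ q`, `P := 2 ^ (k - 1) - 1`. As
`h ≤ 2 ^ L`: `(k - 1) * (h - 2) + 1 ≤ (3 L + 2) * 2 ^ L ≤ 2 ^ (3 L + 2) - 1`. As
`k * (d - 1) ≤ (3 L + 3) * 6 L ≤ (h - 1) / 2` by `hh`, it suffices that
`2 * q < P`: `2 * 2 ^ L < 2 ^ (3 L + 2) - 1`. -/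
theorem num_grid {q h d L : ℕ} (hq : 2 ≤ q) (h4 : 4 ≤ h) (hd3 : 1 ≤ d)
    (hL : q * h ≤ 2 ^ L) (hh : 40 * (L + 1) ^ 2 ≤ h) (hk : 3 * L + 3 ≤ q)
    (hd : 2 ^ d < 2 * (q * h ^ 3) ^ 2) :
    ∃ k P, 1 ≤ k ∧ k ≤ q ∧ (k - 1) * (h - 2) + 1 ≤ P ∧ P + 1 ≤ 2 ^ (k - 1) ∧
      k * ((d - 1) * P) + (q - k) * (h - 1) < (h - 1) * P := by
  obtain ⟨A, hA⟩ : ∃ A, A = 2 ^ L := ⟨_, rfl⟩
  obtain ⟨T, hT⟩ : ∃ T, T = 2 ^ (3 * L + 2) := ⟨_, rfl⟩
  have hAp : 1 ≤ A := by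
    rw [hA]
    exact Nat.one_le_two_pow
  have hTA : T = 4 * A ^ 3 := by
    rw [hT, hA, pow_add, ← pow_mul, mul_comm L 3]
    ring
  rw [← hA] at hL
  have hhA : h ≤ A := le_trans (Nat.le_mul_of_pos_left h (by omega)) hL
  have hqA : q ≤ A := le_trans (Nat.le_mul_of_pos_right q (by omega)) hL
  have hd6 : d ≤ 6 * L := by
    have h1 : (q * h ^ 3) ^ 2 ≤ (q * h) ^ 6 := by
      have e1 : (q * h ^ 3) ^ 2 = q ^ 2 * h ^ 6 := by ring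
      have e2 : (q * h) ^ 6 = q ^ 6 * h ^ 6 := by ring
      rw [e1, e2]
      exact Nat.mul_le_mul_right _ (Nat.pow_le_pow_right (by omega) (by norm_num))
    have h2 : (q * h) ^ 6 ≤ 2 ^ (6 * L) := by
      have e1 : 2 ^ (6 * L) = A ^ 6 := by
        rw [hA, ← pow_mul, mul_comm L 6]
      rw [e1]
      exact Nat.pow_le_pow_left hL 6
    have h3 : 2 ^ d < 2 ^ (6 * L + 1) := by
      rw [pow_succ]
      omega
    have h4 := (Nat.pow_lt_pow_iff_right (by norm_num : 1 < 2)).mp h3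
    omega
  have hlin : (3 * L + 2) * A ≤ 2 * A ^ 3 := by
    have h1 := j7a_lin L
    have e1 : 2 ^ (2 * L + 1) = 2 * A ^ 2 := by
      rw [hA, ← pow_mul, mul_comm L 2, pow_succ]
      ring
    rw [e1] at h1
    calc (3 * L + 2) * A ≤ (2 * A ^ 2) * A := Nat.mul_le_mul_right _ h1
      _ = 2 * A ^ 3 := by ring
  have hA3 : A ≤ A ^ 3 := Nat.le_self_pow (by norm_num) A
  have hk1 : 3 * L + 3 - 1 = 3 * L + 2 := by omega
  refine ⟨3 * L + 3, T - 1, by omega, hk, ?_, ?_, ?_⟩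
  · rw [hk1]
    have h1 : (3 * L + 2) * (h - 2) + 2 ≤ (3 * L + 2) * h := by
      obtain ⟨g, rfl⟩ : ∃ g, h = g + 2 := ⟨h - 2, by omega⟩
      have e1 : g + 2 - 2 = g := by omega
      rw [e1]
      nlinarith
    have h2 : (3 * L + 2) * h ≤ (3 * L + 2) * A := Nat.mul_le_mul_left _ hhA
    have h3 : 1 ≤ A ^ 3 := le_trans hAp hA3
    omega
  · rw [hk1, ← hT]
    have h3 : 1 ≤ A ^ 3 := le_trans hAp hA3
    omega
  · have h3 : 1 ≤ A ^ 3 := le_trans hAp hA3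
    obtain ⟨P, hP⟩ : ∃ P, P = T - 1 := ⟨_, rfl⟩
    have hP2 : 2 * q < P := by omega
    rw [← hP]
    have h4 : 2 * ((3 * L + 3) * (d - 1)) ≤ h - 1 := by
      have h5 : (3 * L + 3) * (d - 1) ≤ (3 * L + 3) * (6 * L) :=
        Nat.mul_le_mul_left _ (by omega)
      have h6 : (3 * L + 3) * (6 * L) ≤ 18 * (L + 1) ^ 2 := by nlinarith
      have h7 : 1 ≤ (L + 1) ^ 2 := Nat.one_le_pow _ _ (by omega)
      omega
    have h5 : 2 * ((3 * L + 3) * ((d - 1) * P)) ≤ (h - 1) * P := by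
      calc 2 * ((3 * L + 3) * ((d - 1) * P)) = 2 * ((3 * L + 3) * (d - 1)) * P := by ring
        _ ≤ (h - 1) * P := Nat.mul_le_mul_right _ h4
    have h6 : 2 * ((q - (3 * L + 3)) * (h - 1)) < (h - 1) * P := by
      calc 2 * ((q - (3 * L + 3)) * (h - 1)) = (h - 1) * (2 * (q - (3 * L + 3))) := by ring
        _ < (h - 1) * P := Nat.mul_lt_mul_of_pos_left (by omega) (by omega)
    omega

/-- PROOF: `Nat.clog 2 (q * h) ≤ log2 q0 + log2 h + 2`, so `40 * (clog + 1) ^ 2 ≤ h` for large `h`. -/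
theorem num_clog (q0 : ℕ) : ∃ h0 : ℕ, ∀ q h : ℕ, q < q0 → h0 ≤ h →
    40 * (Nat.clog 2 (q * h) + 1) ^ 2 ≤ h := by
  refine ⟨2 ^ (q0 + 20), fun q h hq hh => ?_⟩
  have hh0 : h ≠ 0 := by
    have h1 : 0 < 2 ^ (q0 + 20) := Nat.two_pow_pos _
    omega
  obtain ⟨m, hm⟩ : ∃ m, m = Nat.log 2 h := ⟨_, rfl⟩
  have hm1 : q0 + 20 ≤ m := by
    rw [hm]
    exact Nat.le_log_of_pow_le (by norm_num) hh
  have hm2 : 2 ^ m ≤ h := by
    rw [hm]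
    exact Nat.pow_log_le_self 2 hh0
  have hm3 : h < 2 ^ (m + 1) := by
    rw [hm]
    exact Nat.lt_pow_succ_log_self (by norm_num) h
  have hclog : Nat.clog 2 (q * h) ≤ q0 + (m + 1) := by
    apply Nat.clog_le_of_le_pow
    rw [pow_add]
    have h1 : q ≤ 2 ^ q0 := le_trans hq.le (Nat.lt_two_pow_self).le
    exact Nat.mul_le_mul h1 hm3.le
  have h1 : 40 * (Nat.clog 2 (q * h) + 1) ^ 2 ≤ 160 * m ^ 2 := by
    have h2 : Nat.clog 2 (q * h) + 1 ≤ 2 * m := by omega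
    have h3 : (Nat.clog 2 (q * h) + 1) ^ 2 ≤ (2 * m) ^ 2 := Nat.pow_le_pow_left h2 2
    have e : (2 * m) ^ 2 = 4 * m ^ 2 := by ring
    omega
  exact le_trans h1 (le_trans (j7a_quad m (by omega)) hm2)

end Pool.Agent.SQA
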