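import Pool.Agent.SQA.Top
import Pool.Agent.SQA.N4

/-!
# [SQA] the final theorem
-/

namespace Pool.Agent.SQA

open SimpleGraph

theorem main : ∃ C0 : ℕ, ∀ (W : Type) [Finite W] (q : ℕ), 2 ≤ q →
    ∀ H : SimpleGraph W, ThreeConnected H →
    (q = 2 ∨ H.CliqueFree 3 ∨ C0 ≤ q ∨ C0 ≤ Nat.card W ∨
      (∀ w, 2 * (q * Nat.card W ^ 3) ^ 2 ≤ 2 ^ (H.neighborSet w).ncard) ∨
      ∃ (b : W) (κ : ℕ),
        (∀ (x : W) (I : Set W), (∀ y ∈ I, H.Adj x y) → (∀ y ∈ I, ∀ z ∈ I, ¬ H.Adj y z) →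
          I.ncard ≤ κ) ∧
        (H.neighborSet b).ncard + (q - 1) * (κ - 1) + 2 ≤ Nat.card W) →
    Abundant q H := by
  obtain ⟨C0, hC0⟩ := large
  refine ⟨C0, ?_⟩
  intro W _ q hq H hH hcl
  have : Nonempty W := by
    by_contra h
    rw [not_nonempty_iff] at h
    have := hH.1
    simp at this
  by_cases hT : H.CliqueFree 3
  · exact abundant_of_not_allExt hq hH (not_allExt_of_cliqueFree (by omega) hH hT)
  rcases hcl with rfl | h | h | h | h | ⟨b, κ, h1, h2⟩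
  · exact abundant_two hH hT
  · exact absurd h hT
  · exact hC0 W q hq H hH hT (Or.inl h)
  · exact hC0 W q hq H hH hT (Or.inr h)
  · obtain ⟨a, ha⟩ := Finite.exists_min (fun w : W => (H.neighborSet w).ncard)
    exact abundant_dense hq hH hT (δ := (H.neighborSet a).ncard) ha (h a)
  · exact abundant_sparse hq hH hT b κ h1 h2

end Pool.Agent.SQA
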