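import Pool.Agent.SQA.Q0
import Pool.Agent.SQA.A2

/-!
# [SQA-R1] two colours: the optimal proper colouring
-/

namespace Pool.Agent.SQA

open SimpleGraph

variable {W : Type}

/-- `C` is a proper colouring of `H` with `m + 1` colours whose class `0` is as small as possible
among all proper colourings with `m + 1` colours, and contains `a`. -/
structure OptCol (H : SimpleGraph W) (m : ℕ) (C : W → Fin (m + 1)) (a : W) : Prop where
  proper : ∀ x y, H.Adj x y → C x ≠ C y
  zero : C a = 0
  min : ∀ C' : W → Fin (m + 1), (∀ x y, H.Adj x y → C' x ≠ C' y) →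
    {w | C w = 0}.ncard ≤ {w | C' w = 0}.ncard

/-- PROOF: let `m + 1` be the least number of colours of a proper colouring of `H`
(`Nat.find`; there is one with `Nat.card W` colours, and `m + 1 ≥ 1` since `W` is nonempty);
among these colourings take one with class `0` minimal. Class `0` is not empty: otherwise
`Fin.pred` gives a proper colouring with `m` colours. `3 ≤ m + 1`: a proper colouring is injective
on a triangle. -/
theorem exists_optCol [Finite W] [Nonempty W] {H : SimpleGraph W} (hT : ¬ H.CliqueFree 3) :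
    ∃ m C a, 2 ≤ m ∧ OptCol H m C a := by
  classical
  have : Fintype W := Fintype.ofFinite W
  -- the least number of colours
  have hex : ∃ k, ∃ C : W → Fin k, ∀ x y, H.Adj x y → C x ≠ C y :=
    ⟨Fintype.card W, Fintype.equivFin W, fun x y h he => h.ne ((Fintype.equivFin W).injective he)⟩
  obtain ⟨k, hk, hmin⟩ : ∃ k, (∃ C : W → Fin k, ∀ x y, H.Adj x y → C x ≠ C y) ∧
      ∀ k', k' < k → ¬ ∃ C : W → Fin k', ∀ x y, H.Adj x y → C x ≠ C y :=
    ⟨Nat.find hex, Nat.find_spec hex, fun k' h => Nat.find_min hex h⟩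
  obtain ⟨C0, hC0⟩ := hk
  obtain ⟨w0⟩ := ‹Nonempty W›
  obtain ⟨m, rfl⟩ : ∃ m, k = m + 1 := ⟨k - 1, by have := (C0 w0).2; omega⟩
  -- among the colourings with `m + 1` colours one with minimal class `0`
  obtain ⟨C, hC, hCmin⟩ : ∃ C : W → Fin (m + 1), (∀ x y, H.Adj x y → C x ≠ C y) ∧
      ∀ C' : W → Fin (m + 1), (∀ x y, H.Adj x y → C' x ≠ C' y) →
      {w | C w = 0}.ncard ≤ {w | C' w = 0}.ncard := by
    have hex2 : ∃ n, ∃ C : W → Fin (m + 1), (∀ x y, H.Adj x y → C x ≠ C y) ∧
        {w | C w = 0}.ncard = n := ⟨_, C0, hC0, rfl⟩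
    obtain ⟨C, hC, hn⟩ := Nat.find_spec hex2
    refine ⟨C, hC, fun C' hC' => ?_⟩
    rw [hn]
    exact Nat.find_min' hex2 ⟨C', hC', rfl⟩
  -- class `0` is not empty
  obtain ⟨a, ha⟩ : ∃ a, C a = 0 := by
    by_contra hno
    have hno : ∀ a, C a ≠ 0 := fun a h => hno ⟨a, h⟩
    exact hmin m (by omega) ⟨fun w => (C w).pred (hno w), fun x y h he => hC x y h
      (Fin.pred_inj.1 he)⟩
  refine ⟨m, C, a, ?_, ⟨hC, ha, hCmin⟩⟩
  -- the triangle
  have h3 : ∃ s, H.IsNClique 3 s := by
    by_contra hno
    exact hT (fun s hs => hno ⟨s, hs⟩)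
  obtain ⟨s, hs⟩ := h3
  have h4 : s.card ≤ (Finset.univ : Finset (Fin (m + 1))).card := by
    refine Finset.card_le_card_of_injOn C (fun _ _ => Finset.mem_coe.2 (Finset.mem_univ _)) ?_
    intro x hx y hy hxy
    by_contra hne
    exact hC x y (hs.1 hx hy hne) hxy
  rw [hs.2, Finset.card_univ, Fintype.card_fin] at h4
  omega

/-- PROOF: otherwise recolour `a` with `j` (`Function.update C a j`): a proper colouring with a
smaller class `0`. -/
theorem OptCol.nbr [Finite W] {H : SimpleGraph W} {m : ℕ} {C : W → Fin (m + 1)} {a : W}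
    (h : OptCol H m C a) (j : Fin (m + 1)) (hj : j ≠ 0) : ∃ w, H.Adj a w ∧ C w = j := by
  classical
  by_contra hno
  have hno : ∀ w, H.Adj a w → C w ≠ j := fun w h1 h2 => hno ⟨w, h1, h2⟩
  have h1 := h.min (Function.update C a j) (by
    intro x y hxy
    by_cases hx : x = a
    · have hy : y ≠ a := by
        rintro rfl
        exact hxy.ne hx
      subst hx
      rw [Function.update_self, Function.update_of_ne hy]
      exact (hno y hxy).symm
    · by_cases hy : y = a
      · subst hy
        rw [Function.update_self, Function.update_of_ne hx]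
        exact hno x hxy.symm
      · rw [Function.update_of_ne hx, Function.update_of_ne hy]
        exact h.proper x y hxy)
  have h2 : {w | Function.update C a j w = 0} ⊂ {w | C w = 0} := by
    refine ⟨?_, ?_⟩
    · intro w hw
      change Function.update C a j w = 0 at hw
      by_cases hwa : w = a
      · subst hwa
        rw [Function.update_self] at hw
        exact absurd hw hj
      · rw [Function.update_of_ne hwa] at hw
        exact hw
    · intro hsub
      have h3 : Function.update C a j a = 0 := hsub h.zero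
      rw [Function.update_self] at h3
      exact hj h3
  have h3 := Set.ncard_lt_ncard h2 (Set.toFinite _)
  omega

/-- PROOF: double counting: `∑ j, ({w | H.Adj a w ∧ C w = j}).ncard = deg a`; the term `j = 0`
is `0` as `C a = 0`. -/
theorem OptCol.sum_nbr [Finite W] {H : SimpleGraph W} {m : ℕ} {C : W → Fin (m + 1)} {a : W}
    (h : OptCol H m C a) :
    ∑ j : Fin m, {w | H.Adj a w ∧ C w = j.succ}.ncard = (H.neighborSet a).ncard := by
  classical
  have : Fintype W := Fintype.ofFinite W
  have e1 : ∀ j : Fin (m + 1), {w | H.Adj a w ∧ C w = j}.ncard =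
      ((Finset.univ.filter (fun w => H.Adj a w)).filter (fun w => C w = j)).card := by
    intro j
    rw [← Set.ncard_coe_finset]
    congr 1
    ext w
    simp
  have e2 : (H.neighborSet a).ncard = (Finset.univ.filter (fun w => H.Adj a w)).card := by
    rw [← Set.ncard_coe_finset]
    congr 1
    ext w
    simp
  have e3 := Finset.card_eq_sum_card_fiberwise (s := Finset.univ.filter (fun w => H.Adj a w))
    (t := (Finset.univ : Finset (Fin (m + 1)))) (f := C) (fun _ _ => Finset.mem_coe.2 (Finset.mem_univ _))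
  rw [e2, e3, Fin.sum_univ_succ]
  have e4 : ((Finset.univ.filter (fun w => H.Adj a w)).filter (fun w => C w = 0)).card = 0 := by
    rw [Finset.card_eq_zero, Finset.filter_eq_empty_iff]
    intro w hw hw0
    rw [Finset.mem_filter] at hw
    exact h.proper a w hw.2 (h.zero.trans hw0.symm)
  rw [e4, zero_add]
  exact Finset.sum_congr rfl fun j _ => e1 _

/-- the neighbours of a vertex are outside of its class -/
theorem r1_class [Finite W] {H : SimpleGraph W} {m : ℕ} {C : W → Fin (m + 1)} {a : W}
    (h : OptCol H m C a) (j : Fin m) (b : W) (hb : C b = j.succ) :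
    (H.neighborSet b).ncard + {w | C w = j.succ}.ncard ≤ Nat.card W := by
  have h1 : (H.neighborSet b).ncard ≤ {w | C w = j.succ}ᶜ.ncard := by
    refine Set.ncard_le_ncard ?_ (Set.toFinite _)
    intro w hw hw'
    exact h.proper b w hw (hb.trans hw'.symm)
  have h2 := Set.ncard_add_ncard_compl {w | C w = j.succ}
  omega

/-- PROOF: there is `b` in class `j.succ` (`nbr`); its neighbours are outside of its class, so
`δ ≤ deg b ≤ Nat.card W - {w | C w = j.succ}.ncard` and the class contains the neighbours of `a`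
in it. -/
theorem OptCol.deg_le [Finite W] {H : SimpleGraph W} {m : ℕ} {C : W → Fin (m + 1)} {a : W}
    (h : OptCol H m C a) {δ : ℕ} (hδ : ∀ w, δ ≤ (H.neighborSet w).ncard) (j : Fin m) :
    δ + {w | C w = j.succ}.ncard ≤ Nat.card W ∧
      {w | H.Adj a w ∧ C w = j.succ}.ncard ≤ {w | C w = j.succ}.ncard := by
  refine ⟨?_, Set.ncard_le_ncard (fun w hw => hw.2) (Set.toFinite _)⟩
  obtain ⟨b, -, hb⟩ := h.nbr j.succ (Fin.succ_ne_zero j)
  have h1 := r1_class h j b hb
  have h2 := hδ b
  omega

/-- The arithmetic. `h := Nat.card W`, `s := {w | C w = 0}.ncard ≥ 1`, `n j := {w | C w = j}.ncard`.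
PROOF: `∑ j, n j.succ = h - s`; `deg_le` summed over `j : Fin m`: `m * δ ≤ m * h - (h - s)`;
`deg a ≤ h - s` (`a` has no neighbour in its class). So
`m * (δ - 1) + deg a ≤ m * (h - 1) - (h - s) + (h - s) = m * (h - 1)`. If `s ≥ 2` the first
alternative holds; if `s = 1` and one of the inequalities is strict, too. Otherwise `s = 1`,
`deg a = h - 1`, `δ + n j.succ = h` for all `j`: `p := h - δ`; for `C x ≠ C y`: if `x = a` or
`y = a` use `deg a = h - 1`; else `x` is in a class `j.succ` and all its at least
`δ = h - n j.succ` neighbours are outside of its class, so it is adjacent to everything outside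
of its class. (`δ ≥ 1` is needed for `δ - 1`; it follows from `h1`.) -/
theorem OptCol.arith [Finite W] {H : SimpleGraph W} {m : ℕ} (hm : 2 ≤ m) {C : W → Fin (m + 1)}
    {a : W} (h : OptCol H m C a) {δ : ℕ} (hδ : ∀ w, δ ≤ (H.neighborSet w).ncard) (h1 : 1 ≤ δ) :
    m * (δ - 1) + (H.neighborSet a).ncard + 2 ≤
        m * (Nat.card W - 1) + {w | C w = 0}.ncard ∨
      (m * (δ - 1) + (H.neighborSet a).ncard ≤ m * (Nat.card W - 1) ∧
        {w | C w = 0}.ncard = 1 ∧
        (∃ p, 1 ≤ p ∧ Nat.card W = m * p + 1 ∧ ∀ j : Fin m, {w | C w = j.succ}.ncard = p) ∧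
        ∀ x y, H.Adj x y ↔ C x ≠ C y) := by
  classical
  have : Fintype W := Fintype.ofFinite W
  set s := {w | C w = 0}.ncard with hs
  set n : Fin m → ℕ := fun j => {w | C w = j.succ}.ncard with hn
  set N := Nat.card W with hN
  set d := (H.neighborSet a).ncard with hd
  -- the classes
  have hsum : ∑ j, n j + s = N := by
    have e1 : ∀ j : Fin (m + 1), {w | C w = j}.ncard =
        ((Finset.univ : Finset W).filter (fun w => C w = j)).card := by
      intro j
      rw [← Set.ncard_coe_finset]
      congr 1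
      ext w
      simp
    have e3 := Finset.card_eq_sum_card_fiberwise (s := (Finset.univ : Finset W))
      (t := (Finset.univ : Finset (Fin (m + 1)))) (f := C)
      (fun _ _ => Finset.mem_coe.2 (Finset.mem_univ _))
    rw [Fin.sum_univ_succ, ← e1 0, Finset.card_univ, ← Nat.card_eq_fintype_card] at e3
    rw [hN, e3, add_comm]
    congr 1
    exact Finset.sum_congr rfl fun j _ => e1 _
  have hs1 : 1 ≤ s := by
    rw [hs, Nat.one_le_iff_ne_zero, Ne, Set.ncard_eq_zero (Set.toFinite _)]
    intro h2
    have h3 : a ∈ {w | C w = 0} := h.zero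
    rw [h2] at h3
    exact h3
  -- degree of `a`
  have hda : d + s ≤ N := by
    have h2 : (H.neighborSet a).ncard ≤ {w | C w = 0}ᶜ.ncard := by
      refine Set.ncard_le_ncard ?_ (Set.toFinite _)
      intro w hw hw'
      exact h.proper a w hw (h.zero.trans hw'.symm)
    have h3 := Set.ncard_add_ncard_compl {w | C w = 0}
    omega
  have hdeg : ∀ j : Fin m, δ + n j ≤ N := fun j => (h.deg_le hδ j).1
  have hsum2 : m * δ + ∑ j, n j ≤ m * N := by
    have h2 : ∑ j : Fin m, (δ + n j) ≤ ∑ _j : Fin m, N := Finset.sum_le_sum fun j _ => hdeg j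
    rw [Finset.sum_add_distrib, Finset.sum_const, Finset.sum_const, Finset.card_univ,
      Fintype.card_fin, smul_eq_mul, smul_eq_mul] at h2
    exact h2
  obtain ⟨δ', rfl⟩ : ∃ δ', δ = δ' + 1 := ⟨δ - 1, by omega⟩
  have hN1 : 1 ≤ N := by omega
  obtain ⟨N', hN'⟩ : ∃ N', N = N' + 1 := ⟨N - 1, by omega⟩
  rw [Nat.add_sub_cancel, hN', Nat.add_sub_cancel]
  rw [hN', Nat.mul_add, Nat.mul_add] at hsum2
  by_cases hfirst : m * δ' + d + 2 ≤ m * N' + s
  · exact Or.inl hfirst
  right
  have hs_eq : s = 1 := by omega
  have hd_eq : d + 1 = N := by omega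
  have hsum3 : m * δ' + ∑ j, n j = m * N' := by omega
  have hall : ∀ j : Fin m, (δ' + 1) + n j = N := by
    by_contra hno
    push Not at hno
    obtain ⟨j0, hj0⟩ := hno
    have h2 : ∑ j : Fin m, ((δ' + 1) + n j) < ∑ _j : Fin m, N :=
      Finset.sum_lt_sum (fun j _ => hdeg j) ⟨j0, Finset.mem_univ _, lt_of_le_of_ne (hdeg j0) hj0⟩
    rw [Finset.sum_add_distrib, Finset.sum_const, Finset.sum_const, Finset.card_univ,
      Fintype.card_fin, smul_eq_mul, smul_eq_mul, hN', Nat.mul_add, Nat.mul_add] at h2
    omega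
  refine ⟨by omega, hs_eq, ?_, ?_⟩
  · refine ⟨N - (δ' + 1), ?_, ?_, ?_⟩
    · have h2 := hall ⟨0, by omega⟩
      obtain ⟨b, -, hb⟩ := h.nbr (Fin.succ (⟨0, by omega⟩ : Fin m)) (Fin.succ_ne_zero _)
      have h3 : 1 ≤ n ⟨0, by omega⟩ := by
        rw [hn, Nat.one_le_iff_ne_zero, Ne]
        change ¬ {w | C w = Fin.succ (⟨0, by omega⟩ : Fin m)}.ncard = 0
        rw [Set.ncard_eq_zero (Set.toFinite _)]
        intro h4
        have h5 : b ∈ {w | C w = Fin.succ (⟨0, by omega⟩ : Fin m)} := hb
        rw [h4] at h5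
        exact h5
      omega
    · have h2 : ∑ j, n j = m * (N - (δ' + 1)) := by
        rw [Finset.sum_congr rfl (fun j _ => (by have := hall j; omega : n j = N - (δ' + 1))),
          Finset.sum_const, Finset.card_univ, Fintype.card_fin, smul_eq_mul]
      rw [← h2]
      omega
    · intro j
      have := hall j
      change n j = _
      omega
  · -- complete multipartite
    have hfull : ∀ x : W, ∀ y, C x ≠ C y → H.Adj x y := by
      intro x y hxy
      have key : ∀ S : Set W, (∀ w, H.Adj x w → w ∉ S) → N ≤ (H.neighborSet x).ncard + S.ncard →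
          y ∉ S → H.Adj x y := by
        intro S hS1 hS2 hyS
        have h2 : H.neighborSet x ⊆ Sᶜ := fun w hw => hS1 w hw
        have h3 := Set.ncard_add_ncard_compl S
        have h4 := Set.eq_of_subset_of_ncard_le h2 (by omega) (Set.toFinite _)
        have h5 : y ∈ Sᶜ := hyS
        rw [← h4] at h5
        exact h5
      rcases Fin.eq_zero_or_eq_succ (C x) with h0 | ⟨j, hj⟩
      · have hxa : x = a := by
          have h2 := Set.ncard_eq_one.1 hs_eq
          obtain ⟨b, hb⟩ := h2
          have h3 : a ∈ {w | C w = 0} := h.zero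
          have h4 : x ∈ {w | C w = 0} := h0
          rw [hb] at h3 h4
          rw [Set.mem_singleton_iff] at h3 h4
          rw [h3, h4]
        refine key {w | C w = 0} ?_ ?_ ?_
        · intro w hw hw'
          exact h.proper x w hw (h0.trans hw'.symm)
        · rw [hxa]
          omega
        · intro hy
          exact hxy (h0.trans hy.symm)
      · refine key {w | C w = j.succ} ?_ ?_ ?_
        · intro w hw hw'
          exact h.proper x w hw (hj.trans hw'.symm)
        · have h2 := hδ x
          have h3 := hall j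
          change N ≤ _ + n j
          omega
        · intro hy
          exact hxy (hj.trans hy.symm)
    intro x y
    exact ⟨h.proper x y, hfull x y⟩

end Pool.Agent.SQA
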