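import Pool.Agent.SQA.Q0
import Pool.Agent.SQA.R1

/-!
# [SQA-N0] inner patterns (colours `≥ p`), basic facts
-/

namespace Pool.Agent.SQA

open SimpleGraph

variable {W U : Type} {q p t : ℕ}

/-- An `H`-free pattern which uses only the colours `≥ p` and is not extendable with colours
`≥ p` at the new vertex, even after the deletion of at most `t` elements of `N`. -/
structure Inner (q p : ℕ) (H : SimpleGraph W) (D : SimpleGraph U) (N : Set U)
    (c : Sym2 U → Fin q) (t : ℕ) : Prop where
  free : Free H D c
  col : ∀ a b, D.Adj a b → p ≤ (c s(a, b)).val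
  rob : ∀ N' ⊆ N, (N \ N').ncard ≤ t → ¬ ∃ c' : Sym2 (Option U) → Fin q,
    Free H (cone D N') c' ∧ (∀ a b, D.Adj a b → c' s(some a, some b) = c s(a, b)) ∧
    ∀ a ∈ N', p ≤ (c' s(none, some a)).val

theorem Inner.mono_t {H : SimpleGraph W} {D : SimpleGraph U} {N : Set U} {c : Sym2 U → Fin q}
    {t' : ℕ} (h : Inner q p H D N c t) (ht : t' ≤ t) : Inner q p H D N c t' :=
  ⟨h.free, h.col, fun N' hN' ht' => h.rob N' hN' (ht'.trans ht)⟩

/-- An inner pattern for `p = 0` is a non-extendable pattern. -/
theorem Inner.nonExt {H : SimpleGraph W} {D : SimpleGraph U} {N : Set U} {c : Sym2 U → Fin q}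
    (h : Inner q 0 H D N c t) : NonExt H D N c := by
  refine ⟨h.free, ?_⟩
  rintro ⟨c', h1, h2⟩
  exact h.rob N subset_rfl (by simp) ⟨c', h1, h2, fun _ _ => Nat.zero_le _⟩

/-- The start with no inner colours.
PROOF: `D := ⊥` on `Fin w`, `N := univ`; if at most `t` elements are deleted, some `a ∈ N'` is left
and `q ≤ (c' s(none, some a)).val` is impossible. (`⊥` contains no copy of `H`: `H` has an edge,
`three_nbr`.) -/
theorem inner_empty [Finite W] (hq : 1 ≤ q) {H : SimpleGraph W} (hH : ThreeConnected H)
    {w : ℕ} (hw : t < w) :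
    ∃ c : Sym2 (Fin w) → Fin q,
      Inner q q H (⊥ : SimpleGraph (Fin w)) (Set.univ : Set (Fin w)) c t := by
  obtain ⟨x, y, hxy⟩ : ∃ x y, H.Adj x y := by
    have h4 := hH.1
    have hne : Nonempty W := by
      by_contra hcon
      rw [not_nonempty_iff] at hcon
      rw [Nat.card_of_isEmpty] at h4
      omega
    obtain ⟨x⟩ := hne
    obtain ⟨y, hy, -⟩ := three_nbr hH x x x
    exact ⟨x, y, hy⟩
  refine ⟨fun _ => ⟨0, hq⟩, ?_, ?_, ?_⟩
  · rintro i f ⟨hf, hf'⟩
    exact (hf' x y hxy).1
  · intro a b hab
    exact hab.elim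
  · rintro N' - ht ⟨c', -, -, h3⟩
    have hne : N'.Nonempty := by
      by_contra h0
      rw [Set.not_nonempty_iff_eq_empty] at h0
      rw [h0, Set.sdiff_empty, Set.ncard_univ, Nat.card_eq_fintype_card, Fintype.card_fin] at ht
      omega
    obtain ⟨a, ha⟩ := hne
    have h4 := h3 a ha
    have h5 := (c' s(none, some a)).isLt
    omega

/-- The start with one inner colour: a clique.
PROOF: `D := ⊤` on `Fin (Nat.card W - 1)`, `N := {i | i < w}`, `w = δ + t` with `δ = deg b`, constant
colour `p`. No copy of `H`: `f` injective. If at most `t` elements of `N` are deleted, at least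
`δ` are left; all edges at `none` have colour `p` (`p ≤ _ < p + 1`); `copy_of_clique`. -/
theorem inner_clique [Finite W] {H : SimpleGraph W} (b : W) {w : ℕ}
    (hw : w = (H.neighborSet b).ncard + t) (hwh : w ≤ Nat.card W - 1) :
    ∃ (N : Set (Fin (Nat.card W - 1))) (c : Sym2 (Fin (Nat.card W - 1)) → Fin (p + 1)),
      N.ncard = w ∧
      Inner (p + 1) p H (⊤ : SimpleGraph (Fin (Nat.card W - 1))) N c t := by
  have hpos : 0 < Nat.card W := by
    have : Nonempty W := ⟨b⟩
    exact Nat.card_pos
  have hcard : ({i : Fin (Nat.card W - 1) | i.val < w}).ncard = w := by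
    have h1 : ({i : Fin (Nat.card W - 1) | i.val < w}) =
        ((Finset.univ.filter fun i : Fin (Nat.card W - 1) => i.val < w : Finset _) : Set _) := by
      ext i
      simp
    rw [h1, Set.ncard_coe_finset, Fin.card_filter_val_lt]
    omega
  refine ⟨{i | i.val < w}, fun _ => Fin.last p, hcard, ?_, ?_, ?_⟩
  · rintro i f ⟨hf, -⟩
    have h1 := Nat.card_le_card_of_injective f hf
    rw [Nat.card_eq_fintype_card (α := Fin (Nat.card W - 1)), Fintype.card_fin] at h1
    omega
  · intro _ _ _
    exact le_rfl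
  · rintro N' hN' ht ⟨c', hfree, hc, hnone⟩
    have hdeg : (H.neighborSet b).ncard ≤ N'.ncard := by
      have h1 := Set.ncard_sdiff_add_ncard_of_subset hN'
      rw [hcard] at h1
      omega
    obtain ⟨f, hf, -, -, hadj⟩ := copy_of_clique (cone (⊤ : SimpleGraph (Fin (Nat.card W - 1))) N')
      (fun i => some i) (Option.some_injective _)
      (fun i j hij => cone_some_some.2 hij) none (fun i => by simp) N'
      (fun i hi => cone_none_some.2 hi) b hdeg
    have hcol : ∀ a ∈ N', c' s(none, some a) = Fin.last p := by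
      intro a ha
      apply Fin.ext
      have h1 := hnone a ha
      have h2 := (c' s(none, some a)).isLt
      rw [Fin.val_last]
      omega
    refine hfree (Fin.last p) f ⟨hf, fun x y hxy => ⟨hadj x y hxy, ?_⟩⟩
    have h1 := hadj x y hxy
    rcases hx : f x with _ | i <;> rcases hy : f y with _ | j
    · rw [hx, hy] at h1
      exact (cone_none_none h1).elim
    · rw [hx, hy] at h1
      exact hcol j (cone_none_some.1 h1)
    · rw [hx, hy] at h1
      rw [Sym2.eq_swap]
      exact hcol i (cone_some_none.1 h1)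
    · rw [hx, hy] at h1
      exact hc i j (cone_some_some.1 h1)

end Pool.Agent.SQA
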