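import Pool.Agent.SQA.N0

/-!
# [SQA-N1a] one nesting step: the construction, colours are disjoint, no copies

`m` patterns `D j` on `U j` (`N j`, `c j`, colours `≥ p + 1`) are put together: in the new colour
`p` the vertices of `N j`, and `h` private vertices for every `j`, form a complete `m`-partite
graph, together with `s` extra vertices joined to everything.
-/

namespace Pool.Agent.SQA

open SimpleGraph

variable {W : Type} {q p m h s t : ℕ}

/-- The vertices. -/
abbrev NV (U : Fin m → Type) (h s : ℕ) : Type := (Σ j, U j) ⊕ ((Fin m × Fin h) ⊕ Fin s)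

/-- The block of a vertex. -/
def nblk {U : Fin m → Type} : NV U h s → Fin (m + 1)
  | Sum.inl ⟨j, _⟩ => j.succ
  | Sum.inr (Sum.inl (j, _)) => j.succ
  | Sum.inr (Sum.inr _) => 0

/-- The vertices that take part in the graph of the new colour. -/
def ncore {U : Fin m → Type} (N : ∀ j, Set (U j)) : NV U h s → Prop
  | Sum.inl ⟨j, u⟩ => u ∈ N j
  | Sum.inr _ => True

/-- The graph of the colour `i`. -/
def nestE {U : Fin m → Type} (D : ∀ j, SimpleGraph (U j)) (N : ∀ j, Set (U j))
    (c : ∀ j, Sym2 (U j) → Fin q) (p : ℕ) (i : Fin q) : SimpleGraph (NV U h s) where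
  Adj x y := (∃ j u u', x = Sum.inl ⟨j, u⟩ ∧ y = Sum.inl ⟨j, u'⟩ ∧ (D j).Adj u u' ∧
      c j s(u, u') = i) ∨ (i.val = p ∧ ncore N x ∧ ncore N y ∧ nblk x ≠ nblk y)
  symm := ⟨by
    rintro x y (⟨j, u, u', hx, hy, h1, h2⟩ | ⟨h1, h2, h3, h4⟩)
    · exact Or.inl ⟨j, u', u, hy, hx, h1.symm, by rw [Sym2.eq_swap]; exact h2⟩
    · exact Or.inr ⟨h1, h3, h2, h4.symm⟩⟩
  loopless := ⟨by
    rintro x (⟨j, u, u', hx, hy, h1, h2⟩ | ⟨h1, h2, h3, h4⟩)
    · rw [hx] at hy
      have := Sum.inl.inj hy
      simp only [Sigma.mk.injEq, heq_eq_eq, true_and] at this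
      exact h1.ne this
    · exact h4 rfl⟩

/-- The union of the graphs. -/
def nestD {U : Fin m → Type} (D : ∀ j, SimpleGraph (U j)) (N : ∀ j, Set (U j))
    (c : ∀ j, Sym2 (U j) → Fin q) (p : ℕ) : SimpleGraph (NV U h s) where
  Adj x y := ∃ i : Fin q, (nestE D N c p i).Adj x y
  symm := ⟨fun _ _ ⟨i, h⟩ => ⟨i, h.symm⟩⟩
  loopless := ⟨fun _ ⟨_, h⟩ => h.ne rfl⟩

/-- The set `N` of the new pattern. -/
def nestN {U : Fin m → Type} (N : ∀ j, Set (U j)) : Set (NV U h s) :=
  {x | ∃ j, ∃ u ∈ N j, x = Sum.inl ⟨j, u⟩}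

theorem nestN_ncard {U : Fin m → Type} [∀ j, Finite (U j)] (N : ∀ j, Set (U j)) :
    (nestN N : Set (NV U h s)).ncard = ∑ j, (N j).ncard := by
  classical
  have hb : Function.Bijective (fun x : Σ j, N j =>
      (⟨Sum.inl ⟨x.1, x.2.1⟩, x.1, x.2.1, x.2.2, rfl⟩ : (nestN N : Set (NV U h s)))) := by
    constructor
    · rintro ⟨j, u, hu⟩ ⟨j', u', hu'⟩ h
      have h1 := Sum.inl_injective (Subtype.mk.inj h)
      simp only [Sigma.mk.injEq] at h1
      obtain ⟨rfl, h2⟩ := h1
      cases h2
      rfl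
    · rintro ⟨_, j, u, hu, rfl⟩
      exact ⟨⟨j, u, hu⟩, rfl⟩
  rw [← Nat.card_coe_set_eq, ← Nat.card_congr (Equiv.ofBijective _ hb), Nat.card_sigma]
  exact Finset.sum_congr rfl fun j _ => Nat.card_coe_set_eq _

/-- PROOF: an old edge has ends in the same `nblk`, a new edge in different ones; an old edge has
only one colour. -/
theorem nestE_disjoint {U : Fin m → Type} (D : ∀ j, SimpleGraph (U j)) (N : ∀ j, Set (U j))
    (c : ∀ j, Sym2 (U j) → Fin q) (p : ℕ) (i i' : Fin q) (x y : NV U h s)
    (h1 : (nestE D N c p i).Adj x y) (h2 : (nestE D N c p i').Adj x y) : i = i' := by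
  rcases h1 with ⟨j, u, u', hx, hy, h1, h3⟩ | ⟨h1, h3, h4, h5⟩
  · rcases h2 with ⟨j', v, v', hx', hy', h2, h4⟩ | ⟨-, -, -, h5⟩
    · rw [hx] at hx'
      rw [hy] at hy'
      have e1 := Sum.inl_injective hx'
      have e2 := Sum.inl_injective hy'
      simp only [Sigma.mk.injEq] at e1 e2
      obtain ⟨rfl, e1⟩ := e1
      cases e1
      cases e2.2
      rw [← h3, ← h4]
    · rw [hx, hy] at h5
      exact absurd rfl h5
  · rcases h2 with ⟨j', v, v', hx', hy', -, -⟩ | ⟨h2, -, -, -⟩
    · rw [hx', hy'] at h5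
      exact absurd rfl h5
    · exact Fin.ext (h1.trans h2.symm)

/-- PROOF: let `f` be a copy of `H` in the graph of the colour `i`. If `i = p`, there is no old edge
of colour `i` (`hcol`), so `nblk ∘ f` is a proper colouring of `H` with at most `s` vertices of
colour `0` (`f` injective), contradicting `hopt.min` and `hs`. If `i ≠ p`, all edges are old:
`const_of_connected` shows that all `f w` are of the form `Sum.inl ⟨j, _⟩` with the same `j`
(every `w` has a neighbour), and this is a monochromatic copy in `D j`. -/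
theorem nestE_free [Finite W] {H : SimpleGraph W} (hH : ThreeConnected H)
    {C : W → Fin (m + 1)} {a : W} (hopt : OptCol H m C a) (hs : s < {w | C w = 0}.ncard)
    {U : Fin m → Type} {D : ∀ j, SimpleGraph (U j)} {N : ∀ j, Set (U j)}
    {c : ∀ j, Sym2 (U j) → Fin q} (hfree : ∀ j, Free H (D j) (c j))
    (hcol : ∀ j a b, (D j).Adj a b → p + 1 ≤ (c j s(a, b)).val) (i : Fin q)
    (f : W → NV U h s) (hf : Function.Injective f) :
    ¬ ∀ a b, H.Adj a b → (nestE D N c p i).Adj (f a) (f b) := by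
  classical
  intro hf'
  by_cases hi : i.val = p
  · have hprop : ∀ x y, H.Adj x y → nblk (f x) ≠ nblk (f y) := by
      intro x y hxy
      rcases hf' x y hxy with ⟨j, u, u', -, -, h1, h2⟩ | ⟨-, -, -, h⟩
      · have h3 := hcol j u u' h1
        rw [h2, hi] at h3
        omega
      · exact h
    have h1 := hopt.min (fun w => nblk (f w)) hprop
    have h2 : {w | nblk (f w) = 0}.ncard ≤ s := by
      have h3 : (Set.range (fun k : Fin s => (Sum.inr (Sum.inr k) : NV U h s))).ncard = s := by
        rw [← Set.image_univ, Set.ncard_image_of_injective, Set.ncard_univ,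
          Nat.card_eq_fintype_card, Fintype.card_fin]
        intro a b hab
        exact Sum.inr_injective (Sum.inr_injective hab)
      refine le_trans ?_ h3.le
      apply Set.ncard_le_ncard_of_injOn f
      · intro w hw
        have hw' : nblk (f w) = 0 := hw
        rcases hfw : f w with ⟨j, u⟩ | ⟨j, k⟩ | k
        · rw [hfw] at hw'
          exact absurd hw' (Fin.succ_ne_zero j)
        · rw [hfw] at hw'
          exact absurd hw' (Fin.succ_ne_zero j)
        · exact ⟨k, rfl⟩
      · exact hf.injOn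
    omega
  · have hold : ∀ x y, H.Adj x y → ∃ j u u', f x = Sum.inl ⟨j, u⟩ ∧ f y = Sum.inl ⟨j, u'⟩ ∧
        (D j).Adj u u' ∧ c j s(u, u') = i := by
      intro x y hxy
      rcases hf' x y hxy with h | ⟨h, -⟩
      · exact h
      · exact absurd h hi
    obtain ⟨F, hF⟩ : ∃ F : W → Option (Fin m), F = fun w => match f w with
        | Sum.inl x => some x.1
        | Sum.inr _ => none := ⟨_, rfl⟩
    have hFe : ∀ w j u, f w = Sum.inl ⟨j, u⟩ → F w = some j := by
      intro w j u hw
      rw [hF]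
      simp only [hw]
    have hconst := const_of_connected hH F (by
      intro a b hab
      obtain ⟨j, u, u', h1, h2, -, -⟩ := hold a b hab
      rw [hFe a j u h1, hFe b j u' h2])
    have hne : Nonempty W := by
      have := hH.1
      by_contra hc
      rw [not_nonempty_iff] at hc
      rw [Nat.card_of_isEmpty] at this
      omega
    obtain ⟨w0⟩ := hne
    obtain ⟨w1, hw1, -, -⟩ := three_nbr hH w0 w0 w0
    obtain ⟨j0, u0, -, h0, -, -, -⟩ := hold w0 w1 hw1
    have hg : ∀ w, ∃ u : U j0, f w = Sum.inl ⟨j0, u⟩ := by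
      intro w
      obtain ⟨w', hw', -, -⟩ := three_nbr hH w w w
      obtain ⟨j, u, -, h1, -, -, -⟩ := hold w w' hw'
      have h2 := hconst w w0
      rw [hFe w j u h1, hFe w0 j0 u0 h0, Option.some.injEq] at h2
      subst h2
      exact ⟨u, h1⟩
    choose g hg using hg
    apply hfree j0 i g
    refine ⟨fun a b hab => hf (by rw [hg a, hg b, hab]), fun a b hab => ?_⟩
    obtain ⟨j, u, u', h1, h2, h3, h4⟩ := hold a b hab
    rw [hg a] at h1
    rw [hg b] at h2
    have e1 := Sum.inl_injective h1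
    have e2 := Sum.inl_injective h2
    simp only [Sigma.mk.injEq] at e1 e2
    obtain ⟨rfl, e1⟩ := e1
    cases e1
    cases e2.2
    exact ⟨h3, h4⟩

end Pool.Agent.SQA
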