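import Pool.Agent.SQA.N1a

/-!
# [SQA-N1b] one nesting step: robustness
-/

namespace Pool.Agent.SQA

open SimpleGraph

variable {W : Type} {q p m s t : ℕ}

theorem n1b_emb {α β : Type} {A : Set α} {B : Set β} (hA : A.Finite) (hB : B.Finite)
    (h : A.ncard ≤ B.ncard) : ∃ g : A → B, Function.Injective g := by
  have : Finite A := hA
  have : Finite B := hB
  have : Fintype A := Fintype.ofFinite A
  have : Fintype B := Fintype.ofFinite B
  have h1 : Fintype.card A ≤ Fintype.card B := by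
    rw [← Nat.card_eq_fintype_card, ← Nat.card_eq_fintype_card, Nat.card_coe_set_eq, Nat.card_coe_set_eq]
    exact h
  obtain ⟨e⟩ := Function.Embedding.nonempty_of_card_le h1
  exact ⟨e, e.injective⟩

/-- PROOF. Let `N'' ⊆ nestN N` with at most `t` elements missing, and `c''` an `H`-free colouring
of `cone (nestD ..) N''` extending `c'` with colours `≥ p` at `none`. For `j : Fin m` let
`N''j := {u | Sum.inl ⟨j, u⟩ ∈ N''} ⊆ N j` (at most `t` elements missing),
`Bj := {u ∈ N''j | c'' s(none, some (inl ⟨j, u⟩)) = p}`. Claim `dj ≤ Bj.ncard` where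
`dj := {x | H.Adj a x ∧ C x = j.succ}.ncard ≥ 1` (`hopt.nbr`): otherwise `N''j \ Bj` misses at
most `t + (dj - 1)` elements of `N j`, and `c'' ∘ Sym2.map (Option.map (fun u => inl ⟨j, u⟩))` is
an `H`-free colouring of `cone (D j) (N''j \ Bj)` (`Free.comap`) extending `c j` with colours
`≥ p + 1` at `none`: contradiction to `(hin j).rob`. Now define a copy `f` of `H` of colour `p` in
the cone: `a ↦ none`; the neighbours `x` of `a` with `C x = j.succ` injectively to
`some (inl ⟨j, u⟩)`, `u ∈ Bj`; the other `x` with `C x = j.succ` injectively to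
`some (inr (inl (j, _)))` (`Nat.card W` of them); the `x ≠ a` with `C x = 0` injectively to
`some (inr (inr _))` (`hs`). (`exists_injOn` for each class.) For an edge `x y` of `H` with
`x, y ≠ a`: `C x ≠ C y`, so the images are core vertices in different blocks: an edge of
`nestE .. p`, of colour `p` by `hc'`. Edges at `a`: `hopt.proper` and the choice of `Bj`. -/
theorem nest_rob [Finite W] {H : SimpleGraph W} (hpq : p < q)
    {C : W → Fin (m + 1)} {a : W} (hopt : OptCol H m C a) (hs : s + 1 = {w | C w = 0}.ncard)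
    {U : Fin m → Type} [∀ j, Finite (U j)] {D : ∀ j, SimpleGraph (U j)} {N : ∀ j, Set (U j)}
    {c : ∀ j, Sym2 (U j) → Fin q}
    (hin : ∀ j, Inner q (p + 1) H (D j) (N j) (c j)
      (t + ({x | H.Adj a x ∧ C x = j.succ}.ncard - 1)))
    {c' : Sym2 (NV U (Nat.card W) s) → Fin q}
    (hc' : ∀ i x y, (nestE D N c p i).Adj x y → c' s(x, y) = i)
    (N'' : Set (NV U (Nat.card W) s)) (h1 : N'' ⊆ nestN N) (h2 : (nestN N \ N'').ncard ≤ t) :
    ¬ ∃ c'' : Sym2 (Option (NV U (Nat.card W) s)) → Fin q,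
      Free H (cone (nestD D N c p) N'') c'' ∧
      (∀ a b, (nestD D N c p).Adj a b → c'' s(some a, some b) = c' s(a, b)) ∧
      ∀ a ∈ N'', p ≤ (c'' s(none, some a)).val := by
  classical
  rintro ⟨c'', hfree, hext, hcol⟩
  have hNN : ∀ (j : Fin m) (u : U j), (Sum.inl ⟨j, u⟩ : NV U (Nat.card W) s) ∈ N'' → u ∈ N j := by
    intro j u hu
    obtain ⟨j', u', hu', he⟩ := h1 hu
    have h3 := Sum.inl.inj he
    cases h3
    exact hu'
  have hB : ∀ j : Fin m, {x | H.Adj a x ∧ C x = j.succ}.ncard ≤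
      {u : U j | (Sum.inl ⟨j, u⟩ : NV U (Nat.card W) s) ∈ N'' ∧
        c'' s(none, some (Sum.inl ⟨j, u⟩)) = ⟨p, hpq⟩}.ncard := by
    intro j
    by_contra hlt
    rw [not_le] at hlt
    set B : Set (U j) := {u : U j | (Sum.inl ⟨j, u⟩ : NV U (Nat.card W) s) ∈ N'' ∧
        c'' s(none, some (Sum.inl ⟨j, u⟩)) = ⟨p, hpq⟩} with hBdef
    set N1 : Set (U j) := {u : U j | (Sum.inl ⟨j, u⟩ : NV U (Nat.card W) s) ∈ N''} with hN1
    have hinj : Function.Injective (fun u : U j => (Sum.inl ⟨j, u⟩ : NV U (Nat.card W) s)) := by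
      intro u u' h
      have h3 := Sum.inl.inj h
      simpa using h3
    apply (hin j).rob (N1 \ B) (fun u hu => hNN j u hu.1)
    · have e1 : N j \ (N1 \ B) ⊆ (N j \ N1) ∪ B := by
        intro u hu
        by_cases hu1 : u ∈ N1
        · right
          by_contra hu2
          exact hu.2 ⟨hu1, hu2⟩
        · exact Or.inl ⟨hu.1, hu1⟩
      have e2 : (N j \ N1).ncard ≤ (nestN N \ N'' : Set (NV U (Nat.card W) s)).ncard := by
        refine Set.ncard_le_ncard_of_injOn (fun u : U j => (Sum.inl ⟨j, u⟩ : NV U (Nat.card W) s)) ?_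
          hinj.injOn (Set.toFinite _)
        intro u hu
        exact ⟨⟨j, u, hu.1, rfl⟩, hu.2⟩
      have e3 := Set.ncard_le_ncard e1 (Set.toFinite _)
      have e4 := Set.ncard_union_le (N j \ N1) B
      omega
    · refine ⟨c'' ∘ Sym2.map (Option.map fun u : U j => (Sum.inl ⟨j, u⟩ : NV U (Nat.card W) s)), ?_, ?_, ?_⟩
      · refine hfree.comap (Option.map_injective hinj) ?_
        intro x y hxy
        rcases x with _ | x <;> rcases y with _ | y
        · exact (cone_none_none hxy).elim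
        · exact cone_none_some.2 (cone_none_some.1 hxy).1
        · exact cone_some_none.2 (cone_some_none.1 hxy).1
        · exact cone_some_some.2 ⟨c j s(x, y), Or.inl ⟨j, x, y, rfl, rfl, cone_some_some.1 hxy, rfl⟩⟩
      · intro x y hxy
        have hE : (nestE D N c p (c j s(x, y))).Adj (Sum.inl ⟨j, x⟩ : NV U (Nat.card W) s) (Sum.inl ⟨j, y⟩) :=
          Or.inl ⟨j, x, y, rfl, rfl, hxy, rfl⟩
        show c'' s(some (Sum.inl ⟨j, x⟩), some (Sum.inl ⟨j, y⟩)) = c j s(x, y)
        rw [hext _ _ ⟨_, hE⟩, hc' _ _ _ hE]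
      · intro u hu
        show p + 1 ≤ (c'' s(none, some (Sum.inl ⟨j, u⟩))).val
        have h3 := hcol _ hu.1
        have h4 : (c'' s(none, some (Sum.inl ⟨j, u⟩))).val ≠ p := by
          intro h5
          exact hu.2 ⟨hu.1, Fin.ext h5⟩
        omega
  choose g hg using fun j => n1b_emb (Set.toFinite _) (Set.toFinite _) (hB j)
  have h0 : {x | C x = 0 ∧ x ≠ a}.ncard ≤ (Set.univ : Set (Fin s)).ncard := by
    have e1 : {x | C x = 0 ∧ x ≠ a} = {x | C x = 0} \ {a} := by
      ext x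
      simp
    have e2 : a ∈ {x | C x = 0} := hopt.zero
    rw [e1, Set.ncard_sdiff_singleton_of_mem e2, ← hs, Set.ncard_univ, Nat.card_eq_fintype_card, Fintype.card_fin]
    omega
  obtain ⟨g0, hg0⟩ := n1b_emb (Set.toFinite _) (Set.toFinite _) h0
  let R : W → NV U (Nat.card W) s → Prop := fun x y =>
    (∃ h : C x = 0 ∧ x ≠ a, y = Sum.inr (Sum.inr (g0 ⟨x, h⟩).1)) ∨
    (∃ (j : Fin m) (h : H.Adj a x ∧ C x = j.succ), y = Sum.inl ⟨j, (g j ⟨x, h⟩).1⟩) ∨
    (∃ j : Fin m, C x = j.succ ∧ ¬ H.Adj a x ∧ y = Sum.inr (Sum.inl (j, Finite.equivFin W x)))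
  have hRex : ∀ x, x ≠ a → ∃ y, R x y := by
    intro x hx
    rcases Fin.eq_zero_or_eq_succ (C x) with h | ⟨j, h⟩
    · exact ⟨_, Or.inl ⟨⟨h, hx⟩, rfl⟩⟩
    · by_cases hax : H.Adj a x
      · exact ⟨_, Or.inr (Or.inl ⟨j, ⟨hax, h⟩, rfl⟩)⟩
      · exact ⟨_, Or.inr (Or.inr ⟨j, h, hax, rfl⟩)⟩
  have hRinj : ∀ x x' y, R x y → R x' y → x = x' := by
    rintro x x' y (⟨h, e⟩ | ⟨j, h, e⟩ | ⟨j, h, -, e⟩) (⟨h', e'⟩ | ⟨j', h', e'⟩ | ⟨j', h', -, e'⟩)
    · rw [e] at e'
      have e1 := Sum.inr.inj (Sum.inr.inj e')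
      have e2 := hg0 (Subtype.ext e1)
      exact congrArg Subtype.val e2
    · rw [e] at e'
      cases e'
    · rw [e] at e'
      cases Sum.inr.inj e'
    · rw [e] at e'
      cases e'
    · rw [e] at e'
      have e1 := Sum.inl.inj e'
      have hj : j = j' := congrArg Sigma.fst e1
      subst hj
      have e2 : (g j ⟨x, h⟩).1 = (g j ⟨x', h'⟩).1 := by simpa using e1
      have e3 := hg j (Subtype.ext e2)
      exact congrArg Subtype.val e3
    · rw [e] at e'
      cases e'
    · rw [e] at e'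
      cases Sum.inr.inj e'
    · rw [e] at e'
      cases e'
    · rw [e] at e'
      have e1 := congrArg Prod.snd (Sum.inl.inj (Sum.inr.inj e'))
      exact (Finite.equivFin W).injective e1
  have hRblk : ∀ x y, R x y → nblk y = C x ∧ ncore N y := by
    rintro x y (⟨h, e⟩ | ⟨j, h, e⟩ | ⟨j, h, -, e⟩)
    · rw [e]
      exact ⟨h.1.symm, trivial⟩
    · rw [e]
      exact ⟨h.2.symm, hNN j _ (g j ⟨x, h⟩).2.1⟩
    · rw [e]
      exact ⟨h.symm, trivial⟩
  choose F hF using hRex
  have hfx : ∀ x (hx : x ≠ a), (if h : x = a then none else some (F x h) : Option (NV U (Nat.card W) s)) =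
      some (F x hx) := fun x hx => dif_neg hx
  have hfa : (if h : a = a then none else some (F a h) : Option (NV U (Nat.card W) s)) = none := dif_pos rfl
  have key : ∀ y (hy : y ≠ a), H.Adj a y → (cone (nestD D N c p) N'').Adj none (some (F y hy)) ∧
      c'' s(none, some (F y hy)) = ⟨p, hpq⟩ := by
    intro y hy hay
    rcases hF y hy with ⟨h, e⟩ | ⟨j, h, e⟩ | ⟨j, h, h', e⟩
    · exact absurd (hopt.zero.trans h.1.symm) (hopt.proper a y hay)
    · rw [e]
      exact ⟨cone_none_some.2 (g j ⟨y, h⟩).2.1, (g j ⟨y, h⟩).2.2⟩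
    · exact absurd hay h'
  apply hfree ⟨p, hpq⟩ (fun x => if h : x = a then none else some (F x h))
  constructor
  · intro x y hxy
    dsimp only at hxy
    by_cases hx : x = a <;> by_cases hy : y = a
    · rw [hx, hy]
    · subst hx
      rw [hfa, hfx y hy] at hxy
      cases hxy
    · subst hy
      rw [hfa, hfx x hx] at hxy
      cases hxy
    · rw [hfx x hx, hfx y hy] at hxy
      have e1 := Option.some.inj hxy
      have e2 := hF x hx
      rw [e1] at e2
      exact hRinj x y _ e2 (hF y hy)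
  · intro x y hxy
    dsimp only
    by_cases hx : x = a
    · subst hx
      have hy : y ≠ x := hxy.ne'
      rw [hfa, hfx y hy]
      exact key y hy hxy
    · by_cases hy : y = a
      · subst hy
        rw [hfa, hfx x hx, Sym2.eq_swap]
        obtain ⟨k1, k2⟩ := key x hx hxy.symm
        exact ⟨k1.symm, k2⟩
      · rw [hfx x hx, hfx y hy]
        obtain ⟨b1, b2⟩ := hRblk x _ (hF x hx)
        obtain ⟨b3, b4⟩ := hRblk y _ (hF y hy)
        have hE : (nestE D N c p ⟨p, hpq⟩).Adj (F x hx) (F y hy) := by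
          refine Or.inr ⟨rfl, b2, b4, ?_⟩
          rw [b1, b3]
          exact hopt.proper x y hxy
        refine ⟨cone_some_some.2 ⟨_, hE⟩, ?_⟩
        rw [hext _ _ ⟨_, hE⟩, hc' _ _ _ hE]

end Pool.Agent.SQA
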