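import Pool.Agent.SQA.N1b

/-!
# [SQA-N2] the nesting theorem
-/

namespace Pool.Agent.SQA

open SimpleGraph

variable {W : Type} {q p m t : ℕ}

/-- One nesting step.
PROOF: `s + 1 = {w | C w = 0}.ncard` (class `0` contains `a`), `nestD`, `nestN`, `c'` from
`exists_unionCol` with `nestE_disjoint`; `free`: `free_of_union` and `nestE_free`; `col`: the old
colours are `≥ p + 1`, the new one is `p`; `rob`: `nest_rob`; `nestN_ncard`. -/
theorem nest_step [Finite W] {H : SimpleGraph W} (hH : ThreeConnected H) (hpq : p < q)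
    {C : W → Fin (m + 1)} {a : W} (hopt : OptCol H m C a)
    (U : Fin m → Type) [∀ j, Finite (U j)] (D : ∀ j, SimpleGraph (U j)) (N : ∀ j, Set (U j))
    (c : ∀ j, Sym2 (U j) → Fin q)
    (hin : ∀ j, Inner q (p + 1) H (D j) (N j) (c j)
      (t + ({x | H.Adj a x ∧ C x = j.succ}.ncard - 1))) :
    ∃ (U' : Type) (_ : Finite U') (D' : SimpleGraph U') (N' : Set U') (c' : Sym2 U' → Fin q),
      Inner q p H D' N' c' t ∧ N'.ncard = ∑ j, (N j).ncard := by
  obtain ⟨s, hs⟩ : ∃ s, s + 1 = {w | C w = 0}.ncard := by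
    have h1 : 0 < {w | C w = 0}.ncard := Set.ncard_pos (Set.toFinite _) |>.mpr ⟨a, hopt.zero⟩
    exact ⟨{w | C w = 0}.ncard - 1, by omega⟩
  obtain ⟨c', hc'⟩ := exists_unionCol (by omega)
    (nestE D N c p : Fin q → SimpleGraph (NV U (Nat.card W) s))
    (fun i i' x y h1 h2 => nestE_disjoint D N c p i i' x y h1 h2)
  refine ⟨NV U (Nat.card W) s, inferInstance, nestD D N c p, nestN N, c', ⟨?_, ?_, ?_⟩,
    nestN_ncard N⟩
  · exact free_of_union (nestE D N c p) (fun x y h => h) hc'
      (nestE_free hH hopt (by omega) (fun j => (hin j).free) (fun j => (hin j).col))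
  · rintro x y ⟨i, hi⟩
    rw [hc' i x y hi]
    rcases hi with ⟨j, u, u', -, -, h1, h2⟩ | ⟨h1, -⟩
    · have h3 := (hin j).col u u' h1
      rw [h2] at h3
      omega
    · omega
  · intro N'' h1 h2
    exact nest_rob hpq hopt hs hin hc' N'' h1 h2

/-- `k` nesting steps with the same pattern in all blocks.
PROOF: induction on `k` (generalising `p`, or the pattern): apply the induction hypothesis, or
`nest_step` with constant families (`∑ j : Fin m, N.ncard = m * N.ncard`) and `Inner.mono_t`: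
`t + (dj - 1) ≤ t + κ`. -/
theorem nest_iter [Finite W] {H : SimpleGraph W} (hH : ThreeConnected H)
    {C : W → Fin (m + 1)} {a : W} (hopt : OptCol H m C a) {κ : ℕ}
    (hκ : ∀ j : Fin m, {x | H.Adj a x ∧ C x = j.succ}.ncard - 1 ≤ κ) (k : ℕ) (hk : p + k ≤ q)
    {U : Type} [Finite U] {D : SimpleGraph U} {N : Set U} {c : Sym2 U → Fin q}
    (hin : Inner q (p + k) H D N c (t + k * κ)) :
    ∃ (U' : Type) (_ : Finite U') (D' : SimpleGraph U') (N' : Set U') (c' : Sym2 U' → Fin q),
      Inner q p H D' N' c' t ∧ N'.ncard = m ^ k * N.ncard := by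
  induction k generalizing p U with
  | zero =>
    refine ⟨U, inferInstance, D, N, c, ?_, by simp⟩
    simpa using hin
  | succ k ih =>
    obtain ⟨U₁, hU₁, D₁, N₁, c₁, hin₁, hN₁⟩ := nest_step (t := t + k * κ) (p := p + k) hH
      (by omega) hopt (fun _ : Fin m => U) (fun _ => D) (fun _ => N) (fun _ => c)
      (fun j => hin.mono_t (by
        have := hκ j
        rw [Nat.succ_mul]
        omega))
    obtain ⟨U₂, hU₂, D₂, N₂, c₂, hin₂, hN₂⟩ := ih (by omega) hin₁
    refine ⟨U₂, hU₂, D₂, N₂, c₂, hin₂, ?_⟩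
    rw [hN₂, hN₁, Finset.sum_const, Finset.card_univ, Fintype.card_fin, smul_eq_mul, pow_succ,
      mul_assoc]

end Pool.Agent.SQA
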