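import Pool.Agent.SQA.R1
import Pool.Agent.SQA.A5

/-!
# [SQA-N3] nested lower bounds for the Ramsey number
-/

namespace Pool.Agent.SQA

open SimpleGraph

variable {W : Type} {q m : ℕ}

/-- The colour of a pair of vertices. -/
def n3col {R s : ℕ} (c0 : Sym2 (Fin R) → Fin q) :
    (Fin m × Fin R) ⊕ Fin s → (Fin m × Fin R) ⊕ Fin s → Fin (q + 1)
  | Sum.inl x, Sum.inl y => if x.1 = y.1 then (c0 s(x.2, y.2)).castSucc else Fin.last q
  | Sum.inr _, Sum.inr _ => 0
  | Sum.inl _, Sum.inr _ => Fin.last q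
  | Sum.inr _, Sum.inl _ => Fin.last q

theorem n3col_symm {R s : ℕ} (c0 : Sym2 (Fin R) → Fin q) (x y : (Fin m × Fin R) ⊕ Fin s) :
    n3col c0 x y = n3col c0 y x := by
  rcases x with x | x <;> rcases y with y | y
  · simp only [n3col]
    rw [Sym2.eq_swap]
    by_cases h : x.1 = y.1
    · rw [if_pos h, if_pos h.symm]
    · rw [if_neg h, if_neg (fun h' => h h'.symm)]
  · rfl
  · rfl
  · rfl

/-- The block of a vertex. -/
def n3blk {R s : ℕ} : (Fin m × Fin R) ⊕ Fin s → Fin (m + 1)
  | Sum.inl x => x.1.succ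
  | Sum.inr _ => 0

theorem n3blk_ne {R s : ℕ} (hq : 1 ≤ q) (c0 : Sym2 (Fin R) → Fin q) {x y : (Fin m × Fin R) ⊕ Fin s}
    (h : n3col c0 x y = Fin.last q) : n3blk x ≠ n3blk y := by
  rcases x with x | x <;> rcases y with y | y
  · simp only [n3col] at h
    simp only [n3blk]
    intro h'
    rw [if_pos (Fin.succ_injective _ h')] at h
    exact (Fin.castSucc_lt_last _).ne h
  · exact Fin.succ_ne_zero _
  · exact (Fin.succ_ne_zero _).symm
  · exfalso
    have h1 : (0 : Fin (q + 1)) = Fin.last q := h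
    have h2 := congrArg Fin.val h1
    simp at h2
    omega

theorem n3blk_eq {R s : ℕ} (c0 : Sym2 (Fin R) → Fin q) {x y : (Fin m × Fin R) ⊕ Fin s}
    (h : n3col c0 x y ≠ Fin.last q) : n3blk x = n3blk y := by
  rcases x with x | x <;> rcases y with y | y
  · simp only [n3col] at h
    simp only [n3blk]
    by_cases h' : x.1 = y.1
    · rw [h']
    · rw [if_neg h'] at h
      exact absurd rfl h
  · exact absurd rfl h
  · exact absurd rfl h
  · rfl

theorem n3_inl {R s : ℕ} {x : (Fin m × Fin R) ⊕ Fin s} {j : Fin m} (h : n3blk x = j.succ) :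
    ∃ u, x = Sum.inl (j, u) := by
  rcases x with x | x
  · have h1 : x.1 = j := Fin.succ_injective _ h
    exact ⟨x.2, by rw [← h1]⟩
  · exact absurd h.symm (Fin.succ_ne_zero _)

theorem n3_inr {R s : ℕ} {x : (Fin m × Fin R) ⊕ Fin s} (h : n3blk x = 0) :
    ∃ u, x = Sum.inr u := by
  rcases x with x | x
  · exact absurd h (Fin.succ_ne_zero _)
  · exact ⟨x, rfl⟩

/-- PROOF: `R := rr q H - 1`, `s := {w | C w = 0}.ncard` (`≥ 1`, `≤ Nat.card W`);
`nr_of_lt` gives an `H`-free colouring `c0` of the complete graph on `Fin R` with `q` colours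
(`Nat.card W ≤ rr q H` by `card_le_rr`, so `R < rr q H`). On `V := (Fin m × Fin R) ⊕ Fin (s - 1)`
let `blk (inl (j, _)) := j.succ`, `blk (inr _) := 0`. Colours in `Fin (q + 1)`: `E i.castSucc`:
`inl (j, u)`, `inl (j, u')` with `u ≠ u'` and `c0 s(u, u') = i`, and, for `i = 0`, different
vertices of the form `inr _`; `E (Fin.last q)`: different `blk` (`exists_unionCol`,
`free_of_union` for `D = ⊤`). A copy in `E i.castSucc`: constant `blk` (`const_of_connected`), so
it is a monochromatic copy in a block (contradiction) or an injection `W → Fin (s - 1)`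
(contradiction). A copy `f` in `E (Fin.last q)`: `blk ∘ f` is a proper colouring with class `0` of at
most `s - 1` elements: contradiction to `hopt.min`. `lt_rr_of_nr`. -/
theorem rr_succ [Finite W] [Nonempty W] {H : SimpleGraph W} (hH : ThreeConnected H)
    (hq : 1 ≤ q) {C : W → Fin (m + 1)} {a : W} (hopt : OptCol H m C a) :
    m * (rr q H - 1) + {w | C w = 0}.ncard ≤ rr (q + 1) H := by
  classical
  have hcard := card_le_rr hq H
  have h4 := hH.1
  have hs1 : 1 ≤ {w | C w = 0}.ncard := by
    rw [Nat.one_le_iff_ne_zero, Ne, Set.ncard_eq_zero (Set.toFinite _)]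
    intro h
    have : a ∈ ({w | C w = 0} : Set W) := hopt.zero
    rw [h] at this
    exact this
  have hsW : {w | C w = 0}.ncard ≤ Nat.card W := Set.ncard_le_card _
  obtain ⟨R, hR⟩ : ∃ R, R = rr q H - 1 := ⟨_, rfl⟩
  obtain ⟨s, hs⟩ : ∃ s, s = {w | C w = 0}.ncard - 1 := ⟨_, rfl⟩
  obtain ⟨c0, hc0⟩ : NR q H (⊤ : SimpleGraph (Fin R)) := by
    refine nr_of_lt hq (fun w => ?_) _ Set.univ (fun _ _ _ => Set.mem_univ _) ?_
    · obtain ⟨u, hu, -, -⟩ := three_nbr hH w w w
      exact ⟨u, hu⟩
    · rw [Set.ncard_univ, Nat.card_fin]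
      omega
  have hNR : NR (q + 1) H (⊤ : SimpleGraph ((Fin m × Fin R) ⊕ Fin s)) := by
    refine ⟨Sym2.lift ⟨n3col c0, n3col_symm c0⟩, ?_⟩
    rintro i f ⟨hf, hf'⟩
    have hcol : ∀ x y, H.Adj x y → n3col c0 (f x) (f y) = i := fun x y hxy => (hf' x y hxy).2
    by_cases hi : i = Fin.last q
    · have h1 := hopt.min (fun w => n3blk (f w)) (fun x y hxy => n3blk_ne hq c0 ((hcol x y hxy).trans hi))
      have h2 : {w | n3blk (f w) = 0}.ncard ≤ s := by
        have h3 : {w | n3blk (f w) = 0}.ncard ≤ (Set.range (Sum.inr : Fin s → (Fin m × Fin R) ⊕ Fin s)).ncard := by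
          refine Set.ncard_le_ncard_of_injOn f ?_ hf.injOn (Set.toFinite _)
          intro w hw
          obtain ⟨u, hu⟩ := n3_inr hw
          exact ⟨u, hu.symm⟩
        rw [← Set.image_univ, Set.ncard_image_of_injective _ Sum.inr_injective, Set.ncard_univ, Nat.card_fin] at h3
        exact h3
      omega
    · have h1 : ∀ x y, n3blk (f x) = n3blk (f y) :=
        const_of_connected hH (fun w => n3blk (f w)) (fun x y hxy => n3blk_eq c0 (by rw [hcol x y hxy]; exact hi))
      rcases Fin.eq_zero_or_eq_succ (n3blk (f a)) with h0 | ⟨j, hj⟩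
      · have h2 : ∀ w, ∃ u, f w = Sum.inr u := fun w => n3_inr ((h1 w a).trans h0)
        choose g hg using h2
        have hg' : Function.Injective g := by
          intro x y hxy
          apply hf
          rw [hg, hg, hxy]
        have h3 := Nat.card_le_card_of_injective g hg'
        rw [Nat.card_fin] at h3
        omega
      · have h2 : ∀ w, ∃ u, f w = Sum.inl (j, u) := fun w => n3_inl ((h1 w a).trans hj)
        choose g hg using h2
        have hg' : Function.Injective g := by
          intro x y hxy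
          apply hf
          rw [hg, hg, hxy]
        refine hc0 (i.castPred hi) g ⟨hg', fun x y hxy => ⟨fun h => hxy.ne (hg' h), ?_⟩⟩
        have h3 := hcol x y hxy
        rw [hg, hg] at h3
        simp only [n3col, if_true] at h3
        apply Fin.castSucc_injective
        rw [h3, Fin.castSucc_castPred]
  have h5 := lt_rr_of_nr (by omega) hNR
  rw [Nat.card_sum, Nat.card_prod, Nat.card_fin, Nat.card_fin, Nat.card_fin] at h5
  rw [← hR]
  omega

/-- PROOF: induction on `k` with `rr_succ` (`1 ≤ {w | C w = 0}.ncard`). -/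
theorem rr_iter [Finite W] [Nonempty W] {H : SimpleGraph W} (hH : ThreeConnected H)
    (hq : 1 ≤ q) {C : W → Fin (m + 1)} {a : W} (hopt : OptCol H m C a) (k : ℕ) :
    m ^ k * (rr q H - 1) + 1 ≤ rr (q + k) H := by
  have h4 := hH.1
  induction k with
  | zero =>
    have hcard := card_le_rr hq H
    simp only [pow_zero, one_mul, Nat.add_zero]
    omega
  | succ k ih =>
    have hs1 : 1 ≤ {w | C w = 0}.ncard := by
      rw [Nat.one_le_iff_ne_zero, Ne, Set.ncard_eq_zero (Set.toFinite _)]
      intro h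
      have : a ∈ ({w | C w = 0} : Set W) := hopt.zero
      rw [h] at this
      exact this
    have h1 := rr_succ hH (q := q + k) (by omega) hopt
    have h2 : m ^ k * (rr q H - 1) ≤ rr (q + k) H - 1 := by omega
    have h3 : m ^ (k + 1) * (rr q H - 1) ≤ m * (rr (q + k) H - 1) := by
      calc m ^ (k + 1) * (rr q H - 1) = m * (m ^ k * (rr q H - 1)) := by rw [pow_succ]; ring
        _ ≤ _ := Nat.mul_le_mul_left _ h2
    have h5 : q + (k + 1) = q + k + 1 := rfl
    rw [h5]
    omega

/-- PROOF: `rr_iter` for `q = 1`, `k = q - 1`, and `card_le_rr`. -/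
theorem rr_ge [Finite W] [Nonempty W] {H : SimpleGraph W} (hH : ThreeConnected H)
    (hq : 1 ≤ q) {C : W → Fin (m + 1)} {a : W} (hopt : OptCol H m C a) :
    m ^ (q - 1) * (Nat.card W - 1) + 1 ≤ rr q H := by
  have h1 := rr_iter hH (q := 1) le_rfl hopt (q - 1)
  rw [Nat.add_sub_cancel' hq] at h1
  have h2 := card_le_rr (q := 1) le_rfl H
  refine le_trans (Nat.add_le_add_right (Nat.mul_le_mul_left _ ?_) _) h1
  omega

/-- The classes of an optimal colouring are nonempty.
PROOF: `hopt.zero`, `hopt.nbr`: `C` is surjective. -/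
theorem OptCol.le_card [Finite W] {H : SimpleGraph W} {C : W → Fin (m + 1)} {a : W}
    (hopt : OptCol H m C a) : m + 1 ≤ Nat.card W := by
  have h1 : Function.Surjective C := by
    intro j
    by_cases hj : j = 0
    · exact ⟨a, by rw [hj]; exact hopt.zero⟩
    · obtain ⟨w, -, hw⟩ := hopt.nbr j hj
      exact ⟨w, hw⟩
  have h2 := Nat.card_le_card_of_surjective C h1
  rwa [Nat.card_fin] at h2

end Pool.Agent.SQA
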