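import Pool.Agent.SQA.N2
import Pool.Agent.SQA.N3
import Pool.Agent.SQA.P4

/-!
# [SQA-N4a] small inner patterns, sparse graphs
-/

namespace Pool.Agent.SQA

open SimpleGraph

variable {W : Type} {q p m : ℕ}

/-- PROOF: `nest_iter` with `k = p`, `p = 0`, `t = 0`, then `Inner.nonExt` and
`abundant_of_small`. -/
theorem abundant_of_inner [Finite W] [Nonempty W] (hq : 2 ≤ q) {H : SimpleGraph W}
    (hH : ThreeConnected H) {C : W → Fin (m + 1)} {a : W} (hopt : OptCol H m C a) {κ : ℕ}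
    (hκ : ∀ j : Fin m, {x | H.Adj a x ∧ C x = j.succ}.ncard - 1 ≤ κ) (hp : p ≤ q)
    {U : Type} [Finite U] {D : SimpleGraph U} {N : Set U} {c : Sym2 U → Fin q}
    (hin : Inner q p H D N c (p * κ)) (hN : m ^ p * N.ncard + 2 ≤ rr q H) : Abundant q H := by
  have hin' : Inner q (0 + p) H D N c (0 + p * κ) := by
    rw [Nat.zero_add, Nat.zero_add]
    exact hin
  obtain ⟨U', hU', D', N', c', h1, h2⟩ := nest_iter hH hopt hκ p (by omega) hin'
  refine abundant_of_small hq hH h1.nonExt (Or.inl ?_)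
  rw [h2]
  exact hN

/-- Sparse graphs.
PROOF: `exists_optCol` (vertex `a0`); `dj - 1 ≤ κ - 1` since the neighbours of `a0` in one class
are independent. `inner_clique` with `p = q - 1`, `t = (q - 1) * (κ - 1)`,
`w = deg b + t ≤ Nat.card W - 2`; `abundant_of_inner` with
`m ^ (q - 1) * w + 2 ≤ m ^ (q - 1) * (Nat.card W - 1) + 1 ≤ rr q H` (`rr_ge`, `m ≥ 1`). -/
theorem abundant_sparse [Finite W] [Nonempty W] (hq : 2 ≤ q) {H : SimpleGraph W}
    (hH : ThreeConnected H) (hT : ¬ H.CliqueFree 3) (b : W) (κ : ℕ)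
    (hκ : ∀ (x : W) (I : Set W), (∀ y ∈ I, H.Adj x y) → (∀ y ∈ I, ∀ z ∈ I, ¬ H.Adj y z) →
      I.ncard ≤ κ)
    (hb : (H.neighborSet b).ncard + (q - 1) * (κ - 1) + 2 ≤ Nat.card W) : Abundant q H := by
  obtain ⟨m, C, a, hm, hopt⟩ := exists_optCol hT
  obtain ⟨q', rfl⟩ : ∃ q', q = q' + 1 := ⟨q - 1, by omega⟩
  rw [Nat.add_sub_cancel] at hb
  have hκ' : ∀ j : Fin m, {x | H.Adj a x ∧ C x = j.succ}.ncard - 1 ≤ κ - 1 := by
    intro j
    have h1 := hκ a {x | H.Adj a x ∧ C x = j.succ} (fun y hy => hy.1)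
      (fun y hy z hz hyz => hopt.proper y z hyz (hy.2.trans hz.2.symm))
    omega
  obtain ⟨N, c, hN, hin⟩ := inner_clique (H := H) (p := q') (t := q' * (κ - 1)) b rfl (by omega)
  refine abundant_of_inner (p := q') hq hH hopt hκ' (by omega) hin ?_
  have h1 := rr_ge hH (q := q' + 1) (by omega) hopt
  rw [Nat.add_sub_cancel] at h1
  have h2 : 1 ≤ m ^ q' := Nat.one_le_pow _ _ (by omega)
  have h3 : m ^ q' * (N.ncard + 1) ≤ m ^ q' * (Nat.card W - 1) := Nat.mul_le_mul_left _ (by omega)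
  rw [Nat.mul_add, Nat.mul_one] at h3
  omega

end Pool.Agent.SQA
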