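import Pool.Agent.SQA.Base
import Pool.Agent.SQA.A2

/-!
# [SQA-P1] ungluing: vertices outside `N` may be assumed private to one colour
-/

namespace Pool.Agent.SQA

open SimpleGraph

variable {W U : Type} {q : ℕ}

open Classical in
/-- The position of a vertex in the colour `i`. -/
noncomputable def p1_pos (N : Set U) (i : Fin q) (x : U) : Option (Fin q) × U :=
  if x ∈ N then (none, x) else (some i, x)

theorem p1_pos_mem {N : Set U} (i : Fin q) {x : U} (hx : x ∈ N) : p1_pos N i x = (none, x) := by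
  rw [p1_pos, if_pos hx]

theorem p1_pos_not {N : Set U} (i : Fin q) {x : U} (hx : x ∉ N) :
    p1_pos N i x = (some i, x) := by
  rw [p1_pos, if_neg hx]

theorem p1_pos_snd (N : Set U) (i : Fin q) (x : U) : (p1_pos N i x).2 = x := by
  by_cases hx : x ∈ N
  · rw [p1_pos_mem i hx]
  · rw [p1_pos_not i hx]

theorem p1_pos_inj (N : Set U) (i : Fin q) : Function.Injective (p1_pos N i) := by
  intro x y h
  rw [← p1_pos_snd N i x, h, p1_pos_snd]

/-- The unglued graph. -/
def p1_D (D : SimpleGraph U) (N : Set U) (c : Sym2 U → Fin q) :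
    SimpleGraph (Option (Fin q) × U) where
  Adj a b := D.Adj a.2 b.2 ∧ a = p1_pos N (c s(a.2, b.2)) a.2 ∧ b = p1_pos N (c s(a.2, b.2)) b.2
  symm := ⟨by
    rintro a b ⟨h1, h2, h3⟩
    rw [Sym2.eq_swap] at h2 h3
    exact ⟨h1.symm, h3, h2⟩⟩
  loopless := ⟨fun _ h => h.1.ne rfl⟩

theorem p1_adj_pos {D : SimpleGraph U} {N : Set U} {c : Sym2 U → Fin q} {x y : U} {i : Fin q}
    (h : D.Adj x y) (hc : c s(x, y) = i) :
    (p1_D D N c).Adj (p1_pos N i x) (p1_pos N i y) := by
  refine ⟨?_, ?_, ?_⟩
  · rw [p1_pos_snd, p1_pos_snd]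
    exact h
  · rw [p1_pos_snd, p1_pos_snd, hc]
  · rw [p1_pos_snd, p1_pos_snd, hc]

/-- The colouring of the cone. -/
def p1_e (c : Sym2 U → Fin q) (e' : Sym2 (Option (Option (Fin q) × U)) → Fin q) :
    Sym2 (Option U) → Fin q :=
  Sym2.lift ⟨fun a b => match a, b with
    | some x, some y => c s(x, y)
    | none, some x => e' s(none, some (none, x))
    | some x, none => e' s(none, some (none, x))
    | none, none => e' s(none, none), by
      intro a b
      rcases a with _ | x <;> rcases b with _ | y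
      · rfl
      · rfl
      · rfl
      · show c s(x, y) = c s(y, x)
        rw [Sym2.eq_swap]⟩

/-- PROOF: `U' := Option (Fin q) × U`, `pos i x := if x ∈ N then (none, x) else (some i, x)`,
`D'.Adj a b := ∃ x y, D.Adj x y ∧ a = pos (c s(x, y)) x ∧ b = pos (c s(x, y)) y`,
`c' := c ∘ Sym2.map Prod.snd`, `N' := {a | a.1 = none ∧ a.2 ∈ N}`.
`Free`: a copy `f` of colour `i` satisfies `f w = pos i (f w).2` for all `w` (every `w` has a
neighbour, `three_nbr`), so `w ↦ (f w).2` is a monochromatic copy in `D`.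
Not `Ext`: from a colouring `e'` of `cone D' N'` (use `Ext.exact` if convenient) define a colouring
`e` of `cone D N` by `e (Sym2.map some e0) := c e0` and `e s(none, some x) := e' s(none, some
(none, x))`; a monochromatic copy `f` of colour `i` in `cone D N` gives the monochromatic copy
`Option.map (pos i) ∘ f` in `cone D' N'`.
Private: the edges of `D'` at `(some i, x)` have colour `i`; `(none, x)` with `x ∉ N` is
isolated. Last claim: for `x, y ∈ N`, `D'.Adj (none, x) (none, y) ↔ D.Adj x y`. -/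
theorem unglue [Finite W] (hq : 1 ≤ q) {H : SimpleGraph W} (hH : ThreeConnected H) [Finite U]
    {D : SimpleGraph U} {N : Set U} {c : Sym2 U → Fin q} (hne : NonExt H D N c) :
    ∃ (U' : Type) (_ : Finite U') (D' : SimpleGraph U') (N' : Set U') (c' : Sym2 U' → Fin q),
      NonExt H D' N' c' ∧ N'.ncard = N.ncard ∧
      (∀ x, x ∉ N' → ∃ i, ∀ y, D'.Adj x y → c' s(x, y) = i) ∧
      ((∃ x ∈ N, ∃ y ∈ N, x ≠ y ∧ ¬ D.Adj x y) →
        ∃ x ∈ N', ∃ y ∈ N', x ≠ y ∧ ¬ D'.Adj x y) := by
  obtain ⟨hfree, hext⟩ := hne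
  refine ⟨Option (Fin q) × U, inferInstance, p1_D D N c, {a | a.1 = none ∧ a.2 ∈ N},
    fun e => c (Sym2.map Prod.snd e), ⟨?_, ?_⟩, ?_, ?_, ?_⟩
  · -- no copies
    rintro i f ⟨hf, hf2⟩
    have hpos : ∀ w, f w = p1_pos N i (f w).2 := by
      intro w
      obtain ⟨u, hu, _, _⟩ := three_nbr hH w w w
      obtain ⟨⟨_, h2, _⟩, h4⟩ := hf2 w u hu
      have h4' : c s((f w).2, (f u).2) = i := h4
      rw [h4'] at h2
      exact h2
    refine hfree i (fun w => (f w).2) ⟨?_, ?_⟩
    · intro w w' hw
      have hw' : (f w).2 = (f w').2 := hw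
      apply hf
      rw [hpos w, hpos w', hw']
    · intro a b hab
      exact ⟨(hf2 a b hab).1.1, (hf2 a b hab).2⟩
  · -- not extendable
    rintro ⟨e', h1, h2⟩
    apply hext
    refine ⟨p1_e c e', ?_, fun _ _ _ => rfl⟩
    rintro i f ⟨hf, hf2⟩
    refine h1 i (fun w => Option.map (p1_pos N i) (f w)) ⟨?_, ?_⟩
    · exact (Option.map_injective (p1_pos_inj N i)).comp hf
    · have key : ∀ a b, H.Adj a b → f a = none → (cone (p1_D D N c)
          {a | a.1 = none ∧ a.2 ∈ N}).Adj (Option.map (p1_pos N i) (f a))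
          (Option.map (p1_pos N i) (f b)) ∧
          e' s(Option.map (p1_pos N i) (f a), Option.map (p1_pos N i) (f b)) = i := by
        intro a b hab ha
        obtain ⟨h3, h4⟩ := hf2 a b hab
        rw [ha] at h3 h4 ⊢
        rcases hb : f b with _ | y
        · rw [hb] at h3
          exact absurd h3 cone_none_none
        · rw [hb] at h3 h4
          rw [cone_none_some] at h3
          have h5 : e' s(none, some (none, y)) = i := h4
          rw [Option.map_none, Option.map_some, p1_pos_mem i h3, cone_none_some]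
          exact ⟨⟨rfl, h3⟩, h5⟩
      intro a b hab
      show (cone (p1_D D N c) {a | a.1 = none ∧ a.2 ∈ N}).Adj (Option.map (p1_pos N i) (f a))
          (Option.map (p1_pos N i) (f b)) ∧
          e' s(Option.map (p1_pos N i) (f a), Option.map (p1_pos N i) (f b)) = i
      by_cases ha : f a = none
      · exact key a b hab ha
      · by_cases hb : f b = none
        · obtain ⟨h3, h4⟩ := key b a hab.symm hb
          rw [Sym2.eq_swap] at h4
          exact ⟨h3.symm, h4⟩
        · obtain ⟨x, ha⟩ := Option.ne_none_iff_exists'.1 ha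
          obtain ⟨y, hb⟩ := Option.ne_none_iff_exists'.1 hb
          obtain ⟨h3, h4⟩ := hf2 a b hab
          rw [ha, hb] at h3 h4 ⊢
          rw [cone_some_some] at h3
          have h5 : c s(x, y) = i := h4
          have h6 := p1_adj_pos (N := N) h3 h5
          rw [Option.map_some, Option.map_some, cone_some_some]
          refine ⟨h6, ?_⟩
          rw [h2 _ _ h6]
          show c s((p1_pos N i x).2, (p1_pos N i y).2) = i
          rw [p1_pos_snd, p1_pos_snd, h5]
  · have himg : {a : Option (Fin q) × U | a.1 = none ∧ a.2 ∈ N} = (fun x => (none, x)) '' N := by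
      ext ⟨o, x⟩
      constructor
      · rintro ⟨h1, h2⟩
        exact ⟨x, h2, Prod.ext h1.symm rfl⟩
      · rintro ⟨y, hy, h⟩
        rw [Prod.mk.injEq] at h
        exact ⟨h.1.symm, by rw [← h.2]; exact hy⟩
    rw [himg]
    apply Set.ncard_image_of_injective
    intro x y h
    exact (Prod.mk.inj h).2
  · intro x hx
    refine ⟨x.1.getD ⟨0, by omega⟩, fun y hxy => ?_⟩
    show c s(x.2, y.2) = _
    obtain ⟨_, h2, _⟩ := hxy
    by_cases hN : x.2 ∈ N
    · rw [p1_pos_mem _ hN] at h2
      exact absurd ⟨congrArg Prod.fst h2, hN⟩ hx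
    · rw [p1_pos_not _ hN] at h2
      have h3 : x.1 = some (c s(x.2, y.2)) := congrArg Prod.fst h2
      rw [h3]
      rfl
  · rintro ⟨x, hx, y, hy, hxy, hn⟩
    refine ⟨(none, x), ⟨rfl, hx⟩, (none, y), ⟨rfl, hy⟩, ?_, ?_⟩
    · intro h
      exact hxy (Prod.mk.inj h).2
    · rintro ⟨h, _⟩
      exact hn h

end Pool.Agent.SQA
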