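import Pool.Agent.SQA.Base

/-!
# [SQA-Q0] unions of coloured graphs, injections
-/

namespace Pool.Agent.SQA

open SimpleGraph

variable {W U V : Type} {q : ℕ}

/-- The colouring of a union of edge-disjoint graphs.
PROOF: `c e := if h : ∃ i, e ∈ (E i).edgeSet then h.choose else 0`. -/
theorem exists_unionCol (hq : 1 ≤ q) (E : Fin q → SimpleGraph U)
    (hdis : ∀ i i' x y, (E i).Adj x y → (E i').Adj x y → i = i') :
    ∃ c : Sym2 U → Fin q, ∀ i x y, (E i).Adj x y → c s(x, y) = i := by
  classical
  refine ⟨fun e => if h : ∃ i, e ∈ (E i).edgeSet then h.choose else ⟨0, hq⟩, ?_⟩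
  intro i x y hxy
  have h : ∃ i, s(x, y) ∈ (E i).edgeSet := ⟨i, by rwa [SimpleGraph.mem_edgeSet]⟩
  simp only [dif_pos h]
  have h1 := h.choose_spec
  rw [SimpleGraph.mem_edgeSet] at h1
  exact hdis _ _ _ _ h1 hxy

/-- PROOF: immediate. -/
theorem free_of_union {H : SimpleGraph W} {D : SimpleGraph U} (E : Fin q → SimpleGraph U)
    (hD : ∀ x y, D.Adj x y → ∃ i, (E i).Adj x y) {c : Sym2 U → Fin q}
    (hc : ∀ i x y, (E i).Adj x y → c s(x, y) = i)
    (hE : ∀ i, ∀ f : W → U, Function.Injective f →
      ¬ ∀ a b, H.Adj a b → (E i).Adj (f a) (f b)) : Free H D c := by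
  rintro i f ⟨hf, hf'⟩
  refine hE i f hf (fun a b hab => ?_)
  obtain ⟨h1, h2⟩ := hf' a b hab
  obtain ⟨i', hi'⟩ := hD _ _ h1
  rw [hc i' _ _ hi'] at h2
  rw [← h2]
  exact hi'

/-- an injection between sets -/
theorem q0_inj [Finite U] [Finite V] (A : Set U) (B : Set V) (h1 : A.ncard ≤ B.ncard) :
    ∃ g : A → V, Function.Injective g ∧ ∀ x, g x ∈ B := by
  have : Fintype U := Fintype.ofFinite U
  have : Fintype V := Fintype.ofFinite V
  classical
  have h2 : Fintype.card A ≤ Fintype.card B := by
    rw [← Nat.card_eq_fintype_card, ← Nat.card_eq_fintype_card, Nat.card_coe_set_eq,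
      Nat.card_coe_set_eq]
    exact h1
  obtain ⟨f⟩ := Function.Embedding.nonempty_of_card_le h2
  exact ⟨fun x => (f x : V), fun x y hxy => f.injective (Subtype.ext hxy), fun x => (f x).2⟩

/-- An injection `α → β` which maps `A` into `B`.
PROOF: an injection `A → B` and an injection `Aᶜ → (image)ᶜ`; counting. -/
theorem exists_inj_maps [Finite U] [Finite V] (A : Set U) (B : Set V) (h1 : A.ncard ≤ B.ncard)
    (h2 : Nat.card U ≤ Nat.card V) :
    ∃ g : U → V, Function.Injective g ∧ ∀ x ∈ A, g x ∈ B := by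
  classical
  obtain ⟨g1, hg1, hg1B⟩ := q0_inj A B h1
  have hcard : (Set.range g1).ncard = A.ncard := by
    rw [← Nat.card_coe_set_eq, ← Nat.card_coe_set_eq]
    exact Nat.card_range_of_injective hg1
  have h3 : Aᶜ.ncard ≤ (Set.range g1)ᶜ.ncard := by
    have e1 := Set.ncard_add_ncard_compl A
    have e2 := Set.ncard_add_ncard_compl (Set.range g1)
    omega
  obtain ⟨g2, hg2, hg2B⟩ := q0_inj Aᶜ (Set.range g1)ᶜ h3
  refine ⟨fun x => if h : x ∈ A then g1 ⟨x, h⟩ else g2 ⟨x, h⟩, ?_, ?_⟩
  · intro x y hxy
    by_cases hx : x ∈ A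
    · by_cases hy : y ∈ A
      · simp only [dif_pos hx, dif_pos hy] at hxy
        exact congrArg Subtype.val (hg1 hxy)
      · simp only [dif_pos hx, dif_neg hy] at hxy
        exact absurd ⟨_, hxy⟩ (hg2B ⟨y, hy⟩)
    · by_cases hy : y ∈ A
      · simp only [dif_neg hx, dif_pos hy] at hxy
        exact absurd ⟨_, hxy.symm⟩ (hg2B ⟨x, hx⟩)
      · simp only [dif_neg hx, dif_neg hy] at hxy
        exact congrArg Subtype.val (hg2 hxy)
  · intro x hx
    simp only [dif_pos hx]
    exact hg1B _

/-- An injection defined on a subset with values in a given set.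
PROOF: `Set.ncard` inequalities give an embedding of the subtypes. -/
theorem exists_injOn [Nonempty V] [Finite U] (A : Set U) (B : Set V) (hB : B.Finite)
    (h1 : A.ncard ≤ B.ncard) : ∃ g : U → V, Set.InjOn g A ∧ ∀ x ∈ A, g x ∈ B := by
  have h2 : A.encard ≤ B.encard := by
    rw [← (Set.toFinite A).cast_ncard_eq, ← hB.cast_ncard_eq]
    exact_mod_cast h1
  obtain ⟨g, hg1, hg2⟩ := (Set.toFinite A).exists_injOn_of_encard_le h2
  exact ⟨g, hg2, fun x hx => hg1 hx⟩

/-- In a connected graph a property which is constant along the edges is constant.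
PROOF: `hH.2 ∅` with an empty set: `H` is preconnected; induction on a walk. -/
theorem const_of_connected {H : SimpleGraph W} (hH : ThreeConnected H) {β : Type} (F : W → β)
    (hF : ∀ a b, H.Adj a b → F a = F b) (a b : W) : F a = F b := by
  have h1 := (hH.2 ∅ (by simp)).preconnected ⟨a, by simp⟩ ⟨b, by simp⟩
  obtain ⟨w⟩ := h1
  have key : ∀ (x y : (∅ᶜ : Set W)), (H.induce (∅ᶜ : Set W)).Walk x y → F x = F y := by
    intro x y p
    induction p with
    | nil => rfl
    | cons hadj _ ih => exact (hF _ _ hadj).trans ih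
  exact key _ _ w

/-- A graph with a clique `K` of `Nat.card W - 1` vertices joined in one colour, and a new vertex
joined to at least `deg a` of its vertices contains a copy of `H`: abstract form. If `E` is a graph
on `V`, `K : Fin (Nat.card W - 1) → V` injective with pairwise adjacent images, `v ∉ range K`, and
`v` is adjacent to `K i` for `i` in a set `R` with at least `deg a` elements, then there is a copy
of `H`.
PROOF: `exists_inj_maps` on `U := {w // w ≠ a}`, `V := Fin (Nat.card W - 1)`,
`A := {w | H.Adj a w}`, `B := R`; `a ↦ v`. -/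
theorem copy_of_clique [Finite W] {H : SimpleGraph W} (E : SimpleGraph V)
    (K : Fin (Nat.card W - 1) → V) (hK : Function.Injective K)
    (hKK : ∀ i j, i ≠ j → E.Adj (K i) (K j)) (v : V) (hv : ∀ i, K i ≠ v)
    (R : Set (Fin (Nat.card W - 1))) (hR : ∀ i ∈ R, E.Adj v (K i)) (a : W)
    (ha : (H.neighborSet a).ncard ≤ R.ncard) :
    ∃ f : W → V, Function.Injective f ∧ f a = v ∧ (∀ w, w ≠ a → ∃ i, f w = K i) ∧
      ∀ x y, H.Adj x y → E.Adj (f x) (f y) := by
  classical
  let A : Set {w // w ≠ a} := {w | H.Adj a w.1}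
  have hA : A.ncard = (H.neighborSet a).ncard := by
    have e1 : H.neighborSet a = Subtype.val '' A := by
      ext w
      simp only [SimpleGraph.mem_neighborSet, Set.mem_image, A, Set.mem_ofPred_eq]
      constructor
      · intro hw
        exact ⟨⟨w, hw.ne'⟩, hw, rfl⟩
      · rintro ⟨w', hw', rfl⟩
        exact hw'
    rw [e1, Set.ncard_image_of_injective _ Subtype.val_injective]
  have hcard : Nat.card {w // w ≠ a} ≤ Nat.card (Fin (Nat.card W - 1)) := by
    have : Fintype W := Fintype.ofFinite W
    rw [Nat.card_eq_fintype_card (α := Fin _), Fintype.card_fin, Nat.card_eq_fintype_card,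
      Nat.card_eq_fintype_card]
    have := Fintype.card_subtype_compl (fun w : W => w = a)
    rw [Fintype.card_subtype_eq] at this
    exact this.le
  obtain ⟨g, hg, hgA⟩ := exists_inj_maps A R (hA.le.trans ha) hcard
  refine ⟨fun w => if h : w = a then v else K (g ⟨w, h⟩), ?_, ?_, ?_, ?_⟩
  · intro x y hxy
    by_cases hx : x = a
    · by_cases hy : y = a
      · rw [hx, hy]
      · simp only [dif_pos hx, dif_neg hy] at hxy
        exact absurd hxy.symm (hv _)
    · by_cases hy : y = a
      · simp only [dif_neg hx, dif_pos hy] at hxy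
        exact absurd hxy (hv _)
      · simp only [dif_neg hx, dif_neg hy] at hxy
        exact congrArg Subtype.val (hg (hK hxy))
  · simp only [dif_pos]
  · intro w hw
    exact ⟨g ⟨w, hw⟩, by simp only [dif_neg hw]⟩
  · intro x y hxy
    by_cases hx : x = a
    · have hy : y ≠ a := by
        rintro rfl
        exact hxy.ne hx
      simp only [dif_pos hx, dif_neg hy]
      refine hR _ (hgA ⟨y, hy⟩ ?_)
      change H.Adj a y
      rwa [← hx]
    · by_cases hy : y = a
      · simp only [dif_neg hx, dif_pos hy]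
        refine (hR _ (hgA ⟨x, hx⟩ ?_)).symm
        change H.Adj a x
        rw [← hy]
        exact hxy.symm
      · simp only [dif_neg hx, dif_neg hy]
        refine hKK _ _ (fun h => hxy.ne ?_)
        exact congrArg Subtype.val (hg h)

end Pool.Agent.SQA
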