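import Pool.Agent.SQA.Q0
import Pool.Agent.SQA.A2
import Pool.Agent.SQA.A5

/-!
# [SQA-R4a] two colours: the complete multipartite graphs `K_{1,p,...,p}`

`p`, `M = m * p = Nat.card W - 1`. The complete graph on `V4 = (Fin (m - 2) × Fin M) ⊕ V5` is
coloured: `V5` consists of five sets of sizes `p, M - p, p, M - p, 1` in cyclic order; red inside
these sets and between consecutive ones, blue between the others; the `m - 2` blocks `Fin M`
are red, everything between different blocks and between blocks and `V5` is blue.
-/

namespace Pool.Agent.SQA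

open SimpleGraph

variable {W : Type}

/-- The sizes. -/
def sz (p M : ℕ) : Fin 5 → ℕ := ![p, M - p, p, M - p, 1]

/-- The vertices. -/
abbrev V4 (m p M : ℕ) : Type := (Fin (m - 2) × Fin M) ⊕ (Σ i : Fin 5, Fin (sz p M i))

/-- Positions: the block, or the position in the cycle. -/
def pos4 {m p M : ℕ} : V4 m p M → Fin (m - 2) ⊕ Fin 5
  | Sum.inl (j, _) => Sum.inl j
  | Sum.inr ⟨i, _⟩ => Sum.inr i

/-- Red pairs of positions. -/
def redP {k : ℕ} : Fin k ⊕ Fin 5 → Fin k ⊕ Fin 5 → Prop
  | Sum.inl j, Sum.inl j' => j = j'
  | Sum.inr i, Sum.inr i' => i = i' ∨ i' = i + 1 ∨ i = i' + 1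
  | _, _ => False

theorem redP_symm {k : ℕ} (x y : Fin k ⊕ Fin 5) (h : redP x y) : redP y x := by
  rcases x with x | x <;> rcases y with y | y
  · exact h.symm
  · exact h
  · exact h
  · rcases h with h | h | h
    · exact Or.inl h.symm
    · exact Or.inr (Or.inr h)
    · exact Or.inr (Or.inl h)

theorem redP_refl {k : ℕ} (x : Fin k ⊕ Fin 5) : redP x x := by
  rcases x with x | x
  · exact rfl
  · exact Or.inl rfl

/-- The red graph. -/
def red4 (m p M : ℕ) : SimpleGraph (V4 m p M) where
  Adj x y := x ≠ y ∧ redP (pos4 x) (pos4 y)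
  symm := ⟨fun _ _ h => ⟨h.1.symm, redP_symm _ _ h.2⟩⟩
  loopless := ⟨fun _ h => h.1 rfl⟩

/-- The blue graph. -/
def blue4 (m p M : ℕ) : SimpleGraph (V4 m p M) where
  Adj x y := ¬ redP (pos4 x) (pos4 y)
  symm := ⟨fun _ _ h h' => h (redP_symm _ _ h')⟩
  loopless := ⟨fun _ h => h (redP_refl _)⟩

theorem r4a_le_sz {p M : ℕ} (hp : 1 ≤ p) (hM : 2 * p ≤ M) (i : Fin 5) : sz p M i ≤ M - p := by
  fin_cases i <;> simp [sz] <;> omega

theorem r4a_two {p M : ℕ} (hp : 1 ≤ p) (hM : 2 * p ≤ M) (i : Fin 5) : sz p M i + sz p M (i + 1) ≤ M := by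
  fin_cases i <;> simp [sz] <;> omega

theorem r4a_fiber [Finite W] {p M : ℕ} (s : W → Σ i : Fin 5, Fin (sz p M i)) (hs : Function.Injective s)
    (i : Fin 5) : {w | (s w).1 = i}.ncard ≤ sz p M i := by
  have h1 : (s '' {w | (s w).1 = i}).ncard = {w | (s w).1 = i}.ncard := Set.ncard_image_of_injective _ hs
  have h2 : s '' {w | (s w).1 = i} ⊆
      (fun t : Fin (sz p M i) => (⟨i, t⟩ : Σ i : Fin 5, Fin (sz p M i))) '' Set.univ := by
    rintro _ ⟨w, hw, rfl⟩
    have hw' : (s w).1 = i := hw
    subst hw'
    exact ⟨(s w).2, trivial, rfl⟩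
  have h4 : Function.Injective (fun t : Fin (sz p M i) => (⟨i, t⟩ : Σ i : Fin 5, Fin (sz p M i))) :=
    fun t t' h => eq_of_heq (Sigma.mk.inj h).2
  have h3 : ((fun t : Fin (sz p M i) => (⟨i, t⟩ : Σ i : Fin 5, Fin (sz p M i))) '' Set.univ).ncard =
      sz p M i := by
    rw [Set.ncard_image_of_injective _ h4, Set.ncard_univ, Nat.card_fin]
  rw [← h1, ← h3]
  exact Set.ncard_le_ncard h2 (Set.toFinite _)

/-- PROOF: let `f` be a copy. By `const_of_connected` (property: in which block or in `V5`) either
all `f w` are in one block `Fin M`, impossible since `M < Nat.card W` and `f` is injective, or all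
are in `V5`; let `π w : Fin 5` be the position. Let `a` be the vertex with `C a = 0`; it is adjacent
to all the others, so `π w ∈ {π a - 1, π a, π a + 1}` for all `w`. If `x, y` have positions
`π a - 1` and `π a + 1`, they are not red-adjacent, so not adjacent in `H`: `C x = C y`. If both
positions occur, all `x` with `π x ≠ π a` have the same `C x = j` (`j ≠ 0` as `x ≠ a`), so
there are at most `p` of them and `Nat.card W - p = M + 1 - p` vertices have position `π a`;
but all sizes `p, M - p, 1` are smaller than `M + 1 - p` (`M = m * p ≥ 2 * p`). If at most one of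
them occurs, `Nat.card W = M + 1` is at most the sum of the sizes of two consecutive positions,
which is at most `M`: contradiction (`p + (M - p) = M`, `(M - p) + 1 ≤ M`, `1 + p ≤ M`). -/
theorem no_red4 [Finite W] {H : SimpleGraph W} (hH : ThreeConnected H) {m p : ℕ} (hm : 2 ≤ m)
    (hp : 1 ≤ p) {C : W → Fin (m + 1)} (hC : ∀ x y, H.Adj x y ↔ C x ≠ C y)
    (h0 : {w | C w = 0}.ncard = 1) (hj : ∀ j : Fin m, {w | C w = j.succ}.ncard = p)
    (hcard : Nat.card W = m * p + 1) {f : W → V4 m p (m * p)} (hf : Function.Injective f) :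
    ¬ ∀ x y, H.Adj x y → (red4 m p (m * p)).Adj (f x) (f y) := by
  intro h
  have hM : 2 * p ≤ m * p := Nat.mul_le_mul_right p hm
  obtain ⟨a, ha⟩ := Set.ncard_eq_one.1 h0
  have haC : C a = 0 := by
    have : a ∈ {w | C w = 0} := by rw [ha]; rfl
    exact this
  have haC' : ∀ w, C w = 0 → w = a := by
    intro w hw
    have : w ∈ {w | C w = 0} := hw
    rw [ha] at this
    exact this
  -- the block
  have hF := const_of_connected hH (fun w => match f w with
    | Sum.inl (j, _) => some j
    | Sum.inr _ => none) (by
      intro x y hxy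
      have h1 := (h x y hxy).2
      generalize f x = u at h1
      generalize f y = v at h1
      rcases u with ⟨j, t⟩ | ⟨i, t⟩ <;> rcases v with ⟨j', t'⟩ | ⟨i', t'⟩
      · exact congrArg some (h1 : j = j')
      · exact h1.elim
      · exact h1.elim
      · rfl)
  rcases hfa : f a with ⟨j, t⟩ | s0
  · -- all in one block
    have h1 : ∀ w, ∃ t : Fin (m * p), f w = Sum.inl (j, t) := by
      intro w
      have h2 := hF w a
      simp only [hfa] at h2
      rcases hfw : f w with ⟨j', t'⟩ | s1
      · rw [hfw] at h2
        have h3 : j' = j := Option.some.inj h2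
        exact ⟨t', by rw [h3]⟩
      · rw [hfw] at h2
        cases h2
    choose g hg using h1
    have hgi : Function.Injective g := by
      intro x y hxy
      apply hf
      rw [hg, hg, hxy]
    have h2 := Nat.card_le_card_of_injective g hgi
    rw [hcard, Nat.card_fin] at h2
    omega
  · have h1 : ∀ w, ∃ s : (Σ i : Fin 5, Fin (sz p (m * p) i)), f w = Sum.inr s := by
      intro w
      have h2 := hF w a
      simp only [hfa] at h2
      rcases hfw : f w with ⟨j', t'⟩ | s1
      · rw [hfw] at h2
        cases h2
      · exact ⟨s1, rfl⟩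
    choose s hs using h1
    have hsi : Function.Injective s := by
      intro x y hxy
      apply hf
      rw [hs, hs, hxy]
    have hfib := r4a_fiber s hsi
    have hred : ∀ x y, H.Adj x y → (s x).1 = (s y).1 ∨ (s y).1 = (s x).1 + 1 ∨ (s x).1 = (s y).1 + 1 := by
      intro x y hxy
      have h2 := (h x y hxy).2
      rw [hs, hs] at h2
      exact h2
    have hadj : ∀ w, (s a).1 = (s w).1 ∨ (s w).1 = (s a).1 + 1 ∨ (s a).1 = (s w).1 + 1 := by
      intro w
      by_cases hw : w = a
      · exact Or.inl (by rw [hw])
      · refine hred a w ((hC a w).2 fun h2 => hw (haC' w ?_))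
        rw [← h2, haC]
    generalize hi : (s a).1 = i at hadj
    have hcardW : (Set.univ : Set W).ncard = m * p + 1 := by rw [Set.ncard_univ, hcard]
    by_cases hx : ∃ x, (s x).1 = i + 1
    · by_cases hy : ∃ y, i = (s y).1 + 1
      · obtain ⟨x0, hx0⟩ := hx
        obtain ⟨y0, hy0⟩ := hy
        have hxy : ∀ x y, (s x).1 = i + 1 → i = (s y).1 + 1 → C x = C y := by
          intro x y hx hy
          by_contra hne
          have h2 := hred x y ((hC x y).2 hne)
          rw [hx, hy] at h2
          generalize (s y).1 = k at h2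
          revert h2
          revert k
          decide
        have hC0 : ∀ w, (s w).1 ≠ i → C w = C y0 := by
          intro w hw
          rcases hadj w with h2 | h2 | h2
          · exact absurd h2.symm hw
          · exact hxy w y0 h2 hy0
          · rw [← hxy x0 w hx0 h2, hxy x0 y0 hx0 hy0]
        have hy0a : C y0 ≠ 0 := by
          intro h2
          rw [haC' y0 h2, hi] at hy0
          revert hy0
          clear * -
          revert i
          decide
        obtain ⟨j, hj0⟩ := Fin.exists_succ_eq.2 hy0a
        have h2 : {w | (s w).1 ≠ i}.ncard ≤ p := by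
          refine le_trans (Set.ncard_le_ncard (t := {w | C w = j.succ}) (fun w hw => ?_)
            (Set.toFinite _)) (hj j).le
          show C w = j.succ
          rw [hC0 w hw, hj0]
        have h3 := hfib i
        have h4 := r4a_le_sz hp hM i
        have h5 : (Set.univ : Set W).ncard ≤ {w | (s w).1 = i}.ncard + {w | (s w).1 ≠ i}.ncard := by
          refine le_trans (Set.ncard_le_ncard (fun w _ => ?_) (Set.toFinite _)) (Set.ncard_union_le _ _)
          by_cases h6 : (s w).1 = i
          · exact Or.inl h6
          · exact Or.inr h6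
        omega
      · have h5 : (Set.univ : Set W).ncard ≤ {w | (s w).1 = i}.ncard + {w | (s w).1 = i + 1}.ncard := by
          refine le_trans (Set.ncard_le_ncard (fun w _ => ?_) (Set.toFinite _)) (Set.ncard_union_le _ _)
          rcases hadj w with h2 | h2 | h2
          · exact Or.inl h2.symm
          · exact Or.inr h2
          · exact absurd ⟨w, h2⟩ hy
        have h3 := hfib i
        have h4 := hfib (i + 1)
        have h6 := r4a_two hp hM i
        omega
    · obtain ⟨k, rfl⟩ : ∃ k : Fin 5, i = k + 1 := by
        clear * -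
        revert i
        decide
      have h5 : (Set.univ : Set W).ncard ≤ {w | (s w).1 = k}.ncard + {w | (s w).1 = k + 1}.ncard := by
        refine le_trans (Set.ncard_le_ncard (fun w _ => ?_) (Set.toFinite _)) (Set.ncard_union_le _ _)
        rcases hadj w with h2 | h2 | h2
        · exact Or.inr h2.symm
        · exact absurd ⟨w, h2⟩ hx
        · exact Or.inl (add_right_cancel h2).symm
      have h3 := hfib k
      have h4 := hfib (k + 1)
      have h6 := r4a_two hp hM k
      omega

end Pool.Agent.SQA
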