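import Pool.Agent.SQA.P4

/-!
# [SQA-T1] if all patterns extend, degenerate graphs are not Ramsey
-/

namespace Pool.Agent.SQA

open SimpleGraph

variable {W V : Type} {q : ℕ}

theorem t1_aux [Nonempty W] {H : SimpleGraph W} (hq : 1 ≤ q) (hA : AllExt q H) (n : ℕ) :
    ∀ (V : Type) (_ : Finite V) (G : SimpleGraph V) (ord : V → ℕ), Function.Injective ord →
      (∀ v, {u | ord u < ord v ∧ G.Adj u v}.ncard + 2 ≤ rr q H) → Nat.card V < n → NR q H G := by
  classical
  induction n with
  | zero =>
    intro V _ G ord _ _ h
    omega
  | succ n ih =>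
    intro V hV G ord hord hG hn
    by_cases hemp : IsEmpty V
    · refine ⟨fun _ => ⟨0, hq⟩, ?_⟩
      rintro i f -
      exact hemp.elim (f (Classical.arbitrary W))
    · rw [not_isEmpty_iff] at hemp
      obtain ⟨v, hv⟩ := Finite.exists_max ord
      have hcard : Nat.card {u : V // u ≠ v} < Nat.card V := Finite.card_subtype_lt (x := v) (fun h => h rfl)
      obtain ⟨c, hc⟩ := ih {u : V // u ≠ v} inferInstance (G.comap Subtype.val) (fun u => ord u)
        (hord.comp Subtype.val_injective) (fun w => by
          refine le_trans (Nat.add_le_add_right ?_ 2) (hG w)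
          rw [← Set.ncard_image_of_injective _ Subtype.val_injective]
          refine Set.ncard_le_ncard ?_ (Set.toFinite _)
          rintro x ⟨x', hx', rfl⟩
          exact hx') (by omega)
      have hN : ({u : {u : V // u ≠ v} | G.Adj u.1 v}).ncard + 2 ≤ rr q H := by
        refine le_trans (Nat.add_le_add_right ?_ 2) (hG v)
        rw [← Set.ncard_image_of_injective _ Subtype.val_injective]
        refine Set.ncard_le_ncard ?_ (Set.toFinite _)
        rintro x ⟨x', hx', rfl⟩
        refine ⟨lt_of_le_of_ne (hv _) fun h => x'.2 (hord h), hx'⟩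
      obtain ⟨c', hc', -⟩ := hA _ (G.comap Subtype.val) {u : {u : V // u ≠ v} | G.Adj u.1 v} c hc (Or.inl hN)
      refine NR.comap ⟨c', hc'⟩ (φ := fun x : V => if hx : x = v then none else some ⟨x, hx⟩) ?_ ?_
      · intro a b hab
        have hab' : (if hx : a = v then none else some (⟨a, hx⟩ : {u : V // u ≠ v})) =
          (if hx : b = v then none else some (⟨b, hx⟩ : {u : V // u ≠ v})) := hab
        by_cases ha : a = v
        · by_cases hb : b = v
          · rw [ha, hb]
          · rw [dif_pos ha, dif_neg hb] at hab'
            cases hab'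
        · by_cases hb : b = v
          · rw [dif_neg ha, dif_pos hb] at hab'
            cases hab'
          · rw [dif_neg ha, dif_neg hb] at hab'
            exact congrArg Subtype.val (Option.some.inj hab')
      · intro a b hab
        show (cone (G.comap Subtype.val) {u : {u : V // u ≠ v} | G.Adj u.1 v}).Adj
          (if hx : a = v then none else some (⟨a, hx⟩ : {u : V // u ≠ v}))
          (if hx : b = v then none else some (⟨b, hx⟩ : {u : V // u ≠ v}))
        by_cases ha : a = v
        · by_cases hb : b = v
          · rw [ha, hb] at hab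
            exact absurd rfl hab.ne
          · rw [dif_pos ha, dif_neg hb, cone_none_some]
            rw [ha] at hab
            exact hab.symm
        · by_cases hb : b = v
          · rw [dif_neg ha, dif_pos hb, cone_some_none]
            rw [hb] at hab
            exact hab
          · rw [dif_neg ha, dif_neg hb, cone_some_some]
            exact hab

/-- PROOF: induction on `Nat.card V`. If `V` is empty: any colouring. Otherwise let `v` be the
vertex with the largest `ord v`; `U := {u // u ≠ v}`, `D := G.comap Subtype.val`,
`N := {u | G.Adj u.1 v}` (all of them are smaller than `v`); the induction hypothesis gives an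
`H`-free colouring `c` of `D` (the back-neighbourhoods in `D` are smaller), `hA` extends it to
`cone D N`, and `G` is isomorphic to `cone D N` (`v ↦ none`). -/
theorem nr_of_degenerate [Nonempty W] {H : SimpleGraph W} (hq : 1 ≤ q) (hA : AllExt q H) [Finite V]
    (G : SimpleGraph V) (ord : V → ℕ) (hord : Function.Injective ord)
    (hG : ∀ v, {u | ord u < ord v ∧ G.Adj u v}.ncard + 2 ≤ rr q H) : NR q H G := by
  exact t1_aux hq hA (Nat.card V + 1) V inferInstance G ord hord hG (Nat.lt_succ_self _)

/-- Many disjoint edges joined to a complete graph. -/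
def fanG (R M : ℕ) : SimpleGraph (Fin R ⊕ (Fin M × Fin 2)) where
  Adj x y := x ≠ y ∧ ∀ i s j t, x = Sum.inr (i, s) → y = Sum.inr (j, t) → i = j
  symm := ⟨fun _ _ h => ⟨h.1.symm, fun i s j t hi hj => (h.2 j t i s hj hi).symm⟩⟩
  loopless := ⟨fun _ h => h.1 rfl⟩

theorem t1_range (R M : ℕ) : (Set.range (Sum.inl : Fin R → Fin R ⊕ (Fin M × Fin 2))).ncard = R := by
  rw [← Set.image_univ, Set.ncard_image_of_injective _ Sum.inl_injective, Set.ncard_univ, Nat.card_eq_fintype_card,
    Fintype.card_fin]

/-- PROOF: `nr_of_degenerate` with `ord (Sum.inl a) := a`, `ord (Sum.inr (i, s)) := R + 2 * i + s`: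
the smaller neighbours of `Sum.inl a` are among the `R - 1` others, those of `Sum.inr (i, s)` are
the `R` vertices `Sum.inl _` and possibly `Sum.inr (i, 0)`. -/
theorem nr_fan {H : SimpleGraph W} (hq : 1 ≤ q) (hA : AllExt q H) {R : ℕ}
    (hR : R + 3 ≤ rr q H) (M : ℕ) : NR q H (fanG R M) := by
  have hW : Nonempty W := by
    by_contra h
    rw [not_nonempty_iff] at h
    have h1 : rr q H ≤ 0 := Nat.sInf_le fun c => ⟨⟨0, hq⟩, fun w => h.elim w, fun a => h.elim a, fun a => h.elim a⟩
    omega
  refine nr_of_degenerate hq hA (fanG R M)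
    (Sum.elim (fun a : Fin R => a.val) (fun x : Fin M × Fin 2 => R + 2 * x.1.val + x.2.val)) ?_ ?_
  · rintro (a | ⟨i, s⟩) (b | ⟨j, t⟩) h
    · have h' : a.val = b.val := h
      rw [Fin.ext h']
    · have h' : a.val = R + 2 * j.val + t.val := h
      have := a.2
      omega
    · have h' : R + 2 * i.val + s.val = b.val := h
      have := b.2
      omega
    · have h' : R + 2 * i.val + s.val = R + 2 * j.val + t.val := h
      have hs := s.2
      have ht := t.2
      have h1 : i = j := Fin.ext (by omega)
      have h2 : s = t := Fin.ext (by omega)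
      rw [h1, h2]
  · rintro (a | ⟨i, s⟩)
    · have h1 : ({u | Sum.elim (fun a : Fin R => a.val) (fun x : Fin M × Fin 2 => R + 2 * x.1.val + x.2.val) u <
          Sum.elim (fun a : Fin R => a.val) (fun x : Fin M × Fin 2 => R + 2 * x.1.val + x.2.val) (Sum.inl a) ∧
          (fanG R M).Adj u (Sum.inl a)}).ncard ≤ R := by
        refine le_trans (Set.ncard_le_ncard ?_ (Set.toFinite _)) (t1_range R M).le
        rintro (b | ⟨j, t⟩) ⟨h, -⟩
        · exact ⟨b, rfl⟩
        · have h' : R + 2 * j.val + t.val < a.val := h
          have := a.2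
          omega
      omega
    · have h1 : ({u | Sum.elim (fun a : Fin R => a.val) (fun x : Fin M × Fin 2 => R + 2 * x.1.val + x.2.val) u <
          Sum.elim (fun a : Fin R => a.val) (fun x : Fin M × Fin 2 => R + 2 * x.1.val + x.2.val) (Sum.inr (i, s)) ∧
          (fanG R M).Adj u (Sum.inr (i, s))}).ncard ≤ R + 1 := by
        have h2 : (insert (Sum.inr (i, 0)) (Set.range (Sum.inl : Fin R → Fin R ⊕ (Fin M × Fin 2)))).ncard ≤ R + 1 := by
          refine (Set.ncard_insert_le _ _).trans ?_
          rw [t1_range]
        refine le_trans (Set.ncard_le_ncard ?_ (Set.toFinite _)) h2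
        rintro (b | ⟨j, t⟩) ⟨h, hadj⟩
        · exact Set.mem_insert_of_mem _ ⟨b, rfl⟩
        · have h' : R + 2 * j.val + t.val < R + 2 * i.val + s.val := h
          have hij : j = i := hadj.2 j t i s rfl rfl
          have hs := s.2
          have ht : t = 0 := Fin.ext (by
            rw [hij] at h'
            show t.val = 0
            omega)
          rw [hij, ht]
          exact Set.mem_insert _ _
      omega

end Pool.Agent.SQA
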