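import Pool.Agent.SQA.T1

/-!
# [SQA-T2] triangle-free graphs
-/

namespace Pool.Agent.SQA

open SimpleGraph

variable {W : Type} {q : ℕ}

/-- a copy in the complete graph yields a copy in `G'` unless it uses the pair `u0 v0` -/
theorem t2_copy {V V' : Type} {H : SimpleGraph W} {G' : SimpleGraph V'} {c' : Sym2 V' → Fin q}
    {K : Sym2 V → Fin q} (g : V → V') (hinj : Function.Injective g) (u0 v0 : V)
    (hG : ∀ u v, u ≠ v → s(u, v) ≠ s(u0, v0) → G'.Adj (g u) (g v) ∧ c' s(g u, g v) = K s(u, v))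
    (hfree : Free H G' c') {i : Fin q} {f : W → V} (hf : Mono H (⊤ : SimpleGraph V) K i f) :
    ∃ a b, H.Adj a b ∧ f a = u0 ∧ f b = v0 := by
  by_contra hc
  push Not at hc
  apply hfree i (g ∘ f)
  refine ⟨hinj.comp hf.1, fun a b hab => ?_⟩
  have h1 : f a ≠ f b := fun h => hab.ne (hf.1 h)
  have h2 : s(f a, f b) ≠ s(u0, v0) := by
    intro h
    rw [Sym2.eq_iff] at h
    rcases h with ⟨h3, h4⟩ | ⟨h3, h4⟩
    · exact hc a b hab h3 h4
    · exact hc b a hab.symm h4 h3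
  obtain ⟨h3, h4⟩ := hG _ _ h1 h2
  exact ⟨h3, by rw [← (hf.2 a b hab).2]; exact h4⟩

theorem t2_cases {R : ℕ} {P : Fin R ⊕ Fin 3 → Fin R ⊕ Fin 3 → Prop}
    (hsym : ∀ u v, P u v → P v u) (h1 : ∀ a b, a ≠ b → P (Sum.inl a) (Sum.inl b))
    (h2 : ∀ a k, P (Sum.inl a) (Sum.inr k)) (h01 : P (Sum.inr 0) (Sum.inr 1))
    (h02 : P (Sum.inr 0) (Sum.inr 2)) (h12 : P (Sum.inr 1) (Sum.inr 2)) :
    ∀ u v, u ≠ v → P u v := by
  rintro (a | k) (b | l) huv
  · exact h1 a b (fun h => huv (by rw [h]))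
  · exact h2 a l
  · exact hsym _ _ (h2 b k)
  · fin_cases k <;> fin_cases l
    · exact absurd rfl huv
    · exact h01
    · exact h02
    · exact hsym _ _ h01
    · exact absurd rfl huv
    · exact h12
    · exact hsym _ _ h02
    · exact hsym _ _ h12
    · exact absurd rfl huv

/-- the maps of `Fin R ⊕ Fin 3` to the cone -/
def t2_g {R M : ℕ} (p r : Fin R ⊕ (Fin M × Fin 2)) : Fin R ⊕ Fin 3 → Option (Fin R ⊕ (Fin M × Fin 2)) :=
  Sum.elim (fun a => some (Sum.inl a)) ![none, some p, some r]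

theorem t2_inj {R M : ℕ} {p r : Fin M × Fin 2} (hpr : p ≠ r) :
    Function.Injective (t2_g (R := R) (Sum.inr p) (Sum.inr r)) := by
  intro u v huv
  by_contra hne
  revert huv
  apply t2_cases (P := fun u v => t2_g (R := R) (Sum.inr p) (Sum.inr r) u ≠
    t2_g (R := R) (Sum.inr p) (Sum.inr r) v) (fun u v h => Ne.symm h) ?_ ?_ ?_ ?_ ?_ u v hne
  · intro a b hab h
    apply hab
    simpa [t2_g] using h
  · intro a k h
    fin_cases k <;> simp [t2_g] at h
  · intro h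
    simp [t2_g] at h
  · intro h
    simp [t2_g] at h
  · intro h
    simp [t2_g] at h
    exact hpr h

/-- PROOF: `R := rr q H - 3` (`4 ≤ Nat.card W ≤ rr`, `card_le_rr`). Suppose `AllExt`. Let `M` be
larger than the number of types `(Fin R → Fin q) × (Fin R → Fin q) × Fin q`, `c` an `H`-free
colouring of `fanG R M` (`nr_fan`). By pigeonhole there are `i ≠ j` with
`c s(inl a, inr (i, s)) = c s(inl a, inr (j, s))` for all `a, s` and
`c s(inr (i, 0), inr (i, 1)) = c s(inr (j, 0), inr (j, 1)) =: γ`. Let `x := inr (i, 0)`,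
`x' := inr (j, 0)`, `y := inr (j, 1)`, `y' := inr (i, 1)`, `N := range inl ∪ {x, y}`:
`N.ncard + 1 = R + 3 = rr`, `x, y` are not adjacent. `hA` extends `c` to an `H`-free colouring `c'`
of the cone. Consider the complete graph on `Fin R ⊕ Fin 3` (it is Ramsey: `ramsey_top`) and the
maps `g, g', g'' : Fin R ⊕ Fin 3 → Option _`: `inl a ↦ some (inl a)`, `inr 0 ↦ none`,
`inr 1 ↦ some x` (`some x'` for `g'`), `inr 2 ↦ some y` (`some y'` for `g''`). Colour it by
`c' ∘ Sym2.map g`, except `s(inr 1, inr 2) ↦ γ`. Let `f` be a monochromatic copy. If no edge of `H`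
goes to `{inr 1, inr 2}`, `g ∘ f` is a monochromatic copy in the cone; if some edge does but no
edge goes to `{inr 0, inr 1}`, `g' ∘ f` is one (the edge `x' y` has colour `γ`, the colours of
`x'` and `x` to `inl a` agree); if no edge goes to `{inr 0, inr 2}`, `g'' ∘ f` is one. Otherwise the
three vertices mapped to `inr 0, inr 1, inr 2` form a triangle of `H`. -/
theorem not_allExt_of_cliqueFree [Finite W] [Nonempty W] (hq : 1 ≤ q) {H : SimpleGraph W}
    (hH : ThreeConnected H) (hT : H.CliqueFree 3) : ¬ AllExt q H := by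
  classical
  intro hA
  obtain ⟨R, hR⟩ : ∃ R, R + 3 = rr q H := by
    have h1 := card_le_rr hq H
    have h2 := hH.1
    exact ⟨rr q H - 3, by omega⟩
  obtain ⟨M, hM⟩ : ∃ M, M = Fintype.card ((Fin R → Fin q) × (Fin R → Fin q) × Fin q) + 1 :=
    ⟨_, rfl⟩
  obtain ⟨c, hc⟩ := nr_fan (H := H) hq hA (R := R) (by omega) M
  obtain ⟨i, j, hij, hty⟩ : ∃ i j : Fin M, i ≠ j ∧
      ((fun a : Fin R => c s(Sum.inl a, Sum.inr (i, 0))),
        (fun a : Fin R => c s(Sum.inl a, Sum.inr (i, 1))),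
        c s(Sum.inr (i, 0), Sum.inr (i, 1))) =
      ((fun a : Fin R => c s(Sum.inl a, Sum.inr (j, 0))),
        (fun a : Fin R => c s(Sum.inl a, Sum.inr (j, 1))),
        c s(Sum.inr (j, 0), Sum.inr (j, 1))) := by
    have hlt : Fintype.card ((Fin R → Fin q) × (Fin R → Fin q) × Fin q) < Fintype.card (Fin M) := by
      rw [Fintype.card_fin, hM]
      exact Nat.lt_succ_self _
    obtain ⟨i, j, hij, h⟩ := Fintype.exists_ne_map_eq_of_card_lt (fun i : Fin M =>
      (((fun a : Fin R => c s(Sum.inl a, Sum.inr (i, 0))),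
        (fun a : Fin R => c s(Sum.inl a, Sum.inr (i, 1))),
        c s(Sum.inr (i, 0), Sum.inr (i, 1))) :
          (Fin R → Fin q) × (Fin R → Fin q) × Fin q)) hlt
    exact ⟨i, j, hij, h⟩
  rw [Prod.mk.injEq, Prod.mk.injEq] at hty
  obtain ⟨t0, t1, t2⟩ := hty
  have t0' : ∀ a : Fin R, c s(Sum.inl a, Sum.inr (i, 0)) = c s(Sum.inl a, Sum.inr (j, 0)) :=
    fun a => congrFun t0 a
  have t1' : ∀ a : Fin R, c s(Sum.inl a, Sum.inr (i, 1)) = c s(Sum.inl a, Sum.inr (j, 1)) :=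
    fun a => congrFun t1 a
  obtain ⟨N, hN⟩ : ∃ N : Set (Fin R ⊕ (Fin M × Fin 2)),
      N = Set.range Sum.inl ∪ {Sum.inr (i, 0), Sum.inr (j, 1)} := ⟨_, rfl⟩
  have hxN : (Sum.inr (i, 0) : Fin R ⊕ (Fin M × Fin 2)) ∈ N := by rw [hN]; simp
  have hyN : (Sum.inr (j, 1) : Fin R ⊕ (Fin M × Fin 2)) ∈ N := by rw [hN]; simp
  have hlN : ∀ a : Fin R, (Sum.inl a : Fin R ⊕ (Fin M × Fin 2)) ∈ N := by
    intro a
    rw [hN]
    simp
  have hxy : (Sum.inr (i, 0) : Fin R ⊕ (Fin M × Fin 2)) ≠ Sum.inr (j, 1) := by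
    simp
  have hNc : N.ncard = R + 2 := by
    rw [hN, Set.ncard_union_eq]
    · rw [Set.ncard_pair hxy, ← Set.image_univ, Set.ncard_image_of_injective _ Sum.inl_injective,
        Set.ncard_univ, Nat.card_eq_fintype_card, Fintype.card_fin]
    · rw [Set.disjoint_left]
      rintro _ ⟨a, rfl⟩ h
      simp at h
  have hnadj : ¬ (fanG R M).Adj (Sum.inr (i, 0)) (Sum.inr (j, 1)) := by
    intro h
    exact hij (h.2 i 0 j 1 rfl rfl)
  obtain ⟨c', hc', hcc⟩ := (hA _ (fanG R M) N c hc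
    (Or.inr ⟨by omega, _, hxN, _, hyN, hxy, hnadj⟩)).exact
  obtain ⟨K, hK⟩ : ∃ K : Sym2 (Fin R ⊕ Fin 3) → Fin q, K = fun e =>
      if e = s(Sum.inr 1, Sum.inr 2) then c s(Sum.inr (i, 0), Sum.inr (i, 1))
      else c' (Sym2.map (t2_g (Sum.inr (i, 0)) (Sum.inr (j, 1))) e) := ⟨_, rfl⟩
  have hKn : ∀ u v : Fin R ⊕ Fin 3, s(u, v) ≠ s(Sum.inr 1, Sum.inr 2) → K s(u, v) =
      c' s(t2_g (Sum.inr (i, 0)) (Sum.inr (j, 1)) u, t2_g (Sum.inr (i, 0)) (Sum.inr (j, 1)) v) := by
    intro u v h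
    rw [hK]
    simp only [if_neg h, Sym2.map_mk]
  have hK12 : K s(Sum.inr 1, Sum.inr 2) = c s(Sum.inr (i, 0), Sum.inr (i, 1)) := by
    rw [hK]
    simp
  obtain ⟨col, f, hf⟩ := ramsey_top (V := Fin R ⊕ Fin 3) hq (H := H) (by simp [hR]) K
  have hll : ∀ a b : Fin R, a ≠ b → (fanG R M).Adj (Sum.inl a) (Sum.inl b) := by
    intro a b hab
    refine ⟨fun h => hab (Sum.inl_injective h), ?_⟩
    intro i s j t h
    cases h
  have hlr : ∀ (a : Fin R) (p : Fin M × Fin 2), (fanG R M).Adj (Sum.inl a) (Sum.inr p) := by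
    intro a p
    refine ⟨by simp, ?_⟩
    intro i s j t h
    cases h
  have hrr : ∀ k : Fin M, (fanG R M).Adj (Sum.inr (k, 0)) (Sum.inr (k, 1)) := by
    intro k
    refine ⟨by simp, ?_⟩
    intro i s j t h1 h2
    cases h1
    cases h2
    rfl
  -- symmetric
  have hsym : ∀ (g : Fin R ⊕ Fin 3 → Option (Fin R ⊕ (Fin M × Fin 2))) (e : Sym2 (Fin R ⊕ Fin 3))
      (u v : Fin R ⊕ Fin 3), (s(u, v) ≠ e → (cone (fanG R M) N).Adj (g u) (g v) ∧
        c' s(g u, g v) = K s(u, v)) →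
      (s(v, u) ≠ e → (cone (fanG R M) N).Adj (g v) (g u) ∧ c' s(g v, g u) = K s(v, u)) := by
    intro g e u v h hne
    rw [Sym2.eq_swap] at hne
    obtain ⟨h1, h2⟩ := h hne
    refine ⟨h1.symm, ?_⟩
    rw [Sym2.eq_swap, h2, Sym2.eq_swap]
  -- the pair 1 2
  obtain ⟨a1, b1, hab1, ha1, hb1⟩ := t2_copy (t2_g (Sum.inr (i, 0)) (Sum.inr (j, 1)))
    (t2_inj (by simp)) (Sum.inr 1) (Sum.inr 2) (t2_cases (fun u v h => hsym _ _ u v h)
      (fun a b hab hne => ⟨by simpa [t2_g] using hll a b hab, (hKn _ _ hne).symm⟩)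
      (fun a k hne => ⟨by
        fin_cases k
        · simpa [t2_g] using hlN a
        · simpa [t2_g] using hlr a _
        · simpa [t2_g] using hlr a _, (hKn _ _ hne).symm⟩)
      (fun hne => ⟨by simpa [t2_g] using hxN, (hKn _ _ hne).symm⟩)
      (fun hne => ⟨by simpa [t2_g] using hyN, (hKn _ _ hne).symm⟩)
      (fun hne => absurd rfl hne)) hc' hf
  -- the pair 0 1
  obtain ⟨a2, b2, hab2, ha2, hb2⟩ := t2_copy (t2_g (Sum.inr (j, 0)) (Sum.inr (j, 1)))
    (t2_inj (by simp)) (Sum.inr 0) (Sum.inr 1) (t2_cases (fun u v h => hsym _ _ u v h)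
      (fun a b hab hne => ⟨by simpa [t2_g] using hll a b hab, by
        rw [hKn _ _ (by simp)]
        rfl⟩)
      (fun a k hne => by
        fin_cases k
        · refine ⟨by simpa [t2_g] using hlN a, ?_⟩
          rw [hKn _ _ (by simp)]
          rfl
        · refine ⟨by simpa [t2_g] using hlr a _, ?_⟩
          rw [hKn _ _ (by simp)]
          show c' s(some (Sum.inl a), some (Sum.inr (j, 0))) =
            c' s(some (Sum.inl a), some (Sum.inr (i, 0)))
          rw [hcc, hcc, t0']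
        · refine ⟨by simpa [t2_g] using hlr a _, ?_⟩
          rw [hKn _ _ (by simp)]
          rfl)
      (fun hne => absurd rfl hne)
      (fun hne => ⟨by simpa [t2_g] using hyN, by
        rw [hKn _ _ (by simp)]
        rfl⟩)
      (fun hne => ⟨by simpa [t2_g] using hrr j, by
        rw [hK12]
        show c' s(some (Sum.inr (j, 0)), some (Sum.inr (j, 1))) = _
        rw [hcc, t2]⟩)) hc' hf
  -- the pair 0 2
  obtain ⟨a3, b3, hab3, ha3, hb3⟩ := t2_copy (t2_g (Sum.inr (i, 0)) (Sum.inr (i, 1)))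
    (t2_inj (by simp)) (Sum.inr 0) (Sum.inr 2) (t2_cases (fun u v h => hsym _ _ u v h)
      (fun a b hab hne => ⟨by simpa [t2_g] using hll a b hab, by
        rw [hKn _ _ (by simp)]
        rfl⟩)
      (fun a k hne => by
        fin_cases k
        · refine ⟨by simpa [t2_g] using hlN a, ?_⟩
          rw [hKn _ _ (by simp)]
          rfl
        · refine ⟨by simpa [t2_g] using hlr a _, ?_⟩
          rw [hKn _ _ (by simp)]
          rfl
        · refine ⟨by simpa [t2_g] using hlr a _, ?_⟩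
          rw [hKn _ _ (by simp)]
          show c' s(some (Sum.inl a), some (Sum.inr (i, 1))) =
            c' s(some (Sum.inl a), some (Sum.inr (j, 1)))
          rw [hcc, hcc, t1'])
      (fun hne => ⟨by simpa [t2_g] using hxN, by
        rw [hKn _ _ (by simp)]
        rfl⟩)
      (fun hne => absurd rfl hne)
      (fun hne => ⟨by simpa [t2_g] using hrr i, by
        rw [hK12]
        show c' s(some (Sum.inr (i, 0)), some (Sum.inr (i, 1))) = _
        rw [hcc]⟩)) hc' hf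
  have e1 : b2 = a1 := hf.1 (by rw [hb2, ha1])
  have e2 : a3 = a2 := hf.1 (by rw [ha3, ha2])
  have e3 : b3 = b1 := hf.1 (by rw [hb3, hb1])
  subst e1 e2 e3
  apply hT {a3, b2, b3}
  rw [is3Clique_triple_iff]
  exact ⟨hab2, hab3, hab1⟩

end Pool.Agent.SQA
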