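import Pool.Agent.SQA.T2
import Pool.Agent.SQA.J6
import Pool.Agent.SQA.J7

/-!
# [SQA-Top] all but finitely many pairs `(q, H)`
-/

namespace Pool.Agent.SQA

open SimpleGraph

/-- PROOF: `q0` from `num_many`, `h1` from `num_few`, `h2` from `num_clog q0`;
`C0 := max q0 (max h1 h2) + 4`. Let `a` be a vertex of minimum degree `d` and
`L := Nat.clog 2 (q * h)`, `h := Nat.card W ≥ 4`. If `2 * (q * h ^ 3) ^ 2 ≤ 2 ^ d`:
`abundant_dense`. Otherwise: if `h < 40 * (L + 1) ^ 2`, then `q ≥ q0` (by `num_clog` and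
`C0 ≤ q ∨ C0 ≤ h`): `num_many`, `abundant_hyper`. If `40 * (L + 1) ^ 2 ≤ h` and `3 * L + 3 ≤ q`:
`num_grid`, `abundant_grid`. If `40 * (L + 1) ^ 2 ≤ h` and `q < 3 * L + 3`: then `h ≥ h1`: either
`C0 ≤ h`, or `C0 ≤ q < 3 * L + 3 ≤ 40 * (L + 1) ^ 2 ≤ h`; `num_few`, `abundant_grid'`. -/
theorem large : ∃ C0 : ℕ, ∀ (W : Type) [Finite W] [Nonempty W] (q : ℕ), 2 ≤ q →
    ∀ H : SimpleGraph W, ThreeConnected H → ¬ H.CliqueFree 3 →
    (C0 ≤ q ∨ C0 ≤ Nat.card W) → Abundant q H := by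
  obtain ⟨q0, hq0⟩ := num_many
  obtain ⟨h1, hh1⟩ := num_few
  obtain ⟨h2, hh2⟩ := num_clog q0
  refine ⟨max q0 (max h1 h2) + 4, ?_⟩
  intro W _ _ q hq H hH hT hC
  have hm1 : q0 ≤ max q0 (max h1 h2) := le_max_left _ _
  have hm2 : h1 ≤ max q0 (max h1 h2) := (le_max_left _ _).trans (le_max_right _ _)
  have hm3 : h2 ≤ max q0 (max h1 h2) := (le_max_right _ _).trans (le_max_right _ _)
  have h4 : 4 ≤ Nat.card W := hH.1
  obtain ⟨a, ha⟩ := Finite.exists_min (fun w => (H.neighborSet w).ncard)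
  have hd1 : 1 ≤ (H.neighborSet a).ncard := by
    obtain ⟨u, hu, -, -⟩ := three_nbr hH a a a
    rw [Nat.one_le_iff_ne_zero, Ne, Set.ncard_eq_zero (Set.toFinite _)]
    intro h0
    have : u ∈ H.neighborSet a := hu
    rw [h0] at this
    exact this
  set h := Nat.card W with hh
  set d := (H.neighborSet a).ncard with hd
  set L := Nat.clog 2 (q * h) with hL
  by_cases hdense : 2 * (q * h ^ 3) ^ 2 ≤ 2 ^ d
  · exact abundant_dense hq hH hT ha hdense
  push Not at hdense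
  by_cases hsmall : h < 40 * (L + 1) ^ 2
  · have hqq : q0 ≤ q := by
      by_contra hlt
      push Not at hlt
      have h5 : h2 ≤ h := by
        rcases hC with hC | hC <;> omega
      exact absurd (hh2 q h hlt h5) (not_le.2 hsmall)
    exact abundant_hyper hq hH hT a (hq0 q h d hqq h4 hd1 hsmall hdense)
  push Not at hsmall
  by_cases hbig : 3 * L + 3 ≤ q
  · have hqL : q * h ≤ 2 ^ L := Nat.le_pow_clog (by norm_num) _
    obtain ⟨k, P, hk, hkq, hP, hP2, hcount⟩ := num_grid hq h4 hd1 hqL hsmall hbig hdense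
    exact abundant_grid hq hH hT a hk hkq hP hP2 hcount
  · push Not at hbig
    have h5 : h1 ≤ h := by
      rcases hC with hC | hC
      · have : 3 * L + 3 ≤ 40 * (L + 1) ^ 2 := by nlinarith
        omega
      · omega
    exact abundant_grid' hq hH a (hh1 q h d hq h5 hd1 hbig hdense)

end Pool.Agent.SQA
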